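import Pool.Agent.H467.CT.Spec

/-! The element of Artin and Schreier of a homomorphism to `ZMod 2`. -/

set_option autoImplicit false

open Pool.Agent.TH115.GD

namespace Pool.Agent.H467.CT.Asc

theorem asc : S_ASC := by
  intro K _ _ e hlc hmul
  have hgal : IsGalois K (Sep K) := inferInstance
  have hchar : CharP (Sep K) 2 := charP_of_injective_algebraMap (algebraMap K (Sep K)).injective 2
  have h1 : e 1 = 0 := by
    have := hmul 1 1
    rw [mul_one] at this
    simpa using this
  have hinv : ∀ σ, e σ⁻¹ = - e σ := by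
    intro σ
    have := hmul σ⁻¹ σ
    rw [inv_mul_cancel, h1] at this
    exact eq_neg_of_add_eq_zero_left this.symm
  by_cases h0 : ∀ σ, e σ = 0
  · exact ⟨0, 0, by simp, fun σ => ⟨fun _ => map_zero σ, fun h => absurd (h0 σ) h⟩⟩
  push Not at h0
  obtain ⟨τ, hτ⟩ := h0
  -- the kernel
  let H : Subgroup (Sep K ≃ₐ[K] Sep K) :=
    { carrier := {σ | e σ = 0}
      mul_mem' := by
        intro a b ha hb
        have ha' : e a = 0 := ha
        have hb' : e b = 0 := hb
        show e (a * b) = 0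
        rw [hmul, ha', hb', add_zero]
      one_mem' := h1
      inv_mem' := by
        intro a ha
        have ha' : e a = 0 := ha
        show e a⁻¹ = 0
        rw [hinv, ha', neg_zero] }
  have hclosed : IsClosed (H : Set (Sep K ≃ₐ[K] Sep K)) := by
    have : (H : Set (Sep K ≃ₐ[K] Sep K)) = e ⁻¹' {0} := by
      ext σ
      exact Iff.rfl
    rw [this]
    exact hlc.isClosed_fiber 0
  let HC : ClosedSubgroup (Sep K ≃ₐ[K] Sep K) := ⟨H, hclosed⟩
  have hfix := InfiniteGalois.fixingSubgroup_fixedField (k := K) (K := Sep K) HC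
  obtain ⟨w, hw, hwτ⟩ : ∃ w ∈ IntermediateField.fixedField HC.1, τ w ≠ w := by
    by_contra hcon
    push Not at hcon
    have : τ ∈ (IntermediateField.fixedField HC.1).fixingSubgroup := by
      rw [IntermediateField.mem_fixingSubgroup_iff]
      exact fun x hx => hcon x hx
    rw [hfix] at this
    exact hτ this
  have hwH : ∀ σ, e σ = 0 → σ w = w := by
    intro σ hσ
    rw [IntermediateField.mem_fixedField_iff] at hw
    exact hw σ hσ
  have hzm : ∀ a b : ZMod 2, a ≠ 0 → b ≠ 0 → a + b = 0 := by decide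
  have hw1 : ∀ σ, e σ ≠ 0 → σ w = τ w := by
    intro σ hσ
    have h2 : e (τ⁻¹ * σ) = 0 := by
      rw [hmul]
      refine hzm _ _ ?_ hσ
      rw [hinv]
      exact neg_ne_zero.mpr hτ
    have h3 := hwH _ h2
    have h4 : τ ((τ⁻¹ * σ) w) = σ w := by
      rw [← AlgEquiv.mul_apply, mul_inv_cancel_left]
    rw [← h4, h3]
  have htt : ∀ σ, e σ ≠ 0 → σ (τ w) = w := by
    intro σ hσ
    rw [← AlgEquiv.mul_apply]
    apply hwH
    rw [hmul]
    exact hzm _ _ hσ hτ
  have ht0 : ∀ σ, e σ = 0 → σ (τ w) = τ w := by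
    intro σ hσ
    rw [← AlgEquiv.mul_apply]
    apply hw1
    rw [hmul, hσ, zero_add]
    exact hτ
  have h2 : (2 : Sep K) = 0 := by
    have := CharP.cast_eq_zero (Sep K) 2
    exact_mod_cast this
  set p : Sep K := w + τ w with hp
  have hp0 : p ≠ 0 := by
    intro h
    apply hwτ
    have : τ w = - w := by
      rw [eq_neg_iff_add_eq_zero, add_comm]
      exact h
    rw [this]
    linear_combination (-w) * h2
  have hpfix : ∀ σ : Sep K ≃ₐ[K] Sep K, σ p = p := by
    intro σ
    rw [hp, map_add]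
    by_cases h : e σ = 0
    · rw [hwH σ h, ht0 σ h]
    · rw [hw1 σ h, htt σ h, add_comm]
  have hqfix : ∀ σ : Sep K ≃ₐ[K] Sep K, σ (w * τ w) = w * τ w := by
    intro σ
    rw [map_mul]
    by_cases h : e σ = 0
    · rw [hwH σ h, ht0 σ h]
    · rw [hw1 σ h, htt σ h, mul_comm]
  obtain ⟨a, ha⟩ : ∃ a : K, algebraMap K (Sep K) a = p := by
    have := (InfiniteGalois.mem_bot_iff_fixed (k := K) (K := Sep K) p).mpr hpfix
    exact IntermediateField.mem_bot.mp this
  obtain ⟨b, hb⟩ : ∃ b : K, algebraMap K (Sep K) b = w * τ w := by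
    have := (InfiniteGalois.mem_bot_iff_fixed (k := K) (K := Sep K) (w * τ w)).mpr hqfix
    exact IntermediateField.mem_bot.mp this
  refine ⟨w / p, b / a ^ 2, ?_, fun σ => ⟨fun h => ?_, fun h => ?_⟩⟩
  · rw [map_div₀, map_pow, ha, hb]
    field_simp
    rw [hp]
    linear_combination w ^ 2 * h2
  · rw [map_div₀, hpfix, hwH σ h]
  · rw [map_div₀, hpfix, hw1 σ h]
    field_simp
    rw [hp]
    linear_combination (-w) * h2

end Pool.Agent.H467.CT.Asc
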