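import Pool.Agent.H467.CT.Spec4

/-!
# Descent in characteristic two: most elements of `VN` have large poles modulo `z ^ 2 + z`

Project CT (helper467), part Big (helper284).
-/

set_option autoImplicit false
set_option linter.all false

open Polynomial IsDedekindDomain WithZero
open Pool.Agent.TH115.GD
open scoped Classical

namespace Pool.Agent.H467.CT.Big

section abs

variable {K : Type} [Field K] [CharP K 2] (w : Valuation K (WithZero (Multiplicative ℤ)))

theorem w_sum (x : ℕ → K) (hx : ∀ j, w (x j) = exp ((2 * j + 1 : ℕ) : ℤ)) (D : Finset ℕ)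
    (hD : D.Nonempty) : w (∑ j ∈ D, x j) = exp ((2 * D.max' hD + 1 : ℕ) : ℤ) := by
  rw [← Finset.add_sum_erase D x (D.max'_mem hD), ← hx (D.max' hD)]
  apply Valuation.map_add_eq_of_lt_left
  have h0 : w (x (D.max' hD)) ≠ 0 := by
    rw [hx]
    exact exp_ne_zero
  apply Valuation.map_sum_lt w h0
  intro j hj
  rw [Finset.mem_erase] at hj
  rw [hx, hx, exp_lt_exp]
  have h1 := D.le_max' j hj.2
  have h2 : j < D.max' hD := lt_of_le_of_ne h1 hj.1
  exact_mod_cast (by omega : 2 * j + 1 < 2 * D.max' hD + 1)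

theorem not_mem_H {γ : WithZero (Multiplicative ℤ)} {m : ℕ} {a : K}
    (ha : w a = exp ((2 * m + 1 : ℕ) : ℤ)) (hγ : γ < exp ((2 * m + 1 : ℕ) : ℤ)) (z : K) :
    ¬ w (a + z ^ 2 + z) ≤ γ := by
  intro h
  have c2 : (2 : K) = 0 := CharTwo.two_eq_zero
  have h1 : w (a + z ^ 2 + z) < w a := by
    rw [ha]
    exact lt_of_le_of_lt h hγ
  have h2 : w (z ^ 2 + z) = w a := by
    have e : z ^ 2 + z = (a + z ^ 2 + z) + a := by linear_combination (-a) * c2
    rw [e]
    exact Valuation.map_add_eq_of_lt_right w h1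
  have h3 : (1 : WithZero (Multiplicative ℤ)) < w (z ^ 2 + z) := by
    rw [h2, ha, ← exp_zero, exp_lt_exp]
    exact_mod_cast (by omega : 0 < 2 * m + 1)
  obtain ⟨n, hn⟩ := ev_as h3
  rw [h2, ha, exp_inj] at hn
  omega

theorem H_add {γ : WithZero (Multiplicative ℤ)} {a b : K}
    (ha : ∃ z : K, w (a + z ^ 2 + z) ≤ γ) (hb : ∃ z : K, w (b + z ^ 2 + z) ≤ γ) :
    ∃ z : K, w (a + b + z ^ 2 + z) ≤ γ := by
  obtain ⟨y, hy⟩ := ha
  obtain ⟨z, hz⟩ := hb
  have c2 : (2 : K) = 0 := CharTwo.two_eq_zero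
  refine ⟨y + z, ?_⟩
  have e : a + b + (y + z) ^ 2 + (y + z) = (a + y ^ 2 + y) + (b + z ^ 2 + z) := by
    linear_combination (y * z) * c2
  rw [e]
  exact Valuation.map_add_le w hy hz

theorem sum_symmDiff' (x : ℕ → K) (S T : Finset ℕ) :
    ∑ j ∈ S, x j + ∑ j ∈ T, x j = ∑ j ∈ symmDiff S T, x j := by
  have c2 : (2 : K) = 0 := CharTwo.two_eq_zero
  have h1 : ∀ U : Finset ℕ, U ⊆ S ∪ T → ∑ j ∈ U, x j = ∑ j ∈ S ∪ T, if j ∈ U then x j else 0 := by
    intro U hU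
    rw [← Finset.sum_filter]
    congr 1
    ext j
    rw [Finset.mem_filter]
    exact ⟨fun h => ⟨hU h, h⟩, fun h => h.2⟩
  rw [h1 S Finset.subset_union_left, h1 T Finset.subset_union_right, h1 (symmDiff S T) (by
    intro j hj
    rw [Finset.mem_symmDiff] at hj
    rw [Finset.mem_union]
    tauto), ← Finset.sum_add_distrib]
  refine Finset.sum_congr rfl fun j _ => ?_
  by_cases hS : j ∈ S <;> by_cases hT : j ∈ T <;> simp [hS, hT, Finset.mem_symmDiff]
  linear_combination x j * c2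

theorem card_le (V : Set K) (hfin : V.Finite)
    (hadd : ∀ a b, a ∈ V → b ∈ V → a + b ∈ V) (x : ℕ → K)
    (hx : ∀ j, w (x j) = exp ((2 * j + 1 : ℕ) : ℤ)) (h0 : 0 ∈ V) (γ : WithZero (Multiplicative ℤ))
    (S : Finset ℕ) (hS : ∀ j ∈ S, x j ∈ V ∧ γ < exp ((2 * j + 1 : ℕ) : ℤ)) :
    {a ∈ V | ∃ z : K, w (a + z ^ 2 + z) ≤ γ}.ncard * 2 ^ S.card ≤ V.ncard := by
  have hsumV : ∀ T : Finset ℕ, T ⊆ S → ∑ j ∈ T, x j ∈ V := by
    intro T
    induction T using Finset.induction_on with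
    | empty => intro _; simpa using h0
    | insert a T ha ih =>
      intro h
      rw [Finset.sum_insert ha]
      exact hadd _ _ (hS a (h (Finset.mem_insert_self _ _))).1
        (ih ((Finset.subset_insert _ _).trans h))
  set H : Set K := {a ∈ V | ∃ z : K, w (a + z ^ 2 + z) ≤ γ} with hH
  have hHfin : H.Finite := hfin.subset (fun a ha => ha.1)
  have h1 : (H ×ˢ (S.powerset : Set (Finset ℕ))).ncard = H.ncard * 2 ^ S.card := by
    rw [Set.ncard_prod, Set.ncard_coe_finset, Finset.card_powerset]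
  rw [← h1]
  refine Set.ncard_le_ncard_of_injOn (fun p : K × Finset ℕ => p.1 + ∑ j ∈ p.2, x j) ?_ ?_ hfin
  · rintro ⟨a, T⟩ ⟨ha, hT⟩
    exact hadd _ _ ha.1 (hsumV T (Finset.mem_powerset.1 hT))
  · rintro ⟨a, T⟩ ⟨ha, hT⟩ ⟨b, U⟩ ⟨hb, hU⟩ hab
    have c2 : (2 : K) = 0 := CharTwo.two_eq_zero
    have hab' : a + ∑ j ∈ T, x j = b + ∑ j ∈ U, x j := hab
    have e1 : ∑ j ∈ symmDiff T U, x j = a + b := by
      rw [← sum_symmDiff']
      linear_combination hab' + (∑ j ∈ U, x j - a) * c2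
    have hTS : T ⊆ S := Finset.mem_powerset.1 hT
    have hUS : U ⊆ S := Finset.mem_powerset.1 hU
    have hTU : T = U := by
      by_contra hne
      have hne' : (symmDiff T U).Nonempty := by
        rw [Finset.nonempty_iff_ne_empty]
        intro h
        exact hne (symmDiff_eq_bot.1 h)
      have h2 := w_sum w x hx _ hne'
      rw [e1] at h2
      obtain ⟨z, hz⟩ := H_add w ha.2 hb.2
      have hmem := (symmDiff T U).max'_mem hne'
      have hmS : (symmDiff T U).max' hne' ∈ S := by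
        rw [Finset.mem_symmDiff] at hmem
        rcases hmem with h | h
        · exact hTS h.1
        · exact hUS h.1
      exact not_mem_H w h2 (hS _ hmS).2 z hz
    subst hTU
    have : a = b := by simpa using hab'
    rw [this]

theorem tend (V : ℕ → Set K) (hfin : ∀ N, (V N).Finite)
    (hadd : ∀ N a b, a ∈ V N → b ∈ V N → a + b ∈ V N) (h0 : ∀ N, 0 ∈ V N) (x : ℕ → K)
    (hx : ∀ j, w (x j) = exp ((2 * j + 1 : ℕ) : ℤ)) (hxV : ∀ j N, 2 * j + 1 ≤ N → x j ∈ V N)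
    (γ : WithZero (Multiplicative ℤ)) :
    Filter.Tendsto (fun N : ℕ => ({a ∈ V N | ∃ z : K, w (a + z ^ 2 + z) ≤ γ}.ncard : ℝ) /
      ((V N).ncard : ℝ)) Filter.atTop (nhds 0) := by
  obtain ⟨n₀, hn₀⟩ : ∃ n₀ : ℕ, γ ≤ exp (n₀ : ℤ) := by
    by_cases hγ : γ = 0
    · exact ⟨0, by rw [hγ]; exact zero_le'⟩
    · refine ⟨(log γ).toNat, ?_⟩
      rw [← exp_log hγ, exp_le_exp, log_exp]
      exact Int.self_le_toNat _
  have hL : Filter.Tendsto (fun N : ℕ => (N + 1) / 2 - n₀) Filter.atTop Filter.atTop := by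
    rw [Filter.tendsto_atTop]
    intro b
    filter_upwards [Filter.eventually_ge_atTop (2 * (b + n₀))] with N hN
    omega
  have h1 : Filter.Tendsto (fun N : ℕ => ((1 / 2 : ℝ)) ^ ((N + 1) / 2 - n₀)) Filter.atTop
      (nhds 0) := (tendsto_pow_atTop_nhds_zero_of_lt_one (by norm_num) (by norm_num)).comp hL
  refine squeeze_zero (fun N => by positivity) (fun N => ?_) h1
  have hVpos : 0 < (V N).ncard := by
    rw [Set.ncard_pos (hfin N)]
    exact ⟨0, h0 N⟩
  have hVpos' : (0 : ℝ) < ((V N).ncard : ℝ) := by exact_mod_cast hVpos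
  have h2 := card_le w (V N) (hfin N) (hadd N) x hx (h0 N) γ (Finset.Ico n₀ ((N + 1) / 2)) (by
    intro j hj
    rw [Finset.mem_Ico] at hj
    refine ⟨hxV j N (by omega), lt_of_le_of_lt hn₀ ?_⟩
    rw [exp_lt_exp]
    exact_mod_cast (by omega : n₀ < 2 * j + 1))
  rw [Nat.card_Ico] at h2
  have h3 : (({a ∈ V N | ∃ z : K, w (a + z ^ 2 + z) ≤ γ}.ncard : ℝ)) * 2 ^ ((N + 1) / 2 - n₀) ≤
      ((V N).ncard : ℝ) := by exact_mod_cast h2
  rw [div_le_iff₀ hVpos', one_div, inv_pow]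
  have h4 : (0 : ℝ) < 2 ^ ((N + 1) / 2 - n₀) := by positivity
  rw [inv_mul_eq_div, le_div_iff₀ h4]
  exact h3

end abs

section conc

variable {k : Type} [Field k] {K : Type} [Field K] [Algebra k[X] K] [IsFractionRing k[X] K]

theorem deg_fin [Finite k] (n : ℕ) : {f : k[X] | f.natDegree ≤ n}.Finite := by
  refine (Set.finite_range (fun c : Fin (n + 1) → k => ∑ i : Fin (n + 1),
    monomial (i : ℕ) (c i))).subset ?_
  intro f hf
  refine ⟨fun i => f.coeff i, ?_⟩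
  have h1 : f.natDegree < n + 1 := Nat.lt_succ_of_le hf
  conv_rhs => rw [f.as_sum_range' (n + 1) h1]
  rw [← Fin.sum_univ_eq_sum_range (fun i => monomial i (f.coeff i))]

theorem prod_ne {s : Finset k[X]} (hs : ∀ Q ∈ s, Irreducible Q) : (∏ Q ∈ s, Q) ≠ 0 :=
  Finset.prod_ne_zero_iff.2 fun Q hQ => (hs Q hQ).ne_zero

theorem map_ne {f : k[X]} (hf : f ≠ 0) : algebraMap k[X] K f ≠ 0 := by
  rwa [Ne, map_eq_zero_iff _ (IsFractionRing.injective k[X] K)]

theorem VN_fin [Finite k] {s : Finset k[X]} (hs : ∀ Q ∈ s, Irreducible Q) (N : ℕ) :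
    (VN K s N).Finite := by
  refine ((deg_fin (k := k) (N * (1 + (∏ Q ∈ s, Q).natDegree))).image
    (fun f => algebraMap k[X] K f / algebraMap k[X] K (∏ Q ∈ s, Q) ^ N)).subset ?_
  rintro a ⟨f, hf, ha⟩
  refine ⟨f, hf, ?_⟩
  have h1 : algebraMap k[X] K (∏ Q ∈ s, Q) ^ N ≠ 0 := pow_ne_zero _ (map_ne (prod_ne hs))
  show algebraMap k[X] K f / algebraMap k[X] K (∏ Q ∈ s, Q) ^ N = a
  rw [← ha]
  exact mul_div_cancel_right₀ _ h1

theorem VN_zero (s : Finset k[X]) (N : ℕ) : (0 : K) ∈ VN K s N :=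
  ⟨0, by simp, by simp⟩

theorem VN_add (s : Finset k[X]) (N : ℕ) (a b : K) (ha : a ∈ VN K s N) (hb : b ∈ VN K s N) :
    a + b ∈ VN K s N := by
  obtain ⟨f, hf, hf'⟩ := ha
  obtain ⟨g, hg, hg'⟩ := hb
  refine ⟨f + g, (natDegree_add_le _ _).trans (max_le hf hg), ?_⟩
  rw [add_mul, hf', hg', map_add]

theorem VN_Q {s : Finset k[X]} {Q : k[X]} (hQ : Q ∈ s) (hQ0 : Q ≠ 0) {n N : ℕ} (hn : n ≤ N) :
    (algebraMap k[X] K Q ^ n)⁻¹ ∈ VN K s N := by
  refine ⟨Q ^ (N - n) * (∏ P ∈ s.erase Q, P) ^ N, ?_, ?_⟩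
  · have h1 : (∏ P ∈ s, P) = Q * ∏ P ∈ s.erase Q, P := (Finset.mul_prod_erase s _ hQ).symm
    have h2 : Q ^ (N - n) * (∏ P ∈ s.erase Q, P) ^ N ∣ (∏ P ∈ s, P) ^ N := by
      rw [h1, mul_pow]
      exact mul_dvd_mul_right (pow_dvd_pow _ (Nat.sub_le _ _)) _
    by_cases h3 : (∏ P ∈ s, P) ^ N = 0
    · have h4 : (∏ P ∈ s.erase Q, P) ^ N = 0 := by
        rw [h1, mul_pow] at h3
        rcases mul_eq_zero.1 h3 with h5 | h5
        · exact absurd h5 (pow_ne_zero _ hQ0)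
        · exact h5
      rw [h4, mul_zero]
      simp
    · refine (natDegree_le_of_dvd h2 h3).trans ?_
      rw [natDegree_pow]
      exact Nat.mul_le_mul_left _ (by omega)
  · have h1 : (∏ P ∈ s, P) = Q * ∏ P ∈ s.erase Q, P := (Finset.mul_prod_erase s _ hQ).symm
    rw [h1, map_mul, map_mul, map_pow, map_pow, mul_pow]
    have hq : algebraMap k[X] K Q ^ n ≠ 0 := pow_ne_zero _ (map_ne hQ0)
    obtain ⟨m, rfl⟩ : ∃ m, N = n + m := ⟨N - n, by omega⟩
    rw [Nat.add_sub_cancel_left, pow_add (algebraMap k[X] K Q)]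
    field_simp

theorem VN_X (s : Finset k[X]) {n N : ℕ} (hn : n ≤ N) :
    algebraMap k[X] K (X ^ n) ∈ VN K s N := by
  refine ⟨X ^ n * (∏ P ∈ s, P) ^ N, ?_, ?_⟩
  · refine natDegree_mul_le.trans ?_
    refine (Nat.add_le_add (natDegree_X_pow_le n) natDegree_pow_le).trans ?_
    rw [mul_add, mul_one]
    omega
  · rw [map_mul, map_pow (algebraMap k[X] K) (∏ P ∈ s, P)]

end conc

theorem big : S_BIG := by
  intro k K _ _ _ _ _ _ s hs hm γ
  haveI : CharP K 2 := charK k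
  constructor
  · intro Q hQ
    refine tend ((Infg.pr Q (hs Q hQ)).valuation K) (VN K s) (VN_fin hs) (VN_add s) (VN_zero s)
      (fun j => (algebraMap k[X] K Q ^ (2 * j + 1))⁻¹) ?_ (fun j N h => VN_Q hQ (hs Q hQ).ne_zero h)
      γ
    intro j
    have h1 : (Infg.pr Q (hs Q hQ)).valuation K (algebraMap k[X] K Q) = exp (-1 : ℤ) := by
      rw [HeightOneSpectrum.valuation_of_algebraMap]
      exact HeightOneSpectrum.intValuation_singleton _ (hs Q hQ).ne_zero rfl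
    rw [map_inv₀, map_pow, h1, ← exp_nsmul, ← exp_neg]
    congr 1
    simp
  · have h := tend ((Infg.w k K).comap (Infg.jj k K)) (VN K s) (VN_fin hs) (VN_add s) (VN_zero s)
      (fun j => algebraMap k[X] K (X ^ (2 * j + 1))) (by
        intro j
        show Infg.w k K (Infg.s k K (X ^ (2 * j + 1))) = _
        rw [Infg.w_s k K (pow_ne_zero _ X_ne_zero), natDegree_X_pow])
      (fun j N h => VN_X s h) γ
    have e : ∀ a : K, ((Infg.w k K).comap (Infg.jj k K)) a = vinf k a := fun a =>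
      (vinf_eq a).symm
    simp only [e] at h
    exact h

end Pool.Agent.H467.CT.Big
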