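import Pool.Agent.H467.CT.Spec
import Pool.Graph.R_pool_sql_team_seeded_63374d34.N352.PP.Loc

/-!
# Project CT: the parts `S_INFG` and `S_SQG`
-/

set_option autoImplicit false
set_option linter.all false

open Polynomial IsDedekindDomain
open Pool.Agent.TH115.GD
open Pool.Agent.N352.PP (vv em vv_coe dense_R vv_em_lt vv_em_le vv_em_P vv_em_one vv_em)
open scoped Classical

namespace Pool.Agent.H467.CT.Infg

theorem exists_sq {k : Type} [Field k] [Finite k] [CharP k 2] (c : k) : ∃ e : k, c = e ^ 2 := by
  obtain ⟨e, he⟩ := (bijective_frobenius k 2).surjective c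
  exact ⟨e, he.symm⟩

/-- the prime of an irreducible polynomial -/
noncomputable def pr {k : Type} [Field k] (Q : k[X]) (hQ : Irreducible Q) :
    HeightOneSpectrum k[X] where
  asIdeal := Ideal.span {Q}
  isPrime := (Ideal.span_singleton_prime hQ.ne_zero).2 hQ.prime
  ne_bot := by rw [Ne, Ideal.span_singleton_eq_bot]; exact hQ.ne_zero

theorem sq_poly (k K : Type) [Field k] [Finite k] [CharP k 2] [Field K] [Algebra k[X] K]
    [IsFractionRing k[X] K] (P : k[X]) (hP : Irreducible P) : ∀ (n : ℕ) (f : k[X]),
    f.natDegree < n → f ≠ 0 →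
    (∀ v : HeightOneSpectrum k[X], P ∉ v.asIdeal →
      ∃ n : ℤ, v.valuation K (algebraMap k[X] K f) = WithZero.exp (2 * n)) →
    ∃ h : k[X], h ≠ 0 ∧ (f = h ^ 2 ∨ f = P * h ^ 2) := by
  intro n
  induction n with
  | zero => intro f hf; exact absurd hf (Nat.not_lt_zero _)
  | succ n ih =>
    intro f hfn hf0 hf
    by_cases hu : IsUnit f
    · obtain ⟨c, hc, rfl⟩ := Polynomial.isUnit_iff.mp hu
      obtain ⟨e, he⟩ := exists_sq c
      have he0 : e ≠ 0 := by
        rintro rfl
        apply hf0
        rw [he]
        simp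
      exact ⟨C e, by simpa using he0, Or.inl (by rw [he, C_pow])⟩
    · obtain ⟨Q, hQ, f', rfl⟩ := WfDvdMonoid.exists_irreducible_factor hu hf0
      have hf'0 : f' ≠ 0 := right_ne_zero_of_mul hf0
      by_cases hPQ : Associated P Q
      · have hPf : P ∣ Q * f' := hPQ.dvd.mul_right f'
        obtain ⟨f'', hf''⟩ := hPf
        rw [hf''] at hfn hf0 hf ⊢
        have hf''0 : f'' ≠ 0 := right_ne_zero_of_mul hf0
        have hd : f''.natDegree < n := by
          rw [natDegree_mul hP.ne_zero hf''0] at hfn
          have := hP.natDegree_pos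
          omega
        obtain ⟨h, hh0, hh⟩ := ih f'' hd hf''0 (by
          intro v hv
          obtain ⟨m, hm⟩ := hf v hv
          refine ⟨m, ?_⟩
          rw [map_mul, map_mul] at hm
          have h1 : v.valuation K (algebraMap k[X] K P) = 1 := by
            rw [HeightOneSpectrum.valuation_of_algebraMap]
            apply le_antisymm (v.intValuation_le_one P)
            rw [← not_lt, HeightOneSpectrum.intValuation_lt_one_iff_mem]
            exact hv
          rw [h1, one_mul] at hm
          exact hm)
        rcases hh with hh | hh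
        · exact ⟨h, hh0, Or.inr (by rw [hh])⟩
        · exact ⟨P * h, mul_ne_zero hP.ne_zero hh0, Or.inl (by rw [hh]; ring)⟩
      · have hPv : P ∉ (pr Q hQ).asIdeal := by
          show P ∉ Ideal.span {Q}
          rw [Ideal.mem_span_singleton]
          intro h
          exact hPQ (hQ.associated_of_dvd hP h).symm
        obtain ⟨m, hm⟩ := hf (pr Q hQ) hPv
        rw [HeightOneSpectrum.valuation_of_algebraMap] at hm
        have hlt : (pr Q hQ).intValuation (Q * f') < 1 := by
          rw [HeightOneSpectrum.intValuation_lt_one_iff_mem]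
          show Q * f' ∈ Ideal.span {Q}
          rw [Ideal.mem_span_singleton]
          exact dvd_mul_right _ _
        rw [hm, ← WithZero.exp_zero, WithZero.exp_lt_exp] at hlt
        have hle : (pr Q hQ).intValuation (Q * f') ≤ WithZero.exp (-((2 : ℕ) : ℤ)) := by
          rw [hm, WithZero.exp_le_exp]
          push_cast
          omega
        rw [HeightOneSpectrum.intValuation_le_pow_iff_mem] at hle
        have hdv : Q ^ 2 ∣ Q * f' := by
          have h1 : (pr Q hQ).asIdeal ^ 2 = Ideal.span {Q ^ 2} := by
            show Ideal.span {Q} ^ 2 = _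
            rw [Ideal.span_singleton_pow]
          rw [h1, Ideal.mem_span_singleton] at hle
          exact hle
        obtain ⟨f'', hf''⟩ := hdv
        rw [hf''] at hfn hf0 hf ⊢
        have hf''0 : f'' ≠ 0 := right_ne_zero_of_mul hf0
        have hd : f''.natDegree < n := by
          rw [natDegree_mul (pow_ne_zero 2 hQ.ne_zero) hf''0, natDegree_pow] at hfn
          have := hQ.natDegree_pos
          omega
        obtain ⟨h, hh0, hh⟩ := ih f'' hd hf''0 (by
          intro v hv
          obtain ⟨m, hm⟩ := hf v hv
          have hQv : v.valuation K (algebraMap k[X] K Q) ≠ 0 := by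
            rw [HeightOneSpectrum.valuation_of_algebraMap]
            exact v.intValuation_ne_zero Q hQ.ne_zero
          refine ⟨m - WithZero.log (v.valuation K (algebraMap k[X] K Q)), ?_⟩
          rw [map_mul, map_mul, map_pow, map_pow] at hm
          have h1 := WithZero.exp_log hQv
          set q := WithZero.log (v.valuation K (algebraMap k[X] K Q)) with hq
          rw [← h1, ← WithZero.exp_nsmul] at hm
          have h2 : v.valuation K (algebraMap k[X] K f'') =
              WithZero.exp (2 * m) / WithZero.exp (2 • q) := by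
            rw [← hm, mul_comm, mul_div_assoc, div_self (WithZero.exp_ne_zero), mul_one]
          rw [h2, ← WithZero.exp_sub]
          congr 1
          simp only [nsmul_eq_mul, Nat.cast_ofNat]
          ring)
        rcases hh with hh | hh
        · exact ⟨Q * h, mul_ne_zero hQ.ne_zero hh0, Or.inl (by rw [hh]; ring)⟩
        · exact ⟨Q * h, mul_ne_zero hQ.ne_zero hh0, Or.inr (by rw [hh]; ring)⟩

theorem sqg : S_SQG := by
  intro k K _ _ _ _ _ _ P hP d hd0 hd
  obtain ⟨n, m, hm, rfl⟩ := IsFractionRing.div_surjective (A := k[X]) d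
  have hm0 : m ≠ 0 := nonZeroDivisors.ne_zero hm
  have hmK : algebraMap k[X] K m ≠ 0 := by
    rwa [Ne, map_eq_zero_iff _ (IsFractionRing.injective k[X] K)]
  have hn0 : n ≠ 0 := by
    rintro rfl
    apply hd0
    simp
  have hnm : ∀ v : HeightOneSpectrum k[X], P ∉ v.asIdeal →
      ∃ l : ℤ, v.valuation K (algebraMap k[X] K (n * m)) = WithZero.exp (2 * l) := by
    intro v hv
    obtain ⟨l, hl⟩ := hd v hv
    have hmv : v.valuation K (algebraMap k[X] K m) ≠ 0 := by
      rw [HeightOneSpectrum.valuation_of_algebraMap]
      exact v.intValuation_ne_zero m hm0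
    have h1 := WithZero.exp_log hmv
    refine ⟨l + WithZero.log (v.valuation K (algebraMap k[X] K m)), ?_⟩
    have h2 : algebraMap k[X] K (n * m) =
        algebraMap k[X] K n / algebraMap k[X] K m * algebraMap k[X] K m ^ 2 := by
      rw [map_mul]
      field_simp
    rw [h2, map_mul, hl, map_pow]
    set q := WithZero.log (v.valuation K (algebraMap k[X] K m)) with hq
    rw [← h1, ← WithZero.exp_nsmul, ← WithZero.exp_add]
    congr 1
    simp only [nsmul_eq_mul, Nat.cast_ofNat]
    ring
  obtain ⟨h, hh0, hh⟩ := sq_poly k K P hP _ (n * m) (Nat.lt_succ_self _) (mul_ne_zero hn0 hm0) hnm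
  have hhK : algebraMap k[X] K h ≠ 0 := by
    rwa [Ne, map_eq_zero_iff _ (IsFractionRing.injective k[X] K)]
  refine ⟨algebraMap k[X] K h / algebraMap k[X] K m, div_ne_zero hhK hmK, ?_⟩
  have h3 : algebraMap k[X] K n / algebraMap k[X] K m =
      algebraMap k[X] K (n * m) / algebraMap k[X] K m ^ 2 := by
    rw [map_mul]
    field_simp
  rcases hh with hh | hh
  · left
    rw [h3, hh, map_pow, div_pow]
  · right
    rw [h3, hh, map_mul, map_pow, div_pow, mul_div_assoc]

section inf

variable (k K : Type) [Field k] [Field K] [Algebra k[X] K] [IsFractionRing k[X] K]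

/-- the completion at infinity -/
abbrev LL : Type := (pl (0 : k)).adicCompletion (AtInf K)

/-- the inclusion of `k(t)` in the completion at infinity -/
noncomputable def jj : K →+* LL k K := algebraMap (AtInf K) (LL k K)

/-- the inclusion of `k[t]` in the completion at infinity -/
noncomputable def s : k[X] →+* LL k K := (jj k K).comp (algebraMap k[X] K)

/-- `1/t`-polynomials in the completion at infinity -/
noncomputable def si : k[X] →+* LL k K := em (AtInf K) (pl (0 : k))

noncomputable def w : Valuation (LL k K) (WithZero (Multiplicative ℤ)) := vv (pl (0 : k))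

theorem si_eq (p : k[X]) : si k K p = jj k K (infMap k K p) := rfl

theorem s_eq (p : k[X]) : s k K p = si k K (reverse p) * (s k K X) ^ p.natDegree := by
  rw [si_eq]
  show jj k K (algebraMap k[X] K p) = _ * (jj k K (algebraMap k[X] K X)) ^ p.natDegree
  rw [std_inf (F := K) p, map_mul, map_pow]

theorem si_C (c : k) : si k K (C c) = s k K (C c) := by
  have h : infMap k K (C c) = algebraMap k[X] K (C c) := by
    simp [infMap]
  rw [si_eq, h]
  rfl

theorem si_X : si k K X * s k K X = 1 := by
  have hX : algebraMap k[X] K X ≠ 0 := by simp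
  have h : infMap k K X * algebraMap k[X] K X = 1 := by
    simp [infMap, hX]
  rw [si_eq]
  show _ * jj k K (algebraMap k[X] K X) = 1
  rw [← map_mul, h, map_one]

theorem pl_ideal : (pl (0 : k)).asIdeal = Ideal.span {X} := by
  show Ideal.span {X - C (0 : k)} = _
  rw [C_0, sub_zero]

theorem w_si_X : w k K (si k K X) = WithZero.exp (-1 : ℤ) :=
  vv_em_P X_ne_zero (pl_ideal k)

theorem w_s_X : w k K (s k K X) = WithZero.exp (1 : ℤ) := by
  have h1 := congrArg (w k K) (si_X k K)
  rw [map_mul, map_one, w_si_X] at h1
  have h2 : WithZero.exp (1 : ℤ) * (WithZero.exp (-1 : ℤ) * w k K (s k K X)) =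
      WithZero.exp (1 : ℤ) := by rw [h1, mul_one]
  rw [← mul_assoc, ← WithZero.exp_add] at h2
  simpa using h2

theorem w_s {p : k[X]} (hp : p ≠ 0) : w k K (s k K p) = WithZero.exp (p.natDegree : ℤ) := by
  have h1 : w k K (si k K (reverse p)) = 1 := by
    have h2 := (vv_em_one (K := AtInf K) (pl_ideal k) (reverse p)).mpr (by
      rw [X_dvd_iff, coeff_zero_reverse]
      exact leadingCoeff_ne_zero.mpr hp)
    exact h2
  rw [s_eq, map_mul, h1, one_mul, map_pow, w_s_X, ← WithZero.exp_nsmul]
  simp

theorem w_s_le_one_of_const (c : k) : w k K (s k K (C c)) ≤ 1 := by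
  rw [← si_C]
  exact vv_em_le _

/-- integral elements are congruent to constants -/
theorem dense_const (z : LL k K) (hz : w k K z ≤ 1) : ∃ c : k, w k K (z - s k K (C c)) < 1 := by
  obtain ⟨r, hr⟩ := dense_R (pl (0 : k)) z hz
  have hr' : w k K (z - si k K r) < 1 := hr
  refine ⟨r.coeff 0, ?_⟩
  have h1 : z - s k K (C (r.coeff 0)) = (z - si k K r) + si k K X * si k K r.divX := by
    rw [← si_C, ← map_mul]
    have : r = C (r.coeff 0) + X * r.divX := by
      conv_lhs => rw [← divX_mul_X_add r]
      ring
    conv_rhs => rw [this]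
    rw [map_add]
    have h3 : (C (r.coeff 0) + X * r.divX).divX = r.divX := by rw [← this]
    rw [h3]
    ring
  rw [h1]
  refine lt_of_le_of_lt (Valuation.map_add _ _ _) (max_lt hr' ?_)
  rw [map_mul, w_si_X]
  have h2 : w k K (si k K r.divX) ≤ 1 := vv_em_le _
  refine mul_lt_one_of_lt_of_le ?_ h2
  rw [← WithZero.exp_zero, WithZero.exp_lt_exp]
  norm_num

end inf

theorem infg_aux (k K : Type) [Field k] [Finite k] [CharP k 2] [Field K] [Algebra k[X] K]
    [IsFractionRing k[X] K] : ∀ (n : ℕ) (p : k[X]), p.natDegree < n →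
    ∀ z : LL k K, s k K p = z ^ 2 + z → ∃ g : k[X], p = g ^ 2 + g := by
  have hk2 : (2 : k) = 0 := CharTwo.two_eq_zero
  have hp2 : (2 : k[X]) = 0 := by
    have : (2 : k[X]) = C 2 := (map_ofNat C 2).symm
    rw [this, hk2, C_0]
  have hL2 : (2 : LL k K) = 0 := by
    have : (2 : LL k K) = s k K 2 := (map_ofNat (s k K) 2).symm
    rw [this, hp2, map_zero]
  intro n
  induction n with
  | zero => intro p hp; exact absurd hp (Nat.not_lt_zero _)
  | succ n ih =>
    intro p hpn z hz
    by_cases hd : p.natDegree = 0
    · obtain ⟨c, rfl⟩ : ∃ c, p = C c := ⟨_, eq_C_of_natDegree_eq_zero hd⟩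
      have hwz : w k K z ≤ 1 := by
        by_contra h
        rw [not_le] at h
        have h1 : w k K (z ^ 2 + z) = w k K z ^ 2 := by
          rw [Valuation.map_add_eq_of_lt_left, map_pow]
          rw [map_pow]
          exact lt_self_pow₀ h (by norm_num)
        have h2 : 1 < w k K z ^ 2 := one_lt_pow₀ h two_ne_zero
        rw [← h1, ← hz] at h2
        exact absurd (w_s_le_one_of_const k K c) (not_le.mpr h2)
      obtain ⟨c', hc'⟩ := dense_const k K z hwz
      have h1 : s k K (C (c + (c' ^ 2 + c'))) = (z - s k K (C c')) ^ 2 + (z - s k K (C c')) := by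
        rw [C_add, map_add, hz, C_add, C_pow, map_add, map_pow]
        linear_combination (z * s k K (C c') + s k K (C c')) * hL2
      have h2 : w k K (s k K (C (c + (c' ^ 2 + c')))) < 1 := by
        rw [h1]
        refine lt_of_le_of_lt (Valuation.map_add _ _ _) (max_lt ?_ hc')
        rw [map_pow]
        exact pow_lt_one₀ zero_le' hc' two_ne_zero
      have h3 : c + (c' ^ 2 + c') = 0 := by
        by_contra h
        have h4 : (C (c + (c' ^ 2 + c')) : k[X]) ≠ 0 := by rwa [Ne, C_eq_zero]
        rw [w_s k K h4, natDegree_C] at h2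
        simp at h2
      refine ⟨C c', ?_⟩
      rw [← C_pow, ← C_add]
      congr 1
      linear_combination h3 - (c' ^ 2 + c') * hk2
    · have hp0 : p ≠ 0 := by rintro rfl; simp at hd
      have hwp := w_s k K hp0
      rw [hz] at hwp
      have hwz : 1 < w k K z := by
        by_contra h
        rw [not_lt] at h
        have h1 : w k K (z ^ 2 + z) ≤ 1 := by
          refine (Valuation.map_add _ _ _).trans (max_le ?_ h)
          rw [map_pow]
          exact pow_le_one₀ zero_le' h
        rw [hwp, ← WithZero.exp_zero, WithZero.exp_le_exp] at h1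
        omega
      have h1 : w k K (z ^ 2 + z) = w k K z ^ 2 := by
        rw [Valuation.map_add_eq_of_lt_left, map_pow]
        rw [map_pow]
        exact lt_self_pow₀ hwz (by norm_num)
      rw [h1] at hwp
      have hwz0 : w k K z ≠ 0 := (zero_lt_one.trans hwz).ne'
      have h2 := WithZero.exp_log hwz0
      set q := WithZero.log (w k K z) with hq
      rw [← h2, ← WithZero.exp_nsmul, WithZero.exp_inj] at hwp
      rw [← h2, ← WithZero.exp_zero, WithZero.exp_lt_exp] at hwz
      obtain ⟨m, hm⟩ : ∃ m : ℕ, p.natDegree = 2 * m ∧ 0 < m := by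
        refine ⟨q.toNat, ?_, ?_⟩
        · simp only [nsmul_eq_mul, Nat.cast_ofNat] at hwp
          omega
        · omega
      obtain ⟨hm, hm0⟩ := hm
      obtain ⟨e, he⟩ := exists_sq p.leadingCoeff
      set y : k[X] := C e * X ^ m with hy
      have he0 : e ≠ 0 := by
        rintro rfl
        have : p.leadingCoeff = 0 := by rw [he]; ring
        exact hp0 (leadingCoeff_eq_zero.mp this)
      have hdeg : (p + (y ^ 2 + y)).natDegree < n := by
        have h3 : (p + (y ^ 2 + y)).natDegree ≤ 2 * m - 1 := by
          rw [natDegree_le_iff_coeff_eq_zero]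
          intro i hi
          have hy2 : y ^ 2 = C (e ^ 2) * X ^ (2 * m) := by
            rw [hy, mul_pow, ← C_pow, ← pow_mul, mul_comm m 2]
          rw [coeff_add, coeff_add, hy2, hy, coeff_C_mul_X_pow, coeff_C_mul_X_pow]
          rcases Nat.lt_or_ge (2 * m) i with h4 | h4
          · rw [coeff_eq_zero_of_natDegree_lt (by omega), if_neg (by omega), if_neg (by omega)]
            simp
          · have h5 : i = 2 * m := by omega
            rw [if_pos h5, if_neg (by omega), h5]
            have h6 : p.coeff (2 * m) = e ^ 2 := by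
              rw [← he, leadingCoeff, hm]
            rw [h6]
            linear_combination (e ^ 2) * hk2
        omega
      have hz' : s k K (p + (y ^ 2 + y)) = (z + s k K y) ^ 2 + (z + s k K y) := by
        rw [map_add, hz, map_add, map_pow]
        linear_combination (- (z * s k K y)) * hL2
      obtain ⟨g, hg⟩ := ih _ hdeg _ hz'
      refine ⟨g + y, ?_⟩
      linear_combination hg - (y ^ 2 + y + g * y) * hp2

theorem infg : S_INFG := by
  intro k K _ _ _ _ _ _ p hp
  obtain ⟨z, hz⟩ := hp
  exact infg_aux k K _ p (Nat.lt_succ_self _) z hz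

end Pool.Agent.H467.CT.Infg
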