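import Pool.Agent.H467.CT.Val
import Pool.Agent.H467.CT.Infg
import Pool.Graph.R_pool_sql_team_seeded_63374d34.N352.PP.Loc
import Pool.Graph.R_pool_sql_team_seeded_63374d34.N704.PJ.Hensel

/-!
# Descent in characteristic two: the completions of `k(t)`

Project CT (helper467).
-/

set_option autoImplicit false
set_option linter.all false

open Polynomial IsDedekindDomain WithZero
open Pool.Agent.TH115.GD
open Pool.Agent.N352.PP (vv em vv_coe dense_F dense_R vv_em_lt vv_em_le vv_em_P vv_em_one vv_em)
open scoped Classical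

namespace Pool.Agent.H467.CT

section gen

variable {R F : Type} [CommRing R] [IsDedekindDomain R] [Field F] [Algebra R F]
  [IsFractionRing R F] (v : HeightOneSpectrum R)

instance charComp [CharP F 2] : CharP (v.adicCompletion F) 2 :=
  charP_of_injective_algebraMap (algebraMap F (v.adicCompletion F)).injective 2

instance charComp' [CharP F 2] : CharP (Comp R F v) 2 :=
  charP_of_injective_algebraMap (algebraMap F (v.adicCompletion F)).injective 2

/-- Elements of the maximal ideal are of the form `z ^ 2 + z`. -/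
theorem hens [CharP F 2] (x : v.adicCompletion F) (hx : vv v x < 1) : AS x := by
  have c2 : (2 : v.adicCompletion F) = 0 := CharTwo.two_eq_zero
  set p : (v.adicCompletion F)[X] := X ^ 2 + X + C x with hp
  have hev : ∀ z, p.eval z = z ^ 2 + z + x := by
    intro z
    rw [hp]; simp
  have hder : (derivative p).eval 0 = 1 := by
    rw [hp]; simp
  obtain ⟨z, hz, -⟩ := Pool.Agent.N704.PJ.hensel p (a := 0) (by
    intro i
    have hc : p.coeff i = (if i = 2 then 1 else 0) + (if i = 1 then 1 else 0) +
        (if i = 0 then x else 0) := by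
      rw [hp, coeff_add, coeff_add, coeff_X_pow, coeff_X, coeff_C]
      simp [eq_comm]
    rw [hc]
    refine (Valuation.map_add _ _ _).trans (max_le ((Valuation.map_add _ _ _).trans
      (max_le ?_ ?_)) ?_)
    · split_ifs <;> simp
    · split_ifs <;> simp
    · split_ifs
      · exact hx.le
      · simp) (by simp)
    (by rw [hev]; simp only [ne_eq, OfNat.ofNat_ne_zero, not_false_eq_true, zero_pow, zero_add]
        exact hx) (by rw [hder]; simp)
  rw [hev] at hz
  exact ⟨z, by linear_combination hz - (z ^ 2 + z) * c2⟩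

end gen

section pol

variable {k K : Type} [Field k] [Finite k] [CharP k 2] [Field K] [Algebra k[X] K]
  [IsFractionRing k[X] K]

theorem charK (k : Type) {K : Type} [Field k] [CharP k 2] [Field K] [Algebra k[X] K]
    [IsFractionRing k[X] K] : CharP K 2 :=
  charP_of_injective_algebraMap (IsFractionRing.injective k[X] K) 2

/-- Even valuations. -/
theorem ev_em {v : HeightOneSpectrum k[X]} {P c : k[X]} (hP : P ∉ v.asIdeal) (hc : c ≠ 0) :
    Ev (vv v (em K v (P * c ^ 2))) := by
  rw [map_mul, map_pow, map_mul]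
  refine Ev.mul ?_ (ev_sq ?_)
  · have : vv v (em K v P) = 1 := by
      rw [vv_em, HeightOneSpectrum.valuation_of_algebraMap]
      apply le_antisymm (v.intValuation_le_one P)
      rw [← not_lt, HeightOneSpectrum.intValuation_lt_one_iff_mem]
      exact hP
    rw [this]
    exact ev_one
  · rw [Pool.Agent.N352.PP.em, RingHom.comp_apply, Ne, map_eq_zero, map_eq_zero_iff _ (IsFractionRing.injective k[X] K)]
    exact hc

/-- Odd valuations. -/
theorem odd_em {v : HeightOneSpectrum k[X]} {P R c : k[X]} (hP : P ≠ 0)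
    (hv : v.asIdeal = Ideal.span {P}) (hR : ¬ P ∣ R) (hc : c ≠ 0) :
    ¬ Ev (vv v (em K v (P * R * c ^ 2))) := by
  intro h
  have hcK : em K v c ≠ 0 := by
    rw [Pool.Agent.N352.PP.em, RingHom.comp_apply, Ne, map_eq_zero, map_eq_zero_iff _ (IsFractionRing.injective k[X] K)]
    exact hc
  rw [map_mul, map_mul, map_pow, map_mul, mul_comm] at h
  have h2 := Ev.of_mul (ev_sq hcK) h
  rw [map_mul, vv_em_P hP hv, (vv_em_one (K := K) hv R).2 hR, mul_one] at h2
  obtain ⟨n, hn⟩ := h2
  rw [exp_inj] at hn
  omega

/-- Non-split reduction. -/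
theorem nonsplit {v : HeightOneSpectrum k[X]} {P a : k[X]} (hv : v.asIdeal = Ideal.span {P})
    (h : ∀ z : k[X], ¬ P ∣ z ^ 2 + z + a) (z : v.adicCompletion K) :
    1 ≤ vv v (em K v a + z ^ 2 + z) := by
  haveI : CharP K 2 := charK k
  have c2 : (2 : v.adicCompletion K) = 0 := CharTwo.two_eq_zero
  by_contra hlt
  rw [not_le] at hlt
  have hz : vv v z ≤ 1 := by
    by_contra hn
    rw [not_le] at hn
    have h1 : vv v (z ^ 2 + z) = vv v z ^ 2 := by
      rw [Valuation.map_add_eq_of_lt_left, map_pow]
      rw [map_pow]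
      exact lt_self_pow₀ hn (by norm_num)
    have h2 : 1 < vv v (z ^ 2 + z) := by
      rw [h1]; exact one_lt_pow₀ hn two_ne_zero
    have h3 : z ^ 2 + z = (em K v a + z ^ 2 + z) - em K v a := by ring
    rw [h3] at h2
    exact absurd ((Valuation.map_sub _ _ _).trans (max_le hlt.le (vv_em_le a))) (not_le.2 h2)
  obtain ⟨g, hg⟩ := dense_R v z hz
  change vv v (z - em K v g) < 1 at hg
  apply h g
  rw [← vv_em_lt (K := K) hv]
  have e : em K v (g ^ 2 + g + a) = (em K v a + z ^ 2 + z) + ((z - em K v g) ^ 2 +
      (z - em K v g)) := by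
    rw [map_add, map_add, map_pow]
    linear_combination (-(z ^ 2) - z + z * em K v g + em K v g) * c2
  rw [e]
  refine lt_of_le_of_lt (Valuation.map_add _ _ _) (max_lt hlt ?_)
  refine lt_of_le_of_lt (Valuation.map_add _ _ _) (max_lt ?_ hg)
  rw [map_pow]
  exact pow_lt_one₀ zero_le' hg two_ne_zero

omit [Finite k] [CharP k 2] in
/-- Elements of the completion at infinity are congruent to polynomials. -/
theorem dense_inf (z : Infg.LL k K) : ∃ g : k[X], Infg.w k K (z - Infg.s k K g) ≤ 1 := by
  have key : ∀ (n : ℕ) (z : Infg.LL k K), Infg.w k K z ≤ exp (n : ℤ) →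
      ∃ g : k[X], Infg.w k K (z - Infg.s k K g) ≤ 1 := by
    intro n
    induction n with
    | zero =>
      intro z hz
      exact ⟨0, by simpa using hz⟩
    | succ n ih =>
      intro z hz
      have hX := Infg.w_s_X k K
      have hX0 : Infg.s k K X ≠ 0 := by
        intro h
        rw [h, map_zero] at hX
        exact exp_ne_zero hX.symm
      obtain ⟨c, hc⟩ := Infg.dense_const k K (z / Infg.s k K X ^ (n + 1)) (by
        rw [map_div₀, map_pow, hX, ← exp_nsmul]
        refine div_le_one_of_le₀ (hz.trans ?_) zero_le'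
        rw [exp_le_exp]
        simp)
      have h1 : Infg.w k K (z - Infg.s k K (C c * X ^ (n + 1))) ≤ exp (n : ℤ) := by
        have e : z - Infg.s k K (C c * X ^ (n + 1)) =
            (z / Infg.s k K X ^ (n + 1) - Infg.s k K (C c)) * Infg.s k K X ^ (n + 1) := by
          rw [map_mul, map_pow]
          field_simp
        rw [e, map_mul]
        have h2 : Infg.w k K (z / Infg.s k K X ^ (n + 1) - Infg.s k K (C c)) ≤ exp (-1 : ℤ) := by
          by_cases h0 : Infg.w k K (z / Infg.s k K X ^ (n + 1) - Infg.s k K (C c)) = 0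
          · rw [h0]; exact zero_le'
          · rw [← exp_log h0] at hc ⊢
            rw [← exp_zero, exp_lt_exp] at hc
            rw [exp_le_exp]
            omega
        calc _ ≤ exp (-1 : ℤ) * Infg.w k K (Infg.s k K X ^ (n + 1)) :=
              mul_le_mul_left h2 _
          _ = exp (n : ℤ) := by
            rw [map_pow, hX, ← exp_nsmul, ← exp_add]
            congr 1
            simp
      obtain ⟨g, hg⟩ := ih _ h1
      refine ⟨g + C c * X ^ (n + 1), ?_⟩
      have e : z - Infg.s k K (g + C c * X ^ (n + 1)) =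
          z - Infg.s k K (C c * X ^ (n + 1)) - Infg.s k K g := by
        rw [map_add]; ring
      rw [e]
      exact hg
  by_cases h0 : Infg.w k K z = 0
  · exact key 0 z (by rw [h0]; exact zero_le')
  · apply key (log (Infg.w k K z)).toNat z
    rw [← exp_log h0, exp_le_exp, log_exp]
    exact Int.self_le_toNat _

/-- The reduced pole of `a` at infinity. -/
theorem big_inf {a b : k[X]} (hb : b ≠ 0) (h : Big b a) (z : Infg.LL k K) :
    max 1 (Infg.w k K (Infg.s k K b)) < Infg.w k K (Infg.s k K a + z ^ 2 + z) := by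
  haveI : CharP K 2 := charK k
  haveI : CharP (AtInf K) 2 := charK k (K := K)
  have c2 : (2 : Infg.LL k K) = 0 := CharTwo.two_eq_zero
  obtain ⟨g, hg⟩ := dense_inf z
  have hd := h g
  have hne : a + g ^ 2 + g ≠ 0 := by
    intro h0
    rw [h0] at hd
    simp at hd
  have h1 := Infg.w_s k K hne
  have h2 : (1 : WithZero (Multiplicative ℤ)) ≤ exp (b.natDegree : ℤ) := by
    rw [← exp_zero, exp_le_exp]; positivity
  have h3 : exp (b.natDegree : ℤ) < exp ((a + g ^ 2 + g).natDegree : ℤ) := by
    rw [exp_lt_exp]; exact_mod_cast hd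
  have h4 : Infg.w k K (Infg.s k K a + z ^ 2 + z) = exp ((a + g ^ 2 + g).natDegree : ℤ) := by
    rw [← h1]
    have e : Infg.s k K a + z ^ 2 + z = Infg.s k K (a + g ^ 2 + g) +
        ((z - Infg.s k K g) ^ 2 + (z - Infg.s k K g)) := by
      rw [map_add, map_add, map_pow]
      linear_combination (z * Infg.s k K g - Infg.s k K g ^ 2) * c2
    rw [e]
    apply Valuation.map_add_eq_of_lt_left
    rw [h1]
    refine lt_of_le_of_lt ?_ (lt_of_le_of_lt h2 h3)
    refine (Valuation.map_add _ _ _).trans (max_le ?_ hg)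
    rw [map_pow]
    exact pow_le_one₀ zero_le' hg
  rw [h4, Infg.w_s k K hb, max_eq_right h2]
  exact h3

end pol

end Pool.Agent.H467.CT
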