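import Pool.Agent.H467.CT.Spec4

/-!
# Equidistribution of the matrices of residues (task CT EQD, helper955)

Project CT (helper467).
-/

set_option autoImplicit false
set_option linter.all false

open Polynomial IsDedekindDomain
open Pool.Agent.TH115.GD
open scoped Classical

namespace Pool.Agent.H467.CT.Eqd

section tau

/-- the map of Artin and Schreier -/
def asm (k : Type) [Field k] [CharP k 2] : k →+ k where
  toFun x := x ^ 2 + x
  map_zero' := by ring
  map_add' x y := by
    have h : (2 : k) = 0 := CharTwo.two_eq_zero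
    linear_combination (x * y) * h

variable (k : Type) [Field k] [CharP k 2]

lemma card_ker : Nat.card (asm k).ker = 2 := by
  have h : ((asm k).ker : Set k) = {0, 1} := by
    ext x
    rw [SetLike.mem_coe, AddMonoidHom.mem_ker]
    change x ^ 2 + x = 0 ↔ x = 0 ∨ x = 1
    have e : x ^ 2 + x = x * (x - 1) := by
      have h : (2 : k) = 0 := CharTwo.two_eq_zero
      linear_combination x * h
    rw [e, mul_eq_zero, sub_eq_zero]
  rw [← SetLike.coe_sort_coe, h, Nat.card_coe_set_eq, Set.ncard_pair zero_ne_one]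

lemma index_as [Finite k] : (asm k).range.index = 2 := by
  have h1 := (asm k).ker.card_mul_index
  have h2 := (asm k).range.card_mul_index
  rw [AddSubgroup.index_ker, card_ker] at h1
  rw [← h1, mul_comm] at h2
  have h3 : 0 < Nat.card (asm k).range := Nat.card_pos
  exact Nat.eq_of_mul_eq_mul_right h3 h2

lemma mem_range {x : k} : x ∈ (asm k).range ↔ AS x :=
  ⟨fun ⟨z, hz⟩ => ⟨z, hz.symm⟩, fun ⟨z, hz⟩ => ⟨z, hz.symm⟩⟩

end tau

theorem tau : S_TAU := by
  intro k _ _ _
  have h11 : (1 : ZMod 2) + 1 = 0 := by decide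
  refine ⟨fun x => if AS x then 0 else 1, ⟨?_, ?_⟩⟩
  · intro x y
    have h := AddSubgroup.add_mem_iff_of_index_two (index_as k) (a := x) (b := y)
    rw [mem_range, mem_range, mem_range] at h
    by_cases h1 : AS x <;> by_cases h2 : AS y
    · have h3 : AS (x + y) := h.2 (by tauto)
      simp only [h1, h2, h3, if_true, add_zero]
    · have h3 : ¬ AS (x + y) := fun h4 => h2 ((h.1 h4).1 h1)
      simp only [h1, h2, h3, if_true, if_false, zero_add]
    · have h3 : ¬ AS (x + y) := fun h4 => h1 ((h.1 h4).2 h2)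
      simp only [h1, h2, h3, if_true, if_false, add_zero]
    · have h3 : AS (x + y) := h.2 (by tauto)
      simp only [h1, h2, h3, if_true, if_false, h11]
  · intro x
    by_cases h : AS x
    · simp only [h, if_true]
    · simp only [h, if_false, one_ne_zero]

section count

variable {k : Type} [Field k] [Finite k]

lemma ncard_deg (M : ℕ) : {f : k[X] | f.natDegree ≤ M}.ncard = Nat.card k ^ (M + 1) := by
  have e : {f : k[X] | f.natDegree ≤ M} = (degreeLT k (M + 1) : Set k[X]) := by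
    ext f
    rw [Set.mem_setOf_eq, SetLike.mem_coe, mem_degreeLT]
    by_cases hf : f = 0
    · rw [hf, natDegree_zero, degree_zero]
      exact ⟨fun _ => WithBot.bot_lt_coe _, fun _ => Nat.zero_le _⟩
    · rw [← natDegree_lt_iff_degree_lt hf, Nat.lt_succ_iff]
  rw [e, ← Nat.card_coe_set_eq, SetLike.coe_sort_coe,
    Nat.card_congr (degreeLTEquiv k (M + 1)).toEquiv, Nat.card_fun,
    Nat.card_eq_fintype_card (α := Fin (M + 1)), Fintype.card_fin]

lemma finite_deg (M : ℕ) : {f : k[X] | f.natDegree ≤ M}.Finite := by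
  apply Set.finite_of_ncard_ne_zero
  rw [ncard_deg]
  exact pow_ne_zero _ Nat.card_pos.ne'

variable (K : Type) [Field K] [Algebra k[X] K] [IsFractionRing k[X] K]

omit [Finite k] in
lemma am_ne {q : k[X]} (hq : q ≠ 0) : algebraMap k[X] K q ≠ 0 := by
  rwa [Ne, map_eq_zero_iff _ (IsFractionRing.injective k[X] K)]

omit [Finite k] in
lemma VN_eq {s : Finset k[X]} (hq : (∏ Q ∈ s, Q) ≠ 0) (N : ℕ) : VN K s N =
    (fun f => algebraMap k[X] K f / algebraMap k[X] K (∏ Q ∈ s, Q) ^ N) ''
      {f : k[X] | f.natDegree ≤ N * (1 + (∏ Q ∈ s, Q).natDegree)} := by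
  have hne : algebraMap k[X] K (∏ Q ∈ s, Q) ^ N ≠ 0 := pow_ne_zero _ (am_ne K hq)
  ext a
  rw [Set.mem_image]
  constructor
  · rintro ⟨f, h1, h2⟩
    refine ⟨f, h1, ?_⟩
    show algebraMap k[X] K f / algebraMap k[X] K (∏ Q ∈ s, Q) ^ N = a
    rw [← h2, mul_div_cancel_right₀ _ hne]
  · rintro ⟨f, h1, h2⟩
    refine ⟨f, h1, ?_⟩
    rw [← h2]
    exact div_mul_cancel₀ _ hne

lemma VN_ncard {s : Finset k[X]} (hq : (∏ Q ∈ s, Q) ≠ 0) (N : ℕ) :
    (VN K s N).ncard = Nat.card k ^ (N * (1 + (∏ Q ∈ s, Q).natDegree) + 1) := by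
  have hne : algebraMap k[X] K (∏ Q ∈ s, Q) ^ N ≠ 0 := pow_ne_zero _ (am_ne K hq)
  rw [VN_eq K hq, Set.ncard_image_of_injective, ncard_deg]
  intro f g h
  apply IsFractionRing.injective k[X] K
  exact (div_left_inj' hne).1 h

lemma VN_finite {s : Finset k[X]} (hq : (∏ Q ∈ s, Q) ≠ 0) (N : ℕ) : (VN K s N).Finite := by
  rw [VN_eq K hq]
  exact (finite_deg _).image _

variable {K}

omit [Finite k] [IsFractionRing k[X] K] in
lemma mem_VN {s : Finset k[X]} {a : K} {n : ℕ} {f : k[X]}
    (h : a * algebraMap k[X] K (∏ Q ∈ s, Q) ^ n = algebraMap k[X] K f) :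
    a ∈ VN K s (n + f.natDegree) := by
  refine ⟨f * (∏ Q ∈ s, Q) ^ f.natDegree, ?_, ?_⟩
  · refine natDegree_mul_le.trans ((Nat.add_le_add_left natDegree_pow_le _).trans ?_)
    nlinarith [Nat.zero_le (n * (1 + (∏ Q ∈ s, Q).natDegree))]
  · rw [pow_add, ← mul_assoc, h, map_mul, map_pow]

omit [Finite k] [IsFractionRing k[X] K] in
lemma VN_succ {s : Finset k[X]} {a : K} {n : ℕ} (h : a ∈ VN K s n) : a ∈ VN K s (n + 1) := by
  obtain ⟨f, h1, h2⟩ := h
  refine ⟨f * (∏ Q ∈ s, Q), ?_, ?_⟩
  · refine natDegree_mul_le.trans ?_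
    nlinarith [h1]
  · rw [pow_succ, ← mul_assoc, h2, map_mul]

omit [Finite k] [IsFractionRing k[X] K] in
lemma VN_mono {s : Finset k[X]} {a : K} {n m : ℕ} (hnm : n ≤ m) (h : a ∈ VN K s n) :
    a ∈ VN K s m := by
  induction m, hnm using Nat.le_induction with
  | base => exact h
  | succ m _ ih => exact VN_succ ih

omit [Finite k] [IsFractionRing k[X] K] in
lemma VN_zero {s : Finset k[X]} {n : ℕ} : (0 : K) ∈ VN K s n :=
  ⟨0, by rw [natDegree_zero]; exact Nat.zero_le _, by rw [zero_mul, map_zero]⟩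

omit [Finite k] [IsFractionRing k[X] K] in
lemma VN_add {s : Finset k[X]} {a b : K} {n : ℕ} (ha : a ∈ VN K s n) (hb : b ∈ VN K s n) :
    a + b ∈ VN K s n := by
  obtain ⟨f, h1, h2⟩ := ha
  obtain ⟨g, h3, h4⟩ := hb
  exact ⟨f + g, (natDegree_add_le _ _).trans (max_le h1 h3), by rw [add_mul, h2, h4, map_add]⟩

omit [Finite k] [IsFractionRing k[X] K] in
lemma VN_neg {s : Finset k[X]} {a : K} {n : ℕ} (ha : a ∈ VN K s n) :
    -a ∈ VN K s n := by
  obtain ⟨f, h1, h2⟩ := ha
  exact ⟨-f, by rwa [natDegree_neg], by rw [neg_mul, h2, map_neg]⟩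

end count

section matr

variable {k : Type} [Field k] [Finite k] [CharP k 2] {K : Type} [Field K] [Algebra k[X] K]
  [IsFractionRing k[X] K]

lemma tau_zero {τ : k → ZMod 2} (hτ : IsTau τ) : τ 0 = 0 := (hτ.zero 0).2 ⟨0, by ring⟩

lemma tau_sum {τ : k → ZMod 2} (hτ : IsTau τ) {ι : Type*} (t : Finset ι) (f : ι → k) :
    τ (∑ i ∈ t, f i) = ∑ i ∈ t, τ (f i) := by
  induction t using Finset.induction_on with
  | empty => rw [Finset.sum_empty, Finset.sum_empty, tau_zero hτ]
  | insert a s ha ih => rw [Finset.sum_insert ha, Finset.sum_insert ha, hτ.add, ih]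

lemma r_zero (ρ : Res k K) (v : HeightOneSpectrum k[X]) : ρ.r v 0 = 0 := by
  have := ρ.r_sq v 0
  rwa [zero_pow two_ne_zero] at this

lemma r_sum (ρ : Res k K) (v : HeightOneSpectrum k[X]) {ι : Type*} (t : Finset ι) (f : ι → K) :
    ρ.r v (∑ i ∈ t, f i) = ∑ i ∈ t, ρ.r v (f i) := by
  induction t using Finset.induction_on with
  | empty => rw [Finset.sum_empty, Finset.sum_empty, r_zero]
  | insert a s ha ih => rw [Finset.sum_insert ha, Finset.sum_insert ha, ρ.r_add, ih]

lemma dlg_one : dlg K (1 : k[X]) = 0 := by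
  unfold dlg
  rw [derivative_one, map_zero, zero_div]

lemma dlg_prod {ι : Type*} (t : Finset ι) (f : ι → k[X]) (h : ∀ i ∈ t, f i ≠ 0) :
    dlg K (∏ i ∈ t, f i) = ∑ i ∈ t, dlg K (f i) := by
  induction t using Finset.induction_on with
  | empty => rw [Finset.prod_empty, Finset.sum_empty, dlg_one]
  | insert a s ha ih =>
    rw [Finset.prod_insert ha, Finset.sum_insert ha, dlg_mul (h a (Finset.mem_insert_self _ _))
      (Finset.prod_ne_zero_iff.2 fun i hi => h i (Finset.mem_insert_of_mem hi)),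
      ih fun i hi => h i (Finset.mem_insert_of_mem hi)]

lemma val_one (v : HeightOneSpectrum k[X]) {P : k[X]} (hP : P ∉ v.asIdeal) :
    v.valuation K (algebraMap k[X] K P) = 1 := by
  rw [HeightOneSpectrum.valuation_of_algebraMap]
  apply le_antisymm (v.intValuation_le_one P)
  rw [← not_lt, HeightOneSpectrum.intValuation_lt_one_iff_mem]
  exact hP

lemma pr_eq (v : HeightOneSpectrum k[X]) {P : k[X]} (hP : Irreducible P) (h : P ∈ v.asIdeal) :
    v = Infg.pr P hP := by
  apply HeightOneSpectrum.ext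
  have h2 : Ideal.span {P} ≤ v.asIdeal := by
    rw [Ideal.span_singleton_le_iff_mem]; exact h
  exact ((Infg.pr P hP).isMaximal.eq_of_le v.isPrime.ne_top h2).symm

lemma pr_inj {P Q : k[X]} (hP : Irreducible P) (hQ : Irreducible Q) (mP : P.Monic) (mQ : Q.Monic)
    (h : P ∈ (Infg.pr Q hQ).asIdeal) : P = Q := by
  have h1 : P ∈ Ideal.span {Q} := h
  rw [Ideal.mem_span_singleton] at h1
  exact (eq_of_monic_of_associated mQ mP (hQ.associated_of_dvd hP h1)).symm

/-- the rows of the matrix have sum zero -/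
lemma mat_row (ρ : Res k K) {τ : k → ZMod 2} (hτ : IsTau τ) {s : Finset k[X]}
    (hs : ∀ Q ∈ s, Irreducible Q) (hm : ∀ Q ∈ s, Q.Monic) {N : ℕ} {a : K} (ha : a ∈ VN K s N)
    (i : s) : ∑ j, mat ρ τ hs a i j = 0 := by
  have hinj : Set.InjOn (fun j : s => Infg.pr j.1 (hs j.1 j.2)) (Finset.univ : Finset s) := by
    intro j _ l _ hjl
    apply Subtype.ext
    apply pr_inj (hs j.1 j.2) (hs l.1 l.2) (hm j.1 j.2) (hm l.1 l.2)
    have h1 : Infg.pr j.1 (hs j.1 j.2) = Infg.pr l.1 (hs l.1 l.2) := hjl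
    rw [← h1]
    exact Ideal.mem_span_singleton_self _
  have h1 : ρ.ri (a * dlg K i.1) = ∑ j : s, ρ.r (Infg.pr j.1 (hs j.1 j.2)) (a * dlg K i.1) := by
    rw [ρ.sum (a * dlg K i.1) ((Finset.univ : Finset s).image
      fun j : s => Infg.pr j.1 (hs j.1 j.2)), Finset.sum_image hinj]
    intro v hv
    have h2 : ∀ Q (hQ : Q ∈ s), Q ∉ v.asIdeal := by
      intro Q hQ h3
      apply hv
      rw [Finset.mem_image]
      exact ⟨⟨Q, hQ⟩, Finset.mem_univ _, (pr_eq v (hs Q hQ) h3).symm⟩
    obtain ⟨f, -, hf⟩ := ha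
    have hq : v.valuation K (algebraMap k[X] K (∏ Q ∈ s, Q)) = 1 := by
      rw [map_prod, map_prod]
      exact Finset.prod_eq_one fun Q hQ => val_one v (h2 Q hQ)
    have ha' : v.valuation K a ≤ 1 := by
      have h4 := congrArg (v.valuation K) hf
      rw [map_mul, map_pow, hq, one_pow, mul_one] at h4
      rw [h4]
      exact v.valuation_le_one _
    have hd : v.valuation K (dlg K i.1) ≤ 1 := by
      unfold dlg
      rw [map_div₀, val_one v (h2 i.1 i.2), div_one]
      exact v.valuation_le_one _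
    rw [map_mul]
    exact mul_le_one' ha' hd
  rw [Fintype.sum_option]
  show τ (ρ.ri (a * dlg K i.1)) + ∑ j : s, τ (ρ.r (Infg.pr j.1 (hs j.1 j.2)) (a * dlg K i.1)) = 0
  rw [h1, tau_sum hτ]
  exact CharTwo.add_self_eq_zero _

lemma mat_add (ρ : Res k K) {τ : k → ZMod 2} (hτ : IsTau τ) {s : Finset k[X]}
    (hs : ∀ Q ∈ s, Irreducible Q) (a b : K) (i : s) (j : Option s) :
    mat ρ τ hs (a + b) i j = mat ρ τ hs a i j + mat ρ τ hs b i j := by
  cases j with
  | none =>
    show τ (ρ.ri ((a + b) * dlg K i.1)) = τ (ρ.ri (a * dlg K i.1)) + τ (ρ.ri (b * dlg K i.1))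
    rw [add_mul, ρ.ri_add, hτ.add]
  | some j =>
    show τ (ρ.r _ ((a + b) * dlg K i.1)) = τ (ρ.r _ (a * dlg K i.1)) + τ (ρ.r _ (b * dlg K i.1))
    rw [add_mul, ρ.r_add, hτ.add]

lemma mat_zero (ρ : Res k K) {τ : k → ZMod 2} (hτ : IsTau τ) {s : Finset k[X]}
    (hs : ∀ Q ∈ s, Irreducible Q) (i : s) (j : Option s) :
    mat ρ τ hs 0 i j = 0 := by
  have h := mat_add ρ hτ hs 0 0 i j
  rw [add_zero] at h
  exact left_eq_add.1 h

/-- the residue of a simple pole -/
lemma r_g (ρ : Res k K) {Q : k[X]} (hQ : Irreducible Q) (hm : Q.Monic) (c0 : k) :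
    ρ.r (Infg.pr Q hQ) (algebraMap k[X] K (C c0 * X ^ (Q.natDegree - 1)) /
      algebraMap k[X] K Q) = c0 := by
  have hpos := hQ.natDegree_pos
  rw [ρ.simple _ Q _ hm hQ rfl, (modByMonic_eq_self_iff hm).2, coeff_C_mul_X_pow, if_pos rfl]
  refine (degree_C_mul_X_pow_le _ _).trans_lt ?_
  rw [degree_eq_natDegree hm.ne_zero]
  exact_mod_cast Nat.sub_lt hpos one_pos

/-- a nonempty product of different monic irreducible polynomials is not a square -/
lemma der_ne {s : Finset k[X]} (hs : ∀ Q ∈ s, Irreducible Q) (hm : ∀ Q ∈ s, Q.Monic)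
    (t : Finset s) {i : s} (hi : i ∈ t) : derivative (∏ j ∈ t, j.1) ≠ 0 := by
  intro h
  obtain ⟨u, w, h1, h2⟩ := poly_dec (∏ j ∈ t, j.1)
  rw [h] at h2
  have hw : w = 0 := by
    by_contra hw
    exact pow_ne_zero 2 hw h2.symm
  rw [hw, zero_pow two_ne_zero, mul_zero, add_zero] at h1
  have hp : Prime i.1 := (hs i.1 i.2).prime
  have h3 : i.1 ∣ u ^ 2 := by
    rw [← h1]
    exact Finset.dvd_prod_of_mem _ hi
  obtain ⟨u', rfl⟩ := hp.dvd_of_dvd_pow h3
  rw [← Finset.mul_prod_erase t _ hi] at h1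
  have h4 : ∏ x ∈ t.erase i, x.1 = i.1 * u' ^ 2 := by
    apply mul_left_cancel₀ hp.ne_zero
    rw [h1]
    ring
  have h5 : i.1 ∣ ∏ x ∈ t.erase i, x.1 := ⟨_, h4⟩
  obtain ⟨x, hx, h6⟩ := hp.exists_mem_finset_dvd h5
  rw [Finset.mem_erase] at hx
  apply hx.1
  apply Subtype.ext
  exact (eq_of_monic_of_associated (hm i.1 i.2) (hm x.1 x.2)
    ((hs i.1 i.2).associated_of_dvd (hs x.1 x.2) h6)).symm

lemma z2 (x : ZMod 2) (h : x ≠ 0) : x = 1 := by
  revert x
  decide

/-- no linear relation holds between the entries of all matrices -/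
lemma exists_a (ρ : Res k K) {τ : k → ZMod 2} (hτ : IsTau τ) {s : Finset k[X]}
    (hs : ∀ Q ∈ s, Irreducible Q) (hm : ∀ Q ∈ s, Q.Monic) (c : s → s → ZMod 2)
    (hc : ∃ i j, c i j ≠ 0) :
    ∃ (N : ℕ) (a : K), a ∈ VN K s N ∧ ∑ j, ∑ i, c i j * mat ρ τ hs a i (some j) ≠ 0 := by
  obtain ⟨i₀, j₀, hij⟩ := hc
  -- a constant
  obtain ⟨c0, hc0⟩ : ∃ c0 : k, τ c0 ≠ 0 := by
    by_contra hcon
    push Not at hcon
    have h1 : (asm k).range = ⊤ := by
      rw [eq_top_iff]
      intro x _
      rw [mem_range]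
      exact (hτ.zero x).1 (hcon x)
    have h2 := index_as k
    rw [h1, AddSubgroup.index_top] at h2
    norm_num at h2
  set d : s → k[X] := fun j => ∏ i ∈ Finset.univ.filter (fun i : s => c i j ≠ 0), i.1 with hd
  have hdne : ∀ j, d j ≠ 0 := fun j =>
    Finset.prod_ne_zero_iff.2 fun i _ => (hs i.1 i.2).ne_zero
  -- the sums
  have hsum : ∀ (a : K) (j : s), ∑ i, c i j * mat ρ τ hs a i (some j) =
      τ (ρ.r (Infg.pr j.1 (hs j.1 j.2)) (a * dlg K (d j))) := by
    intro a j
    have e1 : ∑ i, c i j * mat ρ τ hs a i (some j) =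
        ∑ i ∈ Finset.univ.filter (fun i : s => c i j ≠ 0), mat ρ τ hs a i (some j) := by
      rw [Finset.sum_filter]
      apply Finset.sum_congr rfl
      intro i _
      split_ifs with h
      · rw [z2 _ h, one_mul]
      · rw [not_not.1 h, zero_mul]
    rw [e1, hd]
    simp only
    rw [dlg_prod _ _ fun i _ => (hs i.1 i.2).ne_zero, Finset.mul_sum, r_sum, tau_sum hτ]
    rfl
  set Q : k[X] := j₀.1 with hQdef
  have hQ : Irreducible Q := hs j₀.1 j₀.2
  have mQ : Q.Monic := hm j₀.1 j₀.2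
  set q1 : k[X] := ∏ i ∈ Finset.univ.erase j₀, i.1 with hq1
  have hq0 : ∏ P ∈ s, P = Q * q1 := by
    rw [hq1, Finset.mul_prod_erase Finset.univ (fun i : s => i.1) (Finset.mem_univ j₀),
      Finset.prod_coe_sort s (fun P => P)]
  have hcop : IsCoprime q1 Q := by
    rw [hq1]
    apply IsCoprime.prod_left
    intro i hi
    rw [Finset.mem_erase] at hi
    rw [(hs i.1 i.2).coprime_iff_not_dvd]
    intro h
    apply hi.1
    apply Subtype.ext
    exact eq_of_monic_of_associated (hm i.1 i.2) (hm j₀.1 j₀.2)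
      ((hs i.1 i.2).associated_of_dvd (hs j₀.1 j₀.2) h)
  have hD : derivative (d j₀) ≠ 0 :=
    der_ne hs hm _ (i := i₀) (Finset.mem_filter.2 ⟨Finset.mem_univ _, hij⟩)
  have hfin : FiniteMultiplicity Q (derivative (d j₀)) :=
    FiniteMultiplicity.of_not_isUnit hQ.not_isUnit hD
  obtain ⟨Ds, hDs, hnd⟩ := hfin.exists_eq_pow_mul_and_not_dvd
  set m := multiplicity Q (derivative (d j₀)) with hmdef
  clear_value m
  have hcop2 : IsCoprime (q1 ^ (m + 2) * Ds) (Q ^ (m + 2)) := by
    apply IsCoprime.pow_right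
    exact (hcop.pow_left).mul_left ((hQ.coprime_iff_not_dvd.2 hnd).symm)
  obtain ⟨α, β, hαβ⟩ := hcop2
  set g0 : k[X] := C c0 * X ^ (Q.natDegree - 1) with hg0
  have hQK : algebraMap k[X] K Q ≠ 0 := am_ne K hQ.ne_zero
  set F : k[X] := α * q1 ^ (m + 2) * (g0 * d j₀) with hF
  set a : K := algebraMap k[X] K F / algebraMap k[X] K Q ^ (m + 1) with ha
  have hmem : a * algebraMap k[X] K (∏ P ∈ s, P) ^ (m + 1) =
      algebraMap k[X] K (F * q1 ^ (m + 1)) := by
    rw [hq0, ha]
    simp only [map_mul, map_pow, mul_pow]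
    field_simp
  refine ⟨_, a, mem_VN hmem, ?_⟩
  have hsum2 : ∑ j, ∑ i, c i j * mat ρ τ hs a i (some j) = τ c0 := by
    rw [Finset.sum_congr rfl fun j _ => hsum a j, Finset.sum_eq_single j₀]
    · -- the main term
      have hdK : algebraMap k[X] K (d j₀) ≠ 0 := am_ne K (hdne j₀)
      have e1 : a * dlg K (d j₀) = algebraMap k[X] K g0 / algebraMap k[X] K Q +
          algebraMap k[X] K (-(g0 * β * Q ^ (m + 1))) := by
        have e2 : algebraMap k[X] K α * (algebraMap k[X] K q1 ^ (m + 2) * algebraMap k[X] K Ds) =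
            1 - algebraMap k[X] K β * algebraMap k[X] K Q ^ (m + 2) := by
          have := congrArg (algebraMap k[X] K) hαβ
          rw [map_add, map_mul, map_mul, map_mul, map_pow, map_pow, map_one] at this
          linear_combination this
        have e3 : algebraMap k[X] K (derivative (d j₀)) =
            algebraMap k[X] K Q ^ m * algebraMap k[X] K Ds := by
          rw [hDs, map_mul, map_pow]
        unfold dlg
        rw [e3, ha, hF]
        simp only [map_mul, map_pow, map_neg]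
        generalize algebraMap k[X] K Q = q at *
        generalize algebraMap k[X] K (d j₀) = dd at *
        generalize algebraMap k[X] K g0 = gg at *
        have e4 : algebraMap k[X] K α * algebraMap k[X] K q1 ^ (m + 2) * (gg * dd) / q ^ (m + 1) *
            (q ^ m * algebraMap k[X] K Ds / dd) =
            gg / q * (algebraMap k[X] K α * (algebraMap k[X] K q1 ^ (m + 2) *
              algebraMap k[X] K Ds)) := by
          field_simp
          ring
        rw [e4, e2]
        field_simp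
        ring
      rw [e1, ρ.r_add]
      have e5 : ρ.r (Infg.pr j₀.1 (hs j₀.1 j₀.2))
          (algebraMap k[X] K (-(g0 * β * Q ^ (m + 1)))) = 0 :=
        ρ.r_int _ _ (HeightOneSpectrum.valuation_le_one _ _)
      rw [e5, add_zero]
      exact congrArg τ (r_g ρ (hs j₀.1 j₀.2) (hm j₀.1 j₀.2) c0)
    · -- the other terms
      intro j _ hj
      have hdvd : d j ∣ Q * q1 := by
        rw [← hq0, ← Finset.prod_coe_sort s (fun P => P)]
        exact Finset.prod_dvd_prod_of_subset _ _ _ (Finset.subset_univ _)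
      obtain ⟨t, ht⟩ := hdvd
      have hdK : algebraMap k[X] K (d j) ≠ 0 := am_ne K (hdne j)
      have e1 : a * dlg K (d j) = algebraMap k[X] K (α * q1 ^ (m + 1) * (g0 * d j₀) *
          derivative (d j) * t) / algebraMap k[X] K Q ^ (m + 2) := by
        have e2 : algebraMap k[X] K Q * algebraMap k[X] K q1 =
            algebraMap k[X] K (d j) * algebraMap k[X] K t := by
          rw [← map_mul, ht, map_mul]
        unfold dlg
        rw [ha, hF]
        simp only [map_mul, map_pow]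
        rw [div_mul_div_comm, div_eq_div_iff (mul_ne_zero (pow_ne_zero _ hQK) hdK)
          (pow_ne_zero _ hQK)]
        rw [pow_succ (algebraMap k[X] K q1) (m + 1), pow_succ (algebraMap k[X] K Q) (m + 1)]
        linear_combination (algebraMap k[X] K α * algebraMap k[X] K q1 ^ (m + 1) *
          (algebraMap k[X] K g0 * algebraMap k[X] K (d j₀)) *
          algebraMap k[X] K (derivative (d j)) * algebraMap k[X] K Q ^ (m + 1)) * e2
      have hv : (Infg.pr j.1 (hs j.1 j.2)).valuation K (algebraMap k[X] K Q) = 1 := by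
        apply val_one
        intro h
        apply hj
        apply Subtype.ext
        exact (pr_inj (hs j₀.1 j₀.2) (hs j.1 j.2) (hm j₀.1 j₀.2) (hm j.1 j.2) h).symm
      rw [e1, ρ.r_int, tau_zero hτ]
      rw [map_div₀, map_pow, hv, one_pow, div_one]
      exact HeightOneSpectrum.valuation_le_one _ _
    · intro h
      exact absurd (Finset.mem_univ _) h
  rw [hsum2]
  exact hc0

lemma z2' (x : ZMod 2) : x = 0 ∨ x = 1 := by
  revert x
  decide

/-- the matrices without the column at infinity are arbitrary -/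
lemma surj (ρ : Res k K) {τ : k → ZMod 2} (hτ : IsTau τ) {s : Finset k[X]}
    (hs : ∀ Q ∈ s, Irreducible Q) (hm : ∀ Q ∈ s, Q.Monic) :
    ∃ N₀ : ℕ, ∀ T : s × s → ZMod 2, ∃ a ∈ VN K s N₀, ∀ i j,
      mat ρ τ hs a i (some j) = T (i, j) := by
  let H : Submodule (ZMod 2) (s × s → ZMod 2) :=
    { carrier := {T | ∃ (N : ℕ) (a : K), a ∈ VN K s N ∧ ∀ i j,
        mat ρ τ hs a i (some j) = T (i, j)}
      add_mem' := by
        rintro T T' ⟨N, a, ha, h⟩ ⟨N', a', ha', h'⟩
        refine ⟨max N N', a + a', VN_add (VN_mono (le_max_left _ _) ha)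
          (VN_mono (le_max_right _ _) ha'), fun i j => ?_⟩
        rw [mat_add ρ hτ, h, h']
        rfl
      zero_mem' := ⟨0, 0, VN_zero, fun i j => mat_zero ρ hτ hs i _⟩
      smul_mem' := by
        rintro x T ⟨N, a, ha, h⟩
        rcases z2' x with rfl | rfl
        · refine ⟨0, 0, VN_zero, fun i j => ?_⟩
          rw [mat_zero ρ hτ hs i _, zero_smul]
          rfl
        · rw [one_smul]
          exact ⟨N, a, ha, h⟩ }
  have htop : H = ⊤ := by
    by_contra hne
    obtain ⟨f, hf, hle⟩ := Submodule.exists_le_ker_of_lt_top H (lt_top_iff_ne_top.2 hne)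
    have hex : ∃ i j, (fun i j : s => f fun p => if (i, j) = p then 1 else 0) i j ≠ 0 := by
      by_contra hcon
      push Not at hcon
      apply hf
      apply LinearMap.ext
      intro T
      rw [LinearMap.pi_apply_eq_sum_univ f T]
      apply Finset.sum_eq_zero
      rintro ⟨i, j⟩ _
      rw [hcon i j, smul_zero]
    obtain ⟨N, a, ha, hsum⟩ := exists_a ρ hτ hs hm _ hex
    apply hsum
    have h1 : (fun p : s × s => mat ρ τ hs a p.1 (some p.2)) ∈ H := ⟨N, a, ha, fun i j => rfl⟩
    have h2 := hle h1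
    rw [LinearMap.mem_ker, LinearMap.pi_apply_eq_sum_univ f, Fintype.sum_prod_type_right] at h2
    refine Eq.trans ?_ h2
    apply Finset.sum_congr rfl
    intro j _
    apply Finset.sum_congr rfl
    intro i _
    rw [smul_eq_mul, mul_comm]
  have h1 : ∀ T : s × s → ZMod 2, ∃ (N : ℕ) (a : K), a ∈ VN K s N ∧ ∀ i j,
      mat ρ τ hs a i (some j) = T (i, j) := by
    intro T
    have : T ∈ H := by rw [htop]; exact Submodule.mem_top
    exact this
  choose N a ha h using h1
  refine ⟨Finset.univ.sup N, fun T => ⟨a T, VN_mono (Finset.le_sup (Finset.mem_univ T)) (ha T),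
    h T⟩⟩

end matr

theorem eqd : S_EQD := by
  intro k K _ _ _ _ _ _ ρ τ hτ s hs hm
  have hq : (∏ Q ∈ s, Q) ≠ 0 := Finset.prod_ne_zero_iff.2 fun Q hQ => (hs Q hQ).ne_zero
  refine ⟨fun N => VN_ncard K hq N, ?_⟩
  obtain ⟨N₀, hN₀⟩ := surj ρ hτ hs hm
  refine ⟨N₀, fun N hN T hT => ?_⟩
  let A : AddSubgroup K :=
    { carrier := VN K s N
      add_mem' := fun ha hb => VN_add ha hb
      zero_mem' := VN_zero
      neg_mem' := fun ha => VN_neg ha }
  let φ : A →+ (s × s → ZMod 2) :=
    { toFun := fun a p => mat ρ τ hs a.1 p.1 (some p.2)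
      map_zero' := by
        funext p
        exact mat_zero ρ hτ hs _ _
      map_add' := fun a b => by
        funext p
        exact mat_add ρ hτ hs _ _ _ _ }
  have hA : Finite A := (VN_finite K hq N).to_subtype
  letI : Fintype A := Fintype.ofFinite A
  have hφ : Function.Surjective φ := by
    intro T'
    obtain ⟨a, ha, h⟩ := hN₀ T'
    refine ⟨⟨a, VN_mono hN ha⟩, ?_⟩
    funext p
    exact h p.1 p.2
  set T' : s × s → ZMod 2 := fun p => T p.1 (some p.2) with hT'
  -- the fibre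
  have e1 : {a ∈ VN K s N | mat ρ τ hs a = T} =
      Subtype.val '' ((Finset.univ.filter fun a : A => φ a = T' : Finset A) : Set A) := by
    ext a
    constructor
    · rintro ⟨ha, h⟩
      refine ⟨⟨a, ha⟩, ?_, rfl⟩
      rw [Finset.mem_coe, Finset.mem_filter]
      refine ⟨Finset.mem_univ _, ?_⟩
      funext p
      show mat ρ τ hs a p.1 (some p.2) = T p.1 (some p.2)
      rw [h]
    · rintro ⟨b, hb, rfl⟩
      rw [Finset.mem_coe, Finset.mem_filter] at hb
      refine ⟨b.2, ?_⟩
      have hb2 : ∀ i j, mat ρ τ hs b.1 i (some j) = T i (some j) := fun i j =>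
        congrFun hb.2 (i, j)
      funext i j
      cases j with
      | some j => exact hb2 i j
      | none =>
        have h1 := mat_row ρ hτ hs hm b.2 i
        have h2 := hT i
        rw [Fintype.sum_option] at h1 h2
        rw [Finset.sum_congr rfl fun j _ => hb2 i j] at h1
        exact add_right_cancel (h1.trans h2.symm)
  rw [e1, Set.ncard_image_of_injective _ Subtype.val_injective, Set.ncard_coe_finset]
  have e2 : (VN K s N).ncard = Fintype.card A := by
    rw [← Nat.card_coe_set_eq, ← Nat.card_eq_fintype_card]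
    rfl
  have e3 : Fintype.card A = ∑ y : s × s → ZMod 2,
      (Finset.univ.filter fun a : A => φ a = y).card := by
    rw [← Finset.card_univ]
    exact Finset.card_eq_sum_card_fiberwise fun _ _ => Finset.mem_coe.2 (Finset.mem_univ _)
  rw [e2, e3, Finset.sum_congr rfl fun y _ =>
    AddMonoidHom.card_fiber_eq_of_mem_range φ (hφ y) (hφ T'), Finset.sum_const, smul_eq_mul,
    Finset.card_univ, Fintype.card_fun, ZMod.card, Fintype.card_prod, Fintype.card_coe, mul_comm,
    sq]

end Pool.Agent.H467.CT.Eqd
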