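import Pool.Agent.H467.CT.Spec3

/-!
# Project CT: finitely many points if doubling is bijective
-/

set_option autoImplicit false
set_option linter.all false

open Polynomial WeierstrassCurve WeierstrassCurve.Affine
open scoped Classical

namespace Pool.Agent.H467.CT.Fin

open Pool.Agent.H467.CT

section height

variable {k K : Type} [Field k] [Field K] [Algebra k[X] K] [IsFractionRing k[X] K]

/-- numerator -/
noncomputable def nu (x : K) : k[X] := IsFractionRing.num k[X] x

/-- denominator -/
noncomputable def de (x : K) : k[X] := (IsFractionRing.den k[X] x : k[X])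

theorem de_ne (x : K) : (de x : k[X]) ≠ 0 :=
  nonZeroDivisors.ne_zero (IsFractionRing.den k[X] x).2

theorem copr (x : K) : IsCoprime (nu x : k[X]) (de x) :=
  (IsFractionRing.num_den_reduced k[X] x).isCoprime

theorem am_inj : Function.Injective (algebraMap k[X] K) := IsFractionRing.injective k[X] K

theorem am_ne {p : k[X]} (hp : p ≠ 0) : algebraMap k[X] K p ≠ 0 := by
  intro h
  rw [← map_zero (algebraMap k[X] K)] at h
  exact hp (am_inj h)

theorem mul_de (x : K) : x * algebraMap k[X] K (de x) = algebraMap k[X] K (nu x) := by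
  have h := IsFractionRing.mk'_num_den' k[X] x
  rw [div_eq_iff (am_ne (de_ne x))] at h
  exact h.symm

theorem nu_ne {x : K} (hx : x ≠ 0) : (nu x : k[X]) ≠ 0 := by
  intro h
  have h1 := mul_de (k := k) x
  rw [h, map_zero] at h1
  rcases mul_eq_zero.1 h1 with h2 | h2
  · exact hx h2
  · exact am_ne (de_ne x) h2

variable (k) in
/-- the height -/
noncomputable def hh (x : K) : ℕ := max (nu x : k[X]).natDegree (de x : k[X]).natDegree

theorem fin_deg [Finite k] (n : ℕ) : {p : k[X] | p.natDegree ≤ n}.Finite := by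
  have h1 : Function.Injective fun p : {p : k[X] | p.natDegree ≤ n} =>
      fun i : Fin (n + 1) => p.1.coeff i := by
    intro p q h
    apply Subtype.ext
    ext i
    by_cases hi : i < n + 1
    · exact congrFun h ⟨i, hi⟩
    · have h2 : p.1.natDegree ≤ n := p.2
      have h3 : q.1.natDegree ≤ n := q.2
      rw [coeff_eq_zero_of_natDegree_lt (by omega), coeff_eq_zero_of_natDegree_lt (by omega)]
  have h2 := Finite.of_injective _ h1
  exact Set.toFinite _

theorem fin_hh [Finite k] (n : ℕ) : {x : K | hh k x ≤ n}.Finite := by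
  refine Set.Finite.of_finite_image (f := fun x : K => ((nu x : k[X]), (de x : k[X])))
    (((fin_deg (k := k) n).prod (fin_deg (k := k) n)).subset ?_) ?_
  · rintro _ ⟨x, hx, rfl⟩
    have hx' : max (nu x : k[X]).natDegree (de x : k[X]).natDegree ≤ n := hx
    exact ⟨show (nu x : k[X]).natDegree ≤ n from (le_max_left _ _).trans hx',
      show (de x : k[X]).natDegree ≤ n from (le_max_right _ _).trans hx'⟩
  · intro x _ y _ hxy
    have h1 := congrArg Prod.fst hxy
    have h2 := congrArg Prod.snd hxy
    dsimp only at h1 h2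
    have h3 := mul_de (k := k) x
    have h4 := mul_de (k := k) y
    rw [h1, h2, ← h4] at h3
    exact mul_right_cancel₀ (am_ne (de_ne y)) h3

/-- the height of a quotient of polynomials -/
theorem hh_ge (X : K) (A D : k[X]) (hX : X * algebraMap k[X] K D = algebraMap k[X] K A)
    (M : k[X]) (hM : M ≠ 0) (hD : D ≠ 0) (hdiv : ∀ c : k[X], c ∣ A → c ∣ D → c ∣ M) :
    max A.natDegree D.natDegree ≤ hh k X + M.natDegree := by
  have h1 : (nu X : k[X]) * D = A * de X := by
    apply am_inj (K := K)
    rw [map_mul, map_mul, ← mul_de, ← hX]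
    ring
  have h2 : (de X : k[X]) ∣ D := by
    have h3 : (de X : k[X]) ∣ nu X * D := ⟨A, by rw [h1]; ring⟩
    exact (copr X).symm.dvd_of_dvd_mul_left h3
  obtain ⟨c, hc⟩ := h2
  have h4 : A = nu X * c := by
    apply mul_right_cancel₀ (de_ne (k := k) X)
    rw [← h1, hc]
    ring
  have h5 : c ∣ M := hdiv c ⟨nu X, by rw [h4]; ring⟩ ⟨de X, by rw [hc]; ring⟩
  have h6 : c.natDegree ≤ M.natDegree := natDegree_le_of_dvd h5 hM
  have h7 : A.natDegree ≤ (nu X : k[X]).natDegree + c.natDegree := by
    rw [h4]
    exact natDegree_mul_le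
  have h8 : D.natDegree ≤ (de X : k[X]).natDegree + c.natDegree := by
    rw [hc]
    exact natDegree_mul_le
  unfold hh
  rcases max_cases A.natDegree D.natDegree with ⟨e, -⟩ | ⟨e, -⟩ <;> rw [e] <;>
    rcases max_cases (nu X : k[X]).natDegree (de X : k[X]).natDegree with ⟨e', e''⟩ | ⟨e', e''⟩ <;>
    rw [e'] <;> omega

/-- the key estimate -/
theorem key [CharP K 2] [CharP k 2] (b : K) (hb : b ≠ 0) : ∃ C : ℕ, ∀ x X : K, x ≠ 0 →
    X * x ^ 2 = x ^ 4 + b → 4 * hh k x ≤ hh k X + C := by
  set B : k[X] := nu b with hB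
  set G : k[X] := de b with hG
  have hB0 : B ≠ 0 := nu_ne hb
  have hG0 : G ≠ 0 := de_ne b
  have hbG : b * algebraMap k[X] K G = algebraMap k[X] K B := mul_de b
  refine ⟨(G ^ 2 * B).natDegree + B.natDegree, fun x X hx hX => ?_⟩
  set f : k[X] := nu x with hf
  set g : k[X] := de x with hg
  have hf0 : f ≠ 0 := nu_ne hx
  have hg0 : g ≠ 0 := de_ne x
  have hfg : IsCoprime f g := copr x
  have hxg : x * algebraMap k[X] K g = algebraMap k[X] K f := mul_de x
  set A : k[X] := G * f ^ 4 + B * g ^ 4 with hA
  set D : k[X] := G * f ^ 2 * g ^ 2 with hD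
  have hXA : X * algebraMap k[X] K D = algebraMap k[X] K A := by
    rw [hD, hA]
    simp only [map_mul, map_add, map_pow]
    rw [← hxg, ← hbG]
    linear_combination (algebraMap k[X] K G) * (algebraMap k[X] K g) ^ 4 * hX
  have i1 : G * f ^ 2 * A - B * g ^ 2 * D = G ^ 2 * f ^ 6 := by
    rw [hA, hD]
    ring
  have i2 : g ^ 2 * A - f ^ 2 * D = B * g ^ 6 := by
    rw [hA, hD]
    ring
  have h1 := hh_ge X A D hXA (G ^ 2 * B) (mul_ne_zero (pow_ne_zero 2 hG0) hB0)
    (mul_ne_zero (mul_ne_zero hG0 (pow_ne_zero 2 hf0)) (pow_ne_zero 2 hg0)) (by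
      intro c hcA hcD
      have d1 : c ∣ G ^ 2 * f ^ 6 := by
        rw [← i1]
        exact dvd_sub (hcA.mul_left _) (hcD.mul_left _)
      have d2 : c ∣ B * g ^ 6 := by
        rw [← i2]
        exact dvd_sub (hcA.mul_left _) (hcD.mul_left _)
      obtain ⟨u, v, huv⟩ := hfg.pow (m := 6) (n := 6)
      have h2 : G ^ 2 * B = u * B * (G ^ 2 * f ^ 6) + v * G ^ 2 * (B * g ^ 6) := by
        linear_combination (-(G ^ 2 * B)) * huv
      rw [h2]
      exact dvd_add (d1.mul_left _) (d2.mul_left _))
  -- degrees
  have h2 : 4 * hh k x ≤ max A.natDegree D.natDegree + B.natDegree := by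
    unfold hh
    rw [← hf, ← hg]
    rcases le_total g.natDegree f.natDegree with hle | hle
    · rw [max_eq_left hle]
      have e1 : (G ^ 2 * f ^ 6).natDegree = 2 * G.natDegree + 6 * f.natDegree := by
        rw [natDegree_mul (pow_ne_zero 2 hG0) (pow_ne_zero 6 hf0), natDegree_pow, natDegree_pow]
      have e2 : (G * f ^ 2 * A - B * g ^ 2 * D).natDegree ≤
          max (G.natDegree + 2 * f.natDegree + A.natDegree)
            (B.natDegree + 2 * g.natDegree + D.natDegree) := by
        refine (natDegree_sub_le _ _).trans (max_le_max ?_ ?_)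
        · refine natDegree_mul_le.trans (Nat.add_le_add_right (natDegree_mul_le.trans ?_) _)
          rw [natDegree_pow]
        · refine natDegree_mul_le.trans (Nat.add_le_add_right (natDegree_mul_le.trans ?_) _)
          rw [natDegree_pow]
      rw [i1, e1] at e2
      rcases max_cases A.natDegree D.natDegree with ⟨e, e'⟩ | ⟨e, e'⟩ <;> rw [e] <;>
        rcases max_cases (G.natDegree + 2 * f.natDegree + A.natDegree)
          (B.natDegree + 2 * g.natDegree + D.natDegree) with ⟨e3, -⟩ | ⟨e3, -⟩ <;>
        rw [e3] at e2 <;> omega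
    · rw [max_eq_right hle]
      have e1 : (B * g ^ 6).natDegree = B.natDegree + 6 * g.natDegree := by
        rw [natDegree_mul hB0 (pow_ne_zero 6 hg0), natDegree_pow]
      have e2 : (g ^ 2 * A - f ^ 2 * D).natDegree ≤
          max (2 * g.natDegree + A.natDegree) (2 * f.natDegree + D.natDegree) := by
        refine (natDegree_sub_le _ _).trans (max_le_max ?_ ?_)
        · refine natDegree_mul_le.trans (Nat.add_le_add_right ?_ _)
          rw [natDegree_pow]
        · refine natDegree_mul_le.trans (Nat.add_le_add_right ?_ _)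
          rw [natDegree_pow]
      rw [i2, e1] at e2
      rcases max_cases A.natDegree D.natDegree with ⟨e, e'⟩ | ⟨e, e'⟩ <;> rw [e] <;>
        rcases max_cases (2 * g.natDegree + A.natDegree) (2 * f.natDegree + D.natDegree) with
          ⟨e3, -⟩ | ⟨e3, -⟩ <;>
        rw [e3] at e2 <;> omega
  omega

end height

section pts

variable {k K : Type} [Field k] [Finite k] [CharP k 2] [Field K] [CharP K 2]
  [Algebra k[X] K] [IsFractionRing k[X] K] {W : Affine K} {a b : K}

variable (k) in
/-- the height of a point -/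
noncomputable def ht : W.Point → ℕ
  | .zero => 0
  | .some x _ _ => hh k x

theorem fin_ht (h : Std W a b) (n : ℕ) : {P : W.Point | ht k P ≤ n}.Finite := by
  -- for every abscissa finitely many points
  have h1 : ∀ x : K, {P : W.Point | ∃ y hn, P = Point.some x y hn}.Finite := by
    intro x
    by_cases hne : ∃ y, W.Nonsingular x y
    · obtain ⟨y0, hy0⟩ := hne
      have h2 : {y : K | W.Nonsingular x y} ⊆ {y0, y0 + x} := by
        intro y hy
        rcases h.cases_x hy hy0 with e | e
        · exact Or.inl e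
        · exact Or.inr e
      have h3 : {y : K | W.Nonsingular x y}.Finite := (Set.toFinite {y0, y0 + x}).subset h2
      refine Set.Finite.of_finite_image (f := fun P : W.Point => match P with
        | .zero => (0 : K)
        | .some _ y _ => y) (h3.subset ?_) ?_
      · rintro _ ⟨P, ⟨y, hn, rfl⟩, rfl⟩
        exact hn
      · rintro P ⟨y, hn, rfl⟩ Q ⟨y', hn', rfl⟩ hPQ
        dsimp only at hPQ
        subst hPQ
        rfl
    · have h0 : {P : W.Point | ∃ y hn, P = Point.some x y hn} = ∅ := by
        rw [Set.eq_empty_iff_forall_notMem]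
        rintro P ⟨y, hn, rfl⟩
        exact hne ⟨y, hn⟩
      rw [h0]
      exact Set.finite_empty
  have h2 : {P : W.Point | ht k P ≤ n} ⊆
      {0} ∪ ⋃ x ∈ {x : K | hh k x ≤ n}, {P : W.Point | ∃ y hn, P = Point.some x y hn} := by
    intro P hP
    rcases P with _ | ⟨x, y, hn⟩
    · left
      rfl
    · right
      rw [Set.mem_iUnion₂]
      exact ⟨x, hP, y, hn, rfl⟩
  refine Set.Finite.subset ?_ h2
  exact (Set.finite_singleton _).union ((fin_hh (k := k) n).biUnion fun x _ => h1 x)

end pts

theorem fin : S_FIN := by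
  intro k K _ _ _ _ _ _ _ W a b h hsurj hker
  have h2 : (2 : K) = 0 := CharTwo.two_eq_zero
  obtain ⟨C, hC⟩ := key (k := k) b h.b0
  -- the abscissa of an affine point is not zero
  have hx0 : ∀ x y (hn : W.Nonsingular x y), x ≠ 0 := by
    rintro x y hn rfl
    have h3 := h.opp (x := 0) (y := y) (by rw [add_zero]; exact hn) hn
    have h4 : (Point.some 0 (y + 0) (by rw [add_zero]; exact hn) : W.Point) =
        Point.some 0 y hn := by
      congr 1
      rw [add_zero]
    rw [h4] at h3
    have h5 := hker _ h3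
    exact Point.some_ne_zero hn h5
  -- the height inequality
  have hkey : ∀ P : W.Point, 4 * ht k P ≤ ht k (P + P) + C := by
    intro P
    rcases P with _ | ⟨x, y, hn⟩
    · show 4 * 0 ≤ _
      omega
    · have hx := hx0 x y hn
      have hl : (x ^ 2 + y) / x * x = x ^ 2 + y := div_mul_cancel₀ _ hx
      set l := (x ^ 2 + y) / x with hldef
      obtain ⟨n1, e1⟩ := h.tang hn hx hl rfl rfl
      rw [e1]
      show 4 * hh k x ≤ hh k _ + C
      apply hC x _ hx
      have e := h.eq_of hn
      linear_combination (l * x + x ^ 2 + y + x) * hl + e + (x ^ 2 * y + a * x ^ 2 + x ^ 3) * h2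
  have hinj : Function.Injective fun P : W.Point => P + P := by
    intro P Q hPQ
    dsimp only at hPQ
    have h3 : (P - Q) + (P - Q) = 0 := by
      rw [sub_add_sub_comm, hPQ, sub_self]
    exact sub_eq_zero.1 (hker _ h3)
  set B0 : Set W.Point := {P | ht k P ≤ C} with hB0
  have hfin : B0.Finite := fin_ht h C
  have hsub : (fun P : W.Point => P + P) ⁻¹' B0 ⊆ B0 := by
    intro P hP
    have h3 := hkey P
    have h4 : ht k (P + P) ≤ C := hP
    show ht k P ≤ C
    omega
  have heq : (fun P : W.Point => P + P) ⁻¹' B0 = B0 := by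
    refine Set.eq_of_subset_of_ncard_le hsub ?_ hfin
    rw [Set.ncard_preimage_of_injective_subset_range hinj]
    intro P _
    obtain ⟨Q, hQ⟩ := hsurj P
    exact ⟨Q, hQ⟩
  have hall : ∀ n : ℕ, ∀ P : W.Point, ht k P = n → P ∈ B0 := by
    intro n
    induction n using Nat.strong_induction_on with
    | _ n ih =>
      intro P hP
      by_cases hc : ht k P ≤ C
      · exact hc
      · obtain ⟨Q, hQ⟩ := hsurj P
        have h3 := hkey Q
        rw [hQ] at h3
        have h4 : Q ∈ B0 := ih (ht k Q) (by omega) Q rfl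
        rw [← heq] at h4
        have h5 : Q + Q ∈ B0 := h4
        rwa [hQ] at h5
  have huniv : B0 = Set.univ := Set.eq_univ_of_forall fun P => hall _ P rfl
  rw [huniv] at hfin
  exact Set.finite_univ_iff.1 hfin

end Pool.Agent.H467.CT.Fin
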