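import Pool.Agent.H467.CT.Spec4

set_option autoImplicit false

open Finset
open scoped Classical

namespace Pool.Agent.H467.CT.Mat

variable {ι : Type} [Fintype ι]

/-- the linear functional of `β` -/
def bf (β : ι → ZMod 2) : (ι → ZMod 2) →ₗ[ZMod 2] ZMod 2 where
  toFun c := ∑ i, β i * c i
  map_add' x y := by
    simp only [Pi.add_apply, mul_add, sum_add_distrib]
  map_smul' r x := by
    simp only [Pi.smul_apply, smul_eq_mul, RingHom.id_apply, mul_sum]
    exact sum_congr rfl fun i _ => by ring

theorem bf_apply (β c : ι → ZMod 2) : bf β c = ∑ i, β i * c i := rfl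

theorem z2 (x : ZMod 2) (h : x ≠ 0) : x = 1 := by
  revert h; revert x; decide

theorem z2' (x : ZMod 2) : x + x = 0 := by
  revert x; decide

theorem bf_surj {β : ι → ZMod 2} (hβ : β ≠ 0) : Function.Surjective (bf β) := by
  obtain ⟨i, hi⟩ := Function.ne_iff.1 hβ
  have hi1 : β i = 1 := z2 _ hi
  intro x
  refine ⟨Pi.single i x, ?_⟩
  rw [bf_apply, sum_eq_single i]
  · simp [hi1]
  · intro j _ hj
    simp [Pi.single_eq_of_ne hj]
  · simp

theorem finrank_ker {β : ι → ZMod 2} (hβ : β ≠ 0) :
    Module.finrank (ZMod 2) (LinearMap.ker (bf β)) = Fintype.card ι - 1 := by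
  have h1 := LinearMap.finrank_range_add_finrank_ker (bf β)
  rw [LinearMap.range_eq_top.2 (bf_surj hβ), finrank_top, Module.finrank_self,
    Module.finrank_fintype_fun_eq_card] at h1
  omega

theorem card_ker {β : ι → ZMod 2} (hβ : β ≠ 0) :
    Nat.card (LinearMap.ker (bf β)) = 2 ^ (Fintype.card ι - 1) := by
  rw [Nat.card_eq_fintype_card, Module.card_eq_pow_finrank (K := ZMod 2), finrank_ker hβ,
    ZMod.card]

theorem card_one {β : ι → ZMod 2} (hβ : β ≠ 0) :
    Nat.card {c : ι → ZMod 2 // bf β c = 1} = 2 ^ (Fintype.card ι - 1) := by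
  rw [← card_ker hβ]
  obtain ⟨c0, hc0⟩ := bf_surj hβ 1
  refine Nat.card_congr
    { toFun := fun c => ⟨c.1 - c0, by rw [LinearMap.mem_ker, map_sub, c.2, hc0, sub_self]⟩
      invFun := fun c => ⟨c.1 + c0, by rw [map_add, LinearMap.mem_ker.1 c.2, hc0, zero_add]⟩
      left_inv := fun c => by ext1; simp
      right_inv := fun c => by ext1; simp }

/-- linearly independent families in the kernel, indexed by a finite type -/
theorem card_li {β : ι → ZMod 2} (hβ : β ≠ 0) (σ : Type) [Fintype σ]
    (hσ : Fintype.card σ = Fintype.card ι - 1) :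
    Nat.card {s : σ → LinearMap.ker (bf β) // LinearIndependent (ZMod 2) s} =
      ∏ i ∈ range (Fintype.card ι - 1), (2 ^ (Fintype.card ι - 1) - 2 ^ i) := by
  have e : σ ≃ Fin (Fintype.card ι - 1) := Fintype.equivFinOfCardEq hσ
  have h1 : Nat.card {s : σ → LinearMap.ker (bf β) // LinearIndependent (ZMod 2) s} =
      Nat.card {s : Fin (Fintype.card ι - 1) → LinearMap.ker (bf β) //
        LinearIndependent (ZMod 2) s} := by
    refine Nat.card_congr
      { toFun := fun s => ⟨s.1 ∘ e.symm, (linearIndependent_equiv e.symm).2 s.2⟩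
        invFun := fun s => ⟨s.1 ∘ e, (linearIndependent_equiv e).2 s.2⟩
        left_inv := fun s => by ext1; funext x; simp
        right_inv := fun s => by ext1; funext x; simp }
  rw [h1, card_linearIndependent (by rw [finrank_ker hβ]), finrank_ker hβ, ZMod.card,
    ← Fin.prod_univ_eq_prod_range (fun i => 2 ^ (Fintype.card ι - 1) - 2 ^ i)]

theorem matl_aux (β : ι → ZMod 2) (hβ : β ≠ 0) (T : ι → Option ι → ZMod 2) (hT : Good β T)
    (e : ι → ZMod 2) (he : ∀ j, ∑ i, β i * T i j = 0 → ∑ i, e i * T i j = 0) :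
    e = 0 ∨ e = β := by
  -- the index set of the columns orthogonal to β
  set S := {j : Option ι // ∑ i, β i * T i j = 0} with hS
  have hcard : Fintype.card S = Fintype.card ι - 1 := by
    have h1 : {j : Option ι | ∑ i, β i * T i j ≠ 0}.ncard +
        {j : Option ι | ∑ i, β i * T i j = 0}.ncard = Fintype.card ι + 1 := by
      have h2 := Set.ncard_add_ncard_compl {j : Option ι | ∑ i, β i * T i j ≠ 0}
      have h3 : {j : Option ι | ∑ i, β i * T i j ≠ 0}ᶜ = {j : Option ι | ∑ i, β i * T i j = 0} := by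
        ext j; simp
      rw [h3] at h2
      rw [h2, Nat.card_eq_fintype_card, Fintype.card_option]
    have h4 : {j : Option ι | ∑ i, β i * T i j = 0}.ncard = Fintype.card S := by
      rw [← Nat.card_coe_set_eq, Nat.card_eq_fintype_card]
      rfl
    rw [hT.two, h4] at h1
    omega
  let A : Matrix ι S (ZMod 2) := fun i j => T i j.1
  have hinj : Function.Injective A.mulVecLin := by
    rw [← LinearMap.ker_eq_bot, LinearMap.ker_eq_bot']
    intro ε hε
    have h5 := hT.inj (fun j => if h : ∑ i, β i * T i j = 0 then ε ⟨j, h⟩ else 0) (by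
      intro j hj
      rw [dif_neg hj]) (by
      intro i
      have h6 := congrFun hε i
      rw [Matrix.mulVecLin_apply] at h6
      simp only [Matrix.mulVec, dotProduct, Pi.zero_apply] at h6
      refine Eq.trans ?_ h6
      have h7 : ∀ j : Option ι, (if h : ∑ i, β i * T i j = 0 then ε ⟨j, h⟩ else 0) * T i j =
          if h : ∑ i, β i * T i j = 0 then A i ⟨j, h⟩ * ε ⟨j, h⟩ else 0 := by
        intro j
        split_ifs with h
        · exact mul_comm _ _
        · rw [zero_mul]
      rw [sum_congr rfl fun j _ => h7 j]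
      rw [← sum_filter_add_sum_filter_not univ (fun j : Option ι => ∑ i, β i * T i j = 0)]
      rw [sum_eq_zero (s := univ.filter (fun j : Option ι => ¬ ∑ i, β i * T i j = 0)), add_zero]
      · rw [← sum_subtype_of_mem (p := fun j : Option ι => ∑ i, β i * T i j = 0)
          (fun j => if h : ∑ i, β i * T i j = 0 then A i ⟨j, h⟩ * ε ⟨j, h⟩ else 0)]
        · have : (Finset.subtype (fun j : Option ι => ∑ i, β i * T i j = 0)
              (univ.filter fun j : Option ι => ∑ i, β i * T i j = 0)) = univ := by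
            ext j; simp [j.2]
          rw [this]
          refine sum_congr rfl fun j _ => ?_
          rw [dif_pos j.2]
        · intro j hj
          exact (mem_filter.1 hj).2
      · intro j hj
        rw [dif_neg (mem_filter.1 hj).2])
    funext j
    have h8 := congrFun h5 j.1
    simp only [Pi.zero_apply] at h8
    rw [dif_pos j.2] at h8
    exact h8
  have hrank : A.rank = Fintype.card S := by
    rw [Matrix.rank, LinearMap.finrank_range_of_inj hinj, Module.finrank_fintype_fun_eq_card]
  have hrankT : A.transpose.rank = Fintype.card S := by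
    rw [Matrix.rank_transpose, hrank]
  have hker : Module.finrank (ZMod 2) (LinearMap.ker A.transpose.mulVecLin) = 1 := by
    have h9 := LinearMap.finrank_range_add_finrank_ker A.transpose.mulVecLin
    rw [Module.finrank_fintype_fun_eq_card] at h9
    have h10 : Module.finrank (ZMod 2) (LinearMap.range A.transpose.mulVecLin) =
      Fintype.card S := hrankT
    have hpos : 1 ≤ Fintype.card ι := by
      obtain ⟨i, hi⟩ := Function.ne_iff.1 hβ
      exact Fintype.card_pos_iff.2 ⟨i⟩
    omega
  have mem : ∀ f : ι → ZMod 2, (∀ j, ∑ i, β i * T i j = 0 → ∑ i, f i * T i j = 0) →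
      f ∈ LinearMap.ker A.transpose.mulVecLin := by
    intro f hf
    rw [LinearMap.mem_ker, Matrix.mulVecLin_apply]
    funext j
    simp only [Matrix.mulVec, dotProduct, Matrix.transpose_apply, Pi.zero_apply]
    rw [← hf j.1 j.2]
    exact sum_congr rfl fun i _ => mul_comm _ _
  have m1 := mem β (fun j h => h)
  have m2 := mem e he
  obtain ⟨c, hc⟩ := (finrank_eq_one_iff_of_nonzero' (⟨β, m1⟩ : LinearMap.ker
    A.transpose.mulVecLin) (by
      intro h
      exact hβ (congrArg Subtype.val h))).1 hker ⟨e, m2⟩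
  have hc' : c • β = e := congrArg Subtype.val hc
  by_cases h0 : c = 0
  · left
    rw [← hc', h0, zero_smul]
  · right
    rw [← hc', z2 c h0, one_smul]

/-! ### the number of good matrices -/

section count

variable {j1 j2 : Option ι}

theorem sum_split (hj : j1 ≠ j2) (g : Option ι → ZMod 2) : ∑ j, g j =
    g j1 + g j2 + ∑ j : {j : Option ι // j ∉ ({j1, j2} : Finset (Option ι))}, g j.1 := by
  rw [← Fintype.sum_subtype_add_sum_subtype (fun j => j ∈ ({j1, j2} : Finset (Option ι))) g]
  congr 1
  rw [← Finset.sum_subtype ({j1, j2} : Finset (Option ι)) (fun x => Iff.rfl) g,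
    Finset.sum_pair hj]

theorem card_compl_pair (hj : j1 ≠ j2) :
    Fintype.card {j : Option ι // j ∉ ({j1, j2} : Finset (Option ι))} = Fintype.card ι - 1 := by
  rw [Fintype.card_subtype_compl, Fintype.card_option, Fintype.card_coe, Finset.card_pair hj]
  omega

/-- the condition on the right kernel -/
def Inj (β : ι → ZMod 2) (T : ι → Option ι → ZMod 2) : Prop :=
  ∀ ε : Option ι → ZMod 2, (∀ j, ∑ i, β i * T i j ≠ 0 → ε j = 0) →
    (∀ i, ∑ j, ε j * T i j = 0) → ε = 0

theorem inj_iff {β : ι → ZMod 2} (hj : j1 ≠ j2) (T : ι → Option ι → ZMod 2)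
    (hP : ∀ j, ∑ i, β i * T i j ≠ 0 ↔ j ∈ ({j1, j2} : Finset (Option ι)))
    (v : {j : Option ι // j ∉ ({j1, j2} : Finset (Option ι))} → LinearMap.ker (bf β))
    (hv : ∀ j i, (v j).1 i = T i j.1) :
    Inj β T ↔ LinearIndependent (ZMod 2) v := by
  rw [Fintype.linearIndependent_iff]
  have m1 : j1 ∈ ({j1, j2} : Finset (Option ι)) := by simp
  have m2 : j2 ∈ ({j1, j2} : Finset (Option ι)) := by simp
  constructor
  · intro h g hg j
    have h1 := h (fun j => if h : j ∉ ({j1, j2} : Finset (Option ι)) then g ⟨j, h⟩ else 0) (by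
      intro j hj'
      rw [dif_neg]
      exact not_not.2 ((hP j).1 hj')) (by
      intro i
      rw [sum_split hj]
      rw [dif_neg (not_not.2 m1), dif_neg (not_not.2 m2), zero_mul, zero_mul, add_zero, zero_add]
      have h2 := congrFun (congrArg Subtype.val hg) i
      rw [Submodule.coe_sum, Finset.sum_apply] at h2
      refine Eq.trans (sum_congr rfl fun j _ => ?_) h2
      rw [dif_pos j.2, Submodule.coe_smul, Pi.smul_apply, hv, smul_eq_mul])
    have h3 := congrFun h1 j.1
    rw [dif_pos j.2] at h3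
    exact h3
  · intro h ε h1 h2
    have e1 : ε j1 = 0 := h1 j1 ((hP j1).2 m1)
    have e2 : ε j2 = 0 := h1 j2 ((hP j2).2 m2)
    have h3 := h (fun j => ε j.1) (by
      ext i
      rw [Submodule.coe_sum, Finset.sum_apply]
      have h4 := h2 i
      rw [sum_split hj, e1, e2, zero_mul, zero_mul, add_zero, zero_add] at h4
      refine Eq.trans (sum_congr rfl fun j _ => ?_) h4
      rw [Submodule.coe_smul, Pi.smul_apply, hv, smul_eq_mul])
    funext j
    by_cases hjP : j ∈ ({j1, j2} : Finset (Option ι))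
    · exact h1 j ((hP j).2 hjP)
    · exact h3 ⟨j, hjP⟩

/-- the matrices with given exceptional columns -/
def AP (β : ι → ZMod 2) (j1 j2 : Option ι) : Set (ι → Option ι → ZMod 2) :=
  {T | (∀ i, ∑ j, T i j = 0) ∧
    (∀ j, ∑ i, β i * T i j ≠ 0 ↔ j ∈ ({j1, j2} : Finset (Option ι))) ∧ Inj β T}

/-- the matrix with given columns -/
noncomputable def mk (β : ι → ZMod 2) (j1 j2 : Option ι)
    (s : {j : Option ι // j ∉ ({j1, j2} : Finset (Option ι))} → LinearMap.ker (bf β))
    (c : ι → ZMod 2) (i : ι) (j : Option ι) : ZMod 2 :=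
  if h : j ∉ ({j1, j2} : Finset (Option ι)) then (s ⟨j, h⟩).1 i else
    if j = j1 then c i else c i + ∑ j', (s j').1 i

theorem mk_s {β : ι → ZMod 2}
    (s : {j : Option ι // j ∉ ({j1, j2} : Finset (Option ι))} → LinearMap.ker (bf β))
    (c : ι → ZMod 2) (i : ι) (j : {j : Option ι // j ∉ ({j1, j2} : Finset (Option ι))}) :
    mk β j1 j2 s c i j.1 = (s j).1 i := by
  unfold mk
  rw [dif_pos j.2]

theorem mk_1 {β : ι → ZMod 2}
    (s : {j : Option ι // j ∉ ({j1, j2} : Finset (Option ι))} → LinearMap.ker (bf β))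
    (c : ι → ZMod 2) (i : ι) : mk β j1 j2 s c i j1 = c i := by
  unfold mk
  rw [dif_neg (by simp), if_pos rfl]

theorem mk_2 {β : ι → ZMod 2} (hj : j1 ≠ j2)
    (s : {j : Option ι // j ∉ ({j1, j2} : Finset (Option ι))} → LinearMap.ker (bf β))
    (c : ι → ZMod 2) (i : ι) : mk β j1 j2 s c i j2 = c i + ∑ j', (s j').1 i := by
  unfold mk
  rw [dif_neg (by simp), if_neg (Ne.symm hj)]

theorem ncard_AP {β : ι → ZMod 2} (hβ : β ≠ 0) (hj : j1 ≠ j2) : (AP β j1 j2).ncard =
    2 ^ (Fintype.card ι - 1) *
      ∏ i ∈ range (Fintype.card ι - 1), (2 ^ (Fintype.card ι - 1) - 2 ^ i) := by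
  rw [← card_li hβ _ (card_compl_pair hj), ← card_one hβ, mul_comm, ← Nat.card_prod,
    ← Nat.card_coe_set_eq]
  have m1 : j1 ∈ ({j1, j2} : Finset (Option ι)) := by simp
  have m2 : j2 ∈ ({j1, j2} : Finset (Option ι)) := by simp
  have memker : ∀ T ∈ AP β j1 j2, ∀ j : {j : Option ι // j ∉ ({j1, j2} : Finset (Option ι))},
      (fun i => T i j.1) ∈ LinearMap.ker (bf β) := by
    intro T hT j
    rw [LinearMap.mem_ker, bf_apply]
    by_contra h
    exact j.2 ((hT.2.1 j.1).1 h)
  have hmk : ∀ (s : {j : Option ι // j ∉ ({j1, j2} : Finset (Option ι))} → LinearMap.ker (bf β))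
      (c : ι → ZMod 2), LinearIndependent (ZMod 2) s → bf β c = 1 →
      (fun i j => mk β j1 j2 s c i j) ∈ AP β j1 j2 := by
    intro s c hs hc
    have hP : ∀ j, ∑ i, β i * mk β j1 j2 s c i j ≠ 0 ↔
        j ∈ ({j1, j2} : Finset (Option ι)) := by
      intro j
      by_cases hjP : j ∈ ({j1, j2} : Finset (Option ι))
      · simp only [hjP, iff_true]
        rw [Finset.mem_insert, Finset.mem_singleton] at hjP
        rcases hjP with rfl | rfl
        · rw [sum_congr rfl fun i _ => by rw [mk_1]]
          rw [← bf_apply, hc]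
          exact one_ne_zero
        · have h1 : (fun i => mk β j1 j s c i j) = c + ∑ j', (s j').1 := by
            funext i
            rw [mk_2 hj, Pi.add_apply, Finset.sum_apply]
          have h2 : ∑ i, β i * mk β j1 j s c i j = bf β (fun i => mk β j1 j s c i j) := rfl
          rw [h2, h1, map_add, map_sum, hc, Finset.sum_eq_zero, add_zero]
          · exact one_ne_zero
          · intro j' _
            exact LinearMap.mem_ker.1 (s j').2
      · simp only [hjP, iff_false, not_not]
        have h1 : (fun i => mk β j1 j2 s c i j) = (s ⟨j, hjP⟩).1 := by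
          funext i
          exact mk_s s c i ⟨j, hjP⟩
        have h2 : ∑ i, β i * mk β j1 j2 s c i j = bf β (fun i => mk β j1 j2 s c i j) := rfl
        rw [h2, h1]
        exact LinearMap.mem_ker.1 (s _).2
    refine ⟨?_, hP, ?_⟩
    · intro i
      show ∑ j, mk β j1 j2 s c i j = 0
      rw [sum_split hj, mk_1, mk_2 hj]
      rw [sum_congr rfl fun j _ => mk_s s c i j]
      have := z2' (c i + ∑ j', (s j').1 i)
      rw [← this]
      ring
    · exact (inj_iff hj _ hP s (fun j i => (mk_s s c i j).symm)).2 hs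
  refine Nat.card_congr
    { toFun := fun T => (⟨fun j => ⟨fun i => T.1 i j.1, memker T.1 T.2 j⟩,
          (inj_iff hj T.1 T.2.2.1 _ (fun j i => rfl)).1 T.2.2.2⟩,
        ⟨fun i => T.1 i j1, z2 _ ((T.2.2.1 j1).2 m1)⟩)
      invFun := fun p => ⟨fun i j => mk β j1 j2 p.1.1 p.2.1 i j, hmk _ _ p.1.2 p.2.2⟩
      left_inv := ?_
      right_inv := ?_ }
  · intro T
    ext i j
    show mk β j1 j2 _ _ i j = T.1 i j
    by_cases hjP : j ∈ ({j1, j2} : Finset (Option ι))
    · rw [Finset.mem_insert, Finset.mem_singleton] at hjP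
      rcases hjP with rfl | rfl
      · rw [mk_1]
      · rw [mk_2 hj]
        have h1 := T.2.1 i
        rw [sum_split hj] at h1
        have h2 := z2' (T.1 i j)
        have h3 : T.1 i j1 + ∑ j' : {j' : Option ι // j' ∉ ({j1, j} : Finset (Option ι))},
            T.1 i j'.1 = T.1 i j := by
          linear_combination h1 - h2
        exact h3
    · exact mk_s _ _ i ⟨j, hjP⟩
  · rintro ⟨s, c⟩
    refine Prod.ext ?_ ?_
    · ext j i
      exact mk_s s.1 c.1 i j
    · ext i
      exact mk_1 s.1 c.1 i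

theorem matc_aux (β : ι → ZMod 2) (hβ : β ≠ 0) :
    {T : ι → Option ι → ZMod 2 | (∀ i, ∑ j, T i j = 0) ∧ Good β T}.ncard =
    ((Fintype.card ι + 1).choose 2) * 2 ^ (Fintype.card ι - 1) *
      ∏ i ∈ Finset.range (Fintype.card ι - 1), (2 ^ (Fintype.card ι - 1) - 2 ^ i) := by
  have h1 : {T : ι → Option ι → ZMod 2 | (∀ i, ∑ j, T i j = 0) ∧ Good β T} =
      ((univ.filter fun T : ι → Option ι → ZMod 2 => (∀ i, ∑ j, T i j = 0) ∧ Good β T : Finset _) :
        Set (ι → Option ι → ZMod 2)) := by
    ext T; simp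
  rw [h1, Set.ncard_coe_finset]
  rw [card_eq_sum_card_fiberwise (f := fun T => univ.filter fun j => ∑ i, β i * T i j ≠ 0)
    (t := powersetCard 2 (univ : Finset (Option ι)))]
  · rw [sum_congr rfl (g := fun _ => 2 ^ (Fintype.card ι - 1) *
      ∏ i ∈ range (Fintype.card ι - 1), (2 ^ (Fintype.card ι - 1) - 2 ^ i)), sum_const,
      card_powersetCard, Finset.card_univ, Fintype.card_option, smul_eq_mul, mul_assoc]
    intro P hP
    rw [mem_powersetCard] at hP
    obtain ⟨j1, j2, hj, rfl⟩ := Finset.card_eq_two.1 hP.2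
    rw [← ncard_AP hβ hj, ← Set.ncard_coe_finset]
    congr 1
    ext T
    simp only [coe_filter, mem_filter, mem_univ, true_and, Set.mem_ofPred_eq, AP]
    constructor
    · rintro ⟨⟨h2, h3⟩, h4⟩
      refine ⟨h2, fun j => ?_, h3.inj⟩
      rw [← h4]
      simp
    · rintro ⟨h2, h3, h4⟩
      have h5 : (univ.filter fun j => ∑ i, β i * T i j ≠ 0) = {j1, j2} := by
        ext j
        rw [mem_filter, h3 j]
        simp
      refine ⟨⟨h2, ⟨?_, h4⟩⟩, h5⟩
      have h6 : {j : Option ι | ∑ i, β i * T i j ≠ 0} =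
          ((univ.filter fun j => ∑ i, β i * T i j ≠ 0 : Finset (Option ι)) : Set (Option ι)) := by
        ext j; simp
      rw [h6, Set.ncard_coe_finset, h5, Finset.card_pair hj]
  · intro T hT
    rw [mem_coe, mem_filter] at hT
    rw [mem_coe, mem_powersetCard]
    refine ⟨subset_univ _, ?_⟩
    have h6 : {j : Option ι | ∑ i, β i * T i j ≠ 0} =
        ((univ.filter fun j => ∑ i, β i * T i j ≠ 0 : Finset (Option ι)) : Set (Option ι)) := by
      ext j; simp
    rw [← Set.ncard_coe_finset, ← h6]
    exact hT.2.2.two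

end count

theorem matl : S_MATL := by
  intro ι _ β hβ T hT e he
  exact matl_aux β hβ T hT e he

theorem matc : S_MATC := by
  intro ι _ β hβ
  exact matc_aux β hβ

end Pool.Agent.H467.CT.Mat
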