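import Pool.Agent.H467.CT.Spec2

/-!
# Project CT: the part `S_RES` (residues on `k(t)`, `k` a finite field of characteristic two)
-/

set_option autoImplicit false
set_option linter.all false

open Polynomial IsDedekindDomain
open Pool.Agent.TH115.GD
open scoped Classical

namespace Pool.Agent.H467.CT.Res

section poly

variable {k : Type} [Field k]

/-- The coefficient of `X ^ (natDegree d - 1)` in the remainder of `n` modulo `d`. -/
noncomputable def RR (n d : k[X]) : k := (n %ₘ d).coeff (d.natDegree - 1)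

theorem RR_add (n m d : k[X]) : RR (n + m) d = RR n d + RR m d := by
  simp [RR, add_modByMonic]

theorem RR_zero (d : k[X]) : RR 0 d = 0 := by simp [RR]

theorem RR_smul (c : k) (n d : k[X]) : RR (C c * n) d = c * RR n d := by
  rw [RR, RR, ← smul_eq_C_mul, smul_modByMonic, coeff_smul, smul_eq_mul]

theorem RR_dvd {n d : k[X]} (hd : d.Monic) (h : d ∣ n) : RR n d = 0 := by
  rw [RR, (modByMonic_eq_zero_iff_dvd hd).2 h, coeff_zero]

theorem RR_congr {n n' d : k[X]} (hd : d.Monic) (h : d ∣ n - n') : RR n d = RR n' d := by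
  have h1 : n = (n - n') + n' := by ring
  rw [h1, RR_add, RR_dvd hd h, zero_add]

theorem RR_one (n : k[X]) : RR n 1 = 0 := RR_dvd monic_one (one_dvd _)

theorem mod_unique {n d q r : k[X]} (hd : d.Monic) (h : r + d * q = n) (hr : r.degree < d.degree) :
    n %ₘ d = r := (div_modByMonic_unique q r hd ⟨h, hr⟩).2

theorem mod_mul {n d c : k[X]} (hd : d.Monic) (hc : c.Monic) :
    (n * c) %ₘ (d * c) = (n %ₘ d) * c := by
  apply mod_unique (hd.mul hc) (q := n /ₘ d)
  · have h := modByMonic_add_div n d
    calc (n %ₘ d) * c + d * c * (n /ₘ d) = (n %ₘ d + d * (n /ₘ d)) * c := by ring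
      _ = n * c := by rw [h]
  · rw [degree_mul, degree_mul]
    have h1 : (n %ₘ d).degree < d.degree := degree_modByMonic_lt n hd
    have h2 : c.degree = (c.natDegree : WithBot ℕ) := degree_eq_natDegree hc.ne_zero
    rw [h2]
    exact WithBot.add_lt_add_right (by simp) h1

theorem RR_mul {n d c : k[X]} (hd : d.Monic) (hc : c.Monic) : RR (n * c) (d * c) = RR n d := by
  by_cases h1 : d = 1
  · subst h1
    rw [one_mul, RR_one, RR_dvd hc (dvd_mul_left _ _)]
  · have hpos : 0 < d.natDegree := by
      rcases Nat.eq_zero_or_pos d.natDegree with h | h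
      · exact absurd (hd.natDegree_eq_zero.1 h) h1
      · exact h
    have hlt : (n %ₘ d).natDegree < d.natDegree := natDegree_modByMonic_lt n hd h1
    rw [RR, RR, mod_mul hd hc, hd.natDegree_mul hc]
    have e : d.natDegree + c.natDegree - 1 = (d.natDegree - 1) + c.natDegree := by omega
    rw [e, coeff_mul_add_eq_of_natDegree_le (by omega) le_rfl, hc.coeff_natDegree, mul_one]

theorem mod_sq [CharP k 2] {n d : k[X]} (e : k[X]) (he : e.natDegree ≤ 1) (hd : d.Monic)
    (h1 : d ≠ 1) : (n ^ 2 * e) %ₘ (d ^ 2) = (n %ₘ d) ^ 2 * e := by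
  apply mod_unique (hd.pow 2) (q := (n /ₘ d) ^ 2 * e)
  · have h := modByMonic_add_div n d
    have h2 : (n %ₘ d) ^ 2 + (d * (n /ₘ d)) ^ 2 = n ^ 2 := by
      rw [← CharTwo.add_sq, h]
    calc (n %ₘ d) ^ 2 * e + d ^ 2 * ((n /ₘ d) ^ 2 * e)
        = ((n %ₘ d) ^ 2 + (d * (n /ₘ d)) ^ 2) * e := by ring
      _ = n ^ 2 * e := by rw [h2]
  · have hlt : (n %ₘ d).natDegree < d.natDegree := natDegree_modByMonic_lt n hd h1
    have h3 : ((n %ₘ d) ^ 2 * e).natDegree ≤ 2 * (d.natDegree - 1) + 1 := by
      refine natDegree_mul_le.trans ?_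
      rw [natDegree_pow]
      omega
    apply degree_lt_degree
    rw [natDegree_pow]
    omega

theorem RR_sq [CharP k 2] {n d : k[X]} (hd : d.Monic) : RR (n ^ 2) (d ^ 2) = 0 := by
  by_cases h1 : d = 1
  · subst h1
    rw [one_pow, RR_one]
  · have hlt : (n %ₘ d).natDegree < d.natDegree := natDegree_modByMonic_lt n hd h1
    have h := mod_sq (n := n) 1 (by simp) hd h1
    rw [mul_one, mul_one] at h
    rw [RR, h, natDegree_pow]
    apply coeff_eq_zero_of_natDegree_lt
    rw [natDegree_pow]
    omega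

theorem RR_sqt [CharP k 2] {n d : k[X]} (hd : d.Monic) :
    RR (n ^ 2 * X) (d ^ 2) = RR n d ^ 2 := by
  by_cases h1 : d = 1
  · subst h1
    rw [one_pow, RR_one, RR_one]
    simp
  · have hlt : (n %ₘ d).natDegree < d.natDegree := natDegree_modByMonic_lt n hd h1
    have h := mod_sq (n := n) X natDegree_X_le hd h1
    rw [RR, RR, h, natDegree_pow]
    have e : 2 * d.natDegree - 1 = 2 * (d.natDegree - 1) + 1 := by omega
    rw [e, coeff_mul_X, coeff_pow_of_natDegree_le (by omega)]

end poly

section field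

variable {k : Type} [Field k] {K : Type} [Field K] [Algebra k[X] K] [IsFractionRing k[X] K]

theorem am_ne {p : k[X]} (h : p ≠ 0) : algebraMap k[X] K p ≠ 0 := by
  rwa [Ne, map_eq_zero_iff _ (IsFractionRing.injective k[X] K)]

theorem exists_frac (f : K) : ∃ p : k[X] × k[X], p.2.Monic ∧
    f = algebraMap k[X] K p.1 / algebraMap k[X] K p.2 := by
  obtain ⟨n, d, hd, rfl⟩ := IsFractionRing.div_surjective (A := k[X]) f
  have hd0 : d ≠ 0 := nonZeroDivisors.ne_zero hd
  have hl : d.leadingCoeff⁻¹ ≠ 0 := inv_ne_zero (leadingCoeff_ne_zero.2 hd0)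
  refine ⟨(n * C d.leadingCoeff⁻¹, d * C d.leadingCoeff⁻¹), monic_mul_leadingCoeff_inv hd0, ?_⟩
  simp only [map_mul]
  rw [mul_div_mul_right]
  exact am_ne (by simpa using hl)

/-- Minus the residue at infinity. -/
noncomputable def rinf (k : Type) [Field k] {K : Type} [Field K] [Algebra k[X] K]
    [IsFractionRing k[X] K] (f : K) : k :=
  RR (exists_frac (k := k) f).choose.1 (exists_frac (k := k) f).choose.2

theorem RR_wd {n d n' d' : k[X]} (hd : d.Monic) (hd' : d'.Monic)
    (h : algebraMap k[X] K n / algebraMap k[X] K d = algebraMap k[X] K n' / algebraMap k[X] K d') :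
    RR n d = RR n' d' := by
  rw [div_eq_div_iff (am_ne hd.ne_zero) (am_ne hd'.ne_zero), ← map_mul, ← map_mul] at h
  have h1 : n * d' = n' * d := IsFractionRing.injective k[X] K h
  rw [← RR_mul hd hd', h1, mul_comm d d', RR_mul hd' hd]

theorem rinf_eq {f : K} {n d : k[X]} (hd : d.Monic)
    (h : f = algebraMap k[X] K n / algebraMap k[X] K d) : rinf k f = RR n d := by
  have h1 := (exists_frac (k := k) f).choose_spec
  exact RR_wd (K := K) h1.1 hd (h1.2.symm.trans h)

theorem exists_gen (v : HeightOneSpectrum k[X]) :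
    ∃ P : k[X], P.Monic ∧ Irreducible P ∧ v.asIdeal = Ideal.span {P} := by
  obtain ⟨P0, hP0⟩ := (IsPrincipalIdealRing.principal v.asIdeal).principal
  have hP0' : v.asIdeal = Ideal.span {P0} := hP0
  have hne : P0 ≠ 0 := by
    rintro rfl
    apply v.ne_bot
    rw [hP0', Ideal.span_singleton_eq_bot]
  have hu : IsUnit (C P0.leadingCoeff⁻¹ : k[X]) := by
    rw [isUnit_C]
    exact (inv_ne_zero (leadingCoeff_ne_zero.2 hne)).isUnit
  have hspan : v.asIdeal = Ideal.span {P0 * C P0.leadingCoeff⁻¹} := by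
    rw [hP0', Ideal.span_singleton_mul_right_unit hu]
  have hm : (P0 * C P0.leadingCoeff⁻¹).Monic := monic_mul_leadingCoeff_inv hne
  refine ⟨P0 * C P0.leadingCoeff⁻¹, hm, ?_, hspan⟩
  have hp := v.isPrime
  rw [hspan] at hp
  exact ((Ideal.span_singleton_prime hm.ne_zero).1 hp).irreducible

/-- The monic generator of a maximal ideal. -/
noncomputable def gen (v : HeightOneSpectrum k[X]) : k[X] := (exists_gen v).choose

theorem gen_monic (v : HeightOneSpectrum k[X]) : (gen v).Monic := (exists_gen v).choose_spec.1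

theorem gen_irr (v : HeightOneSpectrum k[X]) : Irreducible (gen v) :=
  (exists_gen v).choose_spec.2.1

theorem gen_span (v : HeightOneSpectrum k[X]) : v.asIdeal = Ideal.span {gen v} :=
  (exists_gen v).choose_spec.2.2

theorem val_gen_pow (v : HeightOneSpectrum k[X]) (m : ℕ) :
    v.valuation K (algebraMap k[X] K (gen v ^ m)) = WithZero.exp (-(m : ℤ)) := by
  rw [HeightOneSpectrum.valuation_of_algebraMap, map_pow,
    HeightOneSpectrum.intValuation_singleton v (gen_irr v).ne_zero (gen_span v),
    ← WithZero.exp_nsmul]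
  congr 1
  simp

theorem dvd_of_val {v : HeightOneSpectrum k[X]} {W : k[X]} {N : ℕ}
    (h : v.valuation K (algebraMap k[X] K W / algebraMap k[X] K (gen v ^ N)) ≤ 1) :
    gen v ^ N ∣ W := by
  rw [map_div₀, val_gen_pow, div_le_one₀ (by simp)] at h
  rw [HeightOneSpectrum.valuation_of_algebraMap,
    HeightOneSpectrum.intValuation_le_pow_iff_mem, gen_span, Ideal.span_singleton_pow,
    Ideal.mem_span_singleton] at h
  exact h

/-- `w / P ^ m` is the polar part of `f` at `v`. -/
def Good (v : HeightOneSpectrum k[X]) (f : K) (p : k[X] × ℕ) : Prop :=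
  v.valuation K (f - algebraMap k[X] K p.1 / algebraMap k[X] K (gen v ^ p.2)) ≤ 1

theorem val_one {v : HeightOneSpectrum k[X]} {u : k[X]} (h : u ∉ v.asIdeal) :
    v.valuation K (algebraMap k[X] K u) = 1 := by
  rw [HeightOneSpectrum.valuation_eq_one_iff_notMem]
  exact h

theorem exists_good (v : HeightOneSpectrum k[X]) (f : K) : ∃ p, Good v f p := by
  obtain ⟨n, d, hd, rfl⟩ := IsFractionRing.div_surjective (A := k[X]) f
  have hd0 : d ≠ 0 := nonZeroDivisors.ne_zero hd
  have hfin : FiniteMultiplicity (gen v) d :=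
    FiniteMultiplicity.of_not_isUnit (gen_irr v).not_isUnit hd0
  obtain ⟨u, hu, hndvd⟩ := hfin.exists_eq_pow_mul_and_not_dvd
  set m := multiplicity (gen v) d with hm
  have hco : IsCoprime u (gen v ^ m) :=
    (((gen_irr v).coprime_iff_not_dvd.2 hndvd).symm).pow_right
  obtain ⟨s, t, hst⟩ := hco
  refine ⟨(n * s, m), ?_⟩
  have hu0 : u ≠ 0 := by
    rintro rfl
    exact hd0 (by rw [hu, mul_zero])
  have hP0 : gen v ^ m ≠ 0 := pow_ne_zero _ (gen_irr v).ne_zero
  have e1 : algebraMap k[X] K n / algebraMap k[X] K d -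
      algebraMap k[X] K (n * s) / algebraMap k[X] K (gen v ^ m) =
      algebraMap k[X] K (n * t) / algebraMap k[X] K u := by
    have hst' : algebraMap k[X] K t * algebraMap k[X] K (gen v ^ m) =
        1 - algebraMap k[X] K s * algebraMap k[X] K u := by
      rw [← map_mul, ← map_mul, ← map_one (algebraMap k[X] K), ← map_sub]
      congr 1
      linear_combination hst
    have a1 := am_ne (K := K) hu0
    have a2 := am_ne (K := K) hP0
    rw [hu, map_mul, map_mul, map_mul]
    field_simp
    linear_combination (-(algebraMap k[X] K n)) * hst'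
  show v.valuation K (_ - _) ≤ 1
  rw [e1, map_div₀, val_one (v := v) (u := u), div_one]
  · exact v.valuation_le_one _
  · rw [gen_span, Ideal.mem_span_singleton]
    exact hndvd

theorem good_unique {v : HeightOneSpectrum k[X]} {f : K} {p q : k[X] × ℕ} (hp : Good v f p)
    (hq : Good v f q) : RR p.1 (gen v ^ p.2) = RR q.1 (gen v ^ q.2) := by
  obtain ⟨w, m⟩ := p
  obtain ⟨w', m'⟩ := q
  simp only [Good] at hp hq
  have hm := (gen_monic v).pow m
  have hm' := (gen_monic v).pow m'
  have h1 : v.valuation K (algebraMap k[X] K (w * gen v ^ m' - w' * gen v ^ m) /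
      algebraMap k[X] K (gen v ^ (m + m'))) ≤ 1 := by
    have e : algebraMap k[X] K (w * gen v ^ m' - w' * gen v ^ m) /
        algebraMap k[X] K (gen v ^ (m + m')) =
        (f - algebraMap k[X] K w' / algebraMap k[X] K (gen v ^ m')) -
        (f - algebraMap k[X] K w / algebraMap k[X] K (gen v ^ m)) := by
      have a1 := am_ne (K := K) hm.ne_zero
      have a2 := am_ne (K := K) hm'.ne_zero
      rw [pow_add, map_mul, map_sub, map_mul, map_mul]
      field_simp
      ring
    rw [e]
    exact (Valuation.map_sub _ _ _).trans (max_le hq hp)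
  have h2 := dvd_of_val h1
  rw [pow_add] at h2
  show RR w (gen v ^ m) = RR w' (gen v ^ m')
  rw [← RR_mul hm hm', RR_congr (hm.mul hm') h2, mul_comm (gen v ^ m) (gen v ^ m'),
    RR_mul hm' hm]

/-- The residue at `v`. -/
noncomputable def rv (v : HeightOneSpectrum k[X]) (f : K) : k :=
  RR (exists_good v f).choose.1 (gen v ^ (exists_good v f).choose.2)

theorem rv_eq {v : HeightOneSpectrum k[X]} {f : K} {p : k[X] × ℕ} (hp : Good v f p) :
    rv v f = RR p.1 (gen v ^ p.2) := good_unique (exists_good v f).choose_spec hp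

theorem val_add {v : HeightOneSpectrum k[X]} {a b : K} (ha : v.valuation K a ≤ 1)
    (hb : v.valuation K b ≤ 1) : v.valuation K (a + b) ≤ 1 :=
  (Valuation.map_add _ _ _).trans (max_le ha hb)

theorem val_mul {v : HeightOneSpectrum k[X]} {a b : K} (ha : v.valuation K a ≤ 1)
    (hb : v.valuation K b ≤ 1) : v.valuation K (a * b) ≤ 1 := by
  rw [map_mul]
  exact mul_le_one' ha hb

theorem rv_add (v : HeightOneSpectrum k[X]) (f g : K) : rv v (f + g) = rv v f + rv v g := by
  obtain ⟨⟨w, m⟩, hp⟩ := exists_good v f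
  obtain ⟨⟨w', m'⟩, hq⟩ := exists_good v g
  have hm := (gen_monic v).pow m
  have hm' := (gen_monic v).pow m'
  have h : Good v (f + g) (w * gen v ^ m' + w' * gen v ^ m, m + m') := by
    simp only [Good] at hp hq ⊢
    have e : f + g - algebraMap k[X] K (w * gen v ^ m' + w' * gen v ^ m) /
        algebraMap k[X] K (gen v ^ (m + m')) =
        (f - algebraMap k[X] K w / algebraMap k[X] K (gen v ^ m)) +
        (g - algebraMap k[X] K w' / algebraMap k[X] K (gen v ^ m')) := by
      have a1 := am_ne (K := K) hm.ne_zero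
      have a2 := am_ne (K := K) hm'.ne_zero
      rw [pow_add, map_mul, map_add, map_mul, map_mul]
      field_simp
      ring
    rw [e]
    exact val_add hp hq
  rw [rv_eq h, rv_eq hp, rv_eq hq]
  show RR (w * gen v ^ m' + w' * gen v ^ m) (gen v ^ (m + m')) = _
  rw [RR_add, pow_add, RR_mul hm hm', mul_comm (gen v ^ m) (gen v ^ m'), RR_mul hm' hm]

theorem rinf_add (f g : K) : rinf k (f + g) = rinf k f + rinf k g := by
  obtain ⟨⟨n, d⟩, hd, hf⟩ := exists_frac (k := k) f
  obtain ⟨⟨n', d'⟩, hd', hg⟩ := exists_frac (k := k) g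
  simp only at hd hd' hf hg
  have h : f + g = algebraMap k[X] K (n * d' + n' * d) / algebraMap k[X] K (d * d') := by
    have a1 := am_ne (K := K) hd.ne_zero
    have a2 := am_ne (K := K) hd'.ne_zero
    rw [hf, hg, map_mul, map_add, map_mul, map_mul]
    field_simp
  rw [rinf_eq (hd.mul hd') h, rinf_eq hd hf, rinf_eq hd' hg, RR_add, RR_mul hd hd', mul_comm d d',
    RR_mul hd' hd]

theorem rv_smul (v : HeightOneSpectrum k[X]) (c : k) (f : K) :
    rv v (algebraMap k[X] K (C c) * f) = c * rv v f := by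
  obtain ⟨⟨w, m⟩, hp⟩ := exists_good v f
  have h : Good v (algebraMap k[X] K (C c) * f) (C c * w, m) := by
    simp only [Good] at hp ⊢
    have e : algebraMap k[X] K (C c) * f - algebraMap k[X] K (C c * w) /
        algebraMap k[X] K (gen v ^ m) = algebraMap k[X] K (C c) *
        (f - algebraMap k[X] K w / algebraMap k[X] K (gen v ^ m)) := by
      rw [map_mul]; ring
    rw [e]
    exact val_mul (v.valuation_le_one _) hp
  rw [rv_eq h, rv_eq hp]
  exact RR_smul _ _ _

theorem rinf_smul (c : k) (f : K) :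
    rinf k (algebraMap k[X] K (C c) * f) = c * rinf k f := by
  obtain ⟨⟨n, d⟩, hd, hf⟩ := exists_frac (k := k) f
  simp only at hd hf
  have h : algebraMap k[X] K (C c) * f = algebraMap k[X] K (C c * n) / algebraMap k[X] K d := by
    rw [hf, map_mul]; ring
  rw [rinf_eq hd h, rinf_eq hd hf, RR_smul]

theorem rv_int (v : HeightOneSpectrum k[X]) (f : K) (hf : v.valuation K f ≤ 1) : rv v f = 0 := by
  have h : Good v f (0, 0) := by
    simp only [Good, map_zero, zero_div, sub_zero]
    exact hf
  rw [rv_eq h]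
  exact RR_zero _

theorem rv_sq [CharP k 2] (v : HeightOneSpectrum k[X]) (h : K) : rv v (h ^ 2) = 0 := by
  haveI : CharP K 2 := charP_of_injective_algebraMap (IsFractionRing.injective k[X] K) 2
  obtain ⟨⟨w, m⟩, hp⟩ := exists_good v h
  have h2 : Good v (h ^ 2) (w ^ 2, m * 2) := by
    simp only [Good] at hp ⊢
    have e : h ^ 2 - algebraMap k[X] K (w ^ 2) / algebraMap k[X] K (gen v ^ (m * 2)) =
        (h - algebraMap k[X] K w / algebraMap k[X] K (gen v ^ m)) ^ 2 := by
      rw [CharTwo.sub_eq_add, CharTwo.sub_eq_add, CharTwo.add_sq, pow_mul, map_pow,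
        map_pow (algebraMap k[X] K) (gen v ^ m) 2, div_pow]
    rw [e, sq]
    exact val_mul hp hp
  rw [rv_eq h2]
  show RR (w ^ 2) (gen v ^ (m * 2)) = 0
  rw [pow_mul, RR_sq ((gen_monic v).pow m)]

theorem rv_sqt [CharP k 2] (v : HeightOneSpectrum k[X]) (h : K) :
    rv v (h ^ 2 * algebraMap k[X] K X) = rv v h ^ 2 := by
  haveI : CharP K 2 := charP_of_injective_algebraMap (IsFractionRing.injective k[X] K) 2
  obtain ⟨⟨w, m⟩, hp⟩ := exists_good v h
  have h2 : Good v (h ^ 2 * algebraMap k[X] K X) (w ^ 2 * X, m * 2) := by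
    simp only [Good] at hp ⊢
    have e0 : h ^ 2 - algebraMap k[X] K (w ^ 2) / algebraMap k[X] K (gen v ^ (m * 2)) =
        (h - algebraMap k[X] K w / algebraMap k[X] K (gen v ^ m)) ^ 2 := by
      rw [CharTwo.sub_eq_add, CharTwo.sub_eq_add, CharTwo.add_sq, pow_mul, map_pow,
        map_pow (algebraMap k[X] K) (gen v ^ m) 2, div_pow]
    have e : h ^ 2 * algebraMap k[X] K X - algebraMap k[X] K (w ^ 2 * X) /
        algebraMap k[X] K (gen v ^ (m * 2)) =
        (h - algebraMap k[X] K w / algebraMap k[X] K (gen v ^ m)) ^ 2 * algebraMap k[X] K X := by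
      rw [← e0, map_mul]
      ring
    rw [e]
    refine val_mul ?_ (v.valuation_le_one _)
    rw [sq]
    exact val_mul hp hp
  rw [rv_eq h2, rv_eq hp]
  show RR (w ^ 2 * X) (gen v ^ (m * 2)) = RR w (gen v ^ m) ^ 2
  rw [pow_mul, RR_sqt ((gen_monic v).pow m)]

theorem rinf_sq [CharP k 2] (h : K) : rinf k (h ^ 2) = 0 := by
  obtain ⟨⟨n, d⟩, hd, hf⟩ := exists_frac (k := k) h
  simp only at hd hf
  have e : h ^ 2 = algebraMap k[X] K (n ^ 2) / algebraMap k[X] K (d ^ 2) := by
    rw [hf, map_pow, map_pow, div_pow]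
  rw [rinf_eq (hd.pow 2) e, RR_sq hd]

theorem rinf_sqt [CharP k 2] (h : K) :
    rinf k (h ^ 2 * algebraMap k[X] K X) = rinf k h ^ 2 := by
  obtain ⟨⟨n, d⟩, hd, hf⟩ := exists_frac (k := k) h
  simp only at hd hf
  have e : h ^ 2 * algebraMap k[X] K X =
      algebraMap k[X] K (n ^ 2 * X) / algebraMap k[X] K (d ^ 2) := by
    rw [hf, map_mul, map_pow, map_pow, div_pow]
    ring
  rw [rinf_eq (hd.pow 2) e, rinf_eq hd hf, RR_sqt hd]

theorem gen_inj {u v : HeightOneSpectrum k[X]} (h : gen u ∈ v.asIdeal) : u = v := by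
  have h1 : u.asIdeal ≤ v.asIdeal := by
    rw [gen_span u, Ideal.span_le]
    simpa using h
  have h2 : u.asIdeal = v.asIdeal :=
    (u.isMaximal).eq_of_le v.isPrime.ne_top h1
  exact HeightOneSpectrum.ext h2

theorem rinf_sum (f : K) (s : Finset (HeightOneSpectrum k[X]))
    (hf : ∀ v, v ∉ s → v.valuation K f ≤ 1) : rinf k f = ∑ v ∈ s, rv v f := by
  choose P hP using fun v : HeightOneSpectrum k[X] => exists_good v f
  set g : K := ∑ v ∈ s, algebraMap k[X] K (P v).1 / algebraMap k[X] K (gen v ^ (P v).2) with hg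
  -- the terms are integral at the other places
  have hoth : ∀ u v : HeightOneSpectrum k[X], u ≠ v →
      v.valuation K (algebraMap k[X] K (P u).1 / algebraMap k[X] K (gen u ^ (P u).2)) ≤ 1 := by
    intro u v huv
    rw [map_div₀, map_pow, map_pow, val_one (v := v) (u := gen u) (fun h => huv (gen_inj h)),
      one_pow, div_one]
    exact v.valuation_le_one _
  have hint : ∀ v : HeightOneSpectrum k[X], v.valuation K (f - g) ≤ 1 := by
    intro v
    by_cases hv : v ∈ s
    · have e : f - g = (f - algebraMap k[X] K (P v).1 / algebraMap k[X] K (gen v ^ (P v).2)) -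
          ∑ u ∈ s.erase v, algebraMap k[X] K (P u).1 / algebraMap k[X] K (gen u ^ (P u).2) := by
        rw [hg, ← Finset.add_sum_erase s _ hv]
        ring
      rw [e]
      refine (Valuation.map_sub _ _ _).trans (max_le (hP v) ?_)
      refine Valuation.map_sum_le _ fun u hu => ?_
      exact hoth u v (Finset.ne_of_mem_erase hu)
    · refine (Valuation.map_sub _ _ _).trans (max_le (hf v hv) ?_)
      refine Valuation.map_sum_le _ fun u hu => ?_
      exact hoth u v (fun h => hv (h ▸ hu))
  obtain ⟨p, hp⟩ := HeightOneSpectrum.mem_integers_of_valuation_le_one K (f - g) hint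
  have hfg : f = algebraMap k[X] K p / algebraMap k[X] K 1 + g := by
    rw [map_one, div_one, hp]
    ring
  have hsum : ∀ t : Finset (HeightOneSpectrum k[X]),
      rinf k (∑ v ∈ t, algebraMap k[X] K (P v).1 / algebraMap k[X] K (gen v ^ (P v).2) : K) =
      ∑ v ∈ t, rv v f := by
    intro t
    induction t using Finset.induction_on with
    | empty =>
      rw [Finset.sum_empty, Finset.sum_empty,
        rinf_eq (n := 0) (d := 1) monic_one (by simp), RR_zero]
    | insert v t hv ih =>
      rw [Finset.sum_insert hv, Finset.sum_insert hv, rinf_add, ih,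
        rinf_eq ((gen_monic v).pow _) rfl, rv_eq (hP v)]
  rw [hfg, rinf_add, rinf_eq (n := p) (d := 1) monic_one rfl, RR_one, zero_add, hg, hsum s]
  exact Finset.sum_congr rfl fun v _ => by rw [← hg, ← hfg]

theorem rv_simple (v : HeightOneSpectrum k[X]) (P g : k[X]) (hm : P.Monic) (hi : Irreducible P)
    (hs : v.asIdeal = Ideal.span {P}) :
    rv v (algebraMap k[X] K g / algebraMap k[X] K P) = (g %ₘ P).coeff (P.natDegree - 1) := by
  have h1 : gen v = P := by
    apply eq_of_monic_of_associated (gen_monic v) hm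
    rw [← Ideal.span_singleton_eq_span_singleton, ← gen_span, hs]
  have h2 : Good v (algebraMap k[X] K g / algebraMap k[X] K P) (g, 1) := by
    simp only [Good, pow_one, h1, sub_self, map_zero]
    exact zero_le_one
  rw [rv_eq h2]
  simp only [pow_one, h1, RR]

end field

section infinity

variable {k : Type} [Field k] {K : Type} [Field K] [Algebra k[X] K] [IsFractionRing k[X] K]

/-- The valuation at infinity. -/
noncomputable abbrev vi (k : Type) {K : Type} [Field k] [Field K] [Algebra k[X] K]
    [IsFractionRing k[X] K] : Valuation (AtInf K) (WithZero (Multiplicative ℤ)) :=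
  (pl (0 : k)).valuation (AtInf K)

theorem vi_X : vi k (K := K) (algebraMap k[X] K X : K) = WithZero.exp (1 : ℤ) := by
  have hX : algebraMap k[X] K X ≠ 0 := am_ne X_ne_zero
  have h1 : vi k (K := K) (infMap k K X : K) = WithZero.exp (-1 : ℤ) := by
    have h2 : (pl (0 : k)).valuation (AtInf K) (algebraMap k[X] (AtInf K) X) =
        WithZero.exp (-1 : ℤ) := by
      rw [HeightOneSpectrum.valuation_of_algebraMap,
        HeightOneSpectrum.intValuation_singleton _ X_ne_zero]
      show Ideal.span {X - C (0 : k)} = _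
      rw [C_0, sub_zero]
    exact h2
  have h3 : (infMap k K X : K) = (algebraMap k[X] K X)⁻¹ := by simp [infMap]
  have h4 : (algebraMap k[X] K X : K) = (infMap k K X : K)⁻¹ := by rw [h3, inv_inv]
  have h5 : vi k (K := K) ((infMap k K X : K)⁻¹ : AtInf K) = (WithZero.exp (-1 : ℤ))⁻¹ := by
    rw [← h1]
    exact map_inv₀ (vi k (K := K)) _
  rw [h4]
  refine h5.trans ?_
  rw [← WithZero.exp_neg, neg_neg]

theorem vi_poly {p : k[X]} (hp : p ≠ 0) :
    vi k (K := K) (algebraMap k[X] K p : K) = WithZero.exp (p.natDegree : ℤ) := by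
  have h1 := std_inf (k' := k) (F := K) p
  have h2 : vi k (K := K) (infMap k K (reverse p) : K) = 1 := by
    have h3 : (pl (0 : k)).valuation (AtInf K) (algebraMap k[X] (AtInf K) (reverse p)) = 1 := by
      rw [HeightOneSpectrum.valuation_eq_one_iff_notMem]
      show reverse p ∉ Ideal.span {X - C (0 : k)}
      rw [C_0, sub_zero, Ideal.mem_span_singleton, X_dvd_iff, coeff_zero_reverse]
      exact leadingCoeff_ne_zero.2 hp
    exact h3
  have h4 : vi k (K := K) (infMap k K (reverse p) * algebraMap k[X] K X ^ p.natDegree : K) =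
      vi k (K := K) (infMap k K (reverse p) : K) *
        (vi k (K := K) (algebraMap k[X] K X : K)) ^ p.natDegree := by
    exact (map_mul (vi k (K := K)) _ _).trans (congrArg _ (map_pow (vi k (K := K)) _ _))
  rw [h1, h4, h2, vi_X, one_mul, ← WithZero.exp_nsmul]
  congr 1
  simp

theorem rinf_int (f : K) (hf : vinf k (f * algebraMap k[X] K X) < 1) : rinf k f = 0 := by
  obtain ⟨⟨n, d⟩, hd, he⟩ := exists_frac (k := k) f
  simp only at hd he
  rw [rinf_eq hd he]
  by_cases hn : n = 0
  · rw [hn, RR_zero]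
  have h1 : f * algebraMap k[X] K X = algebraMap k[X] K (n * X) / algebraMap k[X] K d := by
    rw [he, map_mul]
    ring
  have h2 : vinf k (f * algebraMap k[X] K X) =
      vi k (K := K) (algebraMap k[X] K (n * X) : K) / vi k (K := K) (algebraMap k[X] K d : K) := by
    rw [h1]
    exact map_div₀ (vi k (K := K)) _ _
  rw [h2, vi_poly (mul_ne_zero hn X_ne_zero), vi_poly hd.ne_zero, natDegree_mul hn X_ne_zero,
    natDegree_X, ← WithZero.exp_sub, ← WithZero.exp_zero, WithZero.exp_lt_exp] at hf
  push_cast at hf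
  have h3 : n.natDegree + 1 < d.natDegree := by omega
  have h4 : n %ₘ d = n := (modByMonic_eq_self_iff hd).2 (degree_lt_degree (by omega))
  rw [RR, h4]
  exact coeff_eq_zero_of_natDegree_lt (by omega)

end infinity

theorem res : S_RES := by
  intro k K _ _ _ _ _ _
  exact ⟨{
    r := fun v f => rv v f
    ri := fun f => rinf k f
    r_add := rv_add
    ri_add := rinf_add
    r_smul := rv_smul
    ri_smul := rinf_smul
    r_int := rv_int
    ri_int := rinf_int
    r_sq := rv_sq
    ri_sq := rinf_sq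
    r_sqt := rv_sqt
    ri_sqt := rinf_sqt
    sum := rinf_sum
    simple := rv_simple }⟩

end Pool.Agent.H467.CT.Res
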