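import Pool.Agent.H467.CT.Gen
import Pool.Agent.H467.CT.Asc
import Pool.Agent.H467.CT.Res
import Pool.Agent.H467.CT.Fin
import Pool.Agent.H467.CT.Big
import Pool.Agent.H467.CT.Eqd
import Pool.Agent.H467.CT.Mat

/-!
# Descent in characteristic two: counting the general twists

Project CT (helper467).
-/

set_option autoImplicit false
set_option linter.all false

open Polynomial IsDedekindDomain WeierstrassCurve WeierstrassCurve.Affine WithZero Filter
open Pool.Agent.TH115.GD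
open Pool.Agent.N352.PP (vv em vv_coe dense_F dense_R vv_em_lt vv_em_le vv_em_P vv_em_one vv_em)
open scoped Classical

namespace Pool.Agent.H467.CT

/-- The proportion. -/
noncomputable def pm (m : ℕ) : ℝ :=
  ((m + 1).choose 2 : ℝ) * (1 / 2) ^ m * ∏ i ∈ Finset.Ico 1 m, (1 - (1 / 2 : ℝ) ^ i)

/-- The number of good matrices. -/
def gm (m : ℕ) : ℕ :=
  ((m + 1).choose 2) * 2 ^ (m - 1) * ∏ i ∈ Finset.range (m - 1), (2 ^ (m - 1) - 2 ^ i)

theorem gm_eq (m : ℕ) (hm : m ≠ 0) : (gm m : ℝ) = pm m * 2 ^ (m ^ 2) := by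
  obtain ⟨n, rfl⟩ := Nat.exists_eq_succ_of_ne_zero hm
  unfold gm pm
  simp only [Nat.succ_eq_add_one, Nat.add_sub_cancel]
  have h1 : ((∏ i ∈ Finset.range n, (2 ^ n - 2 ^ i) : ℕ) : ℝ) =
      2 ^ (n ^ 2) * ∏ i ∈ Finset.Ico 1 (n + 1), (1 - (1 / 2 : ℝ) ^ i) := by
    rw [Finset.prod_Ico_eq_prod_range]
    simp only [Nat.add_sub_cancel]
    rw [← Finset.prod_range_reflect (fun i => (1 - (1 / 2 : ℝ) ^ (1 + i)))]
    have h2 : (2 : ℝ) ^ (n ^ 2) = ∏ i ∈ Finset.range n, (2 : ℝ) ^ n := by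
      rw [Finset.prod_const, Finset.card_range, ← pow_mul, sq]
    rw [h2, ← Finset.prod_mul_distrib, Nat.cast_prod]
    refine Finset.prod_congr rfl fun i hi => ?_
    have hi' := Finset.mem_range.1 hi
    rw [Nat.cast_sub (Nat.pow_le_pow_right (by norm_num) hi'.le)]
    push_cast
    rw [mul_sub, mul_one]
    congr 1
    have e : n = i + (1 + (n - 1 - i)) := by omega
    have e2 : (2 : ℝ) ^ n = 2 ^ i * 2 ^ (1 + (n - 1 - i)) := by
      rw [← pow_add, ← e]
    rw [e2, mul_assoc, ← mul_pow]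
    norm_num
  push_cast at h1 ⊢
  rw [h1]
  have h3 : (2 : ℝ) ^ ((n + 1) ^ 2) = 2 ^ (n + 1) * 2 ^ n * 2 ^ (n ^ 2) := by
    rw [← pow_add, ← pow_add]
    congr 1
    ring
  rw [h3]
  have h4 : (1 / 2 : ℝ) ^ (n + 1) * 2 ^ (n + 1) = 1 := by
    rw [← mul_pow]
    norm_num
  linear_combination (-(((n + 1 + 1).choose 2 : ℕ) : ℝ) * 2 ^ n * 2 ^ (n ^ 2) *
    ∏ i ∈ Finset.Ico 1 (n + 1), (1 - (1 / 2 : ℝ) ^ i)) * h4

section cnt

variable {k K : Type} [Field k] [Finite k] [CharP k 2] [Field K] [Algebra k[X] K]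
  [IsFractionRing k[X] K]

theorem big_fin [CharP K 2] (v : HeightOneSpectrum k[X]) {a : K} {γ : WithZero (Multiplicative ℤ)}
    (hγ : 1 ≤ γ) (h : ¬ ∃ z : K, v.valuation K (a + z ^ 2 + z) ≤ γ) (z : v.adicCompletion K) :
    γ < vv v (algebraMap K (v.adicCompletion K) a + z ^ 2 + z) := by
  by_contra hc
  rw [not_lt] at hc
  apply h
  obtain ⟨z₀, hz₀⟩ := Intg.near v z
  refine ⟨z₀, ?_⟩
  rw [← vv_coe]
  have h2' : (2 : v.adicCompletion K) = 0 := by
    have h : (2 : K) = 0 := CharTwo.two_eq_zero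
    have := congrArg (algebraMap K (v.adicCompletion K)) h
    rwa [map_ofNat, map_zero] at this
  have e : algebraMap K (v.adicCompletion K) (a + z₀ ^ 2 + z₀) =
      (algebraMap K (v.adicCompletion K) a + z ^ 2 + z) +
      ((z - algebraMap K (v.adicCompletion K) z₀) ^ 2 +
        (z - algebraMap K (v.adicCompletion K) z₀)) := by
    rw [map_add, map_add, map_pow]
    linear_combination (-z ^ 2 - z + z * algebraMap K (v.adicCompletion K) z₀ +
      algebraMap K (v.adicCompletion K) z₀) * h2'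
  rw [e]
  refine (Valuation.map_add_le _ hc ?_)
  refine (Valuation.map_add_le _ ?_ (hz₀.trans hγ))
  rw [map_pow]
  exact (pow_le_one' hz₀ 2).trans hγ

theorem big_infp [CharP K 2] {a : K} {γ : WithZero (Multiplicative ℤ)}
    (hγ : 1 ≤ γ) (h : ¬ ∃ z : K, vinf k (a + z ^ 2 + z) ≤ γ) (z : Infg.LL k K) :
    γ < Infg.w k K (Infg.jj k K a + z ^ 2 + z) := by
  by_contra hc
  rw [not_lt] at hc
  apply h
  obtain ⟨g, hg⟩ := dense_inf z
  refine ⟨algebraMap k[X] K g, ?_⟩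
  rw [vinf_eq]
  have h2' : (2 : Infg.LL k K) = 0 := by
    have h : (2 : K) = 0 := CharTwo.two_eq_zero
    have := congrArg (Infg.jj k K) h
    rwa [map_ofNat, map_zero] at this
  have hg' : Infg.w k K (z - Infg.jj k K (algebraMap k[X] K g)) ≤ 1 := hg
  have e : Infg.jj k K (a + (algebraMap k[X] K g) ^ 2 + (algebraMap k[X] K g)) =
      (Infg.jj k K a + z ^ 2 + z) +
      ((z - Infg.jj k K (algebraMap k[X] K g)) ^ 2 +
        (z - Infg.jj k K (algebraMap k[X] K g))) := by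
    rw [map_add, map_add, map_pow]
    linear_combination (-z ^ 2 - z + z * Infg.jj k K (algebraMap k[X] K g) +
      Infg.jj k K (algebraMap k[X] K g)) * h2'
  rw [e]
  refine (Valuation.map_add_le _ hc ?_)
  refine (Valuation.map_add_le _ ?_ (hg'.trans hγ))
  rw [map_pow]
  exact (pow_le_one' hg' 2).trans hγ

/-- Elements of `VN` are integral outside `s`. -/
theorem VN_out {s : Finset k[X]} {N : ℕ} {a : K} (ha : a ∈ VN K s N) (v : HeightOneSpectrum k[X])
    (hv : Out s v) : v.valuation K a ≤ 1 := by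
  obtain ⟨f, -, hf⟩ := ha
  have h1 : v.valuation K (algebraMap k[X] K (∏ Q ∈ s, Q)) = 1 := by
    rw [HeightOneSpectrum.valuation_of_algebraMap]
    apply le_antisymm (v.intValuation_le_one _)
    rw [← not_lt, HeightOneSpectrum.intValuation_lt_one_iff_mem]
    intro h
    haveI := v.isPrime
    obtain ⟨Q, hQ, hQv⟩ := (Ideal.IsPrime.prod_mem_iff (p := v.asIdeal)).1 h
    exact hv Q hQ hQv
  have h2 := congrArg (v.valuation K) hf
  rw [map_mul, map_pow, h1, one_pow, mul_one] at h2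
  rw [h2]
  exact v.valuation_le_one f


omit [Finite k] [CharP k 2] [Field K] [Algebra k[X] K] [IsFractionRing k[X] K] [Field k] in
theorem sum_fib {α β : Type} {V : Set α} (hV : V.Finite) (f : α → β) (T : Finset β) {G : Set α}
    (hG : ∀ a ∈ V, f a ∈ T → a ∈ G) (hGf : G.Finite) :
    ∑ t ∈ T, {a ∈ V | f a = t}.ncard ≤ G.ncard := by
  have h1 : ∀ t, {a ∈ V | f a = t}.ncard = ((hV.toFinset.filter fun a => f a ∈ T).filter
      fun a => f a = t).card ∨ t ∉ T := by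
    intro t
    by_cases ht : t ∈ T
    · left
      rw [← Set.ncard_coe_finset]
      congr 1
      ext a
      simp only [Set.mem_setOf_eq, Finset.coe_filter, Finset.mem_filter, Set.Finite.mem_toFinset]
      constructor
      · rintro ⟨h1, h2⟩
        exact ⟨⟨h1, by rw [h2]; exact ht⟩, h2⟩
      · rintro ⟨⟨h1, _⟩, h2⟩
        exact ⟨h1, h2⟩
    · exact Or.inr ht
  have h2 : ∑ t ∈ T, {a ∈ V | f a = t}.ncard = (hV.toFinset.filter fun a => f a ∈ T).card := by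
    rw [Finset.card_eq_sum_card_fiberwise (f := f) (t := T) (fun a ha => by
      have := (Finset.mem_filter.1 ha).2
      exact this)]
    refine Finset.sum_congr rfl fun t ht => ?_
    rcases h1 t with h | h
    · exact h
    · exact absurd ht h
  rw [h2, ← Set.ncard_coe_finset]
  refine Set.ncard_le_ncard ?_ hGf
  intro a ha
  have h3 := Finset.mem_filter.1 (Finset.mem_coe.1 ha)
  exact hG a ((Set.Finite.mem_toFinset hV).1 h3.1) h3.2

theorem dat_of [CharP K 2] {ρ : Res k K} {τ : k → ZMod 2} (hτ : IsTau τ) {s : Finset k[X]}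
    (hs : ∀ Q ∈ s, Irreducible Q) (hm : ∀ Q ∈ s, Q.Monic) {b : K} (hb0 : b ≠ 0)
    (hbs : ∀ v : HeightOneSpectrum k[X], Out s v → v.valuation K b = 1)
    {t : Finset k[X]} (ht : t ⊆ s) {y : K} (hby : b = algebraMap k[X] K (∏ Q ∈ t, Q) * y ^ 2)
    {N : ℕ} {a : K} (ha : a ∈ VN K s N) (hg : Good (ind t) (mat ρ τ hs a))
    (hq : ∀ Q (hQ : Q ∈ s), ¬ ∃ z : K, (Infg.pr Q (hs Q hQ)).valuation K (a + z ^ 2 + z) ≤
      max 1 ((Infg.pr Q (hs Q hQ)).valuation K b))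
    (hi : ¬ ∃ z : K, vinf k (a + z ^ 2 + z) ≤ max 1 (vinf k b)) :
    Gdat ρ τ hs a b t y where
  tau := hτ
  monic := hm
  sub := ht
  b_eq := hby
  b_ne := hb0
  b_out := hbs
  a_out := fun v hv => VN_out ha v hv
  big := by
    intro Q hQ z
    have h := big_fin _ (le_max_left 1 _) (hq Q hQ) z
    rw [show (Infg.pr Q (hs Q hQ)).valuation K b = vv (Infg.pr Q (hs Q hQ)) (algebraMap K
      ((Infg.pr Q (hs Q hQ)).adicCompletion K) b) from (vv_coe _ _).symm] at h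
    exact h
  bigi := by
    intro z
    have h := big_infp (le_max_left 1 _) hi z
    rw [vinf_eq b] at h
    exact h
  good := hg

/-- The counting argument. -/
theorem count [CharP K 2] {s : Finset k[X]} (hs : ∀ Q ∈ s, Irreducible Q)
    (hm : ∀ Q ∈ s, Q.Monic) {b : K} (hbsq : ¬ IsSquare b)
    (hbs : ∀ v : HeightOneSpectrum k[X], Out s v → v.valuation K b = 1) (R : K → Prop)
    (hR : ∀ a : K, (∀ P : Pt (cc a b) K, ∃ Q, Q + Q = P) →
      (∀ P : Pt (cc a b) K, P + P = 0 → P = 0) → ShaTwo k (cc a b) → R a) :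
    ∀ c : ℝ, c < pm s.card → ∀ᶠ N : ℕ in atTop,
      c * ((VN K s N).ncard : ℝ) ≤ ({a ∈ VN K s N | R a}.ncard : ℝ) := by
  intro c hc
  have hb0 : b ≠ 0 := by
    rintro rfl
    exact hbsq ⟨0, by simp⟩
  obtain ⟨t, ht, y, hy, hby⟩ := sq_fin Infg.sqg s hs b hb0 (fun v hv => by
    rw [hbs v hv]; exact ev_one)
  obtain ⟨Q₀, hQ₀⟩ : t.Nonempty := by
    rw [Finset.nonempty_iff_ne_empty]
    rintro rfl
    apply hbsq
    refine ⟨y, ?_⟩
    rw [hby, Finset.prod_empty, map_one, one_mul, sq]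
  have hcard : s.card ≠ 0 := Finset.card_ne_zero_of_mem (ht hQ₀)
  have hind : (ind t : s → ZMod 2) ≠ 0 := by
    intro h
    have := congrFun h ⟨Q₀, ht hQ₀⟩
    simp [ind, hQ₀] at this
  obtain ⟨ρ⟩ := Res.res k K
  obtain ⟨τ, hτ⟩ := Eqd.tau k
  obtain ⟨hVN, N₀, hN₀⟩ := Eqd.eqd k K ρ τ hτ s hs hm
  have hbig := fun γ => Big.big k K s hs hm γ
  have hpos : ∀ N, (0 : ℝ) < ((VN K s N).ncard : ℝ) := by
    intro N
    rw [hVN N]
    have : 0 < Nat.card k := Nat.card_pos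
    positivity
  have hVfin : ∀ N, (VN K s N).Finite := fun N =>
    Set.finite_of_ncard_pos (by exact_mod_cast hpos N)
  -- the good elements
  set G : ℕ → Set K := fun N => {a ∈ VN K s N | Good (ind t) (mat ρ τ hs a)} with hG
  have hGc : ∀ N ≥ N₀, pm s.card * ((VN K s N).ncard : ℝ) ≤ ((G N).ncard : ℝ) := by
    intro N hN
    set 𝒯 : Set (s → Option s → ZMod 2) := {T | (∀ i, ∑ j, T i j = 0) ∧ Good (ind t) T} with h𝒯
    have h𝒯c : 𝒯.ncard = gm s.card := by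
      have := Mat.matc s (ind t) hind
      rw [Fintype.card_coe] at this
      exact this
    have h𝒯f : 𝒯.Finite := Set.toFinite _
    have hGf : (G N).Finite := (hVfin N).subset fun a ha => ha.1
    have h1 : ∑ T ∈ h𝒯f.toFinset, {a ∈ VN K s N | mat ρ τ hs a = T}.ncard ≤ (G N).ncard :=
      sum_fib (hVfin N) (fun a => mat ρ τ hs a) h𝒯f.toFinset (fun a haV haT =>
        ⟨haV, ((Set.Finite.mem_toFinset h𝒯f).1 haT).2⟩) hGf
    have h3 : (∑ T ∈ h𝒯f.toFinset, {a ∈ VN K s N | mat ρ τ hs a = T}.ncard) * 2 ^ (s.card ^ 2) =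
        gm s.card * (VN K s N).ncard := by
      rw [Finset.sum_mul, Finset.sum_congr rfl (fun T hT => hN₀ N hN T
        ((Set.Finite.mem_toFinset h𝒯f).1 hT).1), Finset.sum_const, smul_eq_mul,
        ← Set.ncard_eq_toFinset_card _ h𝒯f, h𝒯c]
    have h4 : gm s.card * (VN K s N).ncard ≤ (G N).ncard * 2 ^ (s.card ^ 2) := by
      rw [← h3]
      exact Nat.mul_le_mul_right _ h1
    have h5 : ((gm s.card : ℕ) : ℝ) * ((VN K s N).ncard : ℝ) ≤
        ((G N).ncard : ℝ) * 2 ^ (s.card ^ 2) := by exact_mod_cast h4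
    rw [gm_eq _ hcard] at h5
    have h6 : (0 : ℝ) < 2 ^ (s.card ^ 2) := by positivity
    nlinarith [h5, h6]
  -- the elements which are not big
  set Bq : (Q : {Q // Q ∈ s}) → ℕ → Set K := fun Q N => {a ∈ VN K s N |
    ∃ z : K, (Infg.pr Q.1 (hs Q.1 Q.2)).valuation K (a + z ^ 2 + z) ≤
      max 1 ((Infg.pr Q.1 (hs Q.1 Q.2)).valuation K b)} with hBq
  set Bi : ℕ → Set K := fun N => {a ∈ VN K s N |
    ∃ z : K, vinf k (a + z ^ 2 + z) ≤ max 1 (vinf k b)} with hBi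
  have hlim : Tendsto (fun N : ℕ => (∑ Q ∈ s.attach, ((Bq Q N).ncard : ℝ) / ((VN K s N).ncard : ℝ)) +
      ((Bi N).ncard : ℝ) / ((VN K s N).ncard : ℝ)) atTop (nhds 0) := by
    have h1 : Tendsto (fun N : ℕ => (∑ Q ∈ s.attach, ((Bq Q N).ncard : ℝ) /
        ((VN K s N).ncard : ℝ))) atTop (nhds (∑ Q ∈ s.attach, (0 : ℝ))) :=
      tendsto_finset_sum _ fun Q _ => (hbig (max 1 ((Infg.pr Q.1 (hs Q.1 Q.2)).valuation K b))).1
        Q.1 Q.2
    have h2 := h1.add (hbig (max 1 (vinf k b))).2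
    rw [Finset.sum_const_zero, add_zero] at h2
    exact h2
  have hev := (hlim.eventually (gt_mem_nhds (sub_pos.2 hc)))
  filter_upwards [hev, eventually_ge_atTop N₀] with N hN1 hN2
  have hsub : G N ⊆ {a ∈ VN K s N | R a} ∪ ((⋃ Q ∈ s.attach, Bq Q N) ∪ Bi N) := by
    intro a ha
    by_cases hi : a ∈ Bi N
    · exact Or.inr (Or.inr hi)
    by_cases hq : a ∈ ⋃ Q ∈ s.attach, Bq Q N
    · exact Or.inr (Or.inl hq)
    left
    refine ⟨ha.1, ?_⟩
    have hq' : ∀ Q (hQ : Q ∈ s), ¬ ∃ z : K,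
        (Infg.pr Q (hs Q hQ)).valuation K (a + z ^ 2 + z) ≤
        max 1 ((Infg.pr Q (hs Q hQ)).valuation K b) := by
      intro Q hQ h
      apply hq
      rw [Set.mem_iUnion₂]
      exact ⟨⟨Q, hQ⟩, Finset.mem_attach _ _, ha.1, h⟩
    have hi' : ¬ ∃ z : K, vinf k (a + z ^ 2 + z) ≤ max 1 (vinf k b) := fun h => hi ⟨ha.1, h⟩
    have hd := dat_of hτ hs hm hb0 hbs ht hby ha.1 ha.2 hq' hi'
    obtain ⟨h1, h2, h3⟩ := gen_main Asc.asc Infg.infg Infg.sqg Mat.matl hd hbsq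
    exact hR a h1 h2 h3
  have hUf : ((⋃ Q ∈ s.attach, Bq Q N) ∪ Bi N).Finite := by
    refine (hVfin N).subset ?_
    rintro a (ha | ha)
    · rw [Set.mem_iUnion₂] at ha
      obtain ⟨Q, -, h⟩ := ha
      exact h.1
    · exact ha.1
  have hRf : {a ∈ VN K s N | R a}.Finite := (hVfin N).subset fun a ha => ha.1
  have h1 := Set.ncard_le_ncard hsub (hRf.union hUf)
  have h2 := Set.ncard_union_le {a ∈ VN K s N | R a} ((⋃ Q ∈ s.attach, Bq Q N) ∪ Bi N)
  have h3 := Set.ncard_union_le (⋃ Q ∈ s.attach, Bq Q N) (Bi N)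
  have h4 : (⋃ Q ∈ s.attach, Bq Q N).ncard ≤ ∑ Q ∈ s.attach, (Bq Q N).ncard :=
    Finset.set_ncard_biUnion_le _ _
  have h5 : (((G N).ncard : ℕ) : ℝ) ≤ ({a ∈ VN K s N | R a}.ncard : ℝ) +
      ((∑ Q ∈ s.attach, ((Bq Q N).ncard : ℝ)) + ((Bi N).ncard : ℝ)) := by
    have : (G N).ncard ≤ {a ∈ VN K s N | R a}.ncard + ((∑ Q ∈ s.attach, (Bq Q N).ncard) +
      (Bi N).ncard) := by omega
    exact_mod_cast this
  have h6 := hGc N hN2
  rw [← Finset.sum_div, ← add_div, div_lt_iff₀ (hpos N)] at hN1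
  nlinarith [h5, h6, hN1]

end cnt

end Pool.Agent.H467.CT
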