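import Pool.Agent.H467.CT.Cnt

/-!
# Descent in characteristic two: isogenies by Frobenius, and shifts

Project CT (helper467).
-/

set_option autoImplicit false
set_option linter.all false

open Polynomial IsDedekindDomain WeierstrassCurve WeierstrassCurve.Affine WithZero Filter
open Pool.Agent.TH115.GD
open scoped Classical

namespace Pool.Agent.H467.CT

section pts

variable {F : Type} [Field F] [CharP F 2] {W : Affine F} {a b : F}

/-- A curve whose points have only finitely many abscissas has finitely many points. -/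
theorem fin_abs (h : Std W a b) {S : Set F} (hS : S.Finite)
    (hW : ∀ x y, W.Nonsingular x y → x ∈ S) : Finite W.Point := by
  have h1 : ∀ x : F, {P : W.Point | ∃ y hn, P = Point.some x y hn}.Finite := by
    intro x
    by_cases hne : ∃ y, W.Nonsingular x y
    · obtain ⟨y0, hy0⟩ := hne
      have h2 : {y : F | W.Nonsingular x y} ⊆ {y0, y0 + x} := by
        intro y hy
        rcases h.cases_x hy hy0 with e | e
        · exact Or.inl e
        · exact Or.inr e
      have h3 : {y : F | W.Nonsingular x y}.Finite := (Set.toFinite {y0, y0 + x}).subset h2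
      refine Set.Finite.of_finite_image (f := fun P : W.Point => match P with
        | .zero => (0 : F)
        | .some _ y _ => y) (h3.subset ?_) ?_
      · rintro _ ⟨P, ⟨y, hn, rfl⟩, rfl⟩
        exact hn
      · rintro P ⟨y, hn, rfl⟩ Q ⟨y', hn', rfl⟩ hPQ
        dsimp only at hPQ
        subst hPQ
        rfl
    · have h0 : {P : W.Point | ∃ y hn, P = Point.some x y hn} = ∅ := by
        rw [Set.eq_empty_iff_forall_notMem]
        rintro P ⟨y, hn, rfl⟩
        exact hne ⟨y, hn⟩
      rw [h0]
      exact Set.finite_empty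
  have h2 : (Set.univ : Set W.Point) ⊆
      {0} ∪ ⋃ x ∈ S, {P : W.Point | ∃ y hn, P = Point.some x y hn} := by
    intro P _
    rcases P with _ | ⟨x, y, hn⟩
    · left
      rfl
    · right
      rw [Set.mem_iUnion₂]
      exact ⟨x, hW x y hn, y, hn, rfl⟩
  rw [← Set.finite_univ_iff]
  refine Set.Finite.subset ?_ h2
  exact (Set.finite_singleton _).union (hS.biUnion fun x _ => h1 x)

/-- The dual of the isogeny of Frobenius, and finiteness of the group of points. -/
theorem fin_sq (h : Std W a b) {W' : Affine F} (h' : Std W' a (b ^ 2)) (hf : Finite W.Point) :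
    Finite W'.Point := by
  have h2 : (2 : F) = 0 := CharTwo.two_eq_zero
  have hA : {x : F | ∃ y, W.Nonsingular x y}.Finite := by
    haveI := hf
    refine (Set.finite_range (fun P : W.Point => match P with
        | .zero => (0 : F)
        | .some x _ _ => x)).subset ?_
    rintro x ⟨y, hy⟩
    exact ⟨Point.some x y hy, rfl⟩
  have hS : ({0} ∪ ⋃ x₃ ∈ {x : F | ∃ y, W.Nonsingular x y},
      {X : F | X ^ 2 + x₃ * X + b = 0}).Finite := by
    refine (Set.finite_singleton _).union (hA.biUnion fun x₃ _ => ?_)
    have hp : (X ^ 2 + C x₃ * X + C b : F[X]) ≠ 0 := by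
      intro e
      have := congrArg (fun p => coeff p 2) e
      simp [coeff_X, coeff_C] at this
    refine (Multiset.finite_toSet (X ^ 2 + C x₃ * X + C b : F[X]).roots).subset ?_
    intro x hx
    rw [Set.mem_setOf_eq, mem_roots hp, IsRoot.def]
    simpa using hx
  refine fin_abs h' hS fun X Y hn => ?_
  by_cases hX : X = 0
  · exact Or.inl hX
  · right
    have e := h'.eq_of hn
    rw [Set.mem_iUnion₂]
    refine ⟨X + b / X, ⟨X + ((Y + b) / X + 1) * (X + b / X), h.nons ?_⟩, ?_⟩
    · have e2 : ((Y + b) / X) ^ 2 + (Y + b) / X = X + b / X + a := by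
        field_simp
        linear_combination e + (Y * b + b ^ 2 + X * Y * 0) * h2
      set l := (Y + b) / X with hl
      have e3 : X ^ 2 + (X + b / X) * X = b := by
        have : (X + b / X) * X = X ^ 2 + b := by field_simp
        rw [this]
        linear_combination X ^ 2 * h2
      set x₃ := X + b / X with hx₃
      linear_combination x₃ ^ 2 * e2 + e3 + (l * x₃ ^ 2 + x₃ ^ 2 + X * l * x₃ + X * x₃) * h2
    · show X ^ 2 + (X + b / X) * X + b = 0
      have : (X + b / X) * X = X ^ 2 + b := by field_simp
      rw [this]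
      linear_combination (X ^ 2 + b) * h2

end pts

section dec

variable {k K : Type} [Field k] [Field K] [Algebra k[X] K] [IsFractionRing k[X] K]

/-- An element of `k(t)` without zeros and poles is a constant. -/
theorem const_of {b : K} (h : ∀ v : HeightOneSpectrum k[X], v.valuation K b = 1) :
    ∃ c : k, b = algebraMap k[X] K (C c) := by
  have hb : b ≠ 0 := by
    rintro rfl
    have := h (pl (0 : k))
    rw [map_zero] at this
    exact zero_ne_one this
  obtain ⟨p, hp⟩ := HeightOneSpectrum.mem_integers_of_valuation_le_one K b fun v => (h v).le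
  obtain ⟨p', hp'⟩ := HeightOneSpectrum.mem_integers_of_valuation_le_one K b⁻¹ fun v => by
    rw [map_inv₀, h v, inv_one]
  have hu : IsUnit p := by
    refine IsUnit.of_mul_eq_one p' ?_
    apply IsFractionRing.injective k[X] K
    rw [map_mul, hp, hp', map_one, mul_inv_cancel₀ hb]
  obtain ⟨c, -, hc⟩ := Polynomial.isUnit_iff.1 hu
  exact ⟨c, by rw [hc, hp]⟩

/-- The largest `n` such that `b` is a `2 ^ n`-th power. -/
theorem dec_pow {b : K} (h : ∀ c : k, b ≠ algebraMap k[X] K (C c)) :
    ∃ (n : ℕ) (b₀ : K), ¬ IsSquare b₀ ∧ b = b₀ ^ 2 ^ n := by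
  obtain ⟨v, hv⟩ : ∃ v : HeightOneSpectrum k[X], v.valuation K b ≠ 1 := by
    by_contra hc
    push Not at hc
    obtain ⟨c, hc⟩ := const_of hc
    exact h c hc
  have hb : b ≠ 0 := by
    rintro rfl
    exact h 0 (by rw [C_0, map_zero])
  by_contra hc
  push Not at hc
  have key : ∀ n : ℕ, ∃ b₀ : K, b = b₀ ^ 2 ^ n := by
    intro n
    induction n with
    | zero => exact ⟨b, by simp⟩
    | succ n ih =>
      obtain ⟨b₀, hb₀⟩ := ih
      obtain ⟨c, hcc⟩ : IsSquare b₀ := by
        by_contra hs
        exact hc n b₀ hs hb₀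
      exact ⟨c, by rw [hb₀, hcc, ← sq, ← pow_mul, pow_succ']⟩
  have hlog : log (v.valuation K b) ≠ 0 := by
    intro h0
    apply hv
    have h1 := exp_log ((Valuation.ne_zero_iff (v.valuation K)).2 hb)
    rw [← h1, h0, exp_zero]
  set M := (log (v.valuation K b)).natAbs with hM
  have hM0 : M ≠ 0 := by
    rw [hM]; omega
  obtain ⟨b₀, hb₀⟩ := key M
  have hb₀0 : b₀ ≠ 0 := by
    rintro rfl
    apply hb
    rw [hb₀, zero_pow (by positivity)]
  have h1 := exp_log ((Valuation.ne_zero_iff (v.valuation K)).2 hb₀0)
  have h2 : log (v.valuation K b) = 2 ^ M * log (v.valuation K b₀) := by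
    rw [hb₀, map_pow, ← h1, ← exp_nsmul, log_exp, log_exp]
    simp
  have h3 : M = 2 ^ M * (log (v.valuation K b₀)).natAbs := by
    have := congrArg Int.natAbs h2
    rw [Int.natAbs_mul, Int.natAbs_pow] at this
    exact this
  rcases Nat.eq_zero_or_pos (log (v.valuation K b₀)).natAbs with h0 | h0
  · rw [h0, mul_zero] at h3
    exact hM0 h3
  · have h4 : M < 2 ^ M := Nat.lt_two_pow_self
    nlinarith

end dec

end Pool.Agent.H467.CT
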