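import Pool.Agent.H467.CT.Loc

/-!
# Descent in characteristic two: the global part

Project CT (helper467).
-/

set_option autoImplicit false
set_option linter.all false

open Polynomial IsDedekindDomain WeierstrassCurve WeierstrassCurve.Affine
open Pool.Agent.TH115.GD
open scoped Classical

namespace Pool.Agent.H467.CT

/-- `t` and `1` are a basis of `K` over its subfield of squares. -/
structure Bas {K : Type} [Field K] (t : K) : Prop where
  ns : ¬ IsSquare t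
  dec : ∀ x : K, ∃ u w, x = u ^ 2 + t * w ^ 2

section dec

variable {K Ω : Type} [Field K] [Field Ω] [Algebra K Ω] [IsGalois K Ω] [CharP Ω 2]

/-- The elements `u ^ 2 + t w ^ 2`. -/
def MM (t : K) (h : Bas t) : IntermediateField K Ω where
  carrier := {x | ∃ u w : Ω, x = u ^ 2 + algebraMap K Ω t * w ^ 2}
  mul_mem' := by
    rintro x y ⟨u, w, rfl⟩ ⟨u', w', rfl⟩
    refine ⟨u * u' + algebraMap K Ω t * w * w', u * w' + w * u', ?_⟩
    have c2 : (2 : Ω) = 0 := CharTwo.two_eq_zero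
    linear_combination (-2 * algebraMap K Ω t * u * u' * w * w') * c2
  add_mem' := by
    rintro x y ⟨u, w, rfl⟩ ⟨u', w', rfl⟩
    refine ⟨u + u', w + w', ?_⟩
    have c2 : (2 : Ω) = 0 := CharTwo.two_eq_zero
    linear_combination (-(u * u') - algebraMap K Ω t * w * w') * c2
  algebraMap_mem' := by
    intro x
    obtain ⟨u, w, e⟩ := h.dec x
    exact ⟨algebraMap K Ω u, algebraMap K Ω w, by rw [e]; simp⟩
  inv_mem' := by
    rintro x ⟨u, w, hx⟩
    by_cases h0 : x = 0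
    · exact ⟨0, 0, by rw [h0]; simp⟩
    · refine ⟨u / x, w / x, ?_⟩
      field_simp
      rw [← hx]

theorem dec_all {t : K} (h : Bas t) (x : Ω) :
    ∃ u w : Ω, x = u ^ 2 + algebraMap K Ω t * w ^ 2 := by
  have hM : x ∈ perfectClosure (MM (Ω := Ω) t h) Ω := by
    rw [mem_perfectClosure_iff]
    haveI : CharP (MM (Ω := Ω) t h) 2 :=
      (algebraMap (MM (Ω := Ω) t h) Ω).charP_iff_charP 2 |>.2 inferInstance
    haveI : ExpChar (MM (Ω := Ω) t h) 2 := ExpChar.prime Nat.prime_two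
    refine ⟨1, ?_⟩
    rw [ringExpChar.eq (MM (Ω := Ω) t h) 2, pow_one]
    exact ⟨⟨x ^ 2, x, 0, by ring⟩, rfl⟩
  haveI : Algebra.IsSeparable (MM (Ω := Ω) t h) Ω :=
    Algebra.isSeparable_tower_top_of_isSeparable K (MM (Ω := Ω) t h) Ω
  rw [perfectClosure.eq_bot_of_isSeparable] at hM
  obtain ⟨y, hy⟩ := IntermediateField.mem_bot.1 hM
  obtain ⟨u, w, e⟩ := y.2
  exact ⟨u, w, by rw [← hy]; exact e⟩

theorem dec_uniq {t : K} (h : Bas t) {u w u' w' : Ω}
    (e : u ^ 2 + algebraMap K Ω t * w ^ 2 = u' ^ 2 + algebraMap K Ω t * w' ^ 2) :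
    u = u' ∧ w = w' := by
  have c2 : (2 : Ω) = 0 := CharTwo.two_eq_zero
  have hw : w = w' := by
    by_contra hne
    apply h.ns
    apply sq_down (Ω' := Ω)
    have hs : w + w' ≠ 0 := fun e2 => hne (by linear_combination e2 - w' * c2)
    refine ⟨(u + u') / (w + w'), ?_⟩
    field_simp
    grind
  subst hw
  exact ⟨sq_inj2 (by linear_combination e), rfl⟩

/-- An element on which the Galois group acts by squares. -/
theorem exists_d {t : K} (h : Bas t) {x : Ω} (hx : x ≠ 0)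
    (hσ : ∀ σ : Ω ≃ₐ[K] Ω, IsSquare (σ x * x)) :
    ∃ (d : K) (w : Ω), d ≠ 0 ∧ w ≠ 0 ∧ x = w ^ 2 * algebraMap K Ω d := by
  obtain ⟨u, w, e⟩ := dec_all h x
  by_cases hw : w = 0
  · subst hw
    refine ⟨1, u, one_ne_zero, ?_, ?_⟩
    · rintro rfl
      apply hx
      rw [e]; ring
    · rw [e, map_one]; ring
  · have hfix : ∀ σ : Ω ≃ₐ[K] Ω, σ (u / w) = u / w := by
      intro σ
      obtain ⟨s, hs⟩ := hσ σ
      have h1 : σ x = x * (s / x) ^ 2 := by
        field_simp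
        linear_combination hs
      have h2 : (σ u) ^ 2 + algebraMap K Ω t * (σ w) ^ 2 =
          (u * (s / x)) ^ 2 + algebraMap K Ω t * (w * (s / x)) ^ 2 := by
        have : σ x = (σ u) ^ 2 + algebraMap K Ω t * (σ w) ^ 2 := by
          conv_lhs => rw [e]
          simp
        rw [← this, h1]
        linear_combination (s / x) ^ 2 * e
      obtain ⟨h3, h4⟩ := dec_uniq h h2
      have hs0 : s / x ≠ 0 := by
        intro h5
        rw [h5, mul_zero] at h4
        exact hw ((map_eq_zero σ).1 h4)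
      rw [map_div₀, h3, h4, mul_div_mul_right _ _ hs0]
    obtain ⟨r, hr⟩ := fixed_el (L := K) hfix
    refine ⟨r ^ 2 + t, w, ?_, hw, ?_⟩
    · intro h0
      apply hx
      have : x = w ^ 2 * algebraMap K Ω (r ^ 2 + t) := by
        rw [map_add, map_pow, hr, e]
        field_simp
      rw [this, h0, map_zero, mul_zero]
    · rw [map_add, map_pow, hr, e]
      field_simp

end dec

section glob

variable {K : Type} [Field K] [CharP K 2] {a b : K}

instance charSep : CharP (Sep K) 2 :=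
  charP_of_injective_algebraMap (algebraMap K (Sep K)).injective 2

/-- A half of the Frobenius of `R` and the element of Artin and Schreier which belongs to it. -/
structure Dat (a b : K) (c : (Sep K ≃ₐ[K] Sep K) → Pt (cc a b) (Sep K)) (R : Pt (cc a b) (Sep K))
    (S : Pt (cc (a ^ 2) (b ^ 2)) (Sep K)) (ζ : Sep K) (α : K) : Prop where
  dbl : S + S = Fr a b (Sep K) R
  as : ζ ^ 2 + ζ = algebraMap K (Sep K) α
  alt : ∀ σ : Sep K ≃ₐ[K] Sep K,
    (Fr a b (Sep K) (c σ) = act _ (rs K σ) S - S ∧ σ ζ = ζ) ∨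
    (Fr a b (Sep K) (c σ) = act _ (rs K σ) S - S + TT a b (Sep K) ∧ σ ζ = ζ + 1)

theorem Fr_add {Ω : Type} [Field Ω] [Algebra K Ω] [CharP Ω 2] (hb : b ≠ 0)
    (P Q : Pt (cc a b) Ω) : Fr a b Ω (P + Q) = Fr a b Ω P + Fr a b Ω Q :=
  fr_add (std_bc hb) (std_bc2 hb) P Q

theorem Fr_sub {Ω : Type} [Field Ω] [Algebra K Ω] [CharP Ω 2] (hb : b ≠ 0)
    (P Q : Pt (cc a b) Ω) : Fr a b Ω (P - Q) = Fr a b Ω P - Fr a b Ω Q :=
  fr_sub (std_bc hb) (std_bc2 hb) P Q

theorem exists_dat (hasc : S_ASC) (hb : ¬ IsSquare b)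
    {c : (Sep K ≃ₐ[K] Sep K) → Pt (cc a b) (Sep K)} {R : Pt (cc a b) (Sep K)}
    (hc : IsCoc (cc a b) c) (h2 : ∀ σ, c σ + c σ = act (cc a b) (rs K σ) R - R) :
    ∃ S ζ α, Dat a b c R S ζ α := by
  have hb0 : b ≠ 0 := fun h => hb ⟨0, by rw [h]; ring⟩
  have hbs : ¬ IsSquare (algebraMap K (Sep K) b) := fun h => hb (sq_down h)
  obtain ⟨S, hS⟩ := halve (std_bc (a := a) (b := b) (Ω := Sep K) hb0) (std_bc2 hb0) hbs R
  change S + S = Fr a b (Sep K) R at hS
  set T := TT a b (Sep K) with hTdef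
  have hT0 : T ≠ 0 := tt_ne (std_bc2 hb0)
  have hTT : T + T = 0 := tt_two (std_bc2 hb0)
  set e : (Sep K ≃ₐ[K] Sep K) → Pt (cc (a ^ 2) (b ^ 2)) (Sep K) :=
    fun σ => Fr a b (Sep K) (c σ) - (act _ (rs K σ) S - S) with he
  have he2 : ∀ σ, e σ + e σ = 0 := by
    intro σ
    have h3 := congrArg (Fr a b (Sep K)) (h2 σ)
    rw [Fr_add hb0, Fr_sub hb0, ← Fr_act hb0, ← hS, map_add] at h3
    rw [he]
    simp only
    rw [sub_add_sub_comm, h3]
    abel
  have hcase : ∀ σ, e σ = 0 ∨ e σ = T := fun σ => two_cases' (std_bc2 hb0) (he2 σ)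
  have hfix : ∀ σ τ : Sep K ≃ₐ[K] Sep K, act _ (rs K σ) (e τ) = e τ := by
    intro σ τ
    rcases hcase τ with h | h
    · rw [h, map_zero]
    · rw [h, hTdef, TT_act hb0]
  have hmul : ∀ σ τ, e (σ * τ) = e σ + e τ := by
    intro σ τ
    have h3 : e (σ * τ) = e σ + act _ (rs K σ) (e τ) := by
      rw [he]
      simp only
      rw [hc.mul, Fr_add hb0, map_sub, map_sub, Fr_act hb0, rs_mul, ← act_act]
      abel
    rw [h3, hfix]
  have hlc : IsLocallyConstant e := by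
    have h1 : IsLocallyConstant (fun σ => Fr a b (Sep K) (c σ)) := hc.lc.comp _
    have h3 : IsLocallyConstant (fun σ : Sep K ≃ₐ[K] Sep K =>
        act (cc (a ^ 2) (b ^ 2)) (rs K σ) S - S) :=
      (act_locConst (cc (a ^ 2) (b ^ 2)) S).comp (fun P => P - S)
    exact h1.comp₂ h3 (fun a b => a - b)
  obtain ⟨ζ, α, hζ, hact⟩ := hasc K (fun σ => if e σ = 0 then 0 else 1)
    (hlc.comp (fun P => if P = 0 then (0 : ZMod 2) else 1)) (by
      intro σ τ
      rw [hmul]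
      rcases hcase σ with h | h <;> rcases hcase τ with h' | h' <;> rw [h, h'] <;>
        simp [hT0, hTT]
      rfl)
  refine ⟨S, ζ, α, hS, hζ, ?_⟩
  intro σ
  rcases hcase σ with h | h
  · left
    refine ⟨?_, (hact σ).1 (by simp [h])⟩
    rw [he] at h
    exact sub_eq_zero.1 h
  · right
    refine ⟨?_, (hact σ).2 (by simp [h, hT0])⟩
    rw [he] at h
    simp only at h
    rw [← hTdef, ← h]; abel

section place

variable {L Ω' : Type} [Field L] [Field Ω'] [Algebra K L] [Algebra L Ω'] [Algebra K Ω']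
  [IsScalarTower K L Ω'] [IsGalois L Ω'] [CharP Ω' 2]

/-- The local condition on `α`. -/
theorem Dat.V (hb : b ≠ 0) {c : (Sep K ≃ₐ[K] Sep K) → Pt (cc a b) (Sep K)}
    {R : Pt (cc a b) (Sep K)} {S ζ α} (h : Dat a b c R S ζ α)
    (hloc : LocTriv (cc a b) L Ω' c) :
    LV (algebraMap K L a) (algebraMap K L b) (algebraMap K L α) := by
  obtain ⟨ι, Q, hQ⟩ := hloc
  choose res hres using exists_restrict (F := K) (Ω := Sep K) (L := L) (Ω' := Ω') ι
  set ι' : Sep K →ₐ[K] Ω' := ι.restrictScalars K with hι'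
  have hιx : ∀ x, ι' x = ι x := fun x => rfl
  have hcomp : ∀ τ : Ω' ≃ₐ[L] Ω', (rs K τ).comp ι' = ι'.comp (rs K (res τ)) := fun τ =>
    AlgHom.ext fun x => hres τ x
  have key : ∀ τ : Ω' ≃ₐ[L] Ω', act (cc (a ^ 2) (b ^ 2)) (rs K τ)
      (Fr a b Ω' Q - act (cc (a ^ 2) (b ^ 2)) ι' S) = (Fr a b Ω' Q - act _ ι' S) +
      act _ ι' (Fr a b (Sep K) (c (res τ)) - (act _ (rs K (res τ)) S - S)) := by
    intro τ
    have h1 := hQ τ (res τ) (hres τ)
    have h3 : act (cc a b) (rs K τ) Q = Q + act (cc a b) ι' (c (res τ)) := by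
      rw [h1]; abel
    rw [map_sub, Fr_act hb, h3, Fr_add hb, ← Fr_act hb, act_act, hcomp, ← act_act, map_sub, map_sub]
    abel
  refine loc_V hb (S := Fr a b Ω' Q - act (cc (a ^ 2) (b ^ 2)) ι' S) (z := ι ζ) ?_ ?_
  · rw [← map_pow, ← map_add, h.as, ι.commutes]
    exact (IsScalarTower.algebraMap_apply K L Ω' α)
  · intro τ
    rcases h.alt (res τ) with ⟨h1, h2⟩ | ⟨h1, h2⟩
    · left
      refine ⟨?_, by rw [hres, h2]⟩
      rw [key, h1, sub_self, map_zero, add_zero]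
    · right
      refine ⟨?_, by rw [hres, h2, map_add, map_one]⟩
      rw [key, h1, add_sub_cancel_left, TT_act hb]

/-- The local condition on `d`. -/
theorem F_loc (hb : b ≠ 0) {c : (Sep K ≃ₐ[K] Sep K) → Pt (cc a b) (Sep K)}
    {S : Pt (cc (a ^ 2) (b ^ 2)) (Sep K)}
    (hS : ∀ σ : Sep K ≃ₐ[K] Sep K, Fr a b (Sep K) (c σ) = act _ (rs K σ) S - S)
    {d : K} {w : Sep K} (hw : w ≠ 0) (hd : XX a b S = w ^ 2 * algebraMap K (Sep K) d)
    (hloc : LocTriv (cc a b) L Ω' c) :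
    LF (algebraMap K L a) (algebraMap K L b) (algebraMap K L d) := by
  obtain ⟨ι, Q, hQ⟩ := hloc
  choose res hres using exists_restrict (F := K) (Ω := Sep K) (L := L) (Ω' := Ω') ι
  set ι' : Sep K →ₐ[K] Ω' := ι.restrictScalars K with hι'
  have hιx : ∀ x, ι' x = ι x := fun x => rfl
  have hcomp : ∀ τ : Ω' ≃ₐ[L] Ω', (rs K τ).comp ι' = ι'.comp (rs K (res τ)) := fun τ =>
    AlgHom.ext fun x => hres τ x
  refine loc_F hb (S := Fr a b Ω' Q - act (cc (a ^ 2) (b ^ 2)) ι' S) ?_ ?_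
  · have h1 := xx_sub (std_bc2 (a := a) (Ω := Ω') hb) (Fr a b Ω' Q) (act _ ι' S)
    have h2 := xx_fr (std_bc (a := a) (Ω := Ω') hb) (std_bc2 hb) Q
    have h3 := xx_ne (std_bc2 (a := a) (Ω := Ω') hb) (Fr a b Ω' Q)
    have h4 : XX a b (act (cc (a ^ 2) (b ^ 2)) ι' S) = ι' w ^ 2 * algebraMap K Ω' d := by
      rw [XX_act, hd, map_mul, map_pow, ι'.commutes]
    change IsSquare (XX a b (Fr a b Ω' Q - act (cc (a ^ 2) (b ^ 2)) ι' S) * XX a b (Fr a b Ω' Q) *
      XX a b (act (cc (a ^ 2) (b ^ 2)) ι' S)) at h1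
    change IsSquare (XX a b (Fr a b Ω' Q)) at h2
    change XX a b (Fr a b Ω' Q) ≠ 0 at h3
    rw [h4] at h1
    rw [← IsScalarTower.algebraMap_apply K L Ω']
    have hιw : ι' w ≠ 0 := (map_ne_zero ι').2 hw
    obtain ⟨s, hs⟩ := h1
    obtain ⟨r, hr⟩ := h2
    have hr0 : r ≠ 0 := by rintro rfl; exact h3 (by rw [hr]; ring)
    refine ⟨s / (r * ι' w), ?_⟩
    rw [hr] at hs
    field_simp
    linear_combination hs
  · intro τ
    have h1 := hQ τ (res τ) (hres τ)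
    have h3 : act (cc a b) (rs K τ) Q = Q + act (cc a b) ι' (c (res τ)) := by
      rw [h1]; abel
    rw [map_sub, Fr_act hb, h3, Fr_add hb, ← Fr_act hb, act_act, hcomp, ← act_act, hS, map_sub]
    abel

end place

omit [CharP K 2] in
theorem AS_mem {ζ : Sep K} [CharP K 2] {α : K} (h : ζ ^ 2 + ζ = algebraMap K (Sep K) α)
    (hα : AS α) (σ : Sep K ≃ₐ[K] Sep K) : σ ζ = ζ := by
  obtain ⟨g, hg⟩ := hα
  have c2 : (2 : Sep K) = 0 := CharTwo.two_eq_zero
  rw [hg, map_add, map_pow] at h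
  have e : (ζ - algebraMap K (Sep K) g) * (ζ - (algebraMap K (Sep K) g + 1)) = 0 := by
    linear_combination h + (algebraMap K (Sep K) g ^ 2 + algebraMap K (Sep K) g -
      ζ * algebraMap K (Sep K) g - ζ) * c2
  rcases mul_eq_zero.1 e with h | h
  · rw [sub_eq_zero.1 h, σ.commutes]
  · rw [sub_eq_zero.1 h, map_add, map_one, σ.commutes]

theorem Dat.kill {c : (Sep K ≃ₐ[K] Sep K) → Pt (cc a b) (Sep K)}
    {R : Pt (cc a b) (Sep K)} {S ζ α} (h : Dat a b c R S ζ α) (hα : AS α)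
    (σ : Sep K ≃ₐ[K] Sep K) : Fr a b (Sep K) (c σ) = act _ (rs K σ) S - S := by
  rcases h.alt σ with ⟨h1, h2⟩ | ⟨h1, h2⟩
  · exact h1
  · exfalso
    rw [AS_mem h.as hα σ] at h2
    exact one_ne_zero (add_eq_left.1 h2.symm)

theorem exists_dd (hb : b ≠ 0) {t : K} (ht : Bas t)
    {c : (Sep K ≃ₐ[K] Sep K) → Pt (cc a b) (Sep K)}
    {S : Pt (cc (a ^ 2) (b ^ 2)) (Sep K)}
    (hS : ∀ σ : Sep K ≃ₐ[K] Sep K, Fr a b (Sep K) (c σ) = act _ (rs K σ) S - S) :
    ∃ (d : K) (w : Sep K), d ≠ 0 ∧ w ≠ 0 ∧ XX a b S = w ^ 2 * algebraMap K (Sep K) d := by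
  refine exists_d ht (xx_ne (std_bc2 (a := a) (Ω := Sep K) hb) S) ?_
  intro σ
  have h1 := xx_add (std_bc2 (a := a) (Ω := Sep K) hb) S (Fr a b (Sep K) (c σ))
  have h2 := xx_fr (std_bc (a := a) (Ω := Sep K) hb) (std_bc2 hb) (c σ)
  have h3 := xx_ne (std_bc2 (a := a) (Ω := Sep K) hb) (Fr a b (Sep K) (c σ))
  have h4 : S + Fr a b (Sep K) (c σ) = act _ (rs K σ) S := by rw [hS]; abel
  change IsSquare (XX a b (S + Fr a b (Sep K) (c σ)) * XX a b S *
    XX a b (Fr a b (Sep K) (c σ))) at h1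
  change IsSquare (XX a b (Fr a b (Sep K) (c σ))) at h2
  change XX a b (Fr a b (Sep K) (c σ)) ≠ 0 at h3
  rw [h4, XX_act] at h1
  obtain ⟨s, hs⟩ := h1
  obtain ⟨r, hr⟩ := h2
  have hr0 : r ≠ 0 := by rintro rfl; exact h3 (by rw [hr]; ring)
  refine ⟨s / r, ?_⟩
  rw [hr] at hs
  change σ (XX a b S) * XX a b S = _
  change σ (XX a b S) * XX a b S * (r * r) = _ at hs
  field_simp
  linear_combination hs

theorem finish (hb : b ≠ 0) {c : (Sep K ≃ₐ[K] Sep K) → Pt (cc a b) (Sep K)}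
    {R : Pt (cc a b) (Sep K)} {S : Pt (cc (a ^ 2) (b ^ 2)) (Sep K)}
    (hR : S + S = Fr a b (Sep K) R)
    (hS : ∀ σ : Sep K ≃ₐ[K] Sep K, Fr a b (Sep K) (c σ) = act _ (rs K σ) S - S)
    {d : K} {w : Sep K} (hw : w ≠ 0) (hd : XX a b S = w ^ 2 * algebraMap K (Sep K) d)
    (h : IsSquare d ∨ IsSquare (d * b)) :
    ∃ S0 : Pt (cc a b) (Sep K), S0 + S0 = R ∧ ∀ σ, c σ = act (cc a b) (rs K σ) S0 - S0 := by
  have main : ∀ S' : Pt (cc (a ^ 2) (b ^ 2)) (Sep K), S' + S' = Fr a b (Sep K) R →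
      (∀ σ : Sep K ≃ₐ[K] Sep K, Fr a b (Sep K) (c σ) = act _ (rs K σ) S' - S') →
      IsSquare (XX a b S') →
      ∃ S0 : Pt (cc a b) (Sep K), S0 + S0 = R ∧ ∀ σ, c σ = act (cc a b) (rs K σ) S0 - S0 := by
    intro S' h1 h2 h3
    obtain ⟨S0, hS0⟩ := ker_fr (std_bc (a := a) (Ω := Sep K) hb) (std_bc2 hb) S' h3
    change Fr a b (Sep K) S0 = S' at hS0
    refine ⟨S0, ?_, fun σ => ?_⟩
    · apply fr_inj (std_bc (a := a) (Ω := Sep K) hb) (std_bc2 hb)
      change Fr a b (Sep K) (S0 + S0) = Fr a b (Sep K) R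
      rw [Fr_add hb, hS0, h1]
    · apply fr_inj (std_bc (a := a) (Ω := Sep K) hb) (std_bc2 hb)
      change Fr a b (Sep K) (c σ) = Fr a b (Sep K) (act (cc a b) (rs K σ) S0 - S0)
      rw [Fr_sub hb, ← Fr_act hb, hS0, h2]
  rcases h with h | h
  · apply main S hR hS
    rw [hd]
    obtain ⟨s, hs⟩ := h
    exact ⟨w * algebraMap K (Sep K) s, by rw [hs, map_mul]; ring⟩
  · have hT0 : TT a b (Sep K) + TT a b (Sep K) = 0 := tt_two (std_bc2 hb)
    apply main (S + TT a b (Sep K))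
    · rw [add_add_add_comm, hT0, add_zero, hR]
    · intro σ
      rw [map_add, TT_act hb, hS]
      abel
    · have h1 := xx_add_tt (std_bc2 (a := a) (Ω := Sep K) hb) S
      change IsSquare (XX a b (S + TT a b (Sep K)) * XX a b S * algebraMap K (Sep K) b) at h1
      rw [hd] at h1
      obtain ⟨s, hs⟩ := h
      obtain ⟨r, hr⟩ := h1
      have hdb : algebraMap K (Sep K) d * algebraMap K (Sep K) b =
          algebraMap K (Sep K) s * algebraMap K (Sep K) s := by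
        rw [← map_mul, hs, map_mul]
      have hd0 : algebraMap K (Sep K) d ≠ 0 := by
        intro h0
        apply xx_ne (std_bc2 (a := a) (Ω := Sep K) hb) S
        change XX a b S = 0
        rw [hd, h0, mul_zero]
      have hb0 : algebraMap K (Sep K) b ≠ 0 := by rwa [Ne, map_eq_zero]
      have hs0 : algebraMap K (Sep K) s ≠ 0 := by
        intro h0
        rw [h0, mul_zero] at hdb
        exact (mul_ne_zero hd0 hb0) hdb
      refine ⟨r / (w * algebraMap K (Sep K) s), ?_⟩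
      field_simp
      linear_combination hr - XX a b (S + TT a b (Sep K)) * w ^ 2 * hdb

end glob

end Pool.Agent.H467.CT
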