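import Pool.Graph.R_seed8.TH115.SK.Defs

/-!
# Descent in characteristic two: the curves `y ^ 2 + x y = x ^ 3 + a x ^ 2 + b` over `k(t)`,
statements of the parts

Project CT (helper467).
-/

set_option autoImplicit false
set_option linter.all false

open Polynomial IsDedekindDomain WeierstrassCurve WeierstrassCurve.Affine
open Pool.Agent.TH115.GD
open scoped Classical

namespace Pool.Agent.H467.CT

/-- `x = z ^ 2 + z` for some `z`. -/
def AS {L : Type} [Field L] (x : L) : Prop := ∃ z : L, x = z ^ 2 + z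

/-- An element of `K = k(t)` which is integral up to `z ^ 2 + z` at all maximal ideals of `k[t]` is a
polynomial up to `g ^ 2 + g`, `g ∈ K`. -/
def S_INTG : Prop := ∀ (k K : Type) [Field k] [Finite k] [CharP k 2] [Field K] [Algebra k[X] K]
  [IsFractionRing k[X] K] (α : K),
  (∀ v : HeightOneSpectrum k[X], ∃ z : v.adicCompletion K,
    Valued.v (Γ₀ := WithZero (Multiplicative ℤ))
      (algebraMap K (v.adicCompletion K) α + z ^ 2 + z) ≤ 1) →
  ∃ (g : K) (p : k[X]), α = algebraMap k[X] K p + g ^ 2 + g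

/-- A polynomial which is of the form `z ^ 2 + z` at infinity is of the form `g ^ 2 + g`, `g` a
polynomial. -/
def S_INFG : Prop := ∀ (k K : Type) [Field k] [Finite k] [CharP k 2] [Field K] [Algebra k[X] K]
  [IsFractionRing k[X] K] (p : k[X]),
  AS (algebraMap K (CompInf k K) (algebraMap k[X] K p)) → ∃ g : k[X], p = g ^ 2 + g

/-- An element with even valuations outside `P`. -/
def S_SQG : Prop := ∀ (k K : Type) [Field k] [Finite k] [CharP k 2] [Field K] [Algebra k[X] K]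
  [IsFractionRing k[X] K] (P : k[X]), Irreducible P → ∀ d : K, d ≠ 0 →
  (∀ v : HeightOneSpectrum k[X], P ∉ v.asIdeal →
    ∃ n : ℤ, v.valuation K d = WithZero.exp (2 * n)) →
  ∃ y : K, y ≠ 0 ∧ (d = y ^ 2 ∨ d = algebraMap k[X] K P * y ^ 2)

/-- The element of Artin and Schreier which belongs to a homomorphism to the group with two
elements. -/
def S_ASC : Prop := ∀ (K : Type) [Field K] [CharP K 2] (e : (Sep K ≃ₐ[K] Sep K) → ZMod 2),
  IsLocallyConstant e → (∀ σ τ, e (σ * τ) = e σ + e τ) →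
  ∃ (z : Sep K) (α : K), z ^ 2 + z = algebraMap K (Sep K) α ∧
    ∀ σ : Sep K ≃ₐ[K] Sep K, (e σ = 0 → σ z = z) ∧ (e σ ≠ 0 → σ z = z + 1)

/-- `a` is not of the form `z ^ 2 + z` modulo the primes dividing `b`. -/
def Nsp {k : Type} [Field k] (b a : k[X]) : Prop :=
  ∀ Q : k[X], Irreducible Q → Q ∣ b → ∀ z : k[X], ¬ Q ∣ z ^ 2 + z + a

/-- The reduced degree of `a` is larger than the degree of `b`. -/
def Big {k : Type} [Field k] (b a : k[X]) : Prop :=
  ∀ g : k[X], b.natDegree < (a + g ^ 2 + g).natDegree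

/-- Counting. -/
def S_CNTC : Prop := ∀ (k : Type) [Field k] [Finite k] [CharP k 2] (b : k[X]), b ≠ 0 →
  (∀ n : ℕ, {a : k[X] | a.natDegree ≤ n}.ncard = Nat.card k ^ (n + 1)) ∧
  Filter.Tendsto (fun n : ℕ => ({a : k[X] | a.natDegree ≤ n ∧ Nsp b a ∧ Big b a}.ncard : ℝ) /
    (Nat.card k : ℝ) ^ (n + 1)) Filter.atTop
    (nhds ((1 / 2 : ℝ) ^ {Q : k[X] | Q.Monic ∧ Irreducible Q ∧ Q ∣ b}.ncard)) ∧
  Filter.Tendsto (fun n : ℕ => ({a : k[X] | a.natDegree ≤ n ∧ ¬ Big b a}.ncard : ℝ) /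
    (Nat.card k : ℝ) ^ (n + 1)) Filter.atTop (nhds 0)

end Pool.Agent.H467.CT
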