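import Pool.Graph.R_seed8.TH115.GD.Des
import Pool.Agent.H467.CT.Spec

/-!
# The curves `y ^ 2 + x y = x ^ 3 + a x ^ 2 + b` in characteristic two: group law, Frobenius

Project CT (helper467).
-/

set_option autoImplicit false
set_option linter.all false

open WeierstrassCurve WeierstrassCurve.Affine
open scoped Classical

namespace Pool.Agent.H467.CT

section pts

variable {F : Type} [Field F] [CharP F 2]

/-- `W` is the curve `y ^ 2 + x y = x ^ 3 + a x ^ 2 + b`. -/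
structure Std (W : Affine F) (a b : F) : Prop where
  a1 : W.a₁ = 1
  a2 : W.a₂ = a
  a3 : W.a₃ = 0
  a4 : W.a₄ = 0
  a6 : W.a₆ = b
  b0 : b ≠ 0

variable {W : Affine F} {a b : F}

theorem sq_inj2 {x y : F} (h : x ^ 2 = y ^ 2) : x = y := by
  have h2 : (2 : F) = 0 := CharTwo.two_eq_zero
  have e : (x - y) ^ 2 = 0 := by linear_combination h + (y ^ 2 - x * y) * h2
  exact sub_eq_zero.1 (pow_eq_zero_iff (two_ne_zero) |>.1 e)

theorem Std.eqn (h : Std W a b) {x y : F} :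
    W.Equation x y ↔ y ^ 2 + x * y = x ^ 3 + a * x ^ 2 + b := by
  rw [equation_iff, h.a1, h.a2, h.a3, h.a4, h.a6]
  constructor <;> intro h <;> linear_combination h

theorem Std.nons (h : Std W a b) {x y : F} (e : y ^ 2 + x * y = x ^ 3 + a * x ^ 2 + b) :
    W.Nonsingular x y := by
  have h2 : (2 : F) = 0 := CharTwo.two_eq_zero
  rw [nonsingular_iff]
  refine ⟨h.eqn.2 e, ?_⟩
  rw [h.a1, h.a2, h.a3, h.a4]
  by_cases hx : x = 0
  · left
    intro hy
    apply h.b0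
    subst hx
    have hy' : y = 0 := by linear_combination hy
    subst hy'
    linear_combination -e
  · right
    intro hy
    apply hx
    linear_combination hy - y * h2

theorem Std.negY (h : Std W a b) (x y : F) : W.negY x y = y + x := by
  have h2 : (2 : F) = 0 := CharTwo.two_eq_zero
  rw [WeierstrassCurve.Affine.negY, h.a1, h.a3]
  linear_combination -(x + y) * h2

theorem Std.eq_of (h : Std W a b) {x y : F} (hn : W.Nonsingular x y) :
    y ^ 2 + x * y = x ^ 3 + a * x ^ 2 + b := h.eqn.1 hn.1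

/-- The chord. -/
theorem Std.chord (h : Std W a b) {x₁ y₁ x₂ y₂ : F} (h₁ : W.Nonsingular x₁ y₁)
    (h₂ : W.Nonsingular x₂ y₂) (hx : x₁ ≠ x₂) {l X Y : F} (hl : l * (x₁ + x₂) = y₁ + y₂)
    (hX : X = l ^ 2 + l + a + x₁ + x₂) (hY : Y = l * (X + x₁) + y₁ + X) :
    ∃ h', Point.some x₁ y₁ h₁ + Point.some x₂ y₂ h₂ = Point.some X Y h' := by
  have h2 : (2 : F) = 0 := CharTwo.two_eq_zero
  have hs : W.slope x₁ x₂ y₁ y₂ = l := by
    rw [slope_of_X_ne hx, div_eq_iff (sub_ne_zero.2 hx)]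
    linear_combination -hl + (l * x₂ - y₂) * h2
  have e1 : W.addX x₁ x₂ (W.slope x₁ x₂ y₁ y₂) = X := by
    rw [hs, addX, h.a1, h.a2, hX]
    linear_combination -(a + x₁ + x₂) * h2
  have e2 : W.addY x₁ x₂ y₁ (W.slope x₁ x₂ y₁ y₂) = Y := by
    rw [addY, h.negY, negAddY, e1, hs, hY]
    linear_combination -(l * x₁) * h2
  have := Point.add_of_X_ne (h₁ := h₁) (h₂ := h₂) hx
  have hn := nonsingular_add h₁ h₂ fun hxy => hx hxy.left
  rw [e1, e2] at hn
  refine ⟨hn, ?_⟩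
  rw [this, Point.some.injEq]
  exact ⟨e1, e2⟩

/-- The tangent. -/
theorem Std.tang (h : Std W a b) {x y : F} (h₁ : W.Nonsingular x y) (hx : x ≠ 0) {l X Y : F}
    (hl : l * x = x ^ 2 + y) (hX : X = l ^ 2 + l + a) (hY : Y = l * (X + x) + y + X) :
    ∃ h', Point.some x y h₁ + Point.some x y h₁ = Point.some X Y h' := by
  have h2 : (2 : F) = 0 := CharTwo.two_eq_zero
  have hy : y ≠ W.negY x y := by
    rw [h.negY]
    intro e
    exact hx (by linear_combination -e)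
  have hs : W.slope x x y y = l := by
    rw [slope_of_Y_ne rfl hy, h.negY, h.a1, h.a2, h.a4, div_eq_iff]
    · linear_combination hl + (x ^ 2 * 2 + a * x) * h2
    · intro e
      exact hx (by linear_combination -e)
  have e1 : W.addX x x (W.slope x x y y) = X := by
    rw [hs, addX, h.a1, h.a2, hX]
    linear_combination -(a + x) * h2
  have e2 : W.addY x x y (W.slope x x y y) = Y := by
    rw [addY, h.negY, negAddY, e1, hs, hY]
    linear_combination -(l * x) * h2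
  have := Point.add_self_of_Y_ne (h₁ := h₁) hy
  have hn := nonsingular_add h₁ h₁ fun hxy => hy hxy.right
  rw [e1, e2] at hn
  refine ⟨hn, ?_⟩
  rw [this, Point.some.injEq]
  exact ⟨e1, e2⟩

theorem Std.neg (h : Std W a b) {x y : F} (h₁ : W.Nonsingular x y) :
    ∃ h', -Point.some x y h₁ = Point.some x (y + x) h' := by
  have hn := (nonsingular_neg (W' := W) x y).2 h₁
  rw [h.negY] at hn
  refine ⟨hn, ?_⟩
  rw [Point.neg_some, Point.some.injEq]
  exact ⟨rfl, h.negY x y⟩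

theorem Std.opp (h : Std W a b) {x y : F} (h₁ : W.Nonsingular x (y + x))
    (h₂ : W.Nonsingular x y) : Point.some x (y + x) h₁ + Point.some x y h₂ = 0 := by
  obtain ⟨h', e⟩ := h.neg h₂
  rw [← e, neg_add_cancel]

/-- Two points with the same abscissa. -/
theorem Std.cases_x (h : Std W a b) {x y₁ y₂ : F} (h₁ : W.Nonsingular x y₁)
    (h₂ : W.Nonsingular x y₂) : y₁ = y₂ ∨ y₁ = y₂ + x := by
  have e1 := h.eq_of h₁
  have e2 := h.eq_of h₂
  have e : (y₁ - y₂) * (y₁ - (y₂ + x)) = 0 := by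
    have h2 : (2 : F) = 0 := CharTwo.two_eq_zero
    linear_combination e1 - e2 + (y₂ ^ 2 + x * y₂ - x * y₁ - y₁ * y₂) * h2
  rcases mul_eq_zero.1 e with h | h
  · left; exact sub_eq_zero.1 h
  · right; exact sub_eq_zero.1 h

/-- Three kinds of pairs of affine points. -/
theorem Std.trich (h : Std W a b) {x₁ y₁ x₂ y₂ : F} (h₁ : W.Nonsingular x₁ y₁)
    (h₂ : W.Nonsingular x₂ y₂) : x₁ ≠ x₂ ∨ (x₁ = x₂ ∧ y₁ = y₂ + x₂) ∨
      (x₁ = x₂ ∧ y₁ = y₂ ∧ x₁ ≠ 0) := by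
  by_cases hx : x₁ = x₂
  · right
    subst hx
    rcases h.cases_x h₁ h₂ with e | e
    · by_cases h0 : x₁ = 0
      · left; refine ⟨rfl, ?_⟩; rw [e, h0, add_zero]
      · right; exact ⟨rfl, e, h0⟩
    · left; exact ⟨rfl, e⟩
  · left; exact hx

/-- The Frobenius. -/
noncomputable def fr (W W2 : Affine F) : W.Point → W2.Point
  | .zero => 0
  | .some x y _ => if h' : W2.Nonsingular (x ^ 2) (y ^ 2) then .some _ _ h' else 0

variable {W2 : Affine F}

theorem Std.sq_eq (h : Std W a b) (h2 : Std W2 (a ^ 2) (b ^ 2)) {x y : F}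
    (hn : W.Nonsingular x y) : W2.Nonsingular (x ^ 2) (y ^ 2) := by
  apply h2.nons
  have e := h.eq_of hn
  have c2 : (2 : F) = 0 := CharTwo.two_eq_zero
  linear_combination (y ^ 2 + x * y + (x ^ 3 + a * x ^ 2 + b)) * e +
    (-(y ^ 2 * (x * y)) + (x ^ 3 + a * x ^ 2) * b + x ^ 3 * (a * x ^ 2)) * c2

theorem fr_some (h : Std W a b) (h2 : Std W2 (a ^ 2) (b ^ 2)) {x y : F}
    (hn : W.Nonsingular x y) : fr W W2 (.some x y hn) = .some (x ^ 2) (y ^ 2) (h.sq_eq h2 hn) := by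
  simp only [fr]
  rw [dif_pos (h.sq_eq h2 hn)]

theorem fr_zero : fr W W2 0 = 0 := rfl

theorem fr_add (h : Std W a b) (h2 : Std W2 (a ^ 2) (b ^ 2)) (P Q : W.Point) :
    fr W W2 (P + Q) = fr W W2 P + fr W W2 Q := by
  have c2 : (2 : F) = 0 := CharTwo.two_eq_zero
  rcases P with _ | ⟨x₁, y₁, h₁⟩
  · rw [← Point.zero_def, fr_zero, zero_add, zero_add]
  rcases Q with _ | ⟨x₂, y₂, h₂⟩
  · rw [← Point.zero_def, fr_zero, add_zero, add_zero]
  rcases h.trich h₁ h₂ with hx | ⟨rfl, rfl⟩ | ⟨rfl, rfl, h0⟩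
  · have hx' : x₁ + x₂ ≠ 0 := fun e => hx (by linear_combination e - x₂ * c2)
    have hl : (y₁ + y₂) / (x₁ + x₂) * (x₁ + x₂) = y₁ + y₂ := div_mul_cancel₀ _ hx'
    set l := (y₁ + y₂) / (x₁ + x₂) with hldef
    obtain ⟨n1, e1⟩ := h.chord h₁ h₂ hx hl rfl rfl
    rw [e1, fr_some h h2, fr_some h h2, fr_some h h2]
    obtain ⟨n2, e2⟩ := h2.chord (h.sq_eq h2 h₁) (h.sq_eq h2 h₂) (fun e => hx (sq_inj2 e))
      (l := l ^ 2) (by linear_combination (l * (x₁ + x₂) + (y₁ + y₂)) * hl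
        + (-(l ^ 2 * x₁ * x₂) + y₁ * y₂) * c2) rfl rfl
    rw [e2]
    congr 1
    · grind
    · grind
  · rw [h.opp h₁ h₂, fr_zero, fr_some h h2, fr_some h h2]
    have n1 := h.sq_eq h2 h₁
    have e : (y₂ + x₁) ^ 2 = y₂ ^ 2 + x₁ ^ 2 := CharTwo.add_sq _ _
    simp only [e] at n1 ⊢
    exact (h2.opp n1 (h.sq_eq h2 h₂)).symm
  · have hl : (x₁ ^ 2 + y₁) / x₁ * x₁ = x₁ ^ 2 + y₁ := div_mul_cancel₀ _ h0
    set l := (x₁ ^ 2 + y₁) / x₁ with hldef
    obtain ⟨n1, e1⟩ := h.tang h₁ h0 hl rfl rfl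
    rw [e1, fr_some h h2, fr_some h h2]
    obtain ⟨n2, e2⟩ := h2.tang (h.sq_eq h2 h₁) (pow_ne_zero 2 h0)
      (l := l ^ 2) (by linear_combination (l * x₁ + (x₁ ^ 2 + y₁)) * hl
        + x₁ ^ 2 * y₁ * c2) rfl rfl
    rw [e2]
    congr 1
    · grind
    · grind

end pts

end Pool.Agent.H467.CT
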