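import Pool.Agent.H467.CT.Crv

/-!
# The curves `y ^ 2 + x y = x ^ 3 + a x ^ 2 + b` in characteristic two: descent maps

Project CT (helper467).
-/

set_option autoImplicit false
set_option linter.all false

open WeierstrassCurve WeierstrassCurve.Affine
open scoped Classical

namespace Pool.Agent.H467.CT

section pts

variable {F : Type} [Field F] [CharP F 2] {W W2 : Affine F} {a b : F}

theorem fr_inj (h : Std W a b) (h2 : Std W2 (a ^ 2) (b ^ 2)) {P Q : W.Point}
    (e : fr W W2 P = fr W W2 Q) : P = Q := by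
  rcases P with _ | ⟨x₁, y₁, h₁⟩
  · rcases Q with _ | ⟨x₂, y₂, h₂⟩
    · rfl
    · rw [← Point.zero_def, fr_zero, fr_some h h2] at e
      exact absurd e.symm (Point.some_ne_zero _)
  · rcases Q with _ | ⟨x₂, y₂, h₂⟩
    · rw [← Point.zero_def, fr_zero, fr_some h h2] at e
      exact absurd e (Point.some_ne_zero _)
    · rw [fr_some h h2, fr_some h h2, Point.some.injEq] at e
      obtain rfl := sq_inj2 e.1
      obtain rfl := sq_inj2 e.2
      rfl

theorem fr_neg (h : Std W a b) (h2 : Std W2 (a ^ 2) (b ^ 2)) (P : W.Point) :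
    fr W W2 (-P) = - fr W W2 P := by
  have := fr_add h h2 (-P) P
  rw [neg_add_cancel, fr_zero] at this
  exact eq_neg_of_add_eq_zero_left this.symm

theorem fr_sub (h : Std W a b) (h2 : Std W2 (a ^ 2) (b ^ 2)) (P Q : W.Point) :
    fr W W2 (P - Q) = fr W W2 P - fr W W2 Q := by
  rw [sub_eq_add_neg, fr_add h h2, fr_neg h h2, sub_eq_add_neg]

/-- The point `(0, b)`. -/
noncomputable def tt (W2 : Affine F) (b : F) : W2.Point :=
  if h : W2.Nonsingular 0 b then .some 0 b h else 0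

theorem Std.tn (h2 : Std W2 (a ^ 2) (b ^ 2)) : W2.Nonsingular 0 b := h2.nons (by ring)

theorem tt_eq (h2 : Std W2 (a ^ 2) (b ^ 2)) : tt W2 b = .some 0 b h2.tn := by
  rw [tt, dif_pos h2.tn]

theorem tt_ne (h2 : Std W2 (a ^ 2) (b ^ 2)) : tt W2 b ≠ 0 := by
  rw [tt_eq h2]
  exact Point.some_ne_zero _

theorem bne (h2 : Std W2 (a ^ 2) (b ^ 2)) : b ≠ 0 := fun e => h2.b0 (by rw [e]; ring)

theorem tt_two (h2 : Std W2 (a ^ 2) (b ^ 2)) : tt W2 b + tt W2 b = 0 := by
  rw [tt_eq h2]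
  apply Point.add_of_Y_eq rfl
  rw [h2.negY, add_zero]

theorem tt_neg (h2 : Std W2 (a ^ 2) (b ^ 2)) : - tt W2 b = tt W2 b :=
  neg_eq_of_add_eq_zero_left (tt_two h2)

/-- The points of order two. -/
theorem two_cases (h : Std W a b) {P : W.Point} (hP : P + P = 0) :
    P = 0 ∨ ∃ y, y ^ 2 = b ∧ ∃ h', P = .some 0 y h' := by
  rcases P with _ | ⟨x, y, h₁⟩
  · left; rfl
  · right
    obtain ⟨h', e⟩ := h.neg h₁
    have e2 := eq_neg_of_add_eq_zero_left hP
    rw [e, Point.some.injEq] at e2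
    have hx : x = 0 := by linear_combination -e2.2
    subst hx
    refine ⟨y, ?_, h₁, rfl⟩
    have := h.eq_of h₁
    linear_combination this

theorem two_cases' (h2 : Std W2 (a ^ 2) (b ^ 2)) {P : W2.Point} (hP : P + P = 0) :
    P = 0 ∨ P = tt W2 b := by
  rcases two_cases h2 hP with e | ⟨y, hy, h', e⟩
  · left; exact e
  · right
    obtain rfl := sq_inj2 hy
    rw [e, tt_eq h2]

theorem no_two (h : Std W a b) (hb : ¬ IsSquare b) {P : W.Point} (hP : P + P = 0) : P = 0 := by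
  rcases two_cases h hP with e | ⟨y, hy, h', e⟩
  · exact e
  · exact absurd ⟨y, by rw [← hy]; ring⟩ hb

/-- Translation by `(0, b)`. -/
theorem add_tt (h2 : Std W2 (a ^ 2) (b ^ 2)) {x y : F} (h₁ : W2.Nonsingular x y) (hx : x ≠ 0) :
    ∃ h', Point.some x y h₁ + tt W2 b =
      Point.some (b / x) ((y + b) / x * (b / x) + b / x + b) h' := by
  have c2 : (2 : F) = 0 := CharTwo.two_eq_zero
  have e := h2.eq_of h₁
  rw [tt_eq h2]
  refine h2.chord h₁ h2.tn hx (l := (y + b) / x) ?_ ?_ ?_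
  · rw [add_zero, div_mul_cancel₀ _ hx]
  · field_simp
    grind
  · field_simp
    grind

/-- The abscissa modulo squares. -/
noncomputable def xx (b : F) (P : W2.Point) : F :=
  match P with
  | .zero => 1
  | .some x _ _ => if x = 0 then b else x

theorem xx_zero : xx b (0 : W2.Point) = 1 := rfl

theorem xx_tt (h2 : Std W2 (a ^ 2) (b ^ 2)) : xx b (tt W2 b) = b := by
  rw [tt_eq h2]
  simp [xx]

theorem xx_some {x y : F} (h₁ : W2.Nonsingular x y) (hx : x ≠ 0) :
    xx b (Point.some x y h₁) = x := by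
  simp [xx, hx]

theorem xx_ne (h2 : Std W2 (a ^ 2) (b ^ 2)) (P : W2.Point) : xx b P ≠ 0 := by
  rcases P with _ | ⟨x, y, h₁⟩
  · exact one_ne_zero
  · simp only [xx]
    split_ifs with hx
    · exact bne h2
    · exact hx

theorem xx_neg (h2 : Std W2 (a ^ 2) (b ^ 2)) (P : W2.Point) : xx b (-P) = xx b P := by
  rcases P with _ | ⟨x, y, h₁⟩
  · rfl
  · obtain ⟨h', e⟩ := h2.neg h₁
    rw [e]
    rfl

/-- Points with abscissa zero. -/
theorem eq_tt (h2 : Std W2 (a ^ 2) (b ^ 2)) {y : F} (h₁ : W2.Nonsingular 0 y) :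
    Point.some 0 y h₁ = tt W2 b := by
  rw [tt_eq h2, Point.some.injEq]
  refine ⟨rfl, sq_inj2 ?_⟩
  have := h2.eq_of h₁
  linear_combination this

theorem xx_add_tt (h2 : Std W2 (a ^ 2) (b ^ 2)) (P : W2.Point) :
    IsSquare (xx b (P + tt W2 b) * xx b P * b) := by
  have hb := bne h2
  rcases P with _ | ⟨x, y, h₁⟩
  · rw [← Point.zero_def, zero_add, xx_tt h2, xx_zero]
    exact ⟨b, by ring⟩
  · by_cases hx : x = 0
    · subst hx
      rw [eq_tt h2, tt_two h2, xx_zero, xx_tt h2]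
      exact ⟨b, by ring⟩
    · obtain ⟨h', e⟩ := add_tt h2 h₁ hx
      rw [e, xx_some _ hx, xx_some _ (div_ne_zero hb hx)]
      exact ⟨b, by field_simp⟩

/-- The abscissa modulo squares is a homomorphism. -/
theorem xx_add (h2 : Std W2 (a ^ 2) (b ^ 2)) (P Q : W2.Point) :
    IsSquare (xx b (P + Q) * xx b P * xx b Q) := by
  have c2 : (2 : F) = 0 := CharTwo.two_eq_zero
  have hb := bne h2
  rcases hP : P with _ | ⟨x₁, y₁, h₁⟩
  · rw [← Point.zero_def, zero_add, xx_zero]
    exact ⟨xx b Q, by ring⟩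
  rcases hQ : Q with _ | ⟨x₂, y₂, h₂⟩
  · rw [← Point.zero_def, add_zero, xx_zero]
    exact ⟨_, by rw [mul_one]⟩
  by_cases hx₁ : x₁ = 0
  · subst hx₁
    rw [eq_tt h2 h₁, xx_tt h2, add_comm]
    obtain ⟨s, hs⟩ := xx_add_tt h2 (Point.some x₂ y₂ h₂)
    exact ⟨s, by rw [← hs]; ring⟩
  by_cases hx₂ : x₂ = 0
  · subst hx₂
    rw [eq_tt h2 h₂, xx_tt h2]
    exact xx_add_tt h2 (Point.some x₁ y₁ h₁)
  rw [xx_some _ hx₁, xx_some _ hx₂]
  rcases h2.trich h₁ h₂ with hx | ⟨rfl, rfl⟩ | ⟨rfl, rfl, h0⟩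
  · have hx' : x₁ + x₂ ≠ 0 := fun e => hx (by linear_combination e - x₂ * c2)
    have hl : (y₁ + y₂) / (x₁ + x₂) * (x₁ + x₂) = y₁ + y₂ := div_mul_cancel₀ _ hx'
    set l := (y₁ + y₂) / (x₁ + x₂) with hldef
    obtain ⟨n1, e1⟩ := h2.chord h₁ h₂ hx hl rfl rfl
    have q1 := h2.eq_of h₁
    have q2 := h2.eq_of h₂
    have key : (l ^ 2 + l + a ^ 2 + x₁ + x₂) * x₁ * x₂ = (y₁ + l * x₁ + b) ^ 2 := by
      have : (x₁ + x₂) * ((l ^ 2 + l + a ^ 2 + x₁ + x₂) * x₁ * x₂ - (y₁ + l * x₁ + b) ^ 2) = 0 := by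
        grind
      exact sub_eq_zero.1 ((mul_eq_zero.1 this).resolve_left hx')
    by_cases hx₃ : l ^ 2 + l + a ^ 2 + x₁ + x₂ = 0
    · have hT : Point.some x₁ y₁ h₁ + Point.some x₂ y₂ h₂ = tt W2 b := by
        rw [e1]
        simp only [hx₃] at n1 ⊢
        exact eq_tt h2 n1
      rw [hT, xx_tt h2]
      have h3 : Point.some x₁ y₁ h₁ = -Point.some x₂ y₂ h₂ + tt W2 b := by
        rw [← hT]; abel
      obtain ⟨h', e4⟩ := h2.neg h₂
      obtain ⟨h'', e5⟩ := add_tt h2 h' hx₂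
      rw [e4, e5, Point.some.injEq] at h3
      rw [h3.1]
      exact ⟨b, by field_simp⟩
    · rw [e1, xx_some _ hx₃, key]
      exact ⟨_, by rw [sq]⟩
  · rw [h2.opp h₁ h₂, xx_zero]
    exact ⟨x₁, by ring⟩
  · have hl : (x₁ ^ 2 + y₁) / x₁ * x₁ = x₁ ^ 2 + y₁ := div_mul_cancel₀ _ h0
    set l := (x₁ ^ 2 + y₁) / x₁ with hldef
    obtain ⟨n1, e1⟩ := h2.tang h₁ h0 hl rfl rfl
    have q1 := h2.eq_of h₁
    have key : l ^ 2 + l + a ^ 2 = (x₁ + b / x₁) ^ 2 := by
      rw [hldef]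
      field_simp
      grind
    by_cases hx₃ : l ^ 2 + l + a ^ 2 = 0
    · have hT : Point.some x₁ y₁ h₁ + Point.some x₁ y₁ h₂ = tt W2 b := by
        rw [e1]
        simp only [hx₃] at n1 ⊢
        exact eq_tt h2 n1
      rw [hT, xx_tt h2]
      rw [hx₃] at key
      have k2 : x₁ + b / x₁ = 0 := by
        exact pow_eq_zero_iff (two_ne_zero) |>.1 key.symm
      have k3 : b = x₁ ^ 2 := by
        field_simp at k2
        linear_combination k2 - x₁ ^ 2 * c2
      rw [k3]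
      exact ⟨x₁ ^ 2, by ring⟩
    · rw [e1, xx_some _ hx₃, key]
      exact ⟨(x₁ + b / x₁) * x₁, by ring⟩

theorem xx_sub (h2 : Std W2 (a ^ 2) (b ^ 2)) (P Q : W2.Point) :
    IsSquare (xx b (P - Q) * xx b P * xx b Q) := by
  have := xx_add h2 P (-Q)
  rwa [← sub_eq_add_neg, xx_neg h2] at this

theorem xx_fr (h : Std W a b) (h2 : Std W2 (a ^ 2) (b ^ 2)) (P : W.Point) :
    IsSquare (xx b (fr W W2 P)) := by
  rcases P with _ | ⟨x, y, h₁⟩
  · exact ⟨1, by rw [← Point.zero_def, fr_zero, xx_zero, mul_one]⟩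
  · rw [fr_some h h2]
    by_cases hx : x = 0
    · subst hx
      have := h.eq_of h₁
      refine ⟨y, ?_⟩
      simp only [xx]
      rw [if_pos (by ring)]
      linear_combination -this
    · rw [xx_some _ (pow_ne_zero 2 hx)]
      exact ⟨x, by ring⟩

/-- The points whose abscissa is a square. -/
theorem ker_fr (h : Std W a b) (h2 : Std W2 (a ^ 2) (b ^ 2)) (P : W2.Point)
    (hP : IsSquare (xx b P)) : ∃ Q : W.Point, fr W W2 Q = P := by
  have c2 : (2 : F) = 0 := CharTwo.two_eq_zero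
  rcases P with _ | ⟨x, y, h₁⟩
  · exact ⟨0, rfl⟩
  · by_cases hx : x = 0
    · subst hx
      rw [eq_tt h2, xx_tt h2] at hP
      obtain ⟨u, hu⟩ := hP
      refine ⟨.some 0 u (h.nons (by rw [hu]; ring)), ?_⟩
      rw [fr_some h h2, eq_tt h2, tt_eq h2, Point.some.injEq]
      exact ⟨by ring, by rw [hu]; ring⟩
    · rw [xx_some _ hx] at hP
      obtain ⟨u, hu⟩ := hP
      have hu0 : u ≠ 0 := by rintro rfl; exact hx (by rw [hu]; ring)
      have e := h2.eq_of h₁
      subst hu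
      have hw : ((y + u ^ 3 + a * u ^ 2 + b) / u) ^ 2 = y := by
        field_simp
        grind
      refine ⟨.some u ((y + u ^ 3 + a * u ^ 2 + b) / u) (h.nons ?_), ?_⟩
      · rw [hw]
        field_simp
        grind
      · rw [fr_some h h2, Point.some.injEq]
        exact ⟨by ring, hw⟩

/-- Halving. -/
theorem halve (h : Std W a b) (h2 : Std W2 (a ^ 2) (b ^ 2)) [IsSepClosed F] (hb : ¬ IsSquare b)
    (R : W.Point) : ∃ S : W2.Point, S + S = fr W W2 R := by
  have c2 : (2 : F) = 0 := CharTwo.two_eq_zero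
  rcases R with _ | ⟨x, y, h₁⟩
  · exact ⟨0, by rw [add_zero]; rfl⟩
  · have e := h.eq_of h₁
    have hx : x ≠ 0 := by
      rintro rfl
      exact hb ⟨y, by linear_combination -e⟩
    have hX : ∃ X : F, X ^ 2 + x * X + b = 0 := by
      have hp : (Polynomial.X ^ 2 + Polynomial.C x * Polynomial.X + Polynomial.C b :
          Polynomial F).Separable := by
        rw [Polynomial.separable_def]
        refine ⟨0, Polynomial.C x⁻¹, ?_⟩
        simp only [Polynomial.derivative_add, Polynomial.derivative_mul, Polynomial.derivative_C,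
          Polynomial.derivative_X, Polynomial.derivative_X_pow]
        have : (Polynomial.C ((2 : ℕ) : F)) = 0 := by simp [c2]
        rw [this]
        simp [← Polynomial.C_mul, hx]
      have hd : (Polynomial.X ^ 2 + Polynomial.C x * Polynomial.X + Polynomial.C b :
          Polynomial F).degree ≠ 0 := by
        have : (Polynomial.X ^ 2 + Polynomial.C x * Polynomial.X + Polynomial.C b :
          Polynomial F).degree = 2 := by compute_degree!
        rw [this]; decide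
      obtain ⟨X, hX⟩ := IsSepClosed.exists_root _ hd hp
      refine ⟨X, ?_⟩
      simpa using hX
    obtain ⟨X, hX⟩ := hX
    have hX0 : X ≠ 0 := by
      rintro rfl
      exact h.b0 (by linear_combination hX)
    set m := (y + X) / x with hm
    have hm1 : m * x = y + X := div_mul_cancel₀ _ hx
    have hm2 : m ^ 2 + m = x + a := by
      have : x ^ 2 * (m ^ 2 + m - (x + a)) = 0 := by grind
      exact sub_eq_zero.1 ((mul_eq_zero.1 this).resolve_left (pow_ne_zero 2 hx))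
    have hn : W2.Nonsingular X (X * (m + 1 + a) + b) := by
      apply h2.nons
      grind
    refine ⟨.some X (X * (m + 1 + a) + b) hn, ?_⟩
    rw [fr_some h h2]
    obtain ⟨h', e2⟩ := h2.tang hn hX0 (l := x + (m + 1) + a) (X := x ^ 2) (Y := y ^ 2) (by grind)
      (by grind) (by grind)
    exact e2

end pts

end Pool.Agent.H467.CT
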