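import Pool.Agent.H467.CT.Spec

/-!
# An element of `k(t)` in characteristic two, integral up to `z ^ 2 + z` at all finite places
-/

set_option autoImplicit false
set_option linter.all false

open Polynomial IsDedekindDomain WeierstrassCurve WeierstrassCurve.Affine
open Pool.Agent.TH115.GD
open scoped Classical

namespace Pool.Agent.H467.CT.Intg

/-- Strong approximation (additive Cousin problem) for Dedekind domains. -/
theorem cousin {R K : Type} [CommRing R] [IsDedekindDomain R] [Field K] [Algebra R K]
    [IsFractionRing R K] (z : HeightOneSpectrum R → K) (hz : {v | z v ≠ 0}.Finite) :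
    ∃ g : K, ∀ v : HeightOneSpectrum R, v.valuation K (g - z v) ≤ 1 := by
  obtain ⟨b, hb⟩ := IsLocalization.exist_integer_multiples (nonZeroDivisors R) hz.toFinset z
  set D : R := (b : R) with hD
  have hD0 : D ≠ 0 := nonZeroDivisors.coe_ne_zero b
  have hint : ∀ v, ∃ a : R, algebraMap R K a = algebraMap R K D * z v := by
    intro v
    by_cases hv : z v = 0
    · exact ⟨0, by rw [hv, mul_zero, map_zero]⟩
    · obtain ⟨a, ha⟩ := hb v (by simpa using hv)
      exact ⟨a, by rw [ha, Algebra.smul_def]⟩
  choose a ha using hint
  have hn : ∀ v : HeightOneSpectrum R, ∃ n : ℕ, v.intValuation D = WithZero.exp (-(n : ℤ)) :=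
    fun v => ⟨_, v.intValuation_if_neg hD0⟩
  choose n hn using hn
  have hfin : {v : HeightOneSpectrum R | v.intValuation D < 1}.Finite := by
    have h1 := HeightOneSpectrum.Support.finite R ((algebraMap R K D)⁻¹)
    refine h1.subset fun v hv => ?_
    show 1 < v.valuation K (algebraMap R K D)⁻¹
    have hv' : v.intValuation D < 1 := hv
    rw [map_inv₀, HeightOneSpectrum.valuation_of_algebraMap]
    exact (one_lt_inv₀ (zero_lt_iff.2 (v.intValuation_ne_zero D hD0))).2 hv'
  set S : Finset (HeightOneSpectrum R) := hz.toFinset ∪ hfin.toFinset with hS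
  obtain ⟨y, hy⟩ := IsDedekindDomain.exists_forall_sub_mem_ideal (s := S)
    (fun v : HeightOneSpectrum R => v.asIdeal) n (fun v _ => v.prime)
    (fun v _ w _ hvw h => hvw (HeightOneSpectrum.ext h)) (fun v => a v.1)
  have hDK : algebraMap R K D ≠ 0 := by
    rw [Ne, IsFractionRing.to_map_eq_zero_iff]; exact hD0
  refine ⟨algebraMap R K y / algebraMap R K D, fun v => ?_⟩
  have e : algebraMap R K y / algebraMap R K D - z v =
      algebraMap R K (y - a v) / algebraMap R K D := by
    rw [map_sub, ha v]
    field_simp
  rw [e, map_div₀, HeightOneSpectrum.valuation_of_algebraMap,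
    HeightOneSpectrum.valuation_of_algebraMap]
  have hDv : 0 < v.intValuation D := zero_lt_iff.2 (v.intValuation_ne_zero D hD0)
  by_cases hv : v ∈ S
  · have h1 := hy v hv
    rw [← HeightOneSpectrum.intValuation_le_pow_iff_mem, ← hn v] at h1
    exact (div_le_one₀ hDv).2 h1
  · have h2 : ¬ v.intValuation D < 1 := by
      intro h2
      exact hv (Finset.mem_union_right _ (by simpa using h2))
    have h3 : v.intValuation D = 1 := le_antisymm (v.intValuation_le_one D) (not_lt.1 h2)
    rw [h3, div_one]
    exact v.intValuation_le_one _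

/-- elements of the completion are congruent to elements of the field modulo integral elements -/
theorem near {R K : Type} [CommRing R] [IsDedekindDomain R] [Field K] [Algebra R K]
    [IsFractionRing R K] (v : HeightOneSpectrum R) (z : v.adicCompletion K) :
    ∃ z₀ : K, Valued.v (Γ₀ := WithZero (Multiplicative ℤ))
      (z - algebraMap K (v.adicCompletion K) z₀) ≤ 1 := by
  have hd := HeightOneSpectrum.denseRange_algebraMap (K := K) v
  have ho : IsOpen {y : v.adicCompletion K | z - y ∈ v.adicCompletionIntegers K} := by
    have h1 : IsOpen (v.adicCompletionIntegers K : Set (v.adicCompletion K)) :=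
      Valued.isOpen_valuationSubring _
    exact h1.preimage (continuous_const.sub continuous_id)
  obtain ⟨z₀, hz₀⟩ := hd.exists_mem_open ho ⟨z, by simp⟩
  exact ⟨z₀, hz₀⟩

theorem intg : S_INTG := by
  intro k K _ _ _ _ _ _ α hα
  have h2k : (2 : k) = 0 := CharTwo.two_eq_zero
  have h2p : (2 : k[X]) = 0 := by
    have : (2 : k[X]) = C (2 : k) := by rw [map_ofNat]
    rw [this, h2k, map_zero]
  have h2 : (2 : K) = 0 := by
    have : (2 : K) = algebraMap k[X] K 2 := by rw [map_ofNat]
    rw [this, h2p, map_zero]
  -- approximate by elements of `K`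
  have step : ∀ v : HeightOneSpectrum k[X], ∃ z : K, v.valuation K (α + z ^ 2 + z) ≤ 1 ∧
      (v.valuation K α ≤ 1 → z = 0) := by
    intro v
    by_cases hv : v.valuation K α ≤ 1
    · exact ⟨0, by simpa using hv, fun _ => rfl⟩
    · obtain ⟨z, hz⟩ := hα v
      obtain ⟨z₀, hz₀⟩ := near v z
      refine ⟨z₀, ?_, fun h => absurd h hv⟩
      rw [← HeightOneSpectrum.valuedAdicCompletion_eq_valuation']
      have h2' : (2 : v.adicCompletion K) = 0 := by
        have : (2 : v.adicCompletion K) = algebraMap K (v.adicCompletion K) 2 := by rw [map_ofNat]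
        rw [this, h2, map_zero]
      have e : algebraMap K (v.adicCompletion K) (α + z₀ ^ 2 + z₀) =
          (algebraMap K (v.adicCompletion K) α + z ^ 2 + z) +
          ((z - algebraMap K (v.adicCompletion K) z₀) ^ 2 +
            (z - algebraMap K (v.adicCompletion K) z₀)) := by
        rw [map_add, map_add, map_pow]
        linear_combination (-z ^ 2 - z + z * algebraMap K (v.adicCompletion K) z₀ +
          algebraMap K (v.adicCompletion K) z₀) * h2'
      have h3 : Valued.v (Γ₀ := WithZero (Multiplicative ℤ))
          (algebraMap K (v.adicCompletion K) (α + z₀ ^ 2 + z₀)) ≤ 1 := by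
        rw [e]
        refine (Valuation.map_add_le _ hz ?_)
        refine (Valuation.map_add_le _ ?_ hz₀)
        rw [map_pow]
        exact pow_le_one' hz₀ 2
      exact h3
  choose z hz1 hz2 using step
  have hfin : {v | z v ≠ 0}.Finite := by
    refine (HeightOneSpectrum.Support.finite k[X] α).subset fun v hv => ?_
    show 1 < v.valuation K α
    by_contra h
    exact hv (hz2 v (not_lt.1 h))
  obtain ⟨g, hg⟩ := cousin (K := K) z hfin
  obtain ⟨p, hp⟩ := HeightOneSpectrum.mem_integers_of_valuation_le_one K (α + g ^ 2 + g) (R := k[X])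
    (fun v => by
      have e : α + g ^ 2 + g = (α + z v ^ 2 + z v) + ((g - z v) ^ 2 + (g - z v)) := by
        linear_combination (-z v ^ 2 + g * z v) * h2
      rw [e]
      refine (Valuation.map_add_le _ (hz1 v) ?_)
      refine (Valuation.map_add_le _ ?_ (hg v))
      rw [map_pow]
      exact pow_le_one' (hg v) 2)
  refine ⟨g, p, ?_⟩
  rw [hp]
  linear_combination (-g ^ 2 - g) * h2

end Pool.Agent.H467.CT.Intg
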