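import Pool.Agent.H467.CT.Nrm

/-!
# Descent in characteristic two: the general theorem, statements of the parts

Project CT (helper467).
-/

set_option autoImplicit false
set_option linter.all false

open Polynomial IsDedekindDomain
open Pool.Agent.TH115.GD
open scoped Classical

namespace Pool.Agent.H467.CT

/-- An additive map `k → ZMod 2` with kernel `{z ^ 2 + z}`. -/
structure IsTau {k : Type} [Field k] (τ : k → ZMod 2) : Prop where
  add : ∀ x y, τ (x + y) = τ x + τ y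
  zero : ∀ x, τ x = 0 ↔ AS x

def S_TAU : Prop := ∀ (k : Type) [Field k] [Finite k] [CharP k 2], ∃ τ : k → ZMod 2, IsTau τ

section defs

variable {k : Type} [Field k] (K : Type) [Field K] [Algebra k[X] K] [IsFractionRing k[X] K]

/-- The elements of `k(t)` which are integral at all maximal ideals of `k[t]` outside `s`, with poles
of order at most `N` at the primes in `s` and at infinity. -/
def VN (s : Finset k[X]) (N : ℕ) : Set K :=
  {a | ∃ f : k[X], f.natDegree ≤ N * (1 + (∏ Q ∈ s, Q).natDegree) ∧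
    a * algebraMap k[X] K (∏ Q ∈ s, Q) ^ N = algebraMap k[X] K f}

variable {K}

/-- The matrix of the residues of `a dlog Q_i` at the primes in `s` and at infinity (`none`). -/
noncomputable def mat [Finite k] [CharP k 2] (ρ : Res k K) (τ : k → ZMod 2) {s : Finset k[X]}
    (hs : ∀ Q ∈ s, Irreducible Q) (a : K) (i : s) (j : Option s) : ZMod 2 :=
  match j with
  | none => τ (ρ.ri (a * dlg K i.1))
  | some j => τ (ρ.r (Infg.pr j.1 (hs j.1 j.2)) (a * dlg K i.1))

end defs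

/-- The number of elements of `VN`, and equidistribution of the matrices. -/
def S_EQD : Prop := ∀ (k K : Type) [Field k] [Finite k] [CharP k 2] [Field K] [Algebra k[X] K]
  [IsFractionRing k[X] K] (ρ : Res k K) (τ : k → ZMod 2), IsTau τ →
  ∀ (s : Finset k[X]) (hs : ∀ Q ∈ s, Irreducible Q), (∀ Q ∈ s, Q.Monic) →
  (∀ N : ℕ, (VN K s N).ncard = Nat.card k ^ (N * (1 + (∏ Q ∈ s, Q).natDegree) + 1)) ∧
  ∃ N₀ : ℕ, ∀ N ≥ N₀, ∀ T : s → Option s → ZMod 2, (∀ i, ∑ j, T i j = 0) →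
    {a ∈ VN K s N | mat ρ τ hs a = T}.ncard * 2 ^ (s.card ^ 2) = (VN K s N).ncard

/-- Most of the elements of `VN` have large poles modulo `z ^ 2 + z`. -/
def S_BIG : Prop := ∀ (k K : Type) [Field k] [Finite k] [CharP k 2] [Field K] [Algebra k[X] K]
  [IsFractionRing k[X] K] (s : Finset k[X]) (hs : ∀ Q ∈ s, Irreducible Q), (∀ Q ∈ s, Q.Monic) →
  ∀ γ : WithZero (Multiplicative ℤ),
  (∀ Q (hQ : Q ∈ s), Filter.Tendsto (fun N : ℕ => ({a ∈ VN K s N |
    ∃ z : K, (Infg.pr Q (hs Q hQ)).valuation K (a + z ^ 2 + z) ≤ γ}.ncard : ℝ) /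
      ((VN K s N).ncard : ℝ)) Filter.atTop (nhds 0)) ∧
  Filter.Tendsto (fun N : ℕ => ({a ∈ VN K s N |
    ∃ z : K, vinf k (a + z ^ 2 + z) ≤ γ}.ncard : ℝ) / ((VN K s N).ncard : ℝ))
    Filter.atTop (nhds 0)

/-- `T` is a good matrix with respect to `β`. -/
structure Good {ι : Type} [Fintype ι] (β : ι → ZMod 2) (T : ι → Option ι → ZMod 2) : Prop where
  two : {j : Option ι | ∑ i, β i * T i j ≠ 0}.ncard = 2
  inj : ∀ ε : Option ι → ZMod 2, (∀ j, ∑ i, β i * T i j ≠ 0 → ε j = 0) →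
    (∀ i, ∑ j, ε j * T i j = 0) → ε = 0

/-- The left kernel of a good matrix. -/
def S_MATL : Prop := ∀ (ι : Type) [Fintype ι] (β : ι → ZMod 2), β ≠ 0 →
  ∀ T : ι → Option ι → ZMod 2, Good β T →
  ∀ e : ι → ZMod 2, (∀ j, ∑ i, β i * T i j = 0 → ∑ i, e i * T i j = 0) → e = 0 ∨ e = β

/-- The number of good matrices. -/
def S_MATC : Prop := ∀ (ι : Type) [Fintype ι] (β : ι → ZMod 2), β ≠ 0 →
  {T : ι → Option ι → ZMod 2 | (∀ i, ∑ j, T i j = 0) ∧ Good β T}.ncard =
    ((Fintype.card ι + 1).choose 2) * 2 ^ (Fintype.card ι - 1) *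
      ∏ i ∈ Finset.range (Fintype.card ι - 1), (2 ^ (Fintype.card ι - 1) - 2 ^ i)

end Pool.Agent.H467.CT
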