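import Pool.Agent.H467.CT.Two
import Pool.Agent.H467.CT.Intg
import Pool.Agent.H467.CT.Spec4

/-!
# Descent in characteristic two: general twists

Project CT (helper467).
-/

set_option autoImplicit false
set_option linter.all false

open Polynomial IsDedekindDomain WeierstrassCurve WeierstrassCurve.Affine WithZero
open Pool.Agent.TH115.GD
open Pool.Agent.N352.PP (vv em vv_coe dense_F dense_R vv_em_lt vv_em_le vv_em_P vv_em_one vv_em)
open scoped Classical

namespace Pool.Agent.H467.CT

section gen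

variable {k K : Type} [Field k] [Finite k] [CharP k 2] [Field K] [Algebra k[X] K]
  [IsFractionRing k[X] K]

/-- Integrality modulo `z ^ 2 + z` at a set of places. -/
theorem intgs [CharP K 2] (good : HeightOneSpectrum k[X] → Prop) (α : K)
    (hα : ∀ v, good v → ∃ z : v.adicCompletion K,
      vv v (algebraMap K (v.adicCompletion K) α + z ^ 2 + z) ≤ 1) :
    ∃ g : K, ∀ v, good v → v.valuation K (α + g ^ 2 + g) ≤ 1 := by
  have h2 : (2 : K) = 0 := CharTwo.two_eq_zero
  have step : ∀ v : HeightOneSpectrum k[X], ∃ z : K,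
      (good v → v.valuation K (α + z ^ 2 + z) ≤ 1) ∧ (v.valuation K α ≤ 1 → z = 0) := by
    intro v
    by_cases hv : v.valuation K α ≤ 1
    · exact ⟨0, fun _ => by simpa using hv, fun _ => rfl⟩
    · by_cases hg : good v
      · obtain ⟨z, hz⟩ := hα v hg
        obtain ⟨z₀, hz₀⟩ := Intg.near v z
        refine ⟨z₀, fun _ => ?_, fun h => absurd h hv⟩
        rw [← vv_coe]
        have h2' : (2 : v.adicCompletion K) = 0 := CharTwo.two_eq_zero
        have e : algebraMap K (v.adicCompletion K) (α + z₀ ^ 2 + z₀) =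
            (algebraMap K (v.adicCompletion K) α + z ^ 2 + z) +
            ((z - algebraMap K (v.adicCompletion K) z₀) ^ 2 +
              (z - algebraMap K (v.adicCompletion K) z₀)) := by
          rw [map_add, map_add, map_pow]
          linear_combination (-z ^ 2 - z + z * algebraMap K (v.adicCompletion K) z₀ +
            algebraMap K (v.adicCompletion K) z₀) * h2'
        rw [e]
        refine (Valuation.map_add_le _ hz ?_)
        refine (Valuation.map_add_le _ ?_ hz₀)
        rw [map_pow]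
        exact pow_le_one' hz₀ 2
      · exact ⟨0, fun h => absurd h hg, fun _ => rfl⟩
  choose z hz1 hz2 using step
  have hfin : {v | z v ≠ 0}.Finite := by
    refine (HeightOneSpectrum.Support.finite k[X] α).subset fun v hv => ?_
    show 1 < v.valuation K α
    by_contra h
    exact hv (hz2 v (not_lt.1 h))
  obtain ⟨g, hg⟩ := Intg.cousin (K := K) z hfin
  refine ⟨g, fun v hv => ?_⟩
  have e : α + g ^ 2 + g = (α + z v ^ 2 + z v) + ((g - z v) ^ 2 + (g - z v)) := by
    linear_combination (-z v ^ 2 + g * z v) * h2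
  rw [e]
  refine (Valuation.map_add_le _ (hz1 v hv) ?_)
  refine (Valuation.map_add_le _ ?_ (hg v))
  rw [map_pow]
  exact pow_le_one' (hg v) 2

/-- `v` is not in `s`. -/
def Out (s : Finset k[X]) (v : HeightOneSpectrum k[X]) : Prop := ∀ Q ∈ s, Q ∉ v.asIdeal

/-- The indicator function of a subset. -/
noncomputable def ind {s : Finset k[X]} (t : Finset k[X]) (i : s) : ZMod 2 :=
  if i.1 ∈ t then 1 else 0

omit [Finite k] [CharP k 2] in
theorem sum_ind {s t : Finset k[X]} (ht : t ⊆ s) (F : k[X] → ZMod 2) :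
    ∑ i : s, ind t i * F i.1 = ∑ Q ∈ t, F Q := by
  have h1 : ∑ i : s, ind t i * F i.1 = ∑ Q ∈ s, (if Q ∈ t then F Q else 0) := by
    rw [← Finset.sum_coe_sort s]
    refine Finset.sum_congr rfl fun i _ => ?_
    unfold ind
    split_ifs <;> simp
  rw [h1, ← Finset.sum_filter]
  congr 1
  ext Q
  rw [Finset.mem_filter]
  exact ⟨fun h => h.2, fun h => ⟨ht h, h⟩⟩

omit [Finite k] [CharP k 2] in
theorem dlg_prod {t : Finset k[X]} (ht : ∀ Q ∈ t, Q ≠ 0) :
    dlg K (∏ Q ∈ t, Q) = ∑ Q ∈ t, dlg K Q := by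
  induction t using Finset.induction_on with
  | empty => simp [dlg]
  | insert P t hP ih =>
    rw [Finset.prod_insert hP, Finset.sum_insert hP, dlg_mul (ht P (Finset.mem_insert_self _ _)),
      ih (fun Q hQ => ht Q (Finset.mem_insert_of_mem hQ))]
    rw [Finset.prod_ne_zero_iff]
    exact fun Q hQ => ht Q (Finset.mem_insert_of_mem hQ)

omit [Finite k] [CharP k 2] in
theorem add_dlg {t : Finset k[X]} (ht : ∀ Q ∈ t, Q ≠ 0) (f : K → ZMod 2)
    (hf : ∀ x y, f (x + y) = f x + f y) (a : K) :
    f (a * dlg K (∏ Q ∈ t, Q)) = ∑ Q ∈ t, f (a * dlg K Q) := by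
  have hf0 : f 0 = 0 := by
    have := hf 0 0
    rw [add_zero] at this
    exact left_eq_add.1 this
  rw [dlg_prod ht]
  induction t using Finset.induction_on with
  | empty => simp [hf0]
  | insert P t hP ih =>
    rw [Finset.sum_insert hP, Finset.sum_insert hP, mul_add, hf,
      ih (fun Q hQ => ht Q (Finset.mem_insert_of_mem hQ))]

/-- The data of the general theorem. -/
structure Gdat (ρ : Res k K) (τ : k → ZMod 2) {s : Finset k[X]} (hs : ∀ Q ∈ s, Irreducible Q)
    (a b : K) (t : Finset k[X]) (y : K) : Prop where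
  tau : IsTau τ
  monic : ∀ Q ∈ s, Q.Monic
  sub : t ⊆ s
  b_eq : b = algebraMap k[X] K (∏ Q ∈ t, Q) * y ^ 2
  b_ne : b ≠ 0
  b_out : ∀ v : HeightOneSpectrum k[X], Out s v → v.valuation K b = 1
  a_out : ∀ v : HeightOneSpectrum k[X], Out s v → v.valuation K a ≤ 1
  big : ∀ Q (hQ : Q ∈ s) (z : (Infg.pr Q (hs Q hQ)).adicCompletion K),
    max 1 (vv (Infg.pr Q (hs Q hQ)) (algebraMap K ((Infg.pr Q (hs Q hQ)).adicCompletion K) b)) <
      vv (Infg.pr Q (hs Q hQ))
        (algebraMap K ((Infg.pr Q (hs Q hQ)).adicCompletion K) a + z ^ 2 + z)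
  bigi : ∀ z : Infg.LL k K, max 1 (Infg.w k K (Infg.jj k K b)) <
    Infg.w k K (Infg.jj k K a + z ^ 2 + z)
  good : Good (ind t) (mat ρ τ hs a)

variable {ρ : Res k K} {τ : k → ZMod 2} {s : Finset k[X]} {hs : ∀ Q ∈ s, Irreducible Q}
    {a b : K} {t : Finset k[X]} {y : K}

/-- The residues at a place of `s` or at infinity. -/
noncomputable def rr (ρ : Res k K) (τ : k → ZMod 2) (hs : ∀ Q ∈ s, Irreducible Q)
    (j : Option s) (x : K) : ZMod 2 :=
  match j with
  | none => τ (ρ.ri x)
  | some j => τ (ρ.r (Infg.pr j.1 (hs j.1 j.2)) x)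

/-- `AS` in the completion at a place of `s` or at infinity. -/
def ASj (hs : ∀ Q ∈ s, Irreducible Q) (j : Option s) (x : K) : Prop :=
  match j with
  | none => AS (Infg.jj k K x)
  | some j => AS (algebraMap K ((Infg.pr j.1 (hs j.1 j.2)).adicCompletion K) x)

/-- `a + d s ^ 2` is of the form `z ^ 2 + z` in the completion. -/
def ASd (hs : ∀ Q ∈ s, Irreducible Q) (j : Option s) (a d : K) : Prop :=
  match j with
  | none => ∃ r : Infg.LL k K, AS (Infg.jj k K a + Infg.jj k K d * r ^ 2)
  | some j => ∃ r : (Infg.pr j.1 (hs j.1 j.2)).adicCompletion K,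
      AS (algebraMap K ((Infg.pr j.1 (hs j.1 j.2)).adicCompletion K) a + algebraMap K _ d * r ^ 2)

theorem rr_add (hτ : IsTau τ) (j : Option s) (x x' : K) :
    rr ρ τ hs j (x + x') = rr ρ τ hs j x + rr ρ τ hs j x' := by
  rcases j with _ | j
  · simp only [rr]; rw [ρ.ri_add, hτ.add]
  · simp only [rr]; rw [ρ.r_add, hτ.add]

theorem rr_norm (hτ : IsTau τ) (j : Option s) {x : K} {d : k[X]} (hd : d ≠ 0)
    (h : ASd hs j x (algebraMap k[X] K d)) : rr ρ τ hs j (x * dlg K d) = 0 := by
  rcases j with _ | j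
  · simp only [rr]
    rw [hτ.zero]
    exact norm_inf ρ hd h
  · simp only [rr]
    rw [hτ.zero]
    exact norm_fin ρ _ hd h

theorem ASd_of (j : Option s) {x d : K} (h : ASj hs j x) : ASd hs j x d := by
  rcases j with _ | j
  · exact ⟨0, by rw [zero_pow two_ne_zero, mul_zero, add_zero]; exact h⟩
  · exact ⟨0, by rw [zero_pow two_ne_zero, mul_zero, add_zero]; exact h⟩

theorem ASd_mul (j : Option s) {x d y : K} (h : ASd hs j x (d * y ^ 2)) : ASd hs j x d := by
  rcases j with _ | j
  · obtain ⟨r, hr⟩ := h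
    refine ⟨Infg.jj k K y * r, ?_⟩
    have e : Infg.jj k K x + Infg.jj k K d * (Infg.jj k K y * r) ^ 2 =
        Infg.jj k K x + Infg.jj k K (d * y ^ 2) * r ^ 2 := by
      rw [map_mul, map_pow]; ring
    rw [e]; exact hr
  · obtain ⟨r, hr⟩ := h
    refine ⟨algebraMap K _ y * r, ?_⟩
    have e : algebraMap K ((Infg.pr j.1 (hs j.1 j.2)).adicCompletion K) x +
        algebraMap K _ d * (algebraMap K _ y * r) ^ 2 =
        algebraMap K _ x + algebraMap K _ (d * y ^ 2) * r ^ 2 := by
      rw [map_mul, map_pow]; ring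
    rw [e]; exact hr

theorem ASj_add [CharP K 2] (j : Option s) {x x' : K} (h : ASj hs j x) (h' : ASj hs j x') :
    ASj hs j (x + x') := by
  haveI : CharP (AtInf K) 2 := charK k (K := K)
  haveI : CharP (Infg.LL k K) 2 := charComp _
  rcases j with _ | j
  · show AS (Infg.jj k K (x + x'))
    rw [map_add]; exact AS_add h h'
  · show AS (algebraMap K ((Infg.pr j.1 (hs j.1 j.2)).adicCompletion K) (x + x'))
    rw [map_add]; exact AS_add h h'

theorem ASj_glob (j : Option s) {x : K} (h : AS x) : ASj hs j x := by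
  rcases j with _ | j
  · exact AS_map _ h
  · exact AS_map _ h

/-- The sum of the residues. -/
theorem rr_sum (hτ : IsTau τ) (hm : ∀ Q ∈ s, Q.Monic) {x : K}
    (hx : ∀ v : HeightOneSpectrum k[X], Out s v → v.valuation K x ≤ 1) :
    ∑ j, rr ρ τ hs j x = 0 := by
  have hτ0 : τ 0 = 0 := (hτ.zero 0).2 ⟨0, by ring⟩
  have hinj : Function.Injective (fun i : s => Infg.pr i.1 (hs i.1 i.2)) := by
    intro i j hij
    have h1 : Ideal.span {i.1} = Ideal.span {j.1} := congrArg HeightOneSpectrum.asIdeal hij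
    have h2 : Associated i.1 j.1 := by
      rwa [Ideal.span_singleton_eq_span_singleton] at h1
    exact Subtype.ext (eq_of_monic_of_associated (hm _ i.2) (hm _ j.2) h2)
  have hsum := ρ.sum x (Finset.univ.map ⟨fun i : s => Infg.pr i.1 (hs i.1 i.2), hinj⟩) (by
    intro v hv
    apply hx v
    intro Q hQ hQv
    apply hv
    rw [Finset.mem_map]
    refine ⟨⟨Q, hQ⟩, Finset.mem_univ _, ?_⟩
    apply HeightOneSpectrum.ext
    have h3 : Ideal.span {Q} ≤ v.asIdeal := by
      rw [Ideal.span_singleton_le_iff_mem]; exact hQv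
    exact ((Infg.pr Q (hs Q hQ)).isMaximal.eq_of_le v.isPrime.ne_top h3))
  rw [Finset.sum_map] at hsum
  have tsum : ∀ (u : Finset s) (f : s → k), τ (∑ i ∈ u, f i) = ∑ i ∈ u, τ (f i) := by
    intro u f
    induction u using Finset.induction_on with
    | empty => simpa using hτ0
    | insert i u hi ih => rw [Finset.sum_insert hi, Finset.sum_insert hi, hτ.add, ih]
  rw [Fintype.sum_option]
  have h1 : rr ρ τ hs none x = ∑ i : s, rr ρ τ hs (some i) x := by
    simp only [rr]
    rw [hsum, tsum]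
    rfl
  rw [h1]
  exact CharTwo.add_self_eq_zero _

/-- The matrix entries are the residues. -/
theorem mat_rr (a : K) (i : s) (j : Option s) : mat ρ τ hs a i j = rr ρ τ hs j (a * dlg K i.1) := by
  rcases j with _ | j <;> rfl

theorem sum_mat (hτ : IsTau τ) (ht : t ⊆ s) (a : K) (j : Option s) :
    ∑ i, ind t i * mat ρ τ hs a i j = rr ρ τ hs j (a * dlg K (∏ Q ∈ t, Q)) := by
  simp only [mat_rr]
  rw [sum_ind ht (fun Q => rr ρ τ hs j (a * dlg K Q)),
    add_dlg (fun Q hQ => (hs Q (ht hQ)).ne_zero) (rr ρ τ hs j) (fun x y => rr_add hτ j x y) a]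

omit [Finite k] [CharP k 2] in
/-- `x dlog Q` is integral outside `s`. -/
theorem dlg_int {x : K} (hx : ∀ v : HeightOneSpectrum k[X], Out s v → v.valuation K x ≤ 1)
    {Q : k[X]} (hQ : Q ∈ s) (v : HeightOneSpectrum k[X]) (hv : Out s v) :
    v.valuation K (x * dlg K Q) ≤ 1 := by
  rw [map_mul, dlg, map_div₀]
  have h1 : v.valuation K (algebraMap k[X] K Q) = 1 := by
    rw [HeightOneSpectrum.valuation_of_algebraMap]
    apply le_antisymm (v.intValuation_le_one Q)
    rw [← not_lt, HeightOneSpectrum.intValuation_lt_one_iff_mem]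
    exact hv Q hQ
  rw [h1, div_one]
  exact mul_le_one' (hx v hv) (v.valuation_le_one _)

/-- The class of `α`. -/
theorem gen_V [CharP K 2] (hinfg : S_INFG) (h : Gdat ρ τ hs a b t y) {α : K}
    (hα : AllV k a b α) : AS α := by
  haveI : CharP (AtInf K) 2 := charK k (K := K)
  haveI : CharP (Infg.LL k K) 2 := charComp _
  have c2 : (2 : K) = 0 := CharTwo.two_eq_zero
  have hτ := h.tau
  have ht0 : (∏ Q ∈ t, Q) ≠ 0 := Finset.prod_ne_zero_iff.2 fun Q hQ => (hs Q (h.sub hQ)).ne_zero
  -- integrality outside `s`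
  have hint : ∀ v, Out s v → ∃ z : v.adicCompletion K,
      vv v (algebraMap K (v.adicCompletion K) α + z ^ 2 + z) ≤ 1 := by
    intro v hv
    have h1 : LV (algebraMap K (v.adicCompletion K) a) (algebraMap K (v.adicCompletion K) b)
      (algebraMap K (v.adicCompletion K) α) := hα.1 v
    exact L1 (w := vv v) (by rw [vv_coe]; exact h.a_out v hv)
      (by rw [vv_coe]; exact (h.b_out v hv).le) h1
  obtain ⟨g, hg⟩ := intgs (Out s) α hint
  set α' := α + g ^ 2 + g with hα'
  -- the local conditions in `s`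
  have hloc : ∀ j : Option s, ASj hs j α ∨ (ASj hs j (α + a) ∧ ASd hs j a b) := by
    intro j
    rcases j with _ | j
    · have h1 : LV (Infg.jj k K a) (Infg.jj k K b) (Infg.jj k K α) := hα.2
      rcases LS (w := Infg.w k K) (fun x hx => hens (pl (0 : k)) x hx)
        ((_root_.map_ne_zero _).2 h.b_ne) h.bigi h1 with h2 | ⟨h2, h3⟩
      · exact Or.inl h2
      · refine Or.inr ⟨?_, h3⟩
        show AS (Infg.jj k K (α + a))
        rw [map_add]; exact h2
    · have h1 : LV (algebraMap K ((Infg.pr j.1 (hs j.1 j.2)).adicCompletion K) a)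
        (algebraMap K _ b) (algebraMap K _ α) := hα.1 (Infg.pr j.1 (hs j.1 j.2))
      rcases LS (w := vv (Infg.pr j.1 (hs j.1 j.2))) (fun x hx => hens _ x hx)
        ((_root_.map_ne_zero _).2 h.b_ne) (h.big j.1 j.2) h1 with h2 | ⟨h2, h3⟩
      · exact Or.inl h2
      · refine Or.inr ⟨?_, h3⟩
        show AS (algebraMap K ((Infg.pr j.1 (hs j.1 j.2)).adicCompletion K) (α + a))
        rw [map_add]; exact h2
  set ε : Option s → ZMod 2 := fun j => if ASj hs j α then 0 else 1 with hε
  have hε0 : ε = 0 := by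
    apply h.good.inj
    · intro j hj
      by_contra hne
      apply hj
      have h1 : ¬ ASj hs j α := by
        intro h2
        apply hne
        rw [hε]; simp [h2]
      obtain ⟨-, h3⟩ := (hloc j).resolve_left h1
      rw [sum_mat hτ h.sub]
      apply rr_norm hτ j ht0
      rw [h.b_eq] at h3
      exact ASd_mul j h3
    · intro i
      have key : ∀ j, ε j * mat ρ τ hs a i j = rr ρ τ hs j (α' * dlg K i.1) := by
        intro j
        rw [mat_rr]
        have hd := (hs i.1 i.2).ne_zero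
        by_cases h1 : ASj hs j α
        · have h2 : ε j = 0 := by rw [hε]; simp [h1]
          have h3 : ASj hs j α' := by
            have : α' = α + (g ^ 2 + g) := by rw [hα']; ring
            rw [this]
            exact ASj_add j h1 (ASj_glob j (AS_sq g))
          rw [h2, zero_mul, rr_norm hτ j hd (ASd_of j h3)]
        · have h2 : ε j = 1 := by rw [hε]; simp [h1]
          obtain ⟨h3, -⟩ := (hloc j).resolve_left h1
          have h4 : ASj hs j (α' + a) := by
            have : α' + a = (α + a) + (g ^ 2 + g) := by rw [hα']; ring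
            rw [this]
            exact ASj_add j h3 (ASj_glob j (AS_sq g))
          have h5 := rr_norm (ρ := ρ) hτ j hd (ASd_of j (d := algebraMap k[X] K i.1) h4)
          rw [add_mul, rr_add hτ] at h5
          rw [h2, one_mul]
          exact (CharTwo.add_eq_zero.1 h5).symm
      rw [Finset.sum_congr rfl (fun j _ => key j)]
      exact rr_sum hτ h.monic (fun v hv => dlg_int hg i.2 v hv)
  have hall : ∀ j, ASj hs j α := by
    intro j
    by_contra h1
    have h2 : ε j = 1 := by rw [hε]; simp [h1]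
    rw [hε0] at h2
    exact one_ne_zero h2.symm
  obtain ⟨g', p, hp⟩ := Intg.intg k K α (fun v => by
    by_cases hv : Out s v
    · exact hint v hv
    · unfold Out at hv
      push Not at hv
      obtain ⟨Q, hQ, hQv⟩ := hv
      have hv' : v = Infg.pr Q (hs Q hQ) := by
        apply HeightOneSpectrum.ext
        have h3 : Ideal.span {Q} ≤ v.asIdeal := by
          rw [Ideal.span_singleton_le_iff_mem]; exact hQv
        exact ((Infg.pr Q (hs Q hQ)).isMaximal.eq_of_le v.isPrime.ne_top h3).symm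
      subst hv'
      obtain ⟨z, hz⟩ : AS (algebraMap K ((Infg.pr Q (hs Q hQ)).adicCompletion K) α) :=
        hall (some ⟨Q, hQ⟩)
      refine ⟨z, ?_⟩
      have c2' : (2 : (Infg.pr Q (hs Q hQ)).adicCompletion K) = 0 := CharTwo.two_eq_zero
      have e : algebraMap K ((Infg.pr Q (hs Q hQ)).adicCompletion K) α + z ^ 2 + z = 0 := by
        rw [hz]; linear_combination (z ^ 2 + z) * c2'
      rw [e, map_zero]
      exact zero_le')
  have hinf : AS (Infg.jj k K α) := hall none
  have h4 : AS (Infg.s k K p) := by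
    apply AS_of_add (AS_map (Infg.jj k K) (AS_sq g'))
    have e : Infg.jj k K (g' ^ 2 + g') + Infg.s k K p = Infg.jj k K α := by
      rw [hp, map_add (Infg.jj k K), map_add (Infg.jj k K), map_add (Infg.jj k K)]
      show _ + Infg.jj k K (algebraMap k[X] K p) = _
      ring
    rw [e]; exact hinf
  obtain ⟨g'', hg''⟩ := hinfg k K p h4
  rw [hp, add_assoc]
  refine AS_add ?_ (AS_sq g')
  rw [hg'', map_add, map_pow]
  exact AS_sq _

/-- The class of `d`. -/
theorem gen_F [CharP K 2] (hsqg : S_SQG) (hmatl : S_MATL) (h : Gdat ρ τ hs a b t y)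
    (hbsq : ¬ IsSquare b) {d : K} (hd : d ≠ 0)
    (hdF : AllF k a b d) : IsSquare d ∨ IsSquare (d * b) := by
  haveI : CharP (AtInf K) 2 := charK k (K := K)
  haveI : CharP (Infg.LL k K) 2 := charComp _
  have hτ := h.tau
  obtain ⟨u, hu, x, hx, e⟩ := sq_fin (K := K) hsqg s hs d hd (by
    intro v hv
    have h1 : LF (algebraMap K (v.adicCompletion K) a) (algebraMap K (v.adicCompletion K) b)
      (algebraMap K (v.adicCompletion K) d) := hdF.1 v
    have hb1 : vv v (algebraMap K (v.adicCompletion K) b) = 1 := by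
      rw [vv_coe]; exact h.b_out v hv
    have := F1 (w := vv v) (by rw [vv_coe]; exact h.a_out v hv) hb1.le (by rw [hb1]; exact ev_one)
      ((_root_.map_ne_zero _).2 h.b_ne) ((_root_.map_ne_zero _).2 hd)
      (fun hlt => absurd hb1 hlt.ne) h1
    rwa [vv_coe] at this)
  have ht0 : (∏ Q ∈ t, Q) ≠ 0 := Finset.prod_ne_zero_iff.2 fun Q hQ => (hs Q (h.sub hQ)).ne_zero
  have hu0 : (∏ Q ∈ u, Q) ≠ 0 := Finset.prod_ne_zero_iff.2 fun Q hQ => (hs Q (hu hQ)).ne_zero
  have hβ : (ind t : s → ZMod 2) ≠ 0 := by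
    intro h0
    apply hbsq
    have ht : t = ∅ := by
      apply Finset.eq_empty_of_forall_notMem
      intro Q hQ
      have := congrFun h0 ⟨Q, h.sub hQ⟩
      simp [ind, hQ] at this
    rw [h.b_eq, ht, Finset.prod_empty, map_one, one_mul]
    exact ⟨y, by rw [sq]⟩
  have hloc : ∀ j : Option s, ASd hs j a d ∨ ASd hs j a (d * b) := by
    intro j
    rcases j with _ | j
    · have h1 : LF (Infg.jj k K a) (Infg.jj k K b) (Infg.jj k K d) := hdF.2
      rcases FS (w := Infg.w k K) (fun x hx => hens (pl (0 : k)) x hx)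
        ((_root_.map_ne_zero _).2 h.b_ne) ((_root_.map_ne_zero _).2 hd) h.bigi h1 with h2 | h2
      · exact Or.inl h2
      · right
        obtain ⟨r, hr⟩ := h2
        exact ⟨r, by rw [map_mul]; exact hr⟩
    · have h1 : LF (algebraMap K ((Infg.pr j.1 (hs j.1 j.2)).adicCompletion K) a)
        (algebraMap K _ b) (algebraMap K _ d) := hdF.1 (Infg.pr j.1 (hs j.1 j.2))
      rcases FS (w := vv (Infg.pr j.1 (hs j.1 j.2))) (fun x hx => hens _ x hx)
        ((_root_.map_ne_zero _).2 h.b_ne) ((_root_.map_ne_zero _).2 hd) (h.big j.1 j.2) h1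
        with h2 | h2
      · exact Or.inl h2
      · right
        obtain ⟨r, hr⟩ := h2
        exact ⟨r, by rw [map_mul]; exact hr⟩
  rcases hmatl s (ind t) hβ (mat ρ τ hs a) h.good (ind u) (by
    intro j hj
    rw [sum_mat hτ h.sub] at hj
    rw [sum_mat hτ hu]
    rcases hloc j with h1 | h1
    · apply rr_norm hτ j hu0
      rw [e] at h1
      exact ASd_mul j h1
    · have h2 : ASd hs j a (algebraMap k[X] K ((∏ Q ∈ u, Q) * ∏ Q ∈ t, Q)) := by
        apply ASd_mul j (y := x * y)
        have e2 : algebraMap k[X] K ((∏ Q ∈ u, Q) * ∏ Q ∈ t, Q) * (x * y) ^ 2 = d * b := by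
          rw [map_mul, e, h.b_eq]; ring
        rw [e2]; exact h1
      have h3 := rr_norm (ρ := ρ) hτ j (mul_ne_zero hu0 ht0) h2
      rw [dlg_mul hu0 ht0, mul_add, rr_add hτ, hj, add_zero] at h3
      exact h3) with h1 | h1
  · left
    have hu' : u = ∅ := by
      apply Finset.eq_empty_of_forall_notMem
      intro Q hQ
      have := congrFun h1 ⟨Q, hu hQ⟩
      simp [ind, hQ] at this
    rw [e, hu', Finset.prod_empty, map_one, one_mul]
    exact ⟨x, by rw [sq]⟩
  · right
    have hu' : u = t := by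
      ext Q
      constructor
      · intro hQ
        have := congrFun h1 ⟨Q, hu hQ⟩
        by_contra hn
        simp [ind, hQ, hn] at this
      · intro hQ
        have := congrFun h1 ⟨Q, h.sub hQ⟩
        by_contra hn
        simp [ind, hQ, hn] at this
    refine ⟨algebraMap k[X] K (∏ Q ∈ t, Q) * x * y, ?_⟩
    rw [e, h.b_eq, hu']
    ring

/-- The main theorem for general twists. -/
theorem gen_main [CharP K 2] (hasc : S_ASC) (hinfg : S_INFG) (hsqg : S_SQG) (hmatl : S_MATL)
    (h : Gdat ρ τ hs a b t y) (hbsq : ¬ IsSquare b) :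
    (∀ P : Pt (cc a b) K, ∃ Q, Q + Q = P) ∧ (∀ P : Pt (cc a b) K, P + P = 0 → P = 0) ∧
    ShaTwo k (cc a b) := by
  have hM : ∀ (c' : (Sep K ≃ₐ[K] Sep K) → Pt (cc a b) (Sep K))
      (R' : Pt (cc a b) (Sep K)), IsCoc _ c' →
      LTk k _ c' → (∀ σ, c' σ + c' σ = act _ (rs K σ) R' - R') →
      ∃ S0 : Pt (cc a b) (Sep K), S0 + S0 = R' ∧
        ∀ σ, c' σ = act _ (rs K σ) S0 - S0 := by
    intro c' R' h1 h2 h3
    exact thmM (k := k) hasc hbsq (bas_X (k := k) K) (fun α hα => gen_V hinfg h hα)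
      (fun d hd hdF => gen_F hsqg hmatl h hbsq hd hdF) h1 h2 h3
  exact ⟨half_of hM, two_K hbsq, sha_of hM⟩

end gen

end Pool.Agent.H467.CT
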