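import Pool.Agent.H467.CT.Crv2

/-!
# Descent in characteristic two: local conditions from points

Project CT (helper467).
-/

set_option autoImplicit false
set_option linter.all false

open WeierstrassCurve WeierstrassCurve.Affine
open Pool.Agent.TH115.GD
open scoped Classical

namespace Pool.Agent.H467.CT

/-- The curve `y ^ 2 + x y = x ^ 3 + a x ^ 2 + b`. -/
def cc {K : Type} [Field K] (a b : K) : WeierstrassCurve K := ⟨1, a, 0, 0, b⟩

/-- Local condition on the class of `α` modulo `z ^ 2 + z`. -/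
def LV {L : Type} [Field L] (a b α : L) : Prop :=
  AS α ∨ ∃ x : L, AS (α + x + a) ∧ (x ≠ 0 → AS (x + a + b / x ^ 2)) ∧ (x = 0 → IsSquare b)

/-- Local condition on the class of `d` modulo squares. -/
def LF {L : Type} [Field L] (a b d : L) : Prop :=
  IsSquare d ∨ IsSquare (d * b) ∨ ∃ X : L, X ≠ 0 ∧ IsSquare (X * d) ∧ AS (X + b / X + a)

section nat

variable {K Ω Ω' : Type} [Field K] [Field Ω] [Field Ω'] [Algebra K Ω] [Algebra K Ω']
  [CharP Ω 2] [CharP Ω' 2] {a b : K}

theorem std_bc (hb : b ≠ 0) :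
    Std ((cc a b).baseChange Ω).toAffine (algebraMap K Ω a) (algebraMap K Ω b) := by
  refine ⟨?_, ?_, ?_, ?_, ?_, ?_⟩
  · simp [cc, WeierstrassCurve.baseChange, WeierstrassCurve.map]
  · rfl
  · simp [cc, WeierstrassCurve.baseChange, WeierstrassCurve.map]
  · simp [cc, WeierstrassCurve.baseChange, WeierstrassCurve.map]
  · rfl
  · rwa [Ne, map_eq_zero]

theorem std_bc2 (hb : b ≠ 0) :
    Std ((cc (a ^ 2) (b ^ 2)).baseChange Ω).toAffine (algebraMap K Ω a ^ 2)
      (algebraMap K Ω b ^ 2) := by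
  rw [← map_pow, ← map_pow]
  exact std_bc (pow_ne_zero 2 hb)

/-- The Frobenius on the points over an extension. -/
noncomputable def Fr (a b : K) (Ω : Type) [Field Ω] [Algebra K Ω] (P : Pt (cc a b) Ω) :
    Pt (cc (a ^ 2) (b ^ 2)) Ω :=
  fr ((cc a b).baseChange Ω).toAffine ((cc (a ^ 2) (b ^ 2)).baseChange Ω).toAffine P

/-- The point `(0, b)` over an extension. -/
noncomputable def TT (a b : K) (Ω : Type) [Field Ω] [Algebra K Ω] : Pt (cc (a ^ 2) (b ^ 2)) Ω :=
  tt ((cc (a ^ 2) (b ^ 2)).baseChange Ω).toAffine (algebraMap K Ω b)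

/-- The abscissa modulo squares. -/
noncomputable def XX (a b : K) {Ω : Type} [Field Ω] [Algebra K Ω]
    (P : Pt (cc (a ^ 2) (b ^ 2)) Ω) : Ω :=
  xx (W2 := ((cc (a ^ 2) (b ^ 2)).baseChange Ω).toAffine) (algebraMap K Ω b) P

theorem Fr_act (hb : b ≠ 0) (φ : Ω →ₐ[K] Ω') (P : Pt (cc a b) Ω) :
    act (cc (a ^ 2) (b ^ 2)) φ (Fr a b Ω P) = Fr a b Ω' (act (cc a b) φ P) := by
  rcases P with _ | ⟨x, y, hxy⟩
  · rfl
  · obtain ⟨h, hh⟩ := act_some (cc a b) φ hxy
    rw [hh]
    unfold Fr
    rw [fr_some (std_bc hb) (std_bc2 hb), fr_some (std_bc hb) (std_bc2 hb)]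
    obtain ⟨h', hh'⟩ := act_some (cc (a ^ 2) (b ^ 2)) φ
      ((std_bc (a := a) (Ω := Ω) hb).sq_eq (std_bc2 hb) hxy)
    rw [hh', Point.some.injEq, map_pow, map_pow]
    exact ⟨rfl, rfl⟩

theorem TT_act (hb : b ≠ 0) (φ : Ω →ₐ[K] Ω') :
    act (cc (a ^ 2) (b ^ 2)) φ (TT a b Ω) = TT a b Ω' := by
  unfold TT
  rw [tt_eq (std_bc2 (a := a) hb), tt_eq (std_bc2 (a := a) hb)]
  obtain ⟨h', hh'⟩ := act_some (cc (a ^ 2) (b ^ 2)) φ (std_bc2 (a := a) (Ω := Ω) hb).tn
  rw [hh', Point.some.injEq, map_zero, φ.commutes]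
  exact ⟨rfl, rfl⟩

omit [CharP Ω 2] [CharP Ω' 2] in
theorem XX_act (φ : Ω →ₐ[K] Ω') (P : Pt (cc (a ^ 2) (b ^ 2)) Ω) :
    XX a b (act (cc (a ^ 2) (b ^ 2)) φ P) = φ (XX a b P) := by
  rcases P with _ | ⟨x, y, hxy⟩
  · exact (map_one φ).symm
  · obtain ⟨h, hh⟩ := act_some (cc (a ^ 2) (b ^ 2)) φ hxy
    rw [hh]
    simp only [XX, xx, map_eq_zero]
    split_ifs
    · exact (φ.commutes b).symm
    · rfl

end nat

section loc

variable {K L Ω' : Type} [Field K] [Field L] [Field Ω'] [Algebra K L] [Algebra L Ω'] [Algebra K Ω']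
  [IsScalarTower K L Ω'] [IsGalois L Ω'] [CharP Ω' 2] {a b : K}

omit [CharP Ω' 2] in
theorem fixed_el {z : Ω'} (h : ∀ τ : Ω' ≃ₐ[L] Ω', τ z = z) : ∃ u : L, algebraMap L Ω' u = z := by
  have : z ∈ Set.range (algebraMap L Ω') := by
    rw [InfiniteGalois.mem_range_algebraMap_iff_fixed]
    exact h
  exact this

/-- Squares of a separable extension. -/
theorem sq_down {u : L} (h : IsSquare (algebraMap L Ω' u)) : IsSquare u := by
  obtain ⟨s, hs⟩ := h
  obtain ⟨w, hw⟩ := fixed_el (L := L) (z := s) (fun τ => by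
    apply sq_inj2
    rw [← map_pow, sq, ← hs, τ.commutes])
  refine ⟨w, (algebraMap L Ω').injective ?_⟩
  rw [map_mul, hw, hs]

omit [CharP Ω' 2] in
theorem AS_down {z : Ω'} {β : L} (hz : z ^ 2 + z = algebraMap L Ω' β)
    (h : ∀ τ : Ω' ≃ₐ[L] Ω', τ z = z) : AS β := by
  obtain ⟨u, hu⟩ := fixed_el h
  refine ⟨u, (algebraMap L Ω').injective ?_⟩
  rw [map_add, map_pow, hu, hz]

theorem lam_eq {a b X Y : Ω'} (hX : X ≠ 0)
    (e : Y ^ 2 + X * Y = X ^ 3 + a ^ 2 * X ^ 2 + b ^ 2) :
    (a + (Y + b) / X) ^ 2 + (a + (Y + b) / X) = X + b / X + a := by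
  have c2 : (2 : Ω') = 0 := CharTwo.two_eq_zero
  field_simp
  grind

/-- The local condition on `α`. -/
theorem loc_V (hb : b ≠ 0) {S : Pt (cc (a ^ 2) (b ^ 2)) Ω'} {z : Ω'} {α : L}
    (hz : z ^ 2 + z = algebraMap L Ω' α)
    (h : ∀ τ : Ω' ≃ₐ[L] Ω', (act _ (rs K τ) S = S ∧ τ z = z) ∨
      (act _ (rs K τ) S = S + TT a b Ω' ∧ τ z = z + 1)) :
    LV (algebraMap K L a) (algebraMap K L b) α := by
  have c2 : (2 : Ω') = 0 := CharTwo.two_eq_zero
  have hT0 : TT a b Ω' ≠ 0 := tt_ne (std_bc2 hb)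
  have hTT : TT a b Ω' + TT a b Ω' = 0 := tt_two (std_bc2 hb)
  have hB : algebraMap K Ω' b ≠ 0 := by rwa [Ne, map_eq_zero]
  rcases S with _ | ⟨X, Y, hXY⟩
  · left
    apply AS_down hz
    intro τ
    rcases h τ with ⟨-, h2⟩ | ⟨h1, -⟩
    · exact h2
    · exfalso
      rw [act_zero, ← Point.zero_def, zero_add] at h1
      exact hT0 h1.symm
  · by_cases hX : X = 0
    · left
      apply AS_down hz
      intro τ
      rcases h τ with ⟨-, h2⟩ | ⟨h1, -⟩
      · exact h2
      · exfalso
        subst hX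
        have e1 : Point.some 0 Y hXY = TT a b Ω' := eq_tt (std_bc2 hb) hXY
        rw [e1, TT_act hb, hTT] at h1
        exact hT0 h1
    · right
      have hT : ∀ τ : Ω' ≃ₐ[L] Ω', (τ X = X ∧ τ Y = Y ∧ τ z = z) ∨
          (τ X = algebraMap K Ω' b / X ∧ τ Y = (Y + algebraMap K Ω' b) / X *
            (algebraMap K Ω' b / X) + algebraMap K Ω' b / X + algebraMap K Ω' b ∧
            τ z = z + 1) := by
        intro τ
        obtain ⟨h', hh'⟩ := act_some (cc (a ^ 2) (b ^ 2)) (rs K τ) hXY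
        rcases h τ with ⟨h1, h2⟩ | ⟨h1, h2⟩
        · left
          rw [hh', Point.some.injEq] at h1
          exact ⟨h1.1, h1.2, h2⟩
        · right
          obtain ⟨h'', e⟩ := add_tt (std_bc2 (a := a) hb) hXY hX
          have h3 : Point.some X Y hXY + TT a b Ω' = _ := e
          rw [h3, hh', Point.some.injEq] at h1
          exact ⟨h1.1, h1.2, h2⟩
      have heq := (std_bc2 (a := a) (Ω := Ω') hb).eq_of hXY
      have hlam := lam_eq hX heq
      have hτa : ∀ τ : Ω' ≃ₐ[L] Ω', τ (algebraMap K Ω' a) = algebraMap K Ω' a := fun τ => by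
        rw [IsScalarTower.algebraMap_apply K L Ω', τ.commutes]
      have hτb : ∀ τ : Ω' ≃ₐ[L] Ω', τ (algebraMap K Ω' b) = algebraMap K Ω' b := fun τ => by
        rw [IsScalarTower.algebraMap_apply K L Ω', τ.commutes]
      obtain ⟨x, hx⟩ := fixed_el (L := L) (z := X + algebraMap K Ω' b / X) (fun τ => by
        rw [map_add, map_div₀, hτb]
        rcases hT τ with ⟨h1, -, -⟩ | ⟨h1, -, -⟩
        · rw [h1]
        · rw [h1, div_div_cancel₀ hB]; ring)
      have hlt : ∀ τ : Ω' ≃ₐ[L] Ω', (τ X = X ∧ τ (algebraMap K Ω' a + (Y + algebraMap K Ω' b) / X) =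
          algebraMap K Ω' a + (Y + algebraMap K Ω' b) / X ∧ τ z = z) ∨
          (τ X = algebraMap K Ω' b / X ∧ τ (algebraMap K Ω' a + (Y + algebraMap K Ω' b) / X) =
          algebraMap K Ω' a + (Y + algebraMap K Ω' b) / X + 1 ∧ τ z = z + 1) := by
        intro τ
        rcases hT τ with ⟨h1, h2, h3⟩ | ⟨h1, h2, h3⟩
        · left
          refine ⟨h1, ?_, h3⟩
          rw [map_add, map_div₀, map_add, hτb, hτa, h1, h2]
        · right
          refine ⟨h1, ?_, h3⟩
          rw [map_add, map_div₀, map_add, hτb, hτa, h1, h2]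
          field_simp
          grind
      set l := algebraMap K Ω' a + (Y + algebraMap K Ω' b) / X with hl
      have hxa : algebraMap L Ω' (algebraMap K L a) = algebraMap K Ω' a :=
        (IsScalarTower.algebraMap_apply K L Ω' a).symm
      have hxb : algebraMap L Ω' (algebraMap K L b) = algebraMap K Ω' b :=
        (IsScalarTower.algebraMap_apply K L Ω' b).symm
      refine ⟨x, ?_, ?_, ?_⟩
      · apply AS_down (z := z + l)
        · rw [map_add, map_add, hx, hxa, ← hz]
          linear_combination hlam + z * l * c2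
        · intro τ
          rw [map_add]
          rcases hlt τ with ⟨-, h2, h3⟩ | ⟨-, h2, h3⟩
          · rw [h2, h3]
          · rw [h2, h3]
            linear_combination c2
      · intro hx0
        have hx0' : algebraMap L Ω' x ≠ 0 := by rwa [Ne, map_eq_zero]
        have hXX : algebraMap L Ω' x * X = X ^ 2 + algebraMap K Ω' b := by
          rw [hx]; field_simp
        apply AS_down (z := X / algebraMap L Ω' x + l)
        · rw [map_add, map_add, map_div₀, map_pow, hxa, hxb]
          have e1 : (X / algebraMap L Ω' x) ^ 2 + X / algebraMap L Ω' x =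
              algebraMap K Ω' b / algebraMap L Ω' x ^ 2 := by
            field_simp
            linear_combination hXX + X ^ 2 * c2
          rw [hx] at e1 ⊢
          linear_combination hlam + e1 + (X / (X + algebraMap K Ω' b / X)) * l * c2
        · intro τ
          rw [map_add, map_div₀, τ.commutes]
          rcases hlt τ with ⟨h1, h2, -⟩ | ⟨h1, h2, -⟩
          · rw [h1, h2]
          · rw [h1, h2]
            have e2 : algebraMap K Ω' b / X / algebraMap L Ω' x =
                X / algebraMap L Ω' x + 1 := by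
              field_simp
              linear_combination -hXX + (-X ^ 2) * c2
            rw [e2]
            linear_combination c2
      · intro hx0
        subst hx0
        rw [map_zero] at hx
        have hXX : X ^ 2 = algebraMap K Ω' b := by
          have : X * (X + algebraMap K Ω' b / X) = 0 := by rw [← hx, mul_zero]
          field_simp at this
          linear_combination this - algebraMap K Ω' b * c2
        apply sq_down (Ω' := Ω')
        exact ⟨X, by rw [hxb, ← hXX]; ring⟩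

/-- The local condition on `d`. -/
theorem loc_F (hb : b ≠ 0) {S : Pt (cc (a ^ 2) (b ^ 2)) Ω'} {d : L}
    (hd : IsSquare (XX a b S * algebraMap L Ω' d))
    (h : ∀ τ : Ω' ≃ₐ[L] Ω', act _ (rs K τ) S = S) :
    LF (algebraMap K L a) (algebraMap K L b) d := by
  have c2 : (2 : Ω') = 0 := CharTwo.two_eq_zero
  have hxa : algebraMap L Ω' (algebraMap K L a) = algebraMap K Ω' a :=
    (IsScalarTower.algebraMap_apply K L Ω' a).symm
  have hxb : algebraMap L Ω' (algebraMap K L b) = algebraMap K Ω' b :=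
    (IsScalarTower.algebraMap_apply K L Ω' b).symm
  rcases S with _ | ⟨X, Y, hXY⟩
  · left
    have e1 : XX a b (Point.zero : Pt (cc (a ^ 2) (b ^ 2)) Ω') = 1 := rfl
    rw [e1, one_mul] at hd
    exact sq_down hd
  · by_cases hX : X = 0
    · right; left
      subst hX
      have e1 : XX a b (Point.some 0 Y hXY : Pt (cc (a ^ 2) (b ^ 2)) Ω') = algebraMap K Ω' b := by
        simp [XX, xx]
      rw [e1] at hd
      apply sq_down (Ω' := Ω')
      rw [map_mul, hxb, mul_comm]
      exact hd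
    · right; right
      have e1 : XX a b (Point.some X Y hXY : Pt (cc (a ^ 2) (b ^ 2)) Ω') = X := by
        simp [XX, xx, hX]
      rw [e1] at hd
      have hT : ∀ τ : Ω' ≃ₐ[L] Ω', τ X = X ∧ τ Y = Y := by
        intro τ
        obtain ⟨h', hh'⟩ := act_some (cc (a ^ 2) (b ^ 2)) (rs K τ) hXY
        have h1 := h τ
        rw [hh', Point.some.injEq] at h1
        exact h1
      obtain ⟨x, hx⟩ := fixed_el (L := L) (fun τ => (hT τ).1)
      obtain ⟨y, hy⟩ := fixed_el (L := L) (fun τ => (hT τ).2)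
      have hx0 : x ≠ 0 := by
        rintro rfl
        rw [map_zero] at hx
        exact hX hx.symm
      refine ⟨x, hx0, ?_, ?_⟩
      · apply sq_down (Ω' := Ω')
        rw [map_mul, hx]
        exact hd
      · have heq := (std_bc2 (a := a) (Ω := Ω') hb).eq_of hXY
        have hlam := lam_eq hX heq
        refine ⟨algebraMap K L a + (y + algebraMap K L b) / x, (algebraMap L Ω').injective ?_⟩
        rw [map_add, map_add, map_add, map_pow, map_add, map_div₀, map_div₀, map_add, hxa, hxb, hx,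
          hy]
        exact hlam.symm

end loc

end Pool.Agent.H467.CT
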