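import Pool.Agent.H467.CT.Spec

/-!
# Descent in characteristic two: residues, statements of the parts

Project CT (helper467).
-/

set_option autoImplicit false
set_option linter.all false

open Polynomial IsDedekindDomain WeierstrassCurve WeierstrassCurve.Affine
open Pool.Agent.TH115.GD
open scoped Classical

namespace Pool.Agent.H467.CT

/-- The valuation of `K = k(t)` at the place `t = ∞`. -/
noncomputable def vinf (k : Type) {K : Type} [Field k] [Field K] [Algebra k[X] K]
    [IsFractionRing k[X] K] (f : K) : WithZero (Multiplicative ℤ) :=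
  (pl (0 : k)).valuation (AtInf K) (f : AtInf K)

/-- Residues: `r v f` is the trace to `k` of the residue of `f dt` at the maximal ideal `v` of
`k[t]`, and `ri f` is minus the residue of `f dt` at infinity (characteristic two). -/
structure Res (k K : Type) [Field k] [Finite k] [CharP k 2] [Field K] [Algebra k[X] K]
    [IsFractionRing k[X] K] where
  r : HeightOneSpectrum k[X] → K → k
  ri : K → k
  r_add : ∀ v f g, r v (f + g) = r v f + r v g
  ri_add : ∀ f g, ri (f + g) = ri f + ri g
  r_smul : ∀ v (c : k) f, r v (algebraMap k[X] K (C c) * f) = c * r v f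
  ri_smul : ∀ (c : k) f, ri (algebraMap k[X] K (C c) * f) = c * ri f
  /-- No residue if `f` is integral at `v`. -/
  r_int : ∀ v f, v.valuation K f ≤ 1 → r v f = 0
  /-- No residue at infinity if `f = O(1 / t ^ 2)`. -/
  ri_int : ∀ f, vinf k (f * algebraMap k[X] K X) < 1 → ri f = 0
  r_sq : ∀ v h, r v (h ^ 2) = 0
  ri_sq : ∀ h, ri (h ^ 2) = 0
  r_sqt : ∀ v h, r v (h ^ 2 * algebraMap k[X] K X) = r v h ^ 2
  ri_sqt : ∀ h, ri (h ^ 2 * algebraMap k[X] K X) = ri h ^ 2
  /-- The residue theorem. -/
  sum : ∀ (f : K) (s : Finset (HeightOneSpectrum k[X])), (∀ v, v ∉ s → v.valuation K f ≤ 1) →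
    ri f = ∑ v ∈ s, r v f
  /-- The residue of `g / P`. -/
  simple : ∀ (v : HeightOneSpectrum k[X]) (P g : k[X]), P.Monic → Irreducible P →
    v.asIdeal = Ideal.span {P} →
    r v (algebraMap k[X] K g / algebraMap k[X] K P) = (g %ₘ P).coeff (P.natDegree - 1)

/-- Existence of residues. -/
def S_RES : Prop := ∀ (k K : Type) [Field k] [Finite k] [CharP k 2] [Field K] [Algebra k[X] K]
  [IsFractionRing k[X] K], Nonempty (Res k K)

/-- Euler's formula for the trace of `a` modulo `P`, and the additive form of Hilbert's theorem 90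
for finite fields. -/
def S_TRC : Prop := ∀ (k : Type) [Field k] [Finite k] [CharP k 2] (P a : k[X]), P.Monic →
  Irreducible P → AS (((a * derivative P) %ₘ P).coeff (P.natDegree - 1)) →
  ∃ w : k[X], P ∣ w ^ 2 + w + a

end Pool.Agent.H467.CT
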