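import Pool.Agent.H467.CT.Cmp
import Pool.Agent.H467.CT.Spec2

/-!
# Descent in characteristic two: residues and the local conditions

Project CT (helper467).
-/

set_option autoImplicit false
set_option linter.all false

open Polynomial IsDedekindDomain WithZero
open Pool.Agent.TH115.GD
open Pool.Agent.N352.PP (vv em vv_coe dense_F dense_R vv_em_lt vv_em_le vv_em_P vv_em_one vv_em)
open scoped Classical

namespace Pool.Agent.H467.CT

/-- The residue of `a dlog d` if `a = z ^ 2 + z + d s ^ 2` in the completion. -/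
theorem norm_abs {k K L : Type} [Field k] [Field K] [Field L] [CharP K 2] [CharP L 2]
    (r : K → k) (radd : ∀ x y, r (x + y) = r x + r y) (rsq : ∀ h, r (h ^ 2) = 0) (t : K)
    (rsqt : ∀ h, r (h ^ 2 * t) = r h ^ 2) (w : Valuation L (WithZero (Multiplicative ℤ)))
    (j : K →+* L) (dense : ∀ (x : L) (g : K), g ≠ 0 → ∃ f : K, w (x - j f) < w (j g))
    (c0 : K) (hc0 : c0 ≠ 0) (hint : ∀ x, w (j x) ≤ w (j c0) → r x = 0)
    {d u v : K} (hd : d = u ^ 2 + t * v ^ 2) (hd0 : d ≠ 0) {a : K}
    (h : ∃ s : L, AS (j a + j d * s ^ 2)) : AS (r (a * v ^ 2 / d)) := by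
  have c2 : (2 : K) = 0 := CharTwo.two_eq_zero
  have c2L : (2 : L) = 0 := CharTwo.two_eq_zero
  have r0 : r 0 = 0 := by
    have := rsq 0
    rwa [zero_pow two_ne_zero] at this
  by_cases hv : v = 0
  · rw [hv]
    have : a * 0 ^ 2 / d = 0 := by simp
    rw [this, r0]
    exact ⟨0, by ring⟩
  obtain ⟨s, z, hz⟩ := h
  -- the size of the errors
  set c : K := c0 * d / v ^ 2 with hc
  have hcne : c ≠ 0 := div_ne_zero (mul_ne_zero hc0 hd0) (pow_ne_zero 2 hv)
  have small : ∀ e : K, e ≠ 0 → ∃ g : K, g ≠ 0 ∧ w (j g) ≤ 1 ∧ w (j g) ≤ w (j e) := by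
    intro e he
    by_cases h1 : w (j e) ≤ 1
    · exact ⟨e, he, h1, le_rfl⟩
    · refine ⟨1, one_ne_zero, by simp, ?_⟩
      rw [map_one, map_one]
      exact (not_le.1 h1).le
  obtain ⟨g1, hg1, hg11, hg1c⟩ := small (c / d) (div_ne_zero hcne hd0)
  obtain ⟨g2, hg2, hg21, hg2c⟩ := small c hcne
  obtain ⟨s0, hs0⟩ := dense s g1 hg1
  obtain ⟨z0, hz0⟩ := dense z g2 hg2
  set μ : K := a + d * s0 ^ 2 + z0 ^ 2 + z0 with hμ
  have hμw : w (j μ) ≤ w (j c) := by
    have e : j μ = j d * (s - j s0) ^ 2 + ((z - j z0) ^ 2 + (z - j z0)) := by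
      rw [hμ, map_add, map_add, map_add, map_mul, map_pow, map_pow]
      linear_combination hz + (j d * s * j s0 - j d * s ^ 2 + z * j z0 + j z0) * c2L
    rw [e]
    refine (Valuation.map_add _ _ _).trans (max_le ?_ ((Valuation.map_add _ _ _).trans
      (max_le ?_ (hz0.le.trans hg2c))))
    · rw [map_mul, map_pow]
      have h1 : w (s - j s0) ^ 2 ≤ w (j (c / d)) := by
        calc w (s - j s0) ^ 2 ≤ w (s - j s0) := by
              rw [sq]
              calc _ ≤ 1 * w (s - j s0) := mul_le_mul_left (hs0.le.trans hg11) _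
                _ = _ := one_mul _
          _ ≤ _ := hs0.le.trans hg1c
      calc _ ≤ w (j d) * w (j (c / d)) := mul_le_mul_right h1 _
        _ = w (j c) := by rw [← map_mul, ← map_mul, mul_div_cancel₀ _ hd0]
    · rw [map_pow, sq]
      calc _ ≤ 1 * w (z - j z0) := mul_le_mul_left (hz0.le.trans hg21) _
        _ = w (z - j z0) := one_mul _
        _ ≤ _ := hz0.le.trans hg2c
  have hμr : r (μ * v ^ 2 / d) = 0 := by
    apply hint
    have e : c0 = c * v ^ 2 / d := by rw [hc]; field_simp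
    rw [e, mul_div_assoc, mul_div_assoc, map_mul, map_mul, map_mul, map_mul]
    exact mul_le_mul_left hμw _
  have e : a * v ^ 2 / d = μ * v ^ 2 / d + ((s0 * v) ^ 2 + (((z0 * v * u / d) ^ 2 +
      (z0 * v ^ 2 / d) ^ 2 * t) + z0 * v ^ 2 / d)) := by
    have e1 : (z0 * v * u / d) ^ 2 + (z0 * v ^ 2 / d) ^ 2 * t = z0 ^ 2 * v ^ 2 / d := by
      have : (z0 * v * u / d) ^ 2 + (z0 * v ^ 2 / d) ^ 2 * t =
          z0 ^ 2 * v ^ 2 * (u ^ 2 + t * v ^ 2) / d ^ 2 := by
        field_simp
      rw [this, ← hd]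
      field_simp
    rw [e1, hμ]
    field_simp
    grind
  rw [e, radd, hμr, radd, rsq, radd, radd, rsq, rsqt, zero_add, zero_add, zero_add]
  exact ⟨_, rfl⟩

section poly

variable {k : Type} [Field k] [Finite k] [CharP k 2]

/-- Polynomials are of the form `u ^ 2 + X w ^ 2`. -/
theorem poly_dec (d : k[X]) : ∃ u w : k[X], d = u ^ 2 + X * w ^ 2 ∧ derivative d = w ^ 2 := by
  have c2 : (2 : k[X]) = 0 := CharTwo.two_eq_zero
  induction d using Polynomial.induction_on' with
  | add p q hp hq =>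
    obtain ⟨u, w, h1, h2⟩ := hp
    obtain ⟨u', w', h3, h4⟩ := hq
    refine ⟨u + u', w + w', ?_, ?_⟩
    · linear_combination h1 + h3 - (u * u' + X * w * w') * c2
    · rw [derivative_add]
      linear_combination h2 + h4 - w * w' * c2
  | monomial n c =>
    obtain ⟨e, he⟩ := Infg.exists_sq c
    rcases Nat.even_or_odd' n with ⟨m, rfl | rfl⟩
    · refine ⟨monomial m e, 0, ?_, ?_⟩
      · rw [← C_mul_X_pow_eq_monomial, ← C_mul_X_pow_eq_monomial, he, C_pow]
        ring
      · rw [derivative_monomial]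
        have : ((2 * m : ℕ) : k) = 0 := by
          push_cast
          rw [CharTwo.two_eq_zero, zero_mul]
        rw [this]
        simp
    · refine ⟨0, monomial m e, ?_, ?_⟩
      · rw [← C_mul_X_pow_eq_monomial, ← C_mul_X_pow_eq_monomial, he, C_pow]
        ring
      · rw [derivative_monomial]
        have : ((2 * m + 1 : ℕ) : k) = 1 := by
          push_cast
          rw [CharTwo.two_eq_zero, zero_mul, zero_add]
        rw [this, ← C_mul_X_pow_eq_monomial, ← C_mul_X_pow_eq_monomial, he, C_mul, C_pow]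
        simp
        ring

variable {K : Type} [Field K] [Algebra k[X] K] [IsFractionRing k[X] K]

/-- The logarithmic derivative. -/
noncomputable def dlg (K : Type) [Field K] [Algebra k[X] K] (d : k[X]) : K :=
  algebraMap k[X] K (derivative d) / algebraMap k[X] K d

omit [Finite k] [CharP k 2] in
theorem dlg_mul {d e : k[X]} (hd : d ≠ 0) (he : e ≠ 0) : dlg K (d * e) = dlg K d + dlg K e := by
  have h1 : algebraMap k[X] K d ≠ 0 := by
    rwa [Ne, map_eq_zero_iff _ (IsFractionRing.injective k[X] K)]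
  have h2 : algebraMap k[X] K e ≠ 0 := by
    rwa [Ne, map_eq_zero_iff _ (IsFractionRing.injective k[X] K)]
  unfold dlg
  rw [derivative_mul, map_add, map_mul, map_mul, map_mul]
  field_simp

omit [Finite k] in
theorem dlg_sq (c : k[X]) : dlg K (c ^ 2) = 0 := by
  unfold dlg
  have : derivative (c ^ 2) = 0 := by
    rw [sq, derivative_mul]
    have c2 : (2 : k[X]) = 0 := CharTwo.two_eq_zero
    linear_combination derivative c * c * c2
  rw [this, map_zero, zero_div]

/-- The residue of `a dlog d` at a maximal ideal. -/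
theorem norm_fin (ρ : Res k K) (v : HeightOneSpectrum k[X]) {a : K} {d : k[X]} (hd : d ≠ 0)
    (h : ∃ s : v.adicCompletion K, AS (algebraMap K (v.adicCompletion K) a + em K v d * s ^ 2)) :
    AS (ρ.r v (a * dlg K d)) := by
  haveI : CharP K 2 := charK k
  obtain ⟨u, w, h1, h2⟩ := poly_dec d
  have h3 := norm_abs (ρ.r v) (ρ.r_add v) (ρ.r_sq v) (algebraMap k[X] K X)
    (ρ.r_sqt v) (vv v) (algebraMap K (v.adicCompletion K))
    (fun x g hg => by
      obtain ⟨f, hf⟩ := dense_F v x hg
      exact ⟨f, by rw [vv_coe]; exact hf⟩) 1 one_ne_zero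
    (fun x hx => ρ.r_int v x (by rwa [map_one, map_one, vv_coe] at hx))
    (d := algebraMap k[X] K d) (u := algebraMap k[X] K u) (v := algebraMap k[X] K w)
    (by rw [h1, map_add, map_mul, map_pow, map_pow])
    (by rwa [Ne, map_eq_zero_iff _ (IsFractionRing.injective k[X] K)]) (a := a) h
  rw [dlg, h2, map_pow, ← mul_div_assoc]
  exact h3

omit [Finite k] [CharP k 2] in
theorem vinf_eq (f : K) : vinf k f = Infg.w k K (Infg.jj k K f) := (vv_coe _ _).symm

/-- The residue of `a dlog d` at infinity. -/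
theorem norm_inf (ρ : Res k K) {a : K} {d : k[X]} (hd : d ≠ 0)
    (h : ∃ s : Infg.LL k K, AS (Infg.jj k K a + Infg.s k K d * s ^ 2)) :
    AS (ρ.ri (a * dlg K d)) := by
  haveI : CharP K 2 := charK k
  haveI : CharP (AtInf K) 2 := charK k (K := K)
  obtain ⟨u, w, h1, h2⟩ := poly_dec d
  have hX : algebraMap k[X] K X ≠ 0 := by simp
  have h3 := norm_abs ρ.ri ρ.ri_add ρ.ri_sq (algebraMap k[X] K X)
    ρ.ri_sqt (Infg.w k K) (Infg.jj k K)
    (fun x g hg => by
      obtain ⟨f, hf⟩ := dense_F (F := AtInf K) (pl (0 : k)) x (g := g) hg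
      refine ⟨f, ?_⟩
      rw [← vinf_eq]
      exact hf) ((algebraMap k[X] K X)⁻¹ ^ 2) (pow_ne_zero 2 (inv_ne_zero hX))
    (fun x hx => ρ.ri_int x (by
      have e1 : Infg.w k K (Infg.jj k K (algebraMap k[X] K X)) = exp (1 : ℤ) := Infg.w_s_X k K
      rw [map_pow, map_pow, map_inv₀, map_inv₀, e1] at hx
      rw [vinf_eq, map_mul, map_mul, e1]
      calc _ ≤ (exp (1 : ℤ))⁻¹ ^ 2 * exp (1 : ℤ) := mul_le_mul_left hx _
        _ < 1 := by
          rw [← exp_neg, ← exp_nsmul, ← exp_add, ← exp_zero, exp_lt_exp]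
          norm_num))
    (d := algebraMap k[X] K d) (u := algebraMap k[X] K u) (v := algebraMap k[X] K w)
    (by rw [h1, map_add, map_mul, map_pow, map_pow])
    (by rwa [Ne, map_eq_zero_iff _ (IsFractionRing.injective k[X] K)]) (a := a) h
  rw [dlg, h2, map_pow, ← mul_div_assoc]
  exact h3

/-- The residue of `a dP / P` at `P` and at infinity, for polynomials `a`. -/
theorem res_P (ρ : Res k K) {P : k[X]} (hm : P.Monic) (hP : Irreducible P) (a : k[X]) :
    ρ.ri (algebraMap k[X] K a * dlg K P) =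
      ((a * derivative P) %ₘ P).coeff (P.natDegree - 1) := by
  have h1 : algebraMap k[X] K a * dlg K P =
      algebraMap k[X] K (a * derivative P) / algebraMap k[X] K P := by
    rw [dlg, map_mul, mul_div_assoc]
  rw [h1, ρ.sum _ {Infg.pr P hP}, Finset.sum_singleton, ρ.simple _ P _ hm hP rfl]
  intro v hv
  rw [Finset.mem_singleton] at hv
  have hPv : P ∉ v.asIdeal := by
    intro h
    apply hv
    apply HeightOneSpectrum.ext
    have h2 : Ideal.span {P} ≤ v.asIdeal := by
      rw [Ideal.span_singleton_le_iff_mem]; exact h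
    exact ((Infg.pr P hP).isMaximal.eq_of_le v.isPrime.ne_top h2).symm
  have h2 : v.valuation K (algebraMap k[X] K P) = 1 := by
    rw [HeightOneSpectrum.valuation_of_algebraMap]
    apply le_antisymm (v.intValuation_le_one P)
    rw [← not_lt, HeightOneSpectrum.intValuation_lt_one_iff_mem]
    exact hPv
  rw [map_div₀, h2, div_one]
  exact v.valuation_le_one _

/-- If `a = z ^ 2 + z + P s ^ 2` at infinity then `a` is split modulo `P`. -/
theorem resp (ρ : Res k K) (htrc : S_TRC) {P : k[X]} (hm : P.Monic) (hP : Irreducible P) {a : k[X]}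
    (h : ∃ s : Infg.LL k K, AS (Infg.s k K a + Infg.s k K P * s ^ 2)) :
    ∃ w : k[X], P ∣ w ^ 2 + w + a := by
  apply htrc k P a hm hP
  rw [← res_P ρ hm hP a]
  exact norm_inf ρ hP.ne_zero h

end poly

end Pool.Agent.H467.CT
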