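import Pool.Agent.H467.CT.Coh
import Pool.Agent.H467.CT.Nrm

/-!
# Descent in characteristic two: the main theorem of the descent

Project CT (helper467).
-/

set_option autoImplicit false
set_option linter.all false

open Polynomial IsDedekindDomain WeierstrassCurve WeierstrassCurve.Affine WithZero
open Pool.Agent.TH115.GD
open Pool.Agent.N352.PP (vv em vv_coe dense_F dense_R vv_em_lt vv_em_le vv_em_P vv_em_one vv_em)
open scoped Classical

namespace Pool.Agent.H467.CT

section loctriv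

variable {K L Ω' : Type} [Field K] [Field L] [Field Ω'] [Algebra K L] [Algebra L Ω'] [Algebra K Ω']
  [IsScalarTower K L Ω'] (W : WeierstrassCurve K)

theorem locTriv_zero [IsSepClosed Ω'] : LocTriv W L Ω' (fun _ : Sep K ≃ₐ[K] Sep K => 0) := by
  refine ⟨IsSepClosed.lift, 0, fun τ σ _ => ?_⟩
  rw [map_zero, map_zero, sub_zero]

theorem LocTriv.nsmul {f : (Sep K ≃ₐ[K] Sep K) → Pt W (Sep K)} (h : LocTriv W L Ω' f) (m : ℕ) :
    LocTriv W L Ω' (fun σ => m • f σ) := by
  obtain ⟨ι, P, hP⟩ := h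
  refine ⟨ι, m • P, fun τ σ h => ?_⟩
  rw [map_nsmul, hP τ σ h, map_nsmul, smul_sub]

end loctriv

section tr

variable {K : Type} [Field K]

theorem tr {L : Type} [Field L] (a a' : Algebra K L) (h : a' = a)
    (i : @IsScalarTower K K (Sep L) Algebra.toSMul
      (@Algebra.toSMul K (Sep L) _ _ (@sepAlgebra L _ K _ a))
      (@Algebra.toSMul K (Sep L) _ _ (@sepAlgebra L _ K _ a')))
    (i' : @IsScalarTower K K (Sep L) Algebra.toSMul
      (@Algebra.toSMul K (Sep L) _ _ (@sepAlgebra L _ K _ a))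
      (@Algebra.toSMul K (Sep L) _ _ (@sepAlgebra L _ K _ a)))
    {W : WeierstrassCurve K}
    {f : (Sep K ≃ₐ[K] Sep K) → Pt W (Sep K)}
    (H : @LocTriv K K (Sep K) _ _ _ _ _ _ _ W L (Sep L) _ _ a' (@sepAlgebra L _ L _ _)
      (@sepAlgebra L _ K _ a') (@sepAlgebra L _ K _ a) (@sepTower L _ K _ a') i f) :
    @LocTriv K K (Sep K) _ _ _ _ _ _ _ W L (Sep L) _ _ a (@sepAlgebra L _ L _ _)
      (@sepAlgebra L _ K _ a) (@sepAlgebra L _ K _ a) (@sepTower L _ K _ a) i' f := by
  subst h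
  exact H

end tr

/-- Local triviality at all places. -/
def LTk (k : Type) {K : Type} [Field k] [Field K] [Algebra k[X] K] [IsFractionRing k[X] K]
    (W : WeierstrassCurve K) (f : (Sep K ≃ₐ[K] Sep K) → Pt W (Sep K)) : Prop :=
  (∀ v : HeightOneSpectrum k[X], LocTriv W (Comp k[X] K v) (Sep (Comp k[X] K v)) f) ∧
  LocTriv W (CompInf k K) (Sep (CompInf k K)) f

theorem LTk.of {k K : Type} [Field k] [Field K] [Algebra k[X] K] [IsFractionRing k[X] K]
    {W : WeierstrassCurve K} {f : (Sep K ≃ₐ[K] Sep K) → Pt W (Sep K)}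
    (h : LocallyTrivial k W f) : LTk k W f :=
  ⟨fun v => tr (L := Comp k[X] K v) (compAlgebra k[X] K v) (compAlgebra' k[X] K v K)
    (Algebra.algebra_ext _ _ fun r => rfl) _ _ (h.1 v),
  tr (L := CompInf k K) (compInfAlgebra k K) (compInfAlgebra' k K K)
    (Algebra.algebra_ext _ _ fun r => rfl) _ _ h.2⟩

section main

variable {k K : Type} [Field k] [Finite k] [CharP k 2] [Field K] [CharP K 2] [Algebra k[X] K]
  [IsFractionRing k[X] K] {a b : K}

/-- The local conditions on `α` at all places. -/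
def AllV (k : Type) {K : Type} [Field k] [Field K] [Algebra k[X] K]
    [IsFractionRing k[X] K] (a b α : K) : Prop :=
  (∀ v : HeightOneSpectrum k[X], LV (algebraMap K (Comp k[X] K v) a)
    (algebraMap K (Comp k[X] K v) b) (algebraMap K (Comp k[X] K v) α)) ∧
  LV (algebraMap K (CompInf k K) a) (algebraMap K (CompInf k K) b) (algebraMap K (CompInf k K) α)

/-- The local conditions on `d` at all places. -/
def AllF (k : Type) {K : Type} [Field k] [Field K] [Algebra k[X] K]
    [IsFractionRing k[X] K] (a b d : K) : Prop :=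
  (∀ v : HeightOneSpectrum k[X], LF (algebraMap K (Comp k[X] K v) a)
    (algebraMap K (Comp k[X] K v) b) (algebraMap K (Comp k[X] K v) d)) ∧
  LF (algebraMap K (CompInf k K) a) (algebraMap K (CompInf k K) b) (algebraMap K (CompInf k K) d)

theorem Dat.allV (hb : b ≠ 0) {c : (Sep K ≃ₐ[K] Sep K) → Pt (cc a b) (Sep K)}
    {R : Pt (cc a b) (Sep K)} {S ζ α} (h : Dat a b c R S ζ α)
    (hloc : LTk k (cc a b) c) : AllV k a b α := by
  refine ⟨fun v => ?_, ?_⟩
  · haveI : CharP (Comp k[X] K v) 2 := charComp' v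
    exact h.V hb (hloc.1 v)
  · haveI : CharP (CompInf k K) 2 :=
      charP_of_injective_algebraMap (algebraMap K (CompInf k K)).injective 2
    exact h.V hb hloc.2

theorem allF (hb : b ≠ 0) {c : (Sep K ≃ₐ[K] Sep K) → Pt (cc a b) (Sep K)}
    {S : Pt (cc (a ^ 2) (b ^ 2)) (Sep K)}
    (hS : ∀ σ : Sep K ≃ₐ[K] Sep K, Fr a b (Sep K) (c σ) = act _ (rs K σ) S - S)
    {d : K} {w : Sep K} (hw : w ≠ 0) (hd : XX a b S = w ^ 2 * algebraMap K (Sep K) d)
    (hloc : LTk k (cc a b) c) : AllF k a b d := by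
  refine ⟨fun v => ?_, ?_⟩
  · haveI : CharP (Comp k[X] K v) 2 := charComp' v
    exact F_loc hb hS hw hd (hloc.1 v)
  · haveI : CharP (CompInf k K) 2 :=
      charP_of_injective_algebraMap (algebraMap K (CompInf k K)).injective 2
    exact F_loc hb hS hw hd hloc.2

/-- The second half of the descent. -/
theorem partF (hb : b ≠ 0) {t : K} (ht : Bas t)
    (HF : ∀ d : K, d ≠ 0 → AllF k a b d → IsSquare d ∨ IsSquare (d * b))
    {c : (Sep K ≃ₐ[K] Sep K) → Pt (cc a b) (Sep K)}
    {R : Pt (cc a b) (Sep K)} {S : Pt (cc (a ^ 2) (b ^ 2)) (Sep K)}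
    (hR : S + S = Fr a b (Sep K) R)
    (hS : ∀ σ : Sep K ≃ₐ[K] Sep K, Fr a b (Sep K) (c σ) = act _ (rs K σ) S - S)
    (hloc : LTk k (cc a b) c) :
    ∃ S0 : Pt (cc a b) (Sep K), S0 + S0 = R ∧ ∀ σ, c σ = act (cc a b) (rs K σ) S0 - S0 := by
  obtain ⟨d, w, hd0, hw, hd⟩ := exists_dd hb ht hS
  exact finish hb hR hS hw hd (HF d hd0 (allF hb hS hw hd hloc))

/-- The main theorem of the descent. -/
theorem thmM (hasc : S_ASC) (hb : ¬ IsSquare b) {t : K} (ht : Bas t)
    (HV : ∀ α : K, AllV k a b α → AS α)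
    (HF : ∀ d : K, d ≠ 0 → AllF k a b d → IsSquare d ∨ IsSquare (d * b))
    {c : (Sep K ≃ₐ[K] Sep K) → Pt (cc a b) (Sep K)} {R : Pt (cc a b) (Sep K)}
    (hc : IsCoc (cc a b) c) (hloc : LTk k (cc a b) c)
    (h2 : ∀ σ, c σ + c σ = act (cc a b) (rs K σ) R - R) :
    ∃ S0 : Pt (cc a b) (Sep K), S0 + S0 = R ∧ ∀ σ, c σ = act (cc a b) (rs K σ) S0 - S0 := by
  have hb0 : b ≠ 0 := fun h => hb ⟨0, by rw [h]; ring⟩
  obtain ⟨S, ζ, α, h⟩ := exists_dat hasc hb hc h2
  exact partF hb0 ht HF h.dbl (h.kill (HV α (h.allV hb0 hloc))) hloc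

omit [Finite k] [CharP k 2] [CharP K 2] in
theorem locallyTrivial_zero (W : WeierstrassCurve K) :
    LTk k W (fun _ : Sep K ≃ₐ[K] Sep K => 0) :=
  ⟨fun v => locTriv_zero W, locTriv_zero W⟩

omit [Finite k] [CharP k 2] [CharP K 2] in
theorem LTk.nsmul {W : WeierstrassCurve K} {f : (Sep K ≃ₐ[K] Sep K) → Pt W (Sep K)}
    (h : LTk k W f) (m : ℕ) : LTk k W (fun σ => m • f σ) :=
  ⟨fun v => LocTriv.nsmul W (h.1 v) m, LocTriv.nsmul W h.2 m⟩

omit [Finite k] [CharP k 2] [CharP K 2] [Algebra k[X] K] [IsFractionRing k[X] K] in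
theorem IsCoc.nsmul {W : WeierstrassCurve K} {f : (Sep K ≃ₐ[K] Sep K) → Pt W (Sep K)}
    (h : IsCoc W f) (m : ℕ) : IsCoc W (fun σ => m • f σ) := by
  refine ⟨h.lc.comp _, fun σ τ => ?_⟩
  show m • f (σ * τ) = m • f σ + act W (rs K σ) (m • f τ)
  rw [h.mul, map_nsmul, smul_add]

omit [Finite k] [CharP k 2] [CharP K 2] in
/-- The 2-primary part of the Tate-Shafarevich group. -/
theorem sha_of {W : WeierstrassCurve K}
    (hM : ∀ (c : (Sep K ≃ₐ[K] Sep K) → Pt W (Sep K)) (R : Pt W (Sep K)), IsCoc W c →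
      LTk k W c → (∀ σ, c σ + c σ = act W (rs K σ) R - R) →
      ∃ S0 : Pt W (Sep K), S0 + S0 = R ∧ ∀ σ, c σ = act W (rs K σ) S0 - S0) : ShaTwo k W := by
  intro f hf hloc0 ⟨n, R, hR⟩
  have hloc : LTk k W f := LTk.of hloc0
  clear hloc0
  induction n generalizing R with
  | zero => exact ⟨R, fun σ => by rw [← hR, pow_zero, one_smul]⟩
  | succ n ih =>
    obtain ⟨S0, -, hS0⟩ := hM (fun σ => 2 ^ n • f σ) R (IsCoc.nsmul hf _)
      (LTk.nsmul hloc _) (fun σ => by
        rw [← hR σ, pow_succ, mul_comm, mul_smul, two_smul])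
    exact ih S0 hS0

omit [Finite k] [CharP k 2] [CharP K 2] in
/-- Divisibility by two of the points over `K`. -/
theorem half_of {W : WeierstrassCurve K}
    (hM : ∀ (c : (Sep K ≃ₐ[K] Sep K) → Pt W (Sep K)) (R : Pt W (Sep K)), IsCoc W c →
      LTk k W c → (∀ σ, c σ + c σ = act W (rs K σ) R - R) →
      ∃ S0 : Pt W (Sep K), S0 + S0 = R ∧ ∀ σ, c σ = act W (rs K σ) S0 - S0) (P : Pt W K) :
    ∃ Q : Pt W K, Q + Q = P := by
  obtain ⟨S0, h1, h2⟩ := hM (fun _ => 0) (act W (incl K K (Sep K)) P)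
    ⟨IsLocallyConstant.const _, fun σ τ => by rw [map_zero, add_zero]⟩ (locallyTrivial_zero W)
    (fun σ => by rw [rs_act_incl, sub_self, add_zero])
  obtain ⟨Q, hQ⟩ := fixed_point (K := K) (F := K) W S0 (fun τ => (sub_eq_zero.1 (h2 τ).symm))
  refine ⟨Q, act_inj W (incl K K (Sep K)) ?_⟩
  rw [map_add, hQ, h1]

omit [Finite k] [CharP k 2] [Algebra k[X] K] [IsFractionRing k[X] K] in
/-- There are no points of order two. -/
theorem two_K (hb : ¬ IsSquare b) (P : Pt (cc a b) K) (hP : P + P = 0) : P = 0 := by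
  have hb0 : b ≠ 0 := fun h => hb ⟨0, by rw [h]; ring⟩
  exact no_two (std_bc (a := a) (b := b) (Ω := K) hb0) hb hP

end main

section bas

variable {k : Type} (K : Type) [Field k] [Finite k] [CharP k 2] [Field K] [Algebra k[X] K]
  [IsFractionRing k[X] K]

theorem bas_X : Bas (algebraMap k[X] K X) := by
  haveI : CharP K 2 := charK k
  refine ⟨?_, ?_⟩
  · intro h
    have hv : (pl (0 : k)).asIdeal = Ideal.span {X} := Infg.pl_ideal k
    have h1 : IsSquare (em K (pl (0 : k)) (X * 1 * 1 ^ 2)) := by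
      obtain ⟨s, hs⟩ := h
      refine ⟨algebraMap K _ s, ?_⟩
      rw [← map_mul, ← hs]
      simp [Pool.Agent.N352.PP.em]
    have hX1 : ¬ (X : k[X]) ∣ 1 := fun h => not_isUnit_X (isUnit_of_dvd_one h)
    refine odd_em (K := K) X_ne_zero hv hX1 one_ne_zero (ev_isSq ?_ h1)
    rw [Pool.Agent.N352.PP.em, RingHom.comp_apply, Ne, map_eq_zero,
      map_eq_zero_iff _ (IsFractionRing.injective k[X] K)]
    simp
  · intro x
    obtain ⟨n, m, hm, rfl⟩ := IsFractionRing.div_surjective (A := k[X]) x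
    have hm0 : algebraMap k[X] K m ≠ 0 := by
      rw [Ne, map_eq_zero_iff _ (IsFractionRing.injective k[X] K)]
      exact nonZeroDivisors.ne_zero hm
    obtain ⟨u, w, h, -⟩ := poly_dec (n * m)
    refine ⟨algebraMap k[X] K u / algebraMap k[X] K m, algebraMap k[X] K w / algebraMap k[X] K m,
      ?_⟩
    have h2 : algebraMap k[X] K n * algebraMap k[X] K m =
        algebraMap k[X] K u ^ 2 + algebraMap k[X] K X * algebraMap k[X] K w ^ 2 := by
      rw [← map_mul, h, map_add, map_mul, map_pow, map_pow]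
    field_simp
    exact h2

end bas

section sq

variable {k K : Type} [Field k] [Finite k] [CharP k 2] [Field K] [Algebra k[X] K]
  [IsFractionRing k[X] K]

/-- An element of `K` with even valuations outside a finite set. -/
theorem sq_fin (hsqg : S_SQG) (l : Finset k[X]) (hl : ∀ Q ∈ l, Irreducible Q) : ∀ d : K, d ≠ 0 →
    (∀ v : HeightOneSpectrum k[X], (∀ Q ∈ l, Q ∉ v.asIdeal) → Ev (v.valuation K d)) →
    ∃ s ⊆ l, ∃ y : K, y ≠ 0 ∧ d = algebraMap k[X] K (∏ Q ∈ s, Q) * y ^ 2 := by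
  induction l using Finset.induction_on with
  | empty =>
    intro d hd h
    obtain ⟨y, hy, e | e⟩ := hsqg k K X irreducible_X d hd (fun v _ => h v (by simp))
    · exact ⟨∅, le_rfl, y, hy, by rw [e]; simp⟩
    · exfalso
      have h1 := h (pl (0 : k)) (by simp)
      rw [← vv_coe, e] at h1
      have hv : (pl (0 : k)).asIdeal = Ideal.span {X} := Infg.pl_ideal k
      rw [map_mul, map_mul, map_pow, mul_comm] at h1
      have h2 := Ev.of_mul (ev_sq ((_root_.map_ne_zero _).2 hy)) h1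
      have h3 : vv (pl (0 : k)) (em K (pl (0 : k)) X) = exp (-1 : ℤ) := vv_em_P X_ne_zero hv
      change Ev (vv (pl (0 : k)) (em K (pl (0 : k)) X)) at h2
      rw [h3] at h2
      obtain ⟨n, hn⟩ := h2
      rw [exp_inj] at hn
      omega
  | insert P l hPl ih =>
    intro d hd h
    have hP := hl P (Finset.mem_insert_self _ _)
    have hPK : algebraMap k[X] K P ≠ 0 := by
      rw [Ne, map_eq_zero_iff _ (IsFractionRing.injective k[X] K)]
      exact hP.ne_zero
    have hl' : ∀ Q ∈ l, Irreducible Q := fun Q hQ => hl Q (Finset.mem_insert_of_mem hQ)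
    have hvP : ∀ v : HeightOneSpectrum k[X], P ∈ v.asIdeal → v.valuation K (algebraMap k[X] K P) =
        exp (-1 : ℤ) := by
      intro v hv
      have h2 : v.asIdeal = Ideal.span {P} := by
        have h3 : Ideal.span {P} ≤ v.asIdeal := by
          rw [Ideal.span_singleton_le_iff_mem]; exact hv
        exact ((Infg.pr P hP).isMaximal.eq_of_le v.isPrime.ne_top h3).symm
      rw [← vv_em]
      exact vv_em_P hP.ne_zero h2
    have hvP' : ∀ v : HeightOneSpectrum k[X], P ∉ v.asIdeal → v.valuation K (algebraMap k[X] K P) =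
        1 := by
      intro v hv
      rw [HeightOneSpectrum.valuation_of_algebraMap]
      apply le_antisymm (v.intValuation_le_one P)
      rw [← not_lt, HeightOneSpectrum.intValuation_lt_one_iff_mem]
      exact hv
    have ev_or : ∀ γ : WithZero (Multiplicative ℤ), γ ≠ 0 → Ev γ ∨ Ev (γ * exp (-1 : ℤ)) := by
      intro γ hγ
      rw [← exp_log hγ]
      rcases Int.even_or_odd' (log γ) with ⟨m, hm | hm⟩
      · left; exact ⟨m, by rw [hm]⟩
      · right; exact ⟨m, by rw [hm, ← exp_add]; congr 1; ring⟩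
    have hvd := (Valuation.ne_zero_iff ((Infg.pr P hP).valuation K)).2 hd
    have same : ∀ v : HeightOneSpectrum k[X], P ∈ v.asIdeal → v = Infg.pr P hP := by
      intro v hv
      apply HeightOneSpectrum.ext
      have h3 : Ideal.span {P} ≤ v.asIdeal := by
        rw [Ideal.span_singleton_le_iff_mem]; exact hv
      exact ((Infg.pr P hP).isMaximal.eq_of_le v.isPrime.ne_top h3).symm
    rcases ev_or _ hvd with he | he
    · obtain ⟨s, hs, y, hy, e⟩ := ih hl' d hd (by
        intro v hv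
        by_cases hPv : P ∈ v.asIdeal
        · rw [same v hPv]; exact he
        · exact h v (by
            intro Q hQ
            rcases Finset.mem_insert.1 hQ with rfl | hQ
            · exact hPv
            · exact hv Q hQ))
      exact ⟨s, hs.trans (Finset.subset_insert _ _), y, hy, e⟩
    · obtain ⟨s, hs, y, hy, e⟩ := ih hl' (d * algebraMap k[X] K P) (mul_ne_zero hd hPK) (by
        intro v hv
        by_cases hPv : P ∈ v.asIdeal
        · rw [map_mul, hvP v hPv, same v hPv]; exact he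
        · rw [map_mul, hvP' v hPv, mul_one]
          exact h v (by
            intro Q hQ
            rcases Finset.mem_insert.1 hQ with rfl | hQ
            · exact hPv
            · exact hv Q hQ))
      refine ⟨insert P s, Finset.insert_subset_insert _ hs, y / algebraMap k[X] K P,
        div_ne_zero hy hPK, ?_⟩
      rw [Finset.prod_insert (fun h => hPl (hs h)), map_mul]
      field_simp
      linear_combination e

end sq

end Pool.Agent.H467.CT
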