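import Pool.Agent.H467.CT.Crv

/-!
# Descent in characteristic two: finiteness, statement

Project CT (helper467).
-/

set_option autoImplicit false
set_option linter.all false

open Polynomial WeierstrassCurve WeierstrassCurve.Affine
open scoped Classical

namespace Pool.Agent.H467.CT

/-- If multiplication by two is bijective on the points over `k(t)` then there are only finitely
many points. -/
def S_FIN : Prop := ∀ (k K : Type) [Field k] [Finite k] [CharP k 2] [Field K] [CharP K 2]
  [Algebra k[X] K] [IsFractionRing k[X] K] (W : Affine K) (a b : K), Std W a b →
  (∀ P : W.Point, ∃ Q, Q + Q = P) → (∀ P : W.Point, P + P = 0 → P = 0) → Finite W.Point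

end Pool.Agent.H467.CT
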