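import Pool.Agent.H467.CT.Main

/-!
# Descent in characteristic two: polynomial twists

Project CT (helper467).
-/

set_option autoImplicit false
set_option linter.all false

open Polynomial IsDedekindDomain WeierstrassCurve WeierstrassCurve.Affine WithZero
open Pool.Agent.TH115.GD
open Pool.Agent.N352.PP (vv em vv_coe dense_F dense_R vv_em_lt vv_em_le vv_em_P vv_em_one vv_em)
open scoped Classical

namespace Pool.Agent.H467.CT

section two

variable {k K : Type} [Field k] [Finite k] [CharP k 2] [Field K] [CharP K 2] [Algebra k[X] K]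
  [IsFractionRing k[X] K] {a b : k[X]}

theorem AS_map {L L' : Type} [Field L] [Field L'] (f : L →+* L') {x : L} (h : AS x) :
    AS (f x) := by
  obtain ⟨z, rfl⟩ := h
  exact ⟨f z, by rw [map_add, map_pow]⟩

omit [Finite k] [CharP k 2] [CharP K 2] in
theorem amap_ne (K : Type) [Field K] [Algebra k[X] K] [IsFractionRing k[X] K] {p : k[X]}
    (hp : p ≠ 0) : algebraMap k[X] K p ≠ 0 := by
  rwa [Ne, map_eq_zero_iff _ (IsFractionRing.injective k[X] K)]

omit [Finite k] [CharP k 2] [CharP K 2] in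
theorem em_ne {v : HeightOneSpectrum k[X]} {p : k[X]} (hp : p ≠ 0) : em K v p ≠ 0 := by
  rw [Pool.Agent.N352.PP.em, RingHom.comp_apply, Ne, map_eq_zero]
  exact amap_ne K hp

/-- The class of `α` for polynomials `a`, `b`, with large reduced degree of `a`. -/
theorem hv1 (hintg : S_INTG) (hinfg : S_INFG) (hb : b ≠ 0) (hbig : Big b a) {α : K}
    (h : AllV k (algebraMap k[X] K a) (algebraMap k[X] K b) α) :
    AS α ∨ AS (α + algebraMap k[X] K a) := by
  haveI : CharP (AtInf K) 2 := charK k (K := K)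
  haveI : CharP (Infg.LL k K) 2 := charComp _
  have c2 : (2 : K) = 0 := CharTwo.two_eq_zero
  obtain ⟨g, p, hα⟩ := hintg k K α (fun v => by
    have h1 : LV (em K v a) (em K v b) (algebraMap K (v.adicCompletion K) α) := h.1 v
    exact L1 (w := vv v) (vv_em_le a) (vv_em_le b) h1)
  have h2 : LV (Infg.s k K a) (Infg.s k K b) (Infg.jj k K α) := h.2
  have hsb : Infg.s k K b ≠ 0 := by
    have := amap_ne K hb
    rw [Infg.s, RingHom.comp_apply, Ne, map_eq_zero]
    exact this
  have hjg : AS (Infg.jj k K (g ^ 2 + g)) := AS_map _ (AS_sq g)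
  rcases LS (w := Infg.w k K) (fun x hx => hens (pl (0 : k)) x hx) hsb (big_inf hb hbig) h2 with
    h3 | ⟨h3, -⟩
  · left
    have h4 : AS (Infg.s k K p) := by
      apply AS_of_add hjg
      have e : Infg.jj k K (g ^ 2 + g) + Infg.s k K p = Infg.jj k K α := by
        rw [hα, map_add (Infg.jj k K), map_add (Infg.jj k K), map_add (Infg.jj k K)]
        show _ + Infg.jj k K (algebraMap k[X] K p) = _
        ring
      rw [e]; exact h3
    obtain ⟨g', hg'⟩ := hinfg k K p h4
    rw [hα, add_assoc]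
    refine AS_add ?_ (AS_sq g)
    rw [hg', map_add, map_pow]
    exact AS_sq _
  · right
    have h4 : AS (Infg.s k K (p + a)) := by
      apply AS_of_add hjg
      have e : Infg.jj k K (g ^ 2 + g) + Infg.s k K (p + a) = Infg.jj k K α + Infg.s k K a := by
        rw [hα, map_add (Infg.jj k K), map_add (Infg.jj k K), map_add (Infg.jj k K), map_add]
        show _ + (Infg.jj k K (algebraMap k[X] K p) + _) = _
        ring
      rw [e]; exact h3
    obtain ⟨g', hg'⟩ := hinfg k K (p + a) h4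
    have e : α + algebraMap k[X] K a = algebraMap k[X] K (p + a) + (g ^ 2 + g) := by
      rw [hα, map_add]; ring
    rw [e]
    refine AS_add ?_ (AS_sq g)
    rw [hg', map_add, map_pow]
    exact AS_sq _

/-- `α` is trivial if there is a prime where `b` has odd valuation and `a` is not split. -/
theorem hv2 (hintg : S_INTG) (hinfg : S_INFG) (hb : b ≠ 0) (hbig : Big b a)
    {v : HeightOneSpectrum k[X]} {P : k[X]} (hv : v.asIdeal = Ideal.span {P})
    (hodd : ¬ Ev (vv v (em K v b))) (hns : ∀ z : k[X], ¬ P ∣ z ^ 2 + z + a) {α : K}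
    (h : AllV k (algebraMap k[X] K a) (algebraMap k[X] K b) α) : AS α := by
  rcases hv1 hintg hinfg hb hbig h with h1 | h1
  · exact h1
  · exfalso
    have h2 : LV (em K v a) (em K v b) (algebraMap K (v.adicCompletion K) α) := h.1 v
    have h3 := L2 (w := vv v) (fun x hx => hens v x hx) (vv_em_le a) (vv_em_le b) (em_ne hb) hodd h2
    have h4 := AS_map (algebraMap K (v.adicCompletion K)) h1
    rw [map_add] at h4
    obtain ⟨z, hz⟩ := AS_of_add h3 h4
    have h5 := nonsplit (K := K) hv hns z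
    have c2 : (2 : v.adicCompletion K) = 0 := CharTwo.two_eq_zero
    have e : em K v a + z ^ 2 + z = 0 := by
      have hz' : em K v a = z ^ 2 + z := hz
      rw [hz']
      linear_combination (z ^ 2 + z) * c2
    rw [e, map_zero] at h5
    exact absurd h5 (not_le.2 zero_lt_one)

omit [Finite k] [CharP k 2] in
/-- The generator of a maximal ideal of `k[t]`. -/
theorem gen_v (v : HeightOneSpectrum k[X]) : ∃ Q : k[X], Q.Monic ∧ Irreducible Q ∧
    v.asIdeal = Ideal.span {Q} := by
  obtain ⟨Q, hQ⟩ := (IsPrincipalIdealRing.principal v.asIdeal)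
  rw [Ideal.submodule_span_eq] at hQ
  have hQ0 : Q ≠ 0 := by
    rintro rfl
    apply v.ne_bot
    rw [hQ]
    simp
  have hirr : Irreducible Q := by
    have h1 := v.isPrime
    rw [hQ, Ideal.span_singleton_prime hQ0] at h1
    exact h1.irreducible
  refine ⟨Q * C (Q.leadingCoeff⁻¹), monic_mul_leadingCoeff_inv hQ0, ?_, ?_⟩
  · refine (irreducible_mul_isUnit ?_).2 hirr
    exact isUnit_C.2 (isUnit_iff_ne_zero.2 (inv_ne_zero (leadingCoeff_ne_zero.2 hQ0)))
  · rw [hQ]
    symm
    apply Ideal.span_singleton_mul_right_unit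
    exact isUnit_C.2 (isUnit_iff_ne_zero.2 (inv_ne_zero (leadingCoeff_ne_zero.2 hQ0)))

/-- Even valuation of `d` at a prime where `b` has even valuation. -/
theorem hf0 (hb : b ≠ 0) {v : HeightOneSpectrum k[X]} (hev : Ev (vv v (em K v b)))
    (hns : ∀ Q : k[X], Q.Monic → Irreducible Q → v.asIdeal = Ideal.span {Q} → Q ∣ b →
      ∀ z : k[X], ¬ Q ∣ z ^ 2 + z + a) {d : K} (hd : d ≠ 0)
    (h : AllF k (algebraMap k[X] K a) (algebraMap k[X] K b) d) :
    Ev (v.valuation K d) := by
  have h1 : LF (em K v a) (em K v b) (algebraMap K (v.adicCompletion K) d) := h.1 v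
  obtain ⟨Q, hQm, hQ, hv⟩ := gen_v v
  have := F1 (w := vv v) (vv_em_le a) (vv_em_le b) hev (em_ne hb)
    ((_root_.map_ne_zero _).2 hd) (fun hlt z => nonsplit hv
      (hns Q hQm hQ hv ((vv_em_lt (K := K) hv b).1 hlt)) z) h1
  rwa [vv_coe] at this

/-- `b` has exactly one or exactly two monic irreducible factors of odd multiplicity. -/
inductive Odd12 (b : k[X]) : Prop
  | one (P c : k[X]) (u : k) (hP : P.Monic) (hP' : Irreducible P) (hc : c ≠ 0) (hu : u ≠ 0)
      (h : b = C u * P * c ^ 2)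
  | two (P Q c : k[X]) (u : k) (hP : P.Monic) (hP' : Irreducible P) (hQ : Q.Monic)
      (hQ' : Irreducible Q) (hPQ : P ≠ Q) (hc : c ≠ 0) (hu : u ≠ 0) (h : b = C u * P * Q * c ^ 2)

/-- The set of the primes of odd multiplicity. -/
theorem odd12 (h : Odd12 b) : ∃ (P R c : k[X]), P.Monic ∧ Irreducible P ∧ c ≠ 0 ∧
    b = P * R * c ^ 2 ∧ (R = 1 ∨ (R.Monic ∧ Irreducible R ∧ P ≠ R)) := by
  rcases h with ⟨P, c, u, hP, hP', hc, hu, h⟩ | ⟨P, Q, c, u, hP, hP', hQ, hQ', hPQ, hc, hu, h⟩
  · obtain ⟨e, he⟩ := Infg.exists_sq u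
    have he0 : e ≠ 0 := by rintro rfl; exact hu (by rw [he]; ring)
    refine ⟨P, 1, C e * c, hP, hP', mul_ne_zero (C_ne_zero.2 he0) hc, ?_, Or.inl rfl⟩
    rw [h, he, C_pow]; ring
  · obtain ⟨e, he⟩ := Infg.exists_sq u
    have he0 : e ≠ 0 := by rintro rfl; exact hu (by rw [he]; ring)
    refine ⟨P, Q, C e * c, hP, hP', mul_ne_zero (C_ne_zero.2 he0) hc, ?_, Or.inr ⟨hQ, hQ', hPQ⟩⟩
    rw [h, he, C_pow]; ring

omit [Finite k] [CharP k 2] in
theorem monic_dvd {P Q : k[X]} (hP : P.Monic) (hP' : Irreducible P) (hQ : Q.Monic)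
    (hQ' : Irreducible Q) (h : P ∣ Q) : P = Q :=
  eq_of_monic_of_associated hP hQ ((hP'.dvd_irreducible_iff_associated hQ').1 h)

/-- `b` is not a square. -/
theorem b_ns {P R c : k[X]} (hP : P.Monic) (hP' : Irreducible P) (hc : c ≠ 0)
    (hb : b = P * R * c ^ 2) (hR : R = 1 ∨ (R.Monic ∧ Irreducible R ∧ P ≠ R)) :
    ¬ Ev (vv (Infg.pr P hP') (em K (Infg.pr P hP') b)) ∧ ¬ IsSquare (algebraMap k[X] K b) := by
  have hPR : ¬ P ∣ R := by
    rcases hR with rfl | ⟨h1, h2, h3⟩
    · intro h; exact hP'.not_isUnit (isUnit_of_dvd_one h)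
    · intro h; exact h3 (monic_dvd hP hP' h1 h2 h)
  have h1 : ¬ Ev (vv (Infg.pr P hP') (em K (Infg.pr P hP') b)) := by
    rw [hb]
    exact odd_em hP'.ne_zero rfl hPR hc
  refine ⟨h1, fun h2 => h1 ?_⟩
  have hR0 : R ≠ 0 := by
    rcases hR with rfl | ⟨h1, -, -⟩
    · exact one_ne_zero
    · exact h1.ne_zero
  have hb0 : b ≠ 0 := by
    rw [hb]
    exact mul_ne_zero (mul_ne_zero hP'.ne_zero hR0) (pow_ne_zero 2 hc)
  apply ev_isSq (em_ne hb0)
  obtain ⟨s, hs⟩ := h2
  refine ⟨algebraMap K _ s, ?_⟩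
  rw [← map_mul, ← hs]
  rfl

/-- The class of `d`: one prime. -/
theorem hf1 (hsqg : S_SQG) {P c : k[X]} (hP' : Irreducible P)
    (hc : c ≠ 0) (hb : b = P * 1 * c ^ 2)
    (hns : ∀ Q : k[X], Q.Monic → Irreducible Q → ¬ P ∣ Q → Q ∣ b → ∀ z : k[X], ¬ Q ∣ z ^ 2 + z + a)
    {d : K} (hd : d ≠ 0)
    (h : AllF k (algebraMap k[X] K a) (algebraMap k[X] K b) d) :
    IsSquare d ∨ IsSquare (d * algebraMap k[X] K b) := by
  have hb0 : b ≠ 0 := by
    rw [hb, mul_one]
    exact mul_ne_zero hP'.ne_zero (pow_ne_zero 2 hc)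
  obtain ⟨y, hy, e | e⟩ := hsqg k K P hP' d hd (fun v hv => by
    refine hf0 hb0 ?_ ?_ hd h
    · rw [hb, mul_one]; exact ev_em hv hc
    · intro Q hQm hQ hvQ hQb
      apply hns Q hQm hQ ?_ hQb
      intro hPQ
      apply hv
      rw [hvQ, Ideal.mem_span_singleton]
      exact (((hP'.dvd_irreducible_iff_associated hQ).1 hPQ).symm).dvd)
  · left; exact ⟨y, by rw [e, sq]⟩
  · right
    refine ⟨algebraMap k[X] K (P * c) * y, ?_⟩
    rw [e, hb]
    simp only [map_mul, map_pow, map_one]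
    ring

/-- The class of `d`: one or two primes. -/
theorem hf2 (hsqg : S_SQG) (hres : S_RES) (htrc : S_TRC) (hbig : Big b a) {P R c : k[X]}
    (hP : P.Monic) (hP' : Irreducible P)
    (hc : c ≠ 0) (hb : b = P * R * c ^ 2) (hR : R = 1 ∨ (R.Monic ∧ Irreducible R ∧ P ≠ R))
    (hns : Nsp b a) {d : K} (hd : d ≠ 0)
    (h : AllF k (algebraMap k[X] K a) (algebraMap k[X] K b) d) :
    IsSquare d ∨ IsSquare (d * algebraMap k[X] K b) := by
  rcases hR with rfl | ⟨hRm, hR, hPR⟩
  · exact hf1 hsqg hP' hc hb (fun Q _ hQ _ hQb => hns Q hQ hQb) hd h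
  have hb0 : b ≠ 0 := by
    rw [hb]
    exact mul_ne_zero (mul_ne_zero hP'.ne_zero hR.ne_zero) (pow_ne_zero 2 hc)
  obtain ⟨s, hs, y, hy, e⟩ := sq_fin (K := K) hsqg {P, R} (by
    intro Q hQ
    rcases Finset.mem_insert.1 hQ with rfl | hQ
    · exact hP'
    · rw [Finset.mem_singleton.1 hQ]; exact hR) d hd (by
    intro v hv
    refine hf0 hb0 ?_ (fun Q _ hQ _ hQb => hns Q hQ hQb) hd h
    rw [hb]
    apply ev_em _ hc
    intro h2
    rcases v.isPrime.mem_or_mem h2 with h3 | h3
    · exact hv P (by simp) h3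
    · exact hv R (by simp) h3)
  haveI : CharP (AtInf K) 2 := charK k (K := K)
  haveI : CharP (Infg.LL k K) 2 := charComp _
  have hsb : Infg.s k K b ≠ 0 := by
    have := amap_ne K hb0
    rw [Infg.s, RingHom.comp_apply, Ne, map_eq_zero]
    exact this
  have h2 : LF (Infg.s k K a) (Infg.s k K b) (Infg.jj k K d) := h.2
  have h3 := FS (w := Infg.w k K) (fun x hx => hens (pl (0 : k)) x hx) hsb
    ((_root_.map_ne_zero _).2 hd) (big_inf hb0 hbig) h2
  obtain ⟨ρ⟩ := hres k K
  have hPb : P ∣ b := ⟨R * c ^ 2, by rw [hb]; ring⟩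
  have hRb : R ∣ b := ⟨P * c ^ 2, by rw [hb]; ring⟩
  have noP : ¬ ∃ s : Infg.LL k K, AS (Infg.s k K a + Infg.s k K P * s ^ 2) := by
    intro h4
    obtain ⟨w, hw⟩ := resp ρ htrc hP hP' h4
    exact hns P hP' hPb w hw
  have noR : ¬ ∃ s : Infg.LL k K, AS (Infg.s k K a + Infg.s k K R * s ^ 2) := by
    intro h4
    obtain ⟨w, hw⟩ := resp ρ htrc hRm hR h4
    exact hns R hR hRb w hw
  have js : ∀ p : k[X], Infg.jj k K (algebraMap k[X] K p) = Infg.s k K p := fun p => rfl
  by_cases hPs : P ∈ s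
  · by_cases hRs : R ∈ s
    · right
      have e2 : s = {P, R} := by
        apply Finset.Subset.antisymm hs
        intro Q hQ
        rcases Finset.mem_insert.1 hQ with rfl | hQ
        · exact hPs
        · rw [Finset.mem_singleton.1 hQ]; exact hRs
      rw [e2, Finset.prod_pair hPR] at e
      refine ⟨algebraMap k[X] K (P * R * c) * y, ?_⟩
      rw [e, hb]
      simp only [map_mul, map_pow]
      ring
    · exfalso
      have e2 : s = {P} := by
        ext Q
        rw [Finset.mem_singleton]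
        constructor
        · intro hQ
          rcases Finset.mem_insert.1 (hs hQ) with h5 | h5
          · exact h5
          · exact absurd (Finset.mem_singleton.1 h5 ▸ hQ) hRs
        · rintro rfl; exact hPs
      rw [e2, Finset.prod_singleton] at e
      rcases h3 with ⟨r, hr⟩ | ⟨r, hr⟩
      · apply noP
        refine ⟨Infg.jj k K y * r, ?_⟩
        have e3 : Infg.s k K a + Infg.s k K P * (Infg.jj k K y * r) ^ 2 =
            Infg.s k K a + Infg.jj k K d * r ^ 2 := by
          rw [e, map_mul, map_pow, js]; ring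
        rw [e3]; exact hr
      · apply noR
        refine ⟨Infg.jj k K (algebraMap k[X] K (P * c) * y) * r, ?_⟩
        have e3 : Infg.s k K a + Infg.s k K R * (Infg.jj k K (algebraMap k[X] K (P * c) * y) * r) ^ 2
            = Infg.s k K a + Infg.jj k K d * Infg.s k K b * r ^ 2 := by
          rw [e, hb, ← js, ← js, ← js]
          simp only [map_mul, map_pow]
          ring
        rw [e3]; exact hr
  · by_cases hRs : R ∈ s
    · exfalso
      have e2 : s = {R} := by
        ext Q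
        rw [Finset.mem_singleton]
        constructor
        · intro hQ
          rcases Finset.mem_insert.1 (hs hQ) with h5 | h5
          · exact absurd (h5 ▸ hQ) hPs
          · exact Finset.mem_singleton.1 h5
        · rintro rfl; exact hRs
      rw [e2, Finset.prod_singleton] at e
      rcases h3 with ⟨r, hr⟩ | ⟨r, hr⟩
      · apply noR
        refine ⟨Infg.jj k K y * r, ?_⟩
        have e3 : Infg.s k K a + Infg.s k K R * (Infg.jj k K y * r) ^ 2 =
            Infg.s k K a + Infg.jj k K d * r ^ 2 := by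
          rw [e, map_mul, map_pow, js]; ring
        rw [e3]; exact hr
      · apply noP
        refine ⟨Infg.jj k K (algebraMap k[X] K (R * c) * y) * r, ?_⟩
        have e3 : Infg.s k K a + Infg.s k K P * (Infg.jj k K (algebraMap k[X] K (R * c) * y) * r) ^ 2
            = Infg.s k K a + Infg.jj k K d * Infg.s k K b * r ^ 2 := by
          rw [e, hb, ← js, ← js, ← js]
          simp only [map_mul, map_pow]
          ring
        rw [e3]; exact hr
    · left
      have e2 : s = ∅ := by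
        apply Finset.eq_empty_of_forall_notMem
        intro Q hQ
        rcases Finset.mem_insert.1 (hs hQ) with h5 | h5
        · exact hPs (h5 ▸ hQ)
        · exact hRs (Finset.mem_singleton.1 h5 ▸ hQ)
      rw [e2, Finset.prod_empty, map_one, one_mul] at e
      exact ⟨y, by rw [e, sq]⟩

/-- The main theorem for polynomial twists. -/
theorem two_main (hasc : S_ASC) (hintg : S_INTG) (hinfg : S_INFG) (hsqg : S_SQG) (hres : S_RES)
    (htrc : S_TRC) (hodd : Odd12 b) (hbig : Big b a) (hns : Nsp b a) :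
    (∀ P : Pt (cc (algebraMap k[X] K a) (algebraMap k[X] K b)) K, ∃ Q, Q + Q = P) ∧
    (∀ P : Pt (cc (algebraMap k[X] K a) (algebraMap k[X] K b)) K, P + P = 0 → P = 0) ∧
    ShaTwo k (cc (algebraMap k[X] K a) (algebraMap k[X] K b)) := by
  obtain ⟨P, R, c, hP, hP', hc, hb, hR⟩ := odd12 hodd
  obtain ⟨ho, hnsq⟩ := b_ns (K := K) hP hP' hc hb hR
  have hb0 : b ≠ 0 := by
    intro h
    apply hnsq
    rw [h, map_zero]
    exact ⟨0, by ring⟩
  have hPb : P ∣ b := ⟨R * c ^ 2, by rw [hb]; ring⟩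
  have hM : ∀ (c' : (Sep K ≃ₐ[K] Sep K) → Pt (cc (algebraMap k[X] K a) (algebraMap k[X] K b)) (Sep K))
      (R' : Pt (cc (algebraMap k[X] K a) (algebraMap k[X] K b)) (Sep K)), IsCoc _ c' →
      LTk k _ c' → (∀ σ, c' σ + c' σ = act _ (rs K σ) R' - R') →
      ∃ S0 : Pt (cc (algebraMap k[X] K a) (algebraMap k[X] K b)) (Sep K), S0 + S0 = R' ∧
        ∀ σ, c' σ = act _ (rs K σ) S0 - S0 := by
    intro c' R' h1 h2 h3
    exact thmM (k := k) hasc hnsq (bas_X (k := k) K) (fun α hα => hv2 hintg hinfg hb0 hbig rfl ho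
      (hns P hP' hPb) hα) (fun d hd h => hf2 hsqg hres htrc hbig hP hP' hc hb hR hns hd h) h1 h2 h3
  exact ⟨half_of hM, two_K hnsq, sha_of hM⟩

/-- The rank is at most one if `b` has one prime of odd multiplicity. -/
theorem rank_one (hasc : S_ASC) (hintg : S_INTG) (hinfg : S_INFG) (hsqg : S_SQG)
    {P c : k[X]} {u : k} (hP : P.Monic) (hP' : Irreducible P) (hc : c ≠ 0) (hu : u ≠ 0)
    (hb : b = C u * P * c ^ 2) (hbig : Big b a)
    (hns : ∀ Q : k[X], Irreducible Q → ¬ P ∣ Q → Q ∣ b → ∀ z : k[X], ¬ Q ∣ z ^ 2 + z + a)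
    (R₁ R₂ : Pt (cc (algebraMap k[X] K a) (algebraMap k[X] K b)) K) :
    (∃ Q, Q + Q = R₁) ∨ (∃ Q, Q + Q = R₂) ∨ (∃ Q, Q + Q = R₁ + R₂) := by
  obtain ⟨e, he⟩ := Infg.exists_sq u
  have he0 : e ≠ 0 := by rintro rfl; exact hu (by rw [he]; ring)
  have hb' : b = P * 1 * (C e * c) ^ 2 := by rw [hb, he, C_pow]; ring
  have hc' : C e * c ≠ 0 := mul_ne_zero (C_ne_zero.2 he0) hc
  obtain ⟨ho, hnsq⟩ := b_ns (K := K) hP hP' hc' hb' (Or.inl rfl)
  have hb0 : b ≠ 0 := by
    intro h
    apply hnsq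
    rw [h, map_zero]
    exact ⟨0, by ring⟩
  have hB0 : algebraMap k[X] K b ≠ 0 := amap_ne K hb0
  have hTT : TT (algebraMap k[X] K a) (algebraMap k[X] K b) (Sep K) +
      TT (algebraMap k[X] K a) (algebraMap k[X] K b) (Sep K) = 0 := tt_two (std_bc2 hB0)
  have hcoc : IsCoc (cc (algebraMap k[X] K a) (algebraMap k[X] K b)) (fun _ : Sep K ≃ₐ[K] Sep K => (0 : Pt (cc (algebraMap k[X] K a) (algebraMap k[X] K b)) (Sep K))) :=
    ⟨IsLocallyConstant.const _, fun σ τ => by rw [map_zero, add_zero]⟩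
  have hlt : LTk k (cc (algebraMap k[X] K a) (algebraMap k[X] K b)) (fun _ : Sep K ≃ₐ[K] Sep K => (0 : Pt (cc (algebraMap k[X] K a) (algebraMap k[X] K b)) (Sep K))) := locallyTrivial_zero (cc (algebraMap k[X] K a) (algebraMap k[X] K b))
  -- the final step
  have fin : ∀ (R : Pt (cc (algebraMap k[X] K a) (algebraMap k[X] K b)) K) (S) (ζ : Sep K) (α : K), Dat _ _ (fun _ => 0)
      (act (cc (algebraMap k[X] K a) (algebraMap k[X] K b)) (incl K K (Sep K)) R) S ζ α → AS α → ∃ Q, Q + Q = R := by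
    intro R S ζ α h hα
    obtain ⟨S0, h1, h2⟩ := partF (k := k) hB0 (bas_X (k := k) K) (fun d hd h => hf1 hsqg hP' hc' hb'
      (fun Q _ hQ => hns Q hQ) hd h) h.dbl (h.kill hα) hlt
    obtain ⟨Q, hQ⟩ := fixed_point (K := K) (F := K) (cc (algebraMap k[X] K a) (algebraMap k[X] K b)) S0 (fun τ => (sub_eq_zero.1 (h2 τ).symm))
    refine ⟨Q, act_inj (cc (algebraMap k[X] K a) (algebraMap k[X] K b)) (incl K K (Sep K)) ?_⟩
    rw [map_add, hQ, h1]
  have dat : ∀ R : Pt (cc (algebraMap k[X] K a) (algebraMap k[X] K b)) K, ∃ S ζ α, Dat (algebraMap k[X] K a) (algebraMap k[X] K b) (fun _ => 0)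
      (act (cc (algebraMap k[X] K a) (algebraMap k[X] K b)) (incl K K (Sep K)) R) S ζ α := fun R =>
    exists_dat hasc hnsq hcoc (fun σ => by rw [rs_act_incl, sub_self, add_zero])
  obtain ⟨S₁, ζ₁, α₁, h₁⟩ := dat R₁
  obtain ⟨S₂, ζ₂, α₂, h₂⟩ := dat R₂
  rcases hv1 hintg hinfg hb0 hbig (h₁.allV hB0 hlt) with e₁ | e₁
  · left; exact fin R₁ S₁ ζ₁ α₁ h₁ e₁
  · rcases hv1 hintg hinfg hb0 hbig (h₂.allV hB0 hlt) with e₂ | e₂
    · right; left; exact fin R₂ S₂ ζ₂ α₂ h₂ e₂
    · right; right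
      apply fin (R₁ + R₂) (S₁ + S₂) (ζ₁ + ζ₂) (α₁ + α₂)
      · have c2 : (2 : Sep K) = 0 := CharTwo.two_eq_zero
        refine ⟨?_, ?_, fun σ => ?_⟩
        · rw [map_add, Fr_add hB0, ← h₁.dbl, ← h₂.dbl]; abel
        · rw [map_add, ← h₁.as, ← h₂.as]
          linear_combination (ζ₁ * ζ₂) * c2
        · have f0 : Fr (algebraMap k[X] K a) (algebraMap k[X] K b) (Sep K) 0 = 0 := rfl
          rcases h₁.alt σ with ⟨g1, g2⟩ | ⟨g1, g2⟩ <;> rcases h₂.alt σ with ⟨g3, g4⟩ | ⟨g3, g4⟩
          · left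
            refine ⟨?_, by rw [map_add, g2, g4]⟩
            rw [f0] at g1 g3 ⊢
            rw [map_add, add_sub_add_comm, ← g1, ← g3, add_zero]
          · right
            refine ⟨?_, by rw [map_add, g2, g4]; ring⟩
            rw [f0] at g1 g3 ⊢
            rw [map_add, add_sub_add_comm, ← g1, zero_add, ← g3]
          · right
            refine ⟨?_, by rw [map_add, g2, g4]; ring⟩
            rw [f0] at g1 g3 ⊢
            rw [map_add, add_sub_add_comm, ← g3, add_zero, ← g1]
          · left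
            refine ⟨?_, by rw [map_add, g2, g4]; linear_combination c2⟩
            rw [f0] at g1 g3 ⊢
            rw [map_add, add_sub_add_comm]
            have g5 : act _ (rs K σ) S₁ - S₁ = TT (algebraMap k[X] K a) (algebraMap k[X] K b) (Sep K) := by
              rw [← neg_eq_of_add_eq_zero_left hTT]
              exact (eq_neg_of_add_eq_zero_left g1.symm)
            have g6 : act _ (rs K σ) S₂ - S₂ = TT (algebraMap k[X] K a) (algebraMap k[X] K b) (Sep K) := by
              rw [← neg_eq_of_add_eq_zero_left hTT]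
              exact (eq_neg_of_add_eq_zero_left g3.symm)
            rw [g5, g6, hTT]
      · have c2 : (2 : K) = 0 := CharTwo.two_eq_zero
        have e : α₁ + α₂ = (α₁ + algebraMap k[X] K a) + (α₂ + algebraMap k[X] K a) := by
          linear_combination -(algebraMap k[X] K a) * c2
        rw [e]
        exact AS_add e₁ e₂

end two

end Pool.Agent.H467.CT
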