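import Pool.Agent.H467.CT.Loc

/-!
# Descent in characteristic two: the local conditions in a field with a valuation

Project CT (helper467).
-/

set_option autoImplicit false
set_option linter.all false

open WithZero
open scoped Classical

namespace Pool.Agent.H467.CT

section as

variable {L : Type} [Field L] [CharP L 2]

theorem AS_add {x y : L} (hx : AS x) (hy : AS y) : AS (x + y) := by
  obtain ⟨z, rfl⟩ := hx
  obtain ⟨w, rfl⟩ := hy
  have c2 : (2 : L) = 0 := CharTwo.two_eq_zero
  exact ⟨z + w, by linear_combination (-(z * w)) * c2⟩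

theorem AS_zero : AS (0 : L) := ⟨0, by ring⟩

theorem AS_of_add {x y : L} (hx : AS x) (hxy : AS (x + y)) : AS y := by
  have c2 : (2 : L) = 0 := CharTwo.two_eq_zero
  have := AS_add hx hxy
  have e : x + (x + y) = y := by linear_combination x * c2
  rwa [e] at this

theorem AS_sq (x : L) : AS (x ^ 2 + x) := ⟨x, rfl⟩

end as

section val

variable {L : Type} [Field L] [CharP L 2] {w : Valuation L (WithZero (Multiplicative ℤ))}

/-- Even valuation. -/
def Ev (γ : WithZero (Multiplicative ℤ)) : Prop := ∃ n : ℤ, γ = exp (2 * n)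

omit [CharP L 2] in
theorem ev_sq {x : L} (hx : x ≠ 0) : Ev (w (x ^ 2)) := by
  refine ⟨log (w x), ?_⟩
  rw [map_pow, two_mul, exp_add, exp_log ((Valuation.ne_zero_iff w).2 hx), sq]

omit [CharP L 2] in
theorem ev_isSq {x : L} (hx : x ≠ 0) (h : IsSquare x) : Ev (w x) := by
  obtain ⟨s, hs⟩ := h
  have hs0 : s ≠ 0 := by rintro rfl; exact hx (by rw [hs]; ring)
  rw [hs, ← sq]
  exact ev_sq hs0

theorem Ev.mul {γ δ : WithZero (Multiplicative ℤ)} (h : Ev γ) (h' : Ev δ) : Ev (γ * δ) := by
  obtain ⟨n, rfl⟩ := h
  obtain ⟨m, rfl⟩ := h'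
  exact ⟨n + m, by rw [← exp_add]; congr 1; ring⟩

theorem Ev.inv {γ : WithZero (Multiplicative ℤ)} (h : Ev γ) : Ev γ⁻¹ := by
  obtain ⟨n, rfl⟩ := h
  exact ⟨-n, by rw [← exp_neg]; congr 1; ring⟩

theorem Ev.of_mul {γ δ : WithZero (Multiplicative ℤ)} (h : Ev γ) (h' : Ev (γ * δ)) : Ev δ := by
  have := h.inv.mul h'
  obtain ⟨n, hn⟩ := h
  have h0 : γ ≠ 0 := by rw [hn]; exact exp_ne_zero
  rwa [inv_mul_cancel_left₀ h0] at this

theorem ev_one : Ev 1 := ⟨0, by simp⟩

omit [CharP L 2] in
/-- The valuation of `z ^ 2 + z` if it is larger than one. -/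
theorem val_as {z : L} (h : 1 < w (z ^ 2 + z)) : w (z ^ 2 + z) = w (z ^ 2) ∧ z ≠ 0 := by
  have hz : 1 < w z := by
    by_contra hn
    rw [not_lt] at hn
    apply absurd h
    rw [not_lt]
    refine (Valuation.map_add w _ _).trans (max_le ?_ hn)
    rw [map_pow]
    exact pow_le_one' hn 2
  refine ⟨?_, ?_⟩
  · apply Valuation.map_add_eq_of_lt_left
    rw [map_pow, sq]
    have h0 : 0 < w z := lt_trans zero_lt_one hz
    calc w z = 1 * w z := (one_mul _).symm
      _ < w z * w z := mul_lt_mul_of_pos_right hz h0
  · rintro rfl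
    rw [map_zero] at hz
    exact absurd hz (not_lt.2 zero_le')

omit [CharP L 2] in
theorem ev_as {z : L} (h : 1 < w (z ^ 2 + z)) : Ev (w (z ^ 2 + z)) := by
  obtain ⟨h1, h2⟩ := val_as h
  rw [h1]
  exact ev_sq h2

/-- The condition on `α` at a place where `a` and `b` are integral. -/
theorem L1 {a b α : L} (ha : w a ≤ 1) (hb : w b ≤ 1) (h : LV a b α) :
    ∃ z, w (α + z ^ 2 + z) ≤ 1 := by
  have c2 : (2 : L) = 0 := CharTwo.two_eq_zero
  rcases h with ⟨z, hz⟩ | ⟨x, ⟨z, hz⟩, h1, -⟩
  · refine ⟨z, ?_⟩
    have : α + z ^ 2 + z = 0 := by rw [hz]; linear_combination (z ^ 2 + z) * c2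
    rw [this, map_zero]
    exact zero_le'
  · by_cases hx : w x ≤ 1
    · refine ⟨z, ?_⟩
      have : α + z ^ 2 + z = x + a := by linear_combination α * c2 - hz
      rw [this]
      exact (Valuation.map_add w _ _).trans (max_le hx ha)
    · rw [not_le] at hx
      have hx0 : x ≠ 0 := by
        rintro rfl
        rw [map_zero] at hx
        exact absurd hx (not_lt.2 zero_le')
      obtain ⟨u, hu⟩ := h1 hx0
      refine ⟨z + u, ?_⟩
      have : α + (z + u) ^ 2 + (z + u) = b / x ^ 2 := by
        linear_combination (α + x + a + b / x ^ 2 + z * u + x + a) * c2 - hz - hu -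
          (x + a + b / x ^ 2) * c2
      rw [this, map_div₀, map_pow]
      refine div_le_one_of_le₀ (hb.trans ?_) zero_le'
      exact one_le_pow₀ hx.le

variable (hens : ∀ x : L, w x < 1 → AS x)

include hens

/-- The condition on `α` at a place where `b` has odd valuation. -/
theorem L2 {a b α : L} (ha : w a ≤ 1) (hb : w b ≤ 1) (hb0 : b ≠ 0) (hodd : ¬ Ev (w b))
    (h : LV a b α) : AS α := by
  have c2 : (2 : L) = 0 := CharTwo.two_eq_zero
  rcases h with h | ⟨x, h1, h2, h3⟩
  · exact h
  · have hx0 : x ≠ 0 := by
      intro hx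
      exact hodd (ev_isSq hb0 (h3 hx))
    have h2 := h2 hx0
    have hno : ¬ Ev (w (b / x ^ 2)) := by
      intro he
      apply hodd
      have := he.mul (ev_sq (w := w) hx0)
      rwa [← map_mul, div_mul_cancel₀ _ (pow_ne_zero 2 hx0)] at this
    have hlt : w (b / x ^ 2) < 1 := by
      by_contra hn
      rw [not_lt] at hn
      have hgt : 1 < w (b / x ^ 2) := by
        refine lt_of_le_of_ne hn ?_
        intro e
        apply hno
        rw [← e]
        exact ev_one
      have hxlt : w x < 1 := by
        rw [map_div₀, map_pow, one_lt_div₀ (pow_pos (zero_lt_iff.2 ((Valuation.ne_zero_iff w).2 hx0)) 2)]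
          at hgt
        have h4 : w x ^ 2 < 1 := lt_of_lt_of_le hgt hb
        by_contra h5
        rw [not_lt] at h5
        exact absurd h4 (not_lt.2 (one_le_pow₀ h5))
      obtain ⟨u, hu⟩ := h2
      have h6 : w (x + a + b / x ^ 2) = w (b / x ^ 2) := by
        apply Valuation.map_add_eq_of_lt_right
        exact lt_of_le_of_lt ((Valuation.map_add w _ _).trans (max_le hxlt.le ha)) hgt
      apply hno
      rw [← h6, hu]
      apply ev_as
      rw [← hu, h6]
      exact hgt
    have h7 := hens _ hlt
    have h8 := AS_of_add h2 (y := b / x ^ 2 + x + a) (by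
      have : x + a + b / x ^ 2 + (b / x ^ 2 + x + a) = 0 := by
        linear_combination (x + a + b / x ^ 2) * c2
      rw [this]; exact AS_zero)
    have h9 : AS (x + a) := by
      apply AS_of_add h7
      have : b / x ^ 2 + (x + a) = x + a + b / x ^ 2 := by ring
      rw [this]; exact h2
    apply AS_of_add h9
    have : x + a + α = α + x + a := by ring
    rw [this]; exact h1

/-- The condition on `α` at a place where `a` has a large pole. -/
theorem LS {a b α : L} (hb0 : b ≠ 0) (hbig : ∀ z : L, max 1 (w b) < w (a + z ^ 2 + z))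
    (h : LV a b α) : AS α ∨ (AS (α + a) ∧ ∃ s, AS (a + b * s ^ 2)) := by
  have c2 : (2 : L) = 0 := CharTwo.two_eq_zero
  rcases h with h | ⟨x, h1, h2, h3⟩
  · left; exact h
  · by_cases hx0 : x = 0
    · right
      subst hx0
      refine ⟨by simpa using h1, ?_⟩
      obtain ⟨r, hr⟩ := h3 rfl
      have hr0 : r ≠ 0 := by rintro rfl; exact hb0 (by rw [hr]; ring)
      refine ⟨a / r, ?_⟩
      have : a + b * (a / r) ^ 2 = a ^ 2 + a := by
        rw [hr]; field_simp; ring
      rw [this]
      exact AS_sq a
    · have h2 := h2 hx0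
      by_cases hx : w x < 1
      · right
        have h4 := hens _ hx
        refine ⟨?_, 1 / x, ?_⟩
        · apply AS_of_add h4
          have : x + (α + a) = α + x + a := by ring
          rw [this]; exact h1
        · apply AS_of_add h4
          have : x + (a + b * (1 / x) ^ 2) = x + a + b / x ^ 2 := by ring
          rw [this]; exact h2
      · by_cases hbx : w (b / x ^ 2) < 1
        · left
          have h4 := hens _ hbx
          have h9 : AS (x + a) := by
            apply AS_of_add h4
            have : b / x ^ 2 + (x + a) = x + a + b / x ^ 2 := by ring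
            rw [this]; exact h2
          apply AS_of_add h9
          have : x + a + α = α + x + a := by ring
          rw [this]; exact h1
        · exfalso
          rw [not_lt] at hx hbx
          obtain ⟨u, hu⟩ := h2
          have hw : w (a + u ^ 2 + u) ≤ w b := by
            have e : a + u ^ 2 + u = x + b / x ^ 2 := by
              linear_combination a * c2 - hu
            rw [e]
            have hp : 0 < w x ^ 2 := pow_pos (zero_lt_iff.2 ((Valuation.ne_zero_iff w).2 hx0)) 2
            rw [map_div₀, map_pow, one_le_div₀ hp] at hbx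
            refine (Valuation.map_add w _ _).trans (max_le ?_ ?_)
            · refine le_trans ?_ hbx
              rw [sq]
              calc w x = 1 * w x := (one_mul _).symm
                _ ≤ w x * w x := mul_le_mul_left hx (w x)
            · rw [map_div₀, map_pow]
              exact div_le_of_le_mul₀ zero_le' zero_le' (by
                calc w b = w b * 1 := (mul_one _).symm
                  _ ≤ w b * w x ^ 2 := mul_le_mul_right (one_le_pow₀ hx) (w b))
          exact absurd (lt_of_le_of_lt (le_max_right 1 (w b)) (hbig u)) (not_lt.2 hw)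

/-- The condition on `d` at a place where `a` has a large pole. -/
theorem FS {a b d : L} (hb0 : b ≠ 0) (hd0 : d ≠ 0)
    (hbig : ∀ z : L, max 1 (w b) < w (a + z ^ 2 + z)) (h : LF a b d) :
    (∃ s, AS (a + d * s ^ 2)) ∨ (∃ s, AS (a + d * b * s ^ 2)) := by
  have c2 : (2 : L) = 0 := CharTwo.two_eq_zero
  have hsq : ∀ e : L, e ≠ 0 → IsSquare e → ∃ s, AS (a + e * s ^ 2) := by
    rintro e he0 ⟨r, hr⟩
    have hr0 : r ≠ 0 := by rintro rfl; exact he0 (by rw [hr]; ring)
    refine ⟨a / r, ?_⟩
    have : a + e * (a / r) ^ 2 = a ^ 2 + a := by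
      rw [hr]; field_simp; ring
    rw [this]
    exact AS_sq a
  rcases h with h | h | ⟨X, hX0, ⟨r, hr⟩, h⟩
  · left; exact hsq d hd0 h
  · right; exact hsq _ (mul_ne_zero hd0 hb0) h
  · have hr0 : r ≠ 0 := by
      rintro rfl
      exact (mul_ne_zero hX0 hd0) (by rw [hr]; ring)
    have hX : X = d * (r / d) ^ 2 := by
      field_simp
      linear_combination hr
    have hbX : b / X = d * b * (1 / r) ^ 2 := by
      field_simp
      linear_combination -hr
    by_cases hx : w X < 1
    · right
      refine ⟨1 / r, ?_⟩
      rw [← hbX]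
      apply AS_of_add (hens _ hx)
      have : X + (a + b / X) = X + b / X + a := by ring
      rw [this]; exact h
    · by_cases hbx : w (b / X) < 1
      · left
        refine ⟨r / d, ?_⟩
        rw [← hX]
        apply AS_of_add (hens _ hbx)
        have : b / X + (a + X) = X + b / X + a := by ring
        rw [this]; exact h
      · exfalso
        rw [not_lt] at hx hbx
        obtain ⟨u, hu⟩ := h
        have hw : w (a + u ^ 2 + u) ≤ w b := by
          have e : a + u ^ 2 + u = X + b / X := by
            linear_combination a * c2 - hu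
          rw [e]
          have hp : 0 < w X := zero_lt_iff.2 ((Valuation.ne_zero_iff w).2 hX0)
          rw [map_div₀, one_le_div₀ hp] at hbx
          refine (Valuation.map_add w _ _).trans (max_le hbx ?_)
          rw [map_div₀]
          exact div_le_of_le_mul₀ zero_le' zero_le' (by
            calc w b = w b * 1 := (mul_one _).symm
              _ ≤ w b * w X := mul_le_mul_right hx (w b))
        exact absurd (lt_of_le_of_lt (le_max_right 1 (w b)) (hbig u)) (not_lt.2 hw)

omit hens

/-- The condition on `d` at a place where `b` has even valuation. -/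
theorem F1 {a b d : L} (ha : w a ≤ 1) (hb : w b ≤ 1) (hev : Ev (w b)) (hb0 : b ≠ 0) (hd0 : d ≠ 0)
    (hns : w b < 1 → ∀ z : L, 1 ≤ w (a + z ^ 2 + z)) (h : LF a b d) : Ev (w d) := by
  have c2 : (2 : L) = 0 := CharTwo.two_eq_zero
  rcases h with h | h | ⟨X, hX0, hXd, ⟨z, hz⟩⟩
  · exact ev_isSq hd0 h
  · have := ev_isSq (w := w) (mul_ne_zero hd0 hb0) h
    rw [mul_comm, map_mul] at this
    exact Ev.of_mul hev this
  · have hXd' := ev_isSq (w := w) (mul_ne_zero hX0 hd0) hXd
    rw [map_mul] at hXd'
    refine Ev.of_mul ?_ hXd'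
    have hp : 0 < w X := zero_lt_iff.2 ((Valuation.ne_zero_iff w).2 hX0)
    rcases lt_trichotomy (w X) 1 with hX | hX | hX
    · rcases lt_trichotomy (w (b / X)) 1 with hY | hY | hY
      · exfalso
        have hb1 : w b < 1 := by
          have : w b = w (b / X) * w X := by
            rw [← map_mul, div_mul_cancel₀ _ hX0]
          rw [this]
          exact mul_lt_one_of_lt_of_le hY hX.le
        have h1 := hns hb1 z
        have e : a + z ^ 2 + z = X + b / X := by
          linear_combination a * c2 - hz
        rw [e] at h1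
        exact absurd (lt_of_le_of_lt (Valuation.map_add w _ _) (max_lt hX hY)) (not_lt.2 h1)
      · rw [map_div₀, div_eq_one_iff_eq hp.ne'] at hY
        rw [← hY]; exact hev
      · have h6 : w (X + b / X + a) = w (b / X) := by
          have e : X + b / X + a = (X + a) + b / X := by ring
          rw [e]
          apply Valuation.map_add_eq_of_lt_right
          exact lt_of_le_of_lt ((Valuation.map_add w _ _).trans (max_le hX.le ha)) hY
        have h7 : Ev (w (b / X)) := by
          rw [← h6, hz]
          apply ev_as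
          rw [← hz, h6]
          exact hY
        have h8 := h7.inv.mul hev
        rwa [map_div₀, inv_div, div_mul_cancel₀ _ ((Valuation.ne_zero_iff w).2 hb0)] at h8
    · rw [hX]; exact ev_one
    · have hY : w (b / X) < w X := by
        rw [map_div₀]
        refine lt_of_le_of_lt ?_ hX
        exact div_le_one_of_le₀ (hb.trans hX.le) zero_le'
      have h6 : w (X + b / X + a) = w X := by
        have e : X + b / X + a = (b / X + a) + X := by ring
        rw [e]
        apply Valuation.map_add_eq_of_lt_right
        exact lt_of_le_of_lt (Valuation.map_add w _ _) (max_lt hY (lt_of_le_of_lt ha hX))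
      rw [← h6, hz]
      apply ev_as
      rw [← hz, h6]
      exact hX

end val

end Pool.Agent.H467.CT
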